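import Mathlib
import Pool.Agent.Lib.MP_d328cc_gt.Cube

/-! Lattice paths, crossings, the Hex theorem and limits of chains. -/

namespace Pool.Agent.Lib.MP_a0a493_pr

open Set Metric Filter Topology

abbrev Zd (d : ℕ) : Type := Fin d → ℤ

variable {d : ℕ}

def Near (r : ℤ) (x y : Zd d) : Prop := ∀ i, |x i - y i| ≤ r

def Far (r : ℤ) (x y : Zd d) : Prop := ∃ i, r ≤ |x i - y i|

def Conn (S : Set (Zd d)) (p q : Zd d) : Prop :=
  p ∈ S ∧ Relation.ReflTransGen (fun x y => y ∈ S ∧ Near 1 x y) p q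

theorem Near.symm {r : ℤ} {x y : Zd d} (h : Near r x y) : Near r y x :=
  fun i => by rw [abs_sub_comm]; exact h i

theorem Far.symm {r : ℤ} {x y : Zd d} (h : Far r x y) : Far r y x :=
  h.imp fun i hi => by rw [abs_sub_comm]; exact hi

theorem Conn.refl {S : Set (Zd d)} {p : Zd d} (h : p ∈ S) : Conn S p p := ⟨h, .refl⟩

theorem Conn.tail {S : Set (Zd d)} {p x y : Zd d} (h : Conn S p x) (hy : y ∈ S) (hn : Near 1 x y) :
    Conn S p y := ⟨h.1, h.2.tail ⟨hy, hn⟩⟩

theorem Conn.induct {S : Set (Zd d)} {p : Zd d} {Q : Zd d → Prop} (h0 : Q p)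
    (h1 : ∀ x y, Conn S p x → Q x → y ∈ S → Near 1 x y → Q y) {q : Zd d} (h : Conn S p q) :
    Q q := by
  obtain ⟨hp, h⟩ := h
  induction h with
  | refl => exact h0
  | tail a b ih => exact h1 _ _ ⟨hp, a⟩ ih b.1 b.2

theorem Conn.mem {S : Set (Zd d)} {p q : Zd d} (h : Conn S p q) : q ∈ S :=
  h.induct (Q := fun x => x ∈ S) h.1 fun _ _ _ _ hy _ => hy

theorem Conn.trans {S : Set (Zd d)} {p q r : Zd d} (h : Conn S p q) (h' : Conn S q r) :
    Conn S p r := ⟨h.1, h.2.trans h'.2⟩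

theorem Conn.symm {S : Set (Zd d)} {p q : Zd d} (h : Conn S p q) : Conn S q p :=
  h.induct (Q := fun x => Conn S x p) (.refl h.1) fun _ _ hx ih hy hn =>
    ((Conn.refl hy).tail hx.mem hn.symm).trans ih

theorem Conn.cluster {S T : Set (Zd d)} {p q : Zd d} (h : Conn S p q)
    (hT : ∀ x, Conn S p x → x ∈ T) : Conn T p q :=
  h.induct (Q := fun x => Conn T p x) (.refl (hT _ (.refl h.1))) fun _ _ hx ih hy hn =>
    ih.tail (hT _ (hx.tail hy hn)) hn

theorem Conn.mono {S T : Set (Zd d)} {p q : Zd d} (h : Conn S p q) (hT : S ⊆ T) : Conn T p q :=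
  h.cluster fun _ hx => hT hx.mem

theorem Conn.shift {S : Set (Zd d)} {p q : Zd d} (h : Conn S p q) (z : Zd d) :
    Conn {x | z + x ∈ S} (p - z) (q - z) :=
  h.induct (Q := fun x => Conn {x | z + x ∈ S} (p - z) (x - z))
    (.refl (by simpa using h.1)) fun _ _ _ ih hy hn =>
      ih.tail (by simpa using hy) fun i => by simpa using hn i

theorem Conn.sub {S : Set (Zd d)} {p q : Zd d} {r : ℤ} (hr : 1 ≤ r) (h : Conn S p q)
    (hf : Far r p q) : ∃ q', Far r p q' ∧ Conn (S ∩ {x | Near r p x}) p q' := by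
  have key := h.induct (Q := fun x => (∃ q', Far r p q' ∧ Conn (S ∩ {x | Near r p x}) p q') ∨
      (Conn (S ∩ {x | Near r p x}) p x ∧ ¬ Far r p x))
    (Or.inr ⟨.refl ⟨h.1, fun i => by simp; omega⟩, fun ⟨i, hi⟩ => by simp at hi; omega⟩) ?_
  · exact key.elim id fun h => absurd hf h.2
  · rintro x y - (ih | ⟨ih, hx⟩) hy hn
    · exact Or.inl ih
    · have h1 : Conn (S ∩ {x | Near r p x}) p y := ih.tail ⟨hy, fun i => by
        have a := hn i
        have b : ¬ r ≤ |p i - x i| := fun h => hx ⟨i, h⟩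
        rw [abs_le] at a ⊢
        rw [not_le, abs_lt] at b
        omega⟩ hn
      by_cases h2 : Far r p y
      · exact Or.inl ⟨y, h2, h1⟩
      · exact Or.inr ⟨h1, h2⟩

/-- the lattice box of radius `2 R` -/
noncomputable def box (d : ℕ) (R : ℕ) : Finset (Zd d) :=
  Fintype.piFinset fun _ => Finset.Icc (-(2 * R : ℤ)) (2 * R)

theorem mem_box {R : ℕ} {x : Zd d} : x ∈ box d R ↔ ∀ i, |x i| ≤ 2 * R := by
  simp [box, abs_le]

theorem card_box (R : ℕ) : (box d R).card = (4 * R + 1) ^ d := by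
  have : (2 * (R : ℤ) + 1 + 2 * R).toNat = 4 * R + 1 := by omega
  simp [box, this]

/-- crossing at level `s` -/
def Cr (R : ℕ) (s : ℝ) (Y : Zd d → ℝ) : Prop :=
  ∃ p q, Far R p q ∧ Conn {x | x ∈ box d R ∧ s ≤ Y x} p q

theorem Cr.mono {R : ℕ} {s s' : ℝ} {Y Y' : Zd d → ℝ} (h : Cr R s Y)
    (hy : ∀ x ∈ box d R, s ≤ Y x → s' ≤ Y' x) : Cr R s' Y' := by
  obtain ⟨p, q, hf, hc⟩ := h
  exact ⟨p, q, hf, hc.mono fun x hx => ⟨hx.1, hy x hx.1 hx.2⟩⟩

theorem Cr.exists {R : ℕ} {s : ℝ} {Y : Zd d → ℝ} (h : Cr R s Y) : ∃ x ∈ box d R, s ≤ Y x := by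
  obtain ⟨p, q, -, hc⟩ := h
  exact ⟨p, hc.1⟩

/-- index of the coarse cell -/
def cen (R : ℕ) (p : Zd d) : Zd d := fun i => p i / R

theorem cen_near {R : ℕ} (hR : 0 < R) (p : Zd d) (i : Fin d) :
    R * cen R p i ≤ p i ∧ p i < R * cen R p i + R := by
  have h : (0 : ℤ) < R := by exact_mod_cast hR
  have a := Int.mul_ediv_add_emod (p i) R
  have b := Int.emod_nonneg (p i) h.ne'
  have c := Int.emod_lt_of_pos (p i) h
  unfold cen
  constructor <;> omega

theorem cen_mem {R L : ℕ} (hR : 0 < R) {p : Zd d} (hp : p ∈ box d (R * L)) : cen R p ∈ box d L := by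
  have h : (0 : ℤ) < R := by exact_mod_cast hR
  rw [mem_box] at hp ⊢
  intro i
  have a := abs_le.1 (hp i)
  push_cast at a
  rw [abs_le]
  constructor
  · exact (Int.le_ediv_iff_mul_le h).2 (by linarith [a.1])
  · exact Int.ediv_le_of_le_mul h (by linarith [a.2])

theorem sub_mem_box {R : ℕ} (hR : 0 < R) {p x : Zd d} (h : Near R p x) :
    x - (R : ℤ) • cen R p ∈ box d R := by
  rw [mem_box]
  intro i
  have a := cen_near hR p i
  have b := abs_le.1 (h i)
  simp only [Pi.sub_apply, Pi.smul_apply, smul_eq_mul]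
  rw [abs_le]
  constructor <;> omega

theorem Conn.cr {S : Set (Zd d)} {p q : Zd d} {R : ℕ} (hR : 0 < R) (h : Conn S p q)
    (hf : Far R p q) {s : ℝ} {Y : Zd d → ℝ} (hS : ∀ x ∈ S, s ≤ Y x) :
    Cr R s fun x => Y ((R : ℤ) • cen R p + x) := by
  obtain ⟨q', h1, h2⟩ := h.sub (by exact_mod_cast hR) hf
  refine ⟨_, _, ?_, (h2.shift ((R : ℤ) • cen R p)).mono fun x hx => ⟨?_, hS _ hx.1⟩⟩
  · exact h1.imp fun i hi => by simpa using hi
  · simpa using sub_mem_box hR hx.2

theorem meas_conn {X : Type*} [MeasurableSpace X] (Γ : Finset (Zd d)) (Q : Set (Zd d) → Prop)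
    {p : Zd d → X → Prop} (hp : ∀ x ∈ Γ, MeasurableSet {y | p x y}) :
    MeasurableSet {y | Q {x | x ∈ Γ ∧ p x y}} := by
  have hg : Measurable fun (y : X) (x : Γ) => p x y :=
    measurable_pi_iff.2 fun x => measurableSet_setOfPred.1 (hp x x.2)
  have := hg (Set.toFinite {t : Γ → Prop | Q {x | ∃ h : x ∈ Γ, t ⟨x, h⟩}}).measurableSet
  simpa [Set.preimage] using this

theorem hex {R : ℕ} (col : Zd d → Fin d) :
    ∃ (i : Fin d) (p q : Zd d), p i = 0 ∧ q i = R ∧ Conn {x | (∀ j, 0 ≤ x j ∧ x j ≤ R) ∧ col x = i} p q := by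
  classical
  by_contra hc
  let S : Fin d → Set (Zd d) := fun i => {x | (∀ j, 0 ≤ x j ∧ x j ≤ R) ∧ col x = i}
  let lo : Fin d → Zd d → Prop := fun i x => ∃ p, p i = 0 ∧ Conn (S i) p x
  let G : Finset (Zd d) := Fintype.piFinset fun _ => Finset.Icc (0 : ℤ) R
  have hG : ∀ x, x ∈ G ↔ ∀ j, 0 ≤ x j ∧ x j ≤ R := fun x => by simp [G]
  let pt : (Fin d → ℝ) → Fin d → ℝ := fun u j => R * max 0 (min 1 (u j))
  let w : Zd d → (Fin d → ℝ) → ℝ := fun x u => max 0 (1 - ‖pt u - fun j => (x j : ℝ)‖)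
  have hw : ∀ x u, w x u ≠ 0 → ∀ j, |pt u j - x j| < 1 := by
    intro x u h j
    have h1 : ‖pt u - fun j => (x j : ℝ)‖ < 1 := by
      by_contra h2
      exact h (max_eq_left (by linarith [not_lt.1 h2]))
    exact (norm_le_pi_norm (pt u - fun j => (x j : ℝ)) j).trans_lt h1
  have hw0 : ∀ x u, 0 ≤ w x u := fun _ _ => le_max_left _ _
  obtain ⟨u, hu⟩ := MP_d328cc_gt.miranda d
    (fun u i => ∑ x ∈ G.filter (fun x => col x = i), if lo i x then -w x u else w x u)
    (continuous_pi fun i => continuous_finsetSum _ fun x _ => by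
      split_ifs <;> simp only [w, pt] <;> fun_prop)
    (fun u i hu => Finset.sum_nonpos fun x hx => by
      rw [Finset.mem_filter, hG] at hx
      split_ifs with h
      · linarith [hw0 x u]
      · by_contra h0
        have h1 := hw x u (fun e => h0 e.le) i
        have h2 : pt u i = 0 := by simp only [pt]; rw [max_eq_left (min_le_of_right_le hu)]; simp
        rw [h2, zero_sub, abs_neg, ← Int.cast_abs] at h1
        have h3 : |x i| < 1 := by exact_mod_cast h1
        exact h ⟨x, by rw [abs_lt] at h3; omega, .refl hx⟩)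
    (fun u i hu => Finset.sum_nonneg fun x hx => by
      rw [Finset.mem_filter, hG] at hx
      split_ifs with h
      · by_contra h0
        have h1 := hw x u (fun e => h0 (by rw [e]; simp)) i
        have h2 : pt u i = ((R : ℤ) : ℝ) := by simp only [pt]; rw [min_eq_left hu]; simp
        rw [h2, ← Int.cast_sub, ← Int.cast_abs] at h1
        have h3 : |(R : ℤ) - x i| < 1 := by exact_mod_cast h1
        obtain ⟨p, hp, hx'⟩ := h
        exact hc ⟨i, p, x, hp, by rw [abs_lt] at h3; omega, hx'⟩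
      · exact hw0 x u)
  let x0 : Zd d := fun j => ⌊pt u j⌋
  have hpt : ∀ j, 0 ≤ pt u j ∧ pt u j ≤ R := fun j =>
    ⟨mul_nonneg (Nat.cast_nonneg _) (le_max_left _ _), mul_le_of_le_one_right (Nat.cast_nonneg _)
      (max_le zero_le_one (min_le_left _ _))⟩
  have hx0 : ∀ j, 0 ≤ x0 j ∧ x0 j ≤ R := fun j =>
    ⟨Int.floor_nonneg.2 (hpt j).1, Int.cast_le (R := ℝ).1 ((Int.floor_le _).trans
      (by simpa using (hpt j).2))⟩
  have hpos : 0 < w x0 u := by
    refine lt_max_of_lt_right (sub_pos.2 ((pi_norm_lt_iff one_pos).2 fun j => ?_))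
    have a := Int.floor_le (pt u j)
    have b := Int.lt_floor_add_one (pt u j)
    show |pt u j - (⌊pt u j⌋ : ℤ)| < 1
    rw [abs_lt]; constructor <;> linarith
  have hnear : ∀ x, w x u ≠ 0 → Near 1 x0 x := by
    intro x hx j
    have a := abs_lt.1 (hw x u hx j)
    have b := abs_lt.1 (hw x0 u hpos.ne' j)
    have c : ((x0 j - x j : ℤ) : ℝ) < (2 : ℤ) := by push_cast; linarith
    have e : (((-2 : ℤ)) : ℝ) < ((x0 j - x j : ℤ) : ℝ) := by push_cast; linarith
    have c' := Int.cast_lt.1 c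
    have e' := Int.cast_lt.1 e
    rw [abs_le]; omega
  have h0 := congrFun hu (col x0)
  have hm : x0 ∈ G.filter (fun x => col x = col x0) := Finset.mem_filter.2 ⟨(hG _).2 hx0, rfl⟩
  simp only [Pi.zero_apply] at h0
  by_cases hl : lo (col x0) x0
  · refine absurd h0 (Finset.sum_neg' (fun x hx => ?_) ⟨x0, hm, by rw [if_pos hl]; linarith⟩).ne
    rw [Finset.mem_filter, hG] at hx
    split_ifs with h
    · linarith [hw0 x u]
    · by_contra h1
      obtain ⟨p, hp, hx'⟩ := hl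
      exact h ⟨p, hp, hx'.tail hx (hnear x fun e => h1 e.le)⟩
  · refine absurd h0 (Finset.sum_pos' (fun x hx => ?_) ⟨x0, hm, by rw [if_neg hl]; exact hpos⟩).ne'
    split_ifs with h
    · by_contra h1
      obtain ⟨p, hp, hx'⟩ := h
      exact hl ⟨p, hp, hx'.tail ⟨hx0, rfl⟩ (hnear x fun e => h1 (by rw [e]; simp)).symm⟩
    · exact hw0 x u

theorem limit_conn {X : Type*} [MetricSpace X] {G : ℕ → Set X} (hG : ∀ n, IsCompact (G n))
    (ha : Antitone G) {δ : ℝ} (hδ : 0 < δ)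
    (h : ∀ n, ∀ ε > 0, ∃ p q, δ ≤ dist p q ∧ p ∈ G n ∧
      Relation.ReflTransGen (fun x y => y ∈ G n ∧ dist x y < ε) p q) :
    ∃ p ∈ ⋂ n, G n, (connectedComponentIn (⋂ n, G n) p).Nontrivial := by
  choose p q h1 h2 h3 using fun n : ℕ => h n (1 / ((n : ℝ) + 1)) Nat.one_div_pos_of_nat
  have h4 : ∀ n, q n ∈ G n := fun n => by
    have := h3 n
    generalize q n = y at this
    induction this with
    | refl => exact h2 n
    | tail _ b _ => exact b.1
  obtain ⟨⟨a, b⟩, -, φ, hφ, ht⟩ := ((hG 0).prod (hG 0)).tendsto_subseq (x := fun n => (p n, q n))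
    fun n => ⟨ha (Nat.zero_le n) (h2 n), ha (Nat.zero_le n) (h4 n)⟩
  have ta : Tendsto (fun n => p (φ n)) atTop (𝓝 a) := (continuous_fst.tendsto _).comp ht
  have tb : Tendsto (fun n => q (φ n)) atTop (𝓝 b) := (continuous_snd.tendsto _).comp ht
  have hm : ∀ {x : ℕ → X} {c : X}, (∀ n, x n ∈ G n) → Tendsto (fun n => x (φ n)) atTop (𝓝 c) →
      c ∈ ⋂ n, G n := fun hx hc => mem_iInter.2 fun n => (hG n).isClosed.mem_of_tendsto hc
    ((eventually_ge_atTop n).mono fun k hk => ha (hk.trans (hφ.id_le k)) (hx _))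
  have ma := hm h2 ta
  have mb := hm h4 tb
  have hab : δ ≤ dist a b := ge_of_tendsto' (ta.dist tb) fun n => h1 _
  have hK : IsCompact (⋂ n, G n) :=
    (hG 0).of_isClosed_subset (isClosed_iInter fun n => (hG n).isClosed) (iInter_subset _ 0)
  refine ⟨a, ma, a, mem_connectedComponentIn ma, b, ?_, dist_pos.1 (hδ.trans_le hab)⟩
  by_contra hb
  have : CompactSpace (⋂ n, G n : Set X) := isCompact_iff_compactSpace.1 hK
  rw [connectedComponentIn_eq_image ma, connectedComponent_eq_iInter_isClopen] at hb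
  obtain ⟨⟨Z, hZ, haZ⟩, hbZ⟩ : ∃ Z : {Z : Set (⋂ n, G n : Set X) // IsClopen Z ∧ ⟨a, ma⟩ ∈ Z},
      ⟨b, mb⟩ ∉ Z.1 := by
    by_contra hn
    exact hb ⟨⟨b, mb⟩, mem_iInter.2 fun Z => by_contra fun h => hn ⟨Z, h⟩, rfl⟩
  have cA : IsCompact (Subtype.val '' Z) := hZ.1.isCompact.image continuous_subtype_val
  have cB : IsCompact (Subtype.val '' Zᶜ) := hZ.compl.1.isCompact.image continuous_subtype_val
  obtain ⟨γ, hγ, hd⟩ := (disjoint_image_of_injective Subtype.val_injective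
    (disjoint_compl_right (a := Z))).exists_thickenings cA cB.isClosed
  have hs : 0 < γ / 2 := half_pos hγ
  obtain ⟨N, hN⟩ := exists_subset_nhds_of_isCompact' (V := G) (ha.directed_ge) hG
    (fun n => (hG n).isClosed)
    (U := thickening (γ / 2) (Subtype.val '' Z) ∪ thickening (γ / 2) (Subtype.val '' Zᶜ))
    fun x hx => (isOpen_thickening.union isOpen_thickening).mem_nhds (by
      by_cases hz : (⟨x, hx⟩ : (⋂ n, G n : Set X)) ∈ Z
      · exact Or.inl (self_subset_thickening hs _ ⟨_, hz, rfl⟩)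
      · exact Or.inr (self_subset_thickening hs _ ⟨_, hz, rfl⟩))
  obtain ⟨n, e1, e2, e3, e4⟩ := ((ta.eventually (isOpen_thickening.mem_nhds
    (self_subset_thickening hs _ (mem_image_of_mem Subtype.val haZ)))).and
    ((tb.eventually (isOpen_thickening.mem_nhds
    (self_subset_thickening hs _ (mem_image_of_mem Subtype.val (show _ ∈ Zᶜ from hbZ))))).and
    ((eventually_ge_atTop N).and (((tendsto_one_div_add_atTop_nhds_zero_nat (𝕜 := ℝ)).comp
      hφ.tendsto_atTop).eventually (gt_mem_nhds hs))))).exists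
  have key : ∀ y, Relation.ReflTransGen (fun x y => y ∈ G (φ n) ∧ dist x y < 1 / ((φ n : ℝ) + 1))
      (p (φ n)) y → y ∈ thickening (γ / 2) (Subtype.val '' Z) := by
    intro y hy
    induction hy with
    | refl => exact e1
    | @tail x y _ hxy ih =>
      refine (hN (ha (e3.trans (hφ.id_le n)) hxy.1)).resolve_right fun hy => ?_
      obtain ⟨z, hz, hxz⟩ := mem_thickening_iff.1 ih
      refine disjoint_left.1 hd (mem_thickening_iff.2 ⟨z, hz, ?_⟩)
        (thickening_mono (half_le_self hγ.le) _ hy)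
      have e5 : 1 / ((φ n : ℝ) + 1) < γ / 2 := e4
      linarith [dist_triangle y x z, dist_comm x y, hxy.2]
  exact disjoint_left.1 hd (thickening_mono (half_le_self hγ.le) _ (key _ (h3 _)))
    (thickening_mono (half_le_self hγ.le) _ e2)

end Pool.Agent.Lib.MP_a0a493_pr
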