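import Pool.Agent.Lib.MP_a0a493_pr.Iso
import Pool.Agent.Lib.MP_a0a493_pr.Conn

/-! Chaining over dyadic grids and the adaptive product formula. -/

namespace Pool.Agent.Lib.MP_a0a493_pr

open MeasureTheory ProbabilityTheory
open scoped InnerProductSpace

variable {Ω : Type*} [MeasurableSpace Ω] {P : Measure Ω} [IsProbabilityMeasure P]
  {H : Type*} [NormedAddCommGroup H] [InnerProductSpace ℝ H] {W : H →ₗ[ℝ] (Ω → ℝ)} {d : ℕ}

omit [IsProbabilityMeasure P] in
theorem union_le {ι : Type*} (s : Finset ι) (A : ι → Set Ω) {c : ℝ} (h : ∀ i ∈ s, P.real (A i) ≤ c) :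
    P.real {ω | ∃ i ∈ s, ω ∈ A i} ≤ s.card * c := by
  have e : {ω | ∃ i ∈ s, ω ∈ A i} = ⋃ i ∈ s, A i := by ext; simp
  rw [e]
  refine (measureReal_biUnion_finset_le s A).trans ?_
  simpa using Finset.sum_le_card_nsmul s _ c h

theorem sub_le {A B : Set Ω} {b : ℝ} (hb : P.real B ≤ b) (h : ∀ ω ∈ A, ω ∈ B) : P.real A ≤ b :=
  (measureReal_mono h).trans hb

theorem sub_le2 {A B C : Set Ω} {b c : ℝ} (hb : P.real B ≤ b) (hc : P.real C ≤ c)
    (h : ∀ ω ∈ A, ω ∉ B → ω ∈ C) : P.real A ≤ b + c :=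
  (measureReal_mono (s₂ := B ∪ C) fun ω hω => or_iff_not_imp_left.2 (h ω hω)).trans
    ((measureReal_union_le _ _).trans (add_le_add hb hc))

/-- hypotheses of the chaining bound -/
structure Reg (d : ℕ) (V : ℝ) (n : ℕ) (Z : Zd d → H) : Prop where
  var : ∀ x ∈ box d (2 ^ n), ‖Z x‖ ^ 2 ≤ V
  inc : ∀ x ∈ box d (2 ^ n), ∀ y ∈ box d (2 ^ n), ∀ r : ℕ, Near r x y →
    (‖Z x - Z y‖ ^ 2) ^ 2 ≤ V ^ 2 * r / 2 ^ n

theorem chain_count (d n : ℕ) : ((box d (2 ^ (n + 1))).card : ℝ) * Real.exp (-((d + 1) * n)) ≤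
    16 ^ d * (1 / 2) ^ n := by
  have h1 : ((box d (2 ^ (n + 1))).card : ℝ) ≤ 16 ^ d * (2 ^ n) ^ d := by
    rw [card_box, ← mul_pow]
    push_cast
    have : (1 : ℝ) ≤ 2 ^ n := one_le_pow₀ one_le_two
    exact pow_le_pow_left₀ (by positivity) (by rw [pow_succ]; linarith) d
  have h2 : Real.exp (-((d + 1) * n)) ≤ (1 / 2) ^ ((d + 1) * n) := by
    have : Real.exp (-((d + 1) * n)) = Real.exp (-1) ^ ((d + 1) * n) := by
      rw [← Real.exp_nat_mul]; push_cast; ring_nf
    rw [this]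
    refine pow_le_pow_left₀ (Real.exp_pos _).le ?_ _
    rw [Real.exp_neg, one_div]
    exact inv_anti₀ two_pos (by linarith [Real.add_one_le_exp (1 : ℝ)])
  refine (mul_le_mul h1 h2 (Real.exp_pos _).le (by positivity)).trans (le_of_eq ?_)
  rw [add_mul, pow_add, one_mul, ← pow_mul, mul_comm n d, mul_assoc, ← mul_assoc (2 ^ (d * n)),
    ← mul_pow]
  simp

theorem chain_aux (h : Iso P W) {V Λ u : ℝ} (hV : 0 ≤ V) (hΛ : 0 < Λ) (n : ℕ) :
    ∀ Z : Zd d → H, Reg d V n Z → P.real {ω | ∃ x ∈ box d (2 ^ n), u + ((u + 7 * ((d + 1) / Λ)) -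
      (7 / 8) ^ n * (u + 7 * ((d + 1) / Λ) + (d + 1) / Λ * n)) ≤ W (Z x) ω} ≤
      (5 ^ d * Real.exp (V * Λ ^ 2 / 2) + 2 * 16 ^ d * Real.exp (32 * V * Λ ^ 2) *
        (1 - (1 / 2) ^ n)) * Real.exp (-Λ * u) := by
  induction n with
  | zero =>
    intro Z hZ
    refine (union_le _ (fun x => {ω | _ ≤ W (Z x) ω}) fun x hx =>
      h.tail (hZ.var x hx) hΛ.le _).trans (le_of_eq ?_)
    rw [card_box, Real.exp_add]
    push_cast
    ring_nf
  | succ n ih =>
    intro Z hZ
    have m2 : ∀ x ∈ box d (2 ^ n), (2 : ℤ) • x ∈ box d (2 ^ (n + 1)) := fun x hx => by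
      rw [mem_box] at hx ⊢
      intro i
      have := hx i
      simp only [Pi.smul_apply, smul_eq_mul, abs_mul]
      push_cast at this ⊢
      rw [pow_succ, abs_two]
      linarith
    have h1 := ih (fun x => Z ((2 : ℤ) • x)) ⟨fun x hx => hZ.var _ (m2 x hx), fun x hx y hy r hr => by
      refine (hZ.inc _ (m2 x hx) _ (m2 y hy) (2 * r) fun i => ?_).trans (le_of_eq ?_)
      · have := hr i
        simp only [Pi.smul_apply, smul_eq_mul, ← mul_sub, abs_mul, abs_two]
        push_cast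
        linarith
      · push_cast; rw [pow_succ (2 : ℝ)]; field_simp⟩
    have hc : ∀ x ∈ box d (2 ^ (n + 1)), cen 2 x ∈ box d (2 ^ n) := fun x hx =>
      cen_mem two_pos (by rwa [pow_succ'] at hx)
    have hq : (0 : ℝ) < (7 / 8) ^ n := by positivity
    have h2 := union_le (P := P) (box d (2 ^ (n + 1))) (fun x => {ω | (7 / 8) ^ n *
        (u + (d + 1) / Λ * n) / 8 ≤ W (Z x - Z ((2 : ℤ) • cen 2 x)) ω}) fun x hx =>
      h.tail (V := V * ((7 / 8) ^ n) ^ 2) (t := 8 * Λ / (7 / 8) ^ n) (by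
        refine (pow_le_pow_iff_left₀ (sq_nonneg _) (by positivity) two_ne_zero).1 ?_
        refine (hZ.inc x hx _ (m2 _ (hc x hx)) 1 fun i => ?_).trans ?_
        · have := cen_near two_pos x i
          simp only [Pi.smul_apply, smul_eq_mul]
          push_cast at this ⊢
          rw [abs_le]; omega
        · rw [mul_pow, Nat.cast_one, mul_one, div_eq_mul_inv]
          refine mul_le_mul_of_nonneg_left ?_ (sq_nonneg _)
          rw [← pow_mul, ← pow_mul, mul_comm n, pow_mul, ← inv_pow]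
          calc (2⁻¹ : ℝ) ^ (n + 1) ≤ 2⁻¹ ^ n :=
                pow_le_pow_of_le_one (by norm_num) (by norm_num) (Nat.le_succ n)
            _ ≤ _ := pow_le_pow_left₀ (by norm_num) (by norm_num) n) (by positivity) _
    refine (sub_le2 h1 h2 ?_).trans ?_
    · rintro ω ⟨x, hx, hω⟩ hn
      refine ⟨x, hx, ?_⟩
      have a := not_le.1 fun h => hn ⟨_, hc x hx, h⟩
      show _ ≤ W (Z x - Z ((2 : ℤ) • cen 2 x)) ω
      rw [map_sub, Pi.sub_apply]
      push_cast at hω
      rw [pow_succ] at hω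
      linarith
    · have e : -(8 * Λ / (7 / 8) ^ n) * ((7 / 8) ^ n * (u + (d + 1) / Λ * n) / 8) +
          V * ((7 / 8) ^ n) ^ 2 * (8 * Λ / (7 / 8) ^ n) ^ 2 / 2 =
          -((d + 1) * n) + (32 * V * Λ ^ 2 + -Λ * u) := by field_simp; ring
      rw [e, Real.exp_add, ← mul_assoc, Real.exp_add]
      have h3 := mul_le_mul_of_nonneg_right (chain_count d n)
        (mul_pos (Real.exp_pos (32 * V * Λ ^ 2)) (Real.exp_pos (-Λ * u))).le
      refine (add_le_add le_rfl h3).trans (le_of_eq ?_)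
      ring

theorem chain (h : Iso P W) (d : ℕ) {V Λ : ℝ} (hV : 0 ≤ V) (hΛ : 0 < Λ) :
    ∃ C : ℝ, 0 < C ∧ ∀ (n : ℕ) (Z : Zd d → H), Reg d V n Z → ∀ u : ℝ,
      P.real {ω | ∃ x ∈ box d (2 ^ n), u ≤ W (Z x) ω} ≤ C * Real.exp (-Λ * u) := by
  have h2 : 0 < 2 * Λ := by positivity
  set D : ℝ := 7 * ((d + 1) / (2 * Λ)) with hD
  set C : ℝ := 5 ^ d * Real.exp (V * (2 * Λ) ^ 2 / 2) + 2 * 16 ^ d * Real.exp (32 * V * (2 * Λ) ^ 2)
    with hC
  have hC1 : 1 ≤ C := by
    have a : (1 : ℝ) ≤ 5 ^ d * Real.exp (V * (2 * Λ) ^ 2 / 2) :=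
      one_le_mul_of_one_le_of_one_le (one_le_pow₀ (by norm_num)) (Real.one_le_exp (by positivity))
    have b : (0 : ℝ) ≤ 2 * 16 ^ d * Real.exp (32 * V * (2 * Λ) ^ 2) := by positivity
    linarith
  refine ⟨C * Real.exp (Λ * D), by positivity, fun n Z hZ u => ?_⟩
  have e : C * Real.exp (Λ * D) * Real.exp (-Λ * u) = C * Real.exp (-(2 * Λ) * ((u - D) / 2)) := by
    rw [mul_assoc, ← Real.exp_add]; ring_nf
  rw [e]
  rcases le_total D u with hu | hu
  · refine (sub_le (chain_aux h (u := (u - D) / 2) hV h2 n Z hZ) ?_).trans ?_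
    · rintro ω ⟨x, hx, hω⟩
      refine ⟨x, hx, le_trans ?_ hω⟩
      have : 0 ≤ (7 / 8 : ℝ) ^ n * ((u - D) / 2 + D + (d + 1) / (2 * Λ) * n) :=
        mul_nonneg (by positivity) (add_nonneg (add_nonneg (by linarith) (by positivity))
          (by positivity))
      linarith
    · refine mul_le_mul_of_nonneg_right (add_le_add le_rfl ?_) (Real.exp_pos _).le
      exact mul_le_of_le_one_right (by positivity) (sub_le_self _ (by positivity))
  · exact measureReal_le_one.trans (one_le_mul_of_one_le_of_one_le hC1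
      (Real.one_le_exp (by nlinarith)))

/-- dependence on the coordinates in a set only -/
def Dep {J β : Type*} (T : J → Prop) (F : (J → ℝ) → β) : Prop :=
  ∀ y y' : J → ℝ, (∀ j, T j → y j = y' j) → F y = F y'

theorem adapt (h : Iso P W) {𝕜 : Type} [RCLike 𝕜] {J S : Type*} [Fintype J] [Fintype S]
    (v : J → H) (lev : J → ℕ) (ho : ∀ i j, lev i ≠ lev j → ⟪v i, v j⟫_ℝ = 0)
    (st : ℕ → (J → ℝ) → S) (hs : ∀ i σ, MeasurableSet {y | st i y = σ})
    (ds : ∀ i, Dep (fun j => lev j < i) (st i))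
    (G : ℕ → S → (J → ℝ) → 𝕜) (hG : ∀ i σ, Measurable (G i σ)) (bG : ∀ i σ y, ‖G i σ y‖ ≤ 1)
    (dG : ∀ i σ, Dep (fun j => lev j = i) (G i σ)) (a : ℕ → 𝕜) (n : ℕ)
    (ha : ∀ i < n, ∀ σ, ∫ ω, G i σ (fun j => W (v j) ω) ∂P = a i) :
    ∫ ω, ∏ i ∈ Finset.range n, G i (st i fun j => W (v j) ω) (fun j => W (v j) ω) ∂P =
      ∏ i ∈ Finset.range n, a i := by
  classical
  have my : Measurable fun ω j => W (v j) ω := measurable_pi_iff.2 fun j => h.meas _
  have e0 : ∀ i y, G i (st i y) y = ∑ σ, (if st i y = σ then 1 else 0) * G i σ y := by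
    intro i y; simp
  have mI : ∀ i σ, Measurable fun y => if st i y = σ then (1 : 𝕜) else 0 := fun i σ =>
    Measurable.ite (hs i σ) measurable_const measurable_const
  have mF : ∀ m, Measurable fun y => ∏ i ∈ Finset.range m, G i (st i y) y := fun m =>
    Finset.measurable_fun_prod _ fun i _ => by
      simp only [e0]
      exact Finset.measurable_fun_sum _ fun σ _ => (mI i σ).mul (hG i σ)
  have bF : ∀ m y, ‖∏ i ∈ Finset.range m, G i (st i y) y‖ ≤ 1 := fun m y => by
    rw [norm_prod]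
    exact Finset.prod_le_one (fun _ _ => norm_nonneg _) fun _ _ => bG _ _ _
  induction n with
  | zero => simp
  | succ n ih =>
    rw [Finset.prod_range_succ, ← ih fun i hi => ha i (Nat.lt_succ_of_lt hi)]
    let F : S → (J → ℝ) → 𝕜 := fun σ y =>
      (∏ i ∈ Finset.range n, G i (st i y) y) * if st n y = σ then 1 else 0
    have mF' : ∀ σ, Measurable (F σ) := fun σ => (mF n).mul (mI n σ)
    have bF' : ∀ σ y, ‖F σ y‖ ≤ 1 := fun σ y => by
      simp only [F]
      split_ifs
      · simpa using bF n y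
      · simp
    have dF : ∀ σ, Dep (fun j => lev j < n) (F σ) := fun σ y y' hy => by
      simp only [F]
      rw [ds n y y' hy]
      congr 1
      refine Finset.prod_congr rfl fun i hi => ?_
      have hi := Finset.mem_range.1 hi
      rw [ds i y y' fun j hj => hy j (hj.trans hi), 
        dG i _ y y' fun j hj => hy j (lt_of_eq_of_lt hj hi)]
    have ind := h.indep (fun j => if lev j < n then v j else 0) (fun j => if lev j = n then v j else 0)
      fun i j => by
        split_ifs with h1 h2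
        · exact ho i j (by omega)
        all_goals simp
    have key : ∀ σ, ∫ ω, F σ (fun j => W (v j) ω) * G n σ (fun j => W (v j) ω) ∂P =
        (∫ ω, F σ (fun j => W (v j) ω) ∂P) * a n := by
      intro σ
      have e1 : ∀ ω, F σ (fun j => W (v j) ω) = F σ fun j => W (if lev j < n then v j else 0) ω :=
        fun ω => dF σ _ _ fun j hj => by rw [if_pos hj]
      have e2 : ∀ ω, G n σ (fun j => W (v j) ω) =
          G n σ fun j => W (if lev j = n then v j else 0) ω :=
        fun ω => dG n σ _ _ fun j hj => by rw [if_pos hj]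
      rw [← ha n (Nat.lt_succ_self n) σ]
      simp only [e1, e2]
      exact (ind.comp (mF' σ) (hG n σ)).integral_fun_mul_eq_mul_integral
        ((mF' σ).comp (measurable_pi_iff.2 fun j => h.meas _)).aestronglyMeasurable
        ((hG n σ).comp (measurable_pi_iff.2 fun j => h.meas _)).aestronglyMeasurable
    have i1 : ∀ σ, Integrable (fun ω => F σ (fun j => W (v j) ω)) P := fun σ =>
      Integrable.of_bound ((mF' σ).comp my).aestronglyMeasurable 1
        (Filter.Eventually.of_forall fun _ => bF' _ _)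
    have i2 : ∀ σ, Integrable (fun ω => F σ (fun j => W (v j) ω) * G n σ (fun j => W (v j) ω)) P :=
      fun σ => Integrable.of_bound (((mF' σ).mul (hG n σ)).comp my).aestronglyMeasurable 1
        (Filter.Eventually.of_forall fun _ => by
          rw [norm_mul]; exact mul_le_one₀ (bF' _ _) (norm_nonneg _) (bG _ _ _))
    calc _ = ∫ ω, ∑ σ, F σ (fun j => W (v j) ω) * G n σ (fun j => W (v j) ω) ∂P := by
          refine integral_congr_ae (Filter.Eventually.of_forall fun ω => ?_)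
          simp only [F]
          rw [Finset.prod_range_succ, e0 n, Finset.mul_sum]
          simp only [mul_assoc]
      _ = (∫ ω, ∑ σ, F σ (fun j => W (v j) ω) ∂P) * a n := by
          rw [integral_finsetSum _ fun σ _ => i2 σ, integral_finsetSum _ fun σ _ => i1 σ,
            Finset.sum_mul]
          exact Finset.sum_congr rfl fun σ _ => key σ
      _ = _ := by
          congr 1
          refine integral_congr_ae (Filter.Eventually.of_forall fun ω => ?_)
          simp [F]

end Pool.Agent.Lib.MP_a0a493_pr
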