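import Pool.Agent.Lib.MP_a0a493_pr.Vec
import Pool.Agent.Lib.MP_a0a493_pr.Chain

/-! The lattice fields and their crossing probabilities. -/

namespace Pool.Agent.Lib.MP_a0a493_pr

open MeasureTheory ProbabilityTheory Real
open scoped InnerProductSpace

variable {d : ℕ}

/-- a lattice point as a point of Euclidean space -/
noncomputable def pt (x : Zd d) : E d := WithLp.toLp 2 fun i => (x i : ℝ)

theorem pt_apply (x : Zd d) (i : Fin d) : pt x i = x i := rfl

theorem pt_add (x y : Zd d) : pt (x + y) = pt x + pt y := by ext i; simp [pt_apply]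

theorem dist_le_of {u v : E d} {r : ℝ} (hr : 0 ≤ r) (h : ∀ i, |u i - v i| ≤ r) :
    dist u v ≤ d * r := by
  rw [EuclideanSpace.dist_eq]
  refine sqrt_le_iff.2 ⟨by positivity, ?_⟩
  have a : ∑ i, dist (u i) (v i) ^ 2 ≤ ∑ _i : Fin d, r ^ 2 := Finset.sum_le_sum fun i _ =>
    pow_le_pow_left₀ dist_nonneg (h i) 2
  have b : (d : ℝ) ≤ d ^ 2 := by exact_mod_cast Nat.le_self_pow two_ne_zero d
  simp only [Finset.sum_const, Finset.card_univ, Fintype.card_fin, nsmul_eq_mul] at a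
  nlinarith [sq_nonneg r]

theorem le_dist (u v : E d) (i : Fin d) : |u i - v i| ≤ dist u v := PiLp.dist_apply_le u v i

theorem dist_pt {x y : Zd d} {r : ℕ} (h : Near r x y) : dist (pt x) (pt y) ≤ d * r :=
  dist_le_of (Nat.cast_nonneg _) fun i => by
    rw [pt_apply, pt_apply, ← Int.cast_sub, ← Int.cast_abs, ← Int.cast_natCast]
    exact Int.cast_le.2 (h i)

theorem dist_aff {c : ℝ} (hc : 0 ≤ c) (u v z : E d) :
    dist (c • u + z) (c • v + z) = c * dist u v := by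
  rw [dist_add_right, dist_smul₀, Real.norm_of_nonneg hc]

theorem near_box {R : ℕ} {x y : Zd d} (hx : x ∈ box d R) (hy : y ∈ box d R) :
    Near ((4 * R : ℕ) : ℤ) x y := fun i => by
  have a := abs_le.1 (mem_box.1 hx i)
  have b := abs_le.1 (mem_box.1 hy i)
  push_cast
  rw [abs_le]; omega

theorem zero_mem_box (R : ℕ) : (0 : Zd d) ∈ box d R := mem_box.2 fun i => by simp

/-- extension by zero -/
noncomputable def ext {R : ℕ} (y : box d R → ℝ) (x : Zd d) : ℝ :=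
  if h : x ∈ box d R then y ⟨x, h⟩ else 0

/-- the crossing event -/
def CrS (d R : ℕ) (s : ℝ) : Set (box d R → ℝ) := {y | Cr R s (ext y)}

theorem meas_CrS (R : ℕ) (s : ℝ) : MeasurableSet (CrS d R s) :=
  meas_conn (box d R) (fun S => ∃ p q, Far R p q ∧ Conn S p q) (p := fun x y => s ≤ ext y x)
    fun x hx => by
      simp only [ext, dif_pos hx]
      exact measurableSet_le measurable_const (measurable_pi_apply _)

theorem mem_CrS {R : ℕ} {s : ℝ} (Y : Zd d → ℝ) :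
    (fun x : box d R => Y x) ∈ CrS d R s ↔ Cr R s Y :=
  ⟨fun h => Cr.mono h fun x hx h => by rwa [ext, dif_pos hx] at h,
    fun h => Cr.mono h fun x hx h => by rwa [ext, dif_pos hx]⟩

variable {Ω : Type*} [MeasurableSpace Ω] {P : Measure Ω} [IsProbabilityMeasure P]

section
variable {H : Type*} [NormedAddCommGroup H] [InnerProductSpace ℝ H]

omit [InnerProductSpace ℝ H] in
theorem reg_of {V M : ℝ} {n : ℕ} {Z : Zd d → H} (hM : 0 ≤ M)
    (h1 : ∀ x ∈ box d (2 ^ n), ‖Z x‖ ^ 2 ≤ V)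
    (h2 : ∀ x ∈ box d (2 ^ n), ∀ y ∈ box d (2 ^ n), ∀ r : ℕ, Near r x y →
      ‖Z x - Z y‖ ^ 2 ≤ M * r / 2 ^ n) : Reg d (V + M) n Z := by
  refine ⟨fun x hx => (h1 x hx).trans (by linarith), fun x hx y hy r hr => ?_⟩
  have a := h1 x hx
  have b := h1 y hy
  have c : ‖Z x - Z y‖ ^ 2 ≤ 4 * V := by
    have := pow_le_pow_left₀ (norm_nonneg _) (norm_sub_le (Z x) (Z y)) 2
    nlinarith [sq_nonneg (‖Z x‖ - ‖Z y‖)]
  have e : (0 : ℝ) ≤ r / 2 ^ n := by positivity
  calc _ ≤ 4 * V * (M * r / 2 ^ n) := by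
        rw [sq]
        exact mul_le_mul c (h2 x hx y hy r hr) (sq_nonneg _) ((sq_nonneg _).trans c)
    _ ≤ _ := by
        rw [mul_div_assoc, mul_div_assoc, ← mul_assoc]
        exact mul_le_mul_of_nonneg_right (by nlinarith [sq_nonneg (V - M)]) e

theorem cr_eq {W : H →ₗ[ℝ] (Ω → ℝ)} (h : Iso P W) {R : ℕ} (s : ℝ) {v v' : Zd d → H}
    (hg : ∀ x y, ⟪v x, v y⟫_ℝ = ⟪v' x, v' y⟫_ℝ) :
    P.real {ω | Cr R s fun x => W (v x) ω} = P.real {ω | Cr R s fun x => W (v' x) ω} := by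
  have := (h.gf fun x : box d R => v x).prob_eq (h.gf fun x : box d R => v' x)
    (fun x y => hg x y) (meas_CrS R s)
  have e : ∀ v : Zd d → H, {ω | Cr R s fun x => W (v x) ω} =
      {ω | (fun x : box d R => W (v x) ω) ∈ CrS d R s} := fun v =>
    Set.ext fun ω => (mem_CrS fun x => W (v x) ω).symm
  rw [e, e, Measure.real, this, Measure.real]

end

/-- crossing probability for the lattice field with `j` dyadic scales -/
noncomputable def fc (P : Measure Ω) (W : HH d →ₗ[ℝ] (Ω → ℝ)) (j : ℕ) (s : ℝ) : ℝ :=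
  P.real {ω | Cr (2 ^ j) s fun x => W (Ev 0 (j * log 2) (pt x)) ω}

variable {W : HH d →ₗ[ℝ] (Ω → ℝ)}

theorem jlog (j : ℕ) : 0 ≤ j * log 2 := mul_nonneg (Nat.cast_nonneg _) (log_nonneg one_le_two)

theorem exp_jlog (j : ℕ) : exp (j * log 2) = 2 ^ j := by rw [exp_nat_mul, exp_log two_pos]

theorem fc_shift (h : Iso P W) (j : ℕ) (s c : ℝ) (z : E d) :
    P.real {ω | Cr (2 ^ j) s fun x => W (Ev c (j * log 2 + c) (exp c • pt x + z)) ω} =
      fc P W j s :=
  cr_eq h s fun x y => by simpa using inner_Ev_shift (jlog j) c (pt x) (pt y) z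

theorem fc_anti (j : ℕ) {s s' : ℝ} (hs : s ≤ s') : fc P W j s' ≤ fc P W j s :=
  measureReal_mono fun _ h => Cr.mono h fun _ _ h => hs.trans h

theorem inc_Ev (hd : 1 ≤ d) (α β : ℝ) {c M : ℝ} (hc : 0 ≤ c) {n : ℕ}
    (h : c * exp (-α) ≤ M / 2 ^ n) (z : E d) {x y : Zd d} {r : ℕ} (hr : Near r x y) :
    ‖Ev α β (c • pt x + z) - Ev α β (c • pt y + z)‖ ^ 2 ≤ 2 * d ^ 2 * M * r / 2 ^ n := by
  refine (norm_Ev_sub hd α β (R := c * (d * r)) ?_).trans ?_
  · rw [dist_aff hc]; exact mul_le_mul_of_nonneg_left (dist_pt hr) hc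
  · calc _ = 2 * d ^ 2 * r * (c * exp (-α)) := by ring
      _ ≤ 2 * d ^ 2 * r * (M / 2 ^ n) := by gcongr
      _ = _ := by ring

end Pool.Agent.Lib.MP_a0a493_pr
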