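import Mathlib

/-! Isonormal Gaussian processes: existence, equality in law, independence, tails. -/

namespace Pool.Agent.Lib.MP_a0a493_pr

open MeasureTheory ProbabilityTheory Complex
open scoped InnerProductSpace

/-- the character `exp (i x)` -/
noncomputable def ch (x : ℝ) : ℂ := cexp (x * I)

theorem ch_add (x y : ℝ) : ch (x + y) = ch x * ch y := by
  unfold ch; rw [← Complex.exp_add]; push_cast; ring_nf

theorem ch_zero : ch 0 = 1 := by simp [ch]

theorem norm_ch (x : ℝ) : ‖ch x‖ = 1 := Complex.norm_exp_ofReal_mul_I x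

theorem continuous_ch : Continuous ch := by unfold ch; fun_prop

theorem ch_sum {ι : Type*} (s : Finset ι) (f : ι → ℝ) : ch (∑ i ∈ s, f i) = ∏ i ∈ s, ch (f i) := by
  classical
  induction s using Finset.induction_on with
  | empty => simp [ch_zero]
  | insert a s ha ih => rw [Finset.sum_insert ha, Finset.prod_insert ha, ch_add, ih]

theorem norm_ch_sub (x y : ℝ) : ‖ch x - ch y‖ ≤ |x - y| := by
  have e : ch x - ch y = ch y * (cexp (I * ((x - y : ℝ) : ℂ)) - 1) := by
    have : ch x = ch y * ch (x - y) := by rw [← ch_add]; ring_nf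
    rw [this, mul_sub, mul_one]; unfold ch; rw [mul_comm I]
  rw [e, norm_mul, norm_ch, one_mul]
  exact Real.norm_exp_I_mul_ofReal_sub_one_le

/-- the Gaussian characteristic value for variance `v` -/
noncomputable def gc (v : ℝ) : ℂ := (Real.exp (-v / 2) : ℝ)

theorem gc_add (v w : ℝ) : gc (v + w) = gc v * gc w := by
  unfold gc; rw [← Complex.ofReal_mul, ← Real.exp_add]; ring_nf

theorem gc_sum {ι : Type*} (s : Finset ι) (f : ι → ℝ) : gc (∑ i ∈ s, f i) = ∏ i ∈ s, gc (f i) := by
  classical
  induction s using Finset.induction_on with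
  | empty => simp [gc]
  | insert a s ha ih => rw [Finset.sum_insert ha, Finset.prod_insert ha, gc_add, ih]

theorem integral_ch_gauss (v : NNReal) (t : ℝ) :
    ∫ x, ch (t * x) ∂(gaussianReal 0 v) = gc (t ^ 2 * v) := by
  have := charFun_gaussianReal (μ := 0) (v := v) t
  rw [charFun_apply_real] at this
  simp only [ch, gc, Complex.ofReal_mul, this, Complex.ofReal_exp]
  push_cast
  ring_nf

variable {Ω : Type*} [MeasurableSpace Ω] {P : Measure Ω}

theorem integrable_ch [IsFiniteMeasure P] {X : Ω → ℝ} (hX : AEMeasurable X P) :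
    Integrable (fun ω => ch (X ω)) P :=
  Integrable.of_bound (continuous_ch.measurable.comp_aemeasurable hX).aestronglyMeasurable 1
    (Filter.Eventually.of_forall fun _ => (norm_ch _).le)

variable {H : Type*} [NormedAddCommGroup H] [InnerProductSpace ℝ H]

/-- an isonormal Gaussian process -/
structure Iso (P : Measure Ω) (W : H →ₗ[ℝ] (Ω → ℝ)) : Prop where
  meas : ∀ h, Measurable (W h)
  law : ∀ h, ∫ ω, ch (W h ω) ∂P = gc (‖h‖ ^ 2)

/-- a finite Gaussian family whose covariance is the Gram matrix of `v` -/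
structure GF (P : Measure Ω) {J : Type*} [Fintype J] (X : J → Ω → ℝ) (v : J → H) : Prop where
  meas : ∀ j, AEMeasurable (X j) P
  law : ∀ c : J → ℝ, ∫ ω, ch (∑ j, c j * X j ω) ∂P = gc (‖∑ j, c j • v j‖ ^ 2)

theorem Iso.gf {W : H →ₗ[ℝ] (Ω → ℝ)} (h : Iso P W) {J : Type*} [Fintype J] (v : J → H) :
    GF P (fun j => W (v j)) v := by
  refine ⟨fun j => (h.meas _).aemeasurable, fun c => ?_⟩
  rw [← h.law]
  simp [map_sum, Finset.sum_apply]

theorem dual_pi {J : Type*} [Fintype J] [DecidableEq J] (L : StrongDual ℝ (J → ℝ)) (y : J → ℝ) :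
    L y = ∑ j, L (Pi.single j 1) * y j := by
  conv_lhs => rw [pi_eq_sum_univ' y, map_sum]
  simp only [map_smul, smul_eq_mul, mul_comm]

theorem norm_sq_gram {J : Type*} [Fintype J] (v : J → H) (c : J → ℝ) :
    ‖∑ j, c j • v j‖ ^ 2 = ∑ i, ∑ j, c i * c j * ⟪v i, v j⟫_ℝ := by
  rw [← real_inner_self_eq_norm_sq, sum_inner]
  refine Finset.sum_congr rfl fun i _ => ?_
  rw [inner_sum]
  refine Finset.sum_congr rfl fun j _ => ?_
  rw [real_inner_smul_left, real_inner_smul_right, mul_assoc]

theorem GF.charFun {J : Type*} [Fintype J] [DecidableEq J] {X : J → Ω → ℝ} {v : J → H}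
    (h : GF P X v) (L : StrongDual ℝ (J → ℝ)) :
    charFunDual (P.map fun ω j => X j ω) L = gc (‖∑ j, L (Pi.single j 1) • v j‖ ^ 2) := by
  rw [charFunDual_apply, integral_map (aemeasurable_pi_iff.2 h.meas) (by fun_prop), ← h.law]
  refine integral_congr_ae (Filter.Eventually.of_forall fun ω => ?_)
  simp only [ch]
  rw [dual_pi L]

theorem GF.map_eq {Ω' H' : Type*} [MeasurableSpace Ω'] {P' : Measure Ω'} [NormedAddCommGroup H']
    [InnerProductSpace ℝ H'] [IsProbabilityMeasure P] [IsProbabilityMeasure P'] {J : Type*}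
    [Fintype J] {X : J → Ω → ℝ} {v : J → H} {X' : J → Ω' → ℝ} {v' : J → H'} (h : GF P X v)
    (h' : GF P' X' v') (hg : ∀ i j, ⟪v i, v j⟫_ℝ = ⟪v' i, v' j⟫_ℝ) :
    (P.map fun ω j => X j ω) = P'.map fun ω j => X' j ω := by
  classical
  refine Measure.ext_of_charFunDual (funext fun L => ?_)
  rw [h.charFun, h'.charFun, norm_sq_gram, norm_sq_gram]
  simp only [hg]

theorem GF.prob_eq {Ω' H' : Type*} [MeasurableSpace Ω'] {P' : Measure Ω'} [NormedAddCommGroup H']
    [InnerProductSpace ℝ H'] [IsProbabilityMeasure P] [IsProbabilityMeasure P'] {J : Type*}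
    [Fintype J] {X : J → Ω → ℝ} {v : J → H} {X' : J → Ω' → ℝ} {v' : J → H'} (h : GF P X v)
    (h' : GF P' X' v') (hg : ∀ i j, ⟪v i, v j⟫_ℝ = ⟪v' i, v' j⟫_ℝ) {B : Set (J → ℝ)}
    (hB : MeasurableSet B) :
    P {ω | (fun j => X j ω) ∈ B} = P' {ω | (fun j => X' j ω) ∈ B} := by
  have e := congrArg (fun μ : Measure (J → ℝ) => μ B) (h.map_eq h' hg)
  rwa [Measure.map_apply_of_aemeasurable (aemeasurable_pi_iff.2 h.meas) hB,
    Measure.map_apply_of_aemeasurable (aemeasurable_pi_iff.2 h'.meas) hB] at e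

theorem Iso.indep [IsProbabilityMeasure P] {W : H →ₗ[ℝ] (Ω → ℝ)} (h : Iso P W) {J J' : Type*}
    [Fintype J] [Fintype J'] (v : J → H) (v' : J' → H) (ho : ∀ i j, ⟪v i, v' j⟫_ℝ = 0) :
    IndepFun (fun ω j => W (v j) ω) (fun ω j => W (v' j) ω) P := by
  classical
  have m1 := aemeasurable_pi_iff.2 (h.gf v).meas
  have m2 := aemeasurable_pi_iff.2 (h.gf v').meas
  rw [indepFun_iff_charFunDual_prod m1 m2]
  intro L
  rw [(h.gf v).charFun, (h.gf v').charFun, ← gc_add, charFunDual_apply,
    integral_map (m1.prodMk m2) (by fun_prop)]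
  have e : ∀ a b : H, ⟪a, b⟫_ℝ = 0 → ‖a‖ ^ 2 + ‖b‖ ^ 2 = ‖a + b‖ ^ 2 := fun a b hab => by
    rw [norm_add_sq_real, hab]; ring
  rw [e, ← h.law]
  · refine integral_congr_ae (Filter.Eventually.of_forall fun ω => ?_)
    simp only [ch]
    have e2 : L ((fun j => W (v j) ω), fun j => W (v' j) ω) =
        (L.comp (.inl ℝ _ _)) (fun j => W (v j) ω) + (L.comp (.inr ℝ _ _)) (fun j => W (v' j) ω) := by
      simp only [ContinuousLinearMap.comp_apply, ← map_add]
      simp
    rw [e2, dual_pi, dual_pi (L.comp (.inr ℝ _ _))]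
    simp [map_sum, Finset.sum_apply]
  · simp [sum_inner, inner_sum, real_inner_smul_left, real_inner_smul_right, ho]

theorem Iso.map_eq [IsProbabilityMeasure P] {W : H →ₗ[ℝ] (Ω → ℝ)} (h : Iso P W) (v : H) :
    P.map (W v) = gaussianReal 0 (‖v‖₊ ^ 2) := by
  refine Measure.ext_of_charFun (funext fun t => ?_)
  have e1 := integral_ch_gauss (‖v‖₊ ^ 2) t
  have e2 := h.law (t • v)
  rw [charFun_apply_real, charFun_apply_real, integral_map (h.meas v).aemeasurable (by fun_prop)]
  simp only [ch, Complex.ofReal_mul, map_smul, Pi.smul_apply, smul_eq_mul] at e1 e2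
  rw [e1, e2, norm_smul, mul_pow, Real.norm_eq_abs, sq_abs]
  simp

theorem Iso.tail [IsProbabilityMeasure P] {W : H →ₗ[ℝ] (Ω → ℝ)} (h : Iso P W) {v : H} {V t : ℝ}
    (hV : ‖v‖ ^ 2 ≤ V) (ht : 0 ≤ t) (a : ℝ) :
    P.real {ω | a ≤ W v ω} ≤ Real.exp (-t * a + V * t ^ 2 / 2) := by
  have hi : Integrable (fun ω => Real.exp (t * W v ω)) P := by
    have := integrable_exp_mul_gaussianReal (μ := 0) (v := ‖v‖₊ ^ 2) t
    rw [← h.map_eq v] at this
    exact (integrable_map_measure this.aestronglyMeasurable (h.meas v).aemeasurable).1 this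
  refine (measure_ge_le_exp_mul_mgf a ht hi).trans ?_
  rw [mgf_gaussianReal (h.map_eq v), ← Real.exp_add]
  refine Real.exp_le_exp.2 ?_
  have : ((‖v‖₊ ^ 2 : NNReal) : ℝ) * t ^ 2 ≤ V * t ^ 2 :=
    mul_le_mul_of_nonneg_right (by simpa using hV) (sq_nonneg t)
  linarith

theorem exists_iso (H : Type) [NormedAddCommGroup H] [InnerProductSpace ℝ H] [CompleteSpace H] :
    ∃ (Ω : Type) (_ : MeasurableSpace Ω) (P : Measure Ω) (_ : IsProbabilityMeasure P)
      (W : H →ₗ[ℝ] (Ω → ℝ)), Iso P W := by
  classical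
  obtain ⟨w, b, -⟩ := exists_hilbertBasis ℝ H
  let P : Measure (w → ℝ) := Measure.infinitePi fun _ => gaussianReal 0 1
  have hi : iIndepFun (fun (i : w) (ω : w → ℝ) => ω i) P :=
    iIndepFun_infinitePi (X := fun _ x => x) (P := fun _ => gaussianReal 0 1)
      fun _ => measurable_id
  have hm : ∀ i : w, MeasurePreserving (fun ω : w → ℝ => ω i) P (gaussianReal 0 1) :=
    fun i => measurePreserving_eval_infinitePi _ i
  have hL : ∀ i : w, MemLp (fun ω : w → ℝ => ω i) 2 P := fun i =>
    (memLp_id_gaussianReal' 2 (by simp)).comp_measurePreserving (hm i)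
  let ξ : w → Lp ℝ 2 P := fun i => (hL i).toLp _
  have h0 : ∀ i : w, ∫ ω, ω i ∂P = 0 := fun i => by
    rw [← integral_id_gaussianReal (μ := 0) (v := 1), ← (hm i).map_eq,
      integral_map (hm i).measurable.aemeasurable (by fun_prop)]
  have ho : Orthonormal ℝ ξ := by
    rw [orthonormal_iff_ite]
    intro i j
    have e : ⟪ξ i, ξ j⟫_ℝ = ∫ ω, ω i * ω j ∂P := by
      rw [L2.inner_def]
      refine integral_congr_ae ?_
      filter_upwards [(hL i).coeFn_toLp, (hL j).coeFn_toLp] with ω h1 h2
      simp only [ξ, h1, h2]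
      simp [mul_comm]
    rw [e]
    split_ifs with hij
    · subst hij
      have h1 := variance_fun_id_gaussianReal (μ := 0) (v := 1)
      rw [variance_eq_integral (by fun_prop), integral_id_gaussianReal, ← (hm i).map_eq,
        integral_map (hm i).measurable.aemeasurable (by fun_prop)] at h1
      simpa [sq] using h1
    · rw [(hi.indepFun hij).integral_fun_mul_eq_mul_integral (hL i).1 (hL j).1]
      simp [h0]
  let W0 : H →ₗᵢ[ℝ] Lp ℝ 2 P := ho.orthogonalFamily.linearIsometry.comp b.repr.toLinearIsometry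
  have hb : ∀ i, W0 (b i) = ξ i := fun i => by
    show ho.orthogonalFamily.linearIsometry (b.repr (b i)) = _
    rw [b.repr_self, OrthogonalFamily.linearIsometry_apply_single]
    simp
  have hc : Continuous fun h : H => ∫ ω, ch (W0 h ω) ∂P := by
    refine (LipschitzWith.of_dist_le_mul (K := 1) fun x y => ?_).continuous
    rw [dist_eq_norm, ← integral_sub (integrable_ch (Lp.aestronglyMeasurable _).aemeasurable)
      (integrable_ch (Lp.aestronglyMeasurable _).aemeasurable), dist_eq_norm, NNReal.coe_one,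
      one_mul, ← W0.norm_map, map_sub]
    have i1 : Integrable (W0 x - W0 y : Lp ℝ 2 P) P := (Lp.memLp _).integrable (by norm_num)
    calc _ ≤ ∫ ω, ‖(W0 x - W0 y : Lp ℝ 2 P) ω‖ ∂P := by
          refine norm_integral_le_of_norm_le i1.norm ?_
          filter_upwards [Lp.coeFn_sub (W0 x) (W0 y)] with ω h
          rw [h]
          exact norm_ch_sub _ _
      _ ≤ _ := by
          rw [Lp.norm_def, integral_norm_eq_lintegral_enorm i1.1, ← eLpNorm_one_eq_lintegral_enorm]
          exact ENNReal.toReal_mono (Lp.eLpNorm_ne_top _)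
            (eLpNorm_le_eLpNorm_of_exponent_le (by norm_num) i1.1)
  have hlaw : ∀ h : H, ∫ ω, ch (W0 h ω) ∂P = gc (‖h‖ ^ 2) := by
    have hcl : IsClosed {h : H | ∫ ω, ch (W0 h ω) ∂P = gc (‖h‖ ^ 2)} :=
      isClosed_eq hc (by unfold gc; fun_prop)
    have hsub : (Submodule.span ℝ (Set.range b) : Set H) ⊆
        {h : H | ∫ ω, ch (W0 h ω) ∂P = gc (‖h‖ ^ 2)} := by
      intro h hh
      obtain ⟨c, rfl⟩ := Finsupp.mem_span_range_iff_exists_finsupp.1 hh
      have e1 : ∀ s : Finset w, (W0 (∑ i ∈ s, c i • b i) : (w → ℝ) → ℝ) =ᵐ[P]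
          fun ω => ∑ i ∈ s, c i * ω i := by
        intro s
        induction s using Finset.induction_on with
        | empty =>
          rw [Finset.sum_empty, map_zero]
          exact Lp.coeFn_zero ℝ 2 P
        | insert a s ha ih =>
          rw [Finset.sum_insert ha, map_add, map_smul, hb]
          filter_upwards [ih, Lp.coeFn_add (c a • ξ a) (W0 (∑ i ∈ s, c i • b i)),
            Lp.coeFn_smul (c a) (ξ a), (hL a).coeFn_toLp] with ω h1 h2 h3 h4
          rw [h2, Pi.add_apply, h1, h3, Finset.sum_insert ha, Pi.smul_apply, smul_eq_mul]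
          exact congrArg (fun t => c a * t + _) h4
      show ∫ ω, ch (W0 (∑ i ∈ c.support, c i • b i) ω) ∂P = gc (‖∑ i ∈ c.support, c i • b i‖ ^ 2)
      refine (integral_congr_ae ((e1 _).fun_comp ch)).trans ?_
      rw [← real_inner_self_eq_norm_sq, b.orthonormal.inner_sum, gc_sum]
      simp only [Function.comp_def, ch_sum]
      have h2 := (hi.precomp (g := fun i : c.support => (i : w))
        Subtype.val_injective).integral_fun_prod_comp
        (f := fun (i : c.support) (x : ℝ) => ch (c i * x))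
        (fun i : c.support => (hm i).measurable.aemeasurable)
        (fun i => (continuous_ch.comp (by fun_prop)).aestronglyMeasurable)
      simp only [Finset.univ_eq_attach] at h2
      rw [← Finset.prod_attach c.support, ← h2.symm.trans (integral_congr_ae
        (Filter.Eventually.of_forall fun ω =>
          Finset.prod_attach c.support fun i => ch (c i * ω i)))]
      refine Finset.prod_congr rfl fun i _ => ?_
      have h3 := integral_ch_gauss 1 (c i)
      rw [← (hm i).map_eq, integral_map (f := fun x => ch (c i * x))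
        (hm i).measurable.aemeasurable
        (continuous_ch.comp (by fun_prop)).aestronglyMeasurable] at h3
      simpa [sq] using h3
    intro h
    have : h ∈ (Submodule.span ℝ (Set.range b)).topologicalClosure := by
      rw [b.dense_span]; trivial
    exact closure_minimal hsub hcl this
  let B := Module.Basis.ofVectorSpace ℝ H
  let W : H →ₗ[ℝ] ((w → ℝ) → ℝ) := B.constr ℝ fun j => (W0 (B j) : (w → ℝ) → ℝ)
  have key : ∀ h : H, Measurable (W h) ∧ W h =ᵐ[P] W0 h := by
    intro h
    have : h ∈ Submodule.span ℝ (Set.range B) := by rw [B.span_eq]; trivial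
    induction this using Submodule.span_induction with
    | mem x hx =>
      obtain ⟨j, rfl⟩ := hx
      simp only [W, Module.Basis.constr_basis]
      exact ⟨(Lp.stronglyMeasurable _).measurable, Filter.EventuallyEq.rfl⟩
    | zero =>
      rw [map_zero, map_zero]
      exact ⟨measurable_zero, (Lp.coeFn_zero ℝ 2 P).symm⟩
    | add x y _ _ hx hy =>
      rw [map_add, map_add]
      exact ⟨hx.1.add hy.1, (hx.2.add hy.2).trans (Lp.coeFn_add _ _).symm⟩
    | smul a x _ hx =>
      rw [map_smul, map_smul]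
      exact ⟨hx.1.const_smul a, (hx.2.const_smul a).trans (Lp.coeFn_smul _ _).symm⟩
  exact ⟨w → ℝ, inferInstance, P, inferInstance, W, fun h => (key h).1,
    fun h => (integral_congr_ae ((key h).2.fun_comp ch)).trans (hlaw h)⟩

end Pool.Agent.Lib.MP_a0a493_pr
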