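import Pool.Agent.Lib.MP_a0a493_pr.STopo
import Pool.Agent.Lib.MP_a0a493_pr.Iso

/-! A countable description of crossings; equality in law and the zero-one law. -/

namespace Pool.Agent.Lib.MP_a0a493_pr

open MeasureTheory ProbabilityTheory Set Filter Metric Topology
open scoped InnerProductSpace

section J

variable {X D : Type*} [NormedAddCommGroup X]

/-- admissible vertices of a chain -/
def St (e : D → X) (y : ℕ × D → ℝ) (β : ℝ) (N L m : ℕ) (i : D) : Prop :=
  ‖e i‖ ≤ L ∧ ∀ n, N ≤ n → n ≤ m → β * n ≤ y (n, i)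

/-- arbitrarily fine chains of admissible vertices join two balls -/
def Jn (e : D → X) (y : ℕ × D → ℝ) (β : ℝ) (a b : X) (ε : ℝ) : Prop :=
  ∃ N L : ℕ, ∀ m : ℕ, ∃ p q, dist (e p) a ≤ ε ∧ dist (e q) b ≤ ε ∧ St e y β N L m p ∧
    Relation.ReflTransGen (fun i j => St e y β N L m j ∧ dist (e i) (e j) ≤ 1 / ((m : ℝ) + 1)) p q

/-- the same for all levels below `β` -/
def JA (e : D → X) (β : ℝ) (a b : X) (ε : ℝ) : Set (ℕ × D → ℝ) :=
  {y | ∀ k : ℕ, Jn e y (β - 1 / ((k : ℝ) + 1)) a b ε}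

theorem meas_rtg {Y : Type*} [MeasurableSpace Y] [Countable D] {r : Y → D → D → Prop}
    (hr : ∀ i j, MeasurableSet {y | r y i j}) (p q : D) :
    MeasurableSet {y | Relation.ReflTransGen (r y) p q} := by
  let R : ℕ → D → Set Y := fun k => Nat.rec (fun q => {_y | p = q})
    (fun _ S q => ⋃ j, S j ∩ {y | r y j q}) k
  have mR : ∀ k q, MeasurableSet (R k q) := by
    intro k
    induction k with
    | zero => exact fun q => MeasurableSet.const _
    | succ k ih => exact fun q => MeasurableSet.iUnion fun j => (ih j).inter (hr j q)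
  have e : {y | Relation.ReflTransGen (r y) p q} = ⋃ k, R k q := by
    ext y
    simp only [mem_ofPred_eq, mem_iUnion]
    constructor
    · intro h
      induction h with
      | refl => exact ⟨0, rfl⟩
      | tail _ h ih =>
        obtain ⟨k, hk⟩ := ih
        exact ⟨k + 1, mem_iUnion.2 ⟨_, hk, h⟩⟩
    · rintro ⟨k, hk⟩
      induction k generalizing q with
      | zero => exact (show p = q from hk) ▸ Relation.ReflTransGen.refl
      | succ k ih =>
        obtain ⟨j, h1, h2⟩ := mem_iUnion.1 hk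
        exact (ih j h1).tail h2
  rw [e]
  exact MeasurableSet.iUnion fun k => mR k q

theorem meas_JA [Countable D] (e : D → X) (β : ℝ) (a b : X) (ε : ℝ) :
    MeasurableSet (JA e β a b ε) := by
  have h1 : ∀ (β : ℝ) (N L m : ℕ) (i : D), MeasurableSet {y | St e y β N L m i} := by
    intro β N L m i
    refine (MeasurableSet.const _).inter ?_
    change MeasurableSet {y : ℕ × D → ℝ | ∀ n, N ≤ n → n ≤ m → β * n ≤ y (n, i)}
    simp only [ofPred_forall]
    exact MeasurableSet.iInter fun n => MeasurableSet.iInter fun _ => MeasurableSet.iInter fun _ =>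
      measurableSet_le measurable_const (measurable_pi_apply _)
  unfold JA Jn
  simp only [ofPred_forall, ofPred_exists]
  refine MeasurableSet.iInter fun k => MeasurableSet.iUnion fun N => MeasurableSet.iUnion fun L =>
    MeasurableSet.iInter fun m => MeasurableSet.iUnion fun p => MeasurableSet.iUnion fun q =>
    (MeasurableSet.const _).inter ((MeasurableSet.const _).inter ((h1 _ N L m p).inter ?_))
  exact meas_rtg (r := fun (y : ℕ × D → ℝ) i j => St e y (β - 1 / ((k : ℝ) + 1)) N L m j ∧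
    dist (e i) (e j) ≤ 1 / ((m : ℝ) + 1))
    (fun i j => (h1 _ N L m j).inter (MeasurableSet.const _)) p q

theorem JA_mono {e e' : D → X} {y y' : ℕ × D → ℝ} {β ε : ℝ} {a b a' b' : X} {C : ℕ}
    (h1 : ∀ i j, dist (e' i) (e' j) ≤ dist (e i) (e j)) (h2 : ∀ i, ‖e' i‖ ≤ ‖e i‖ + C)
    (ha : ∀ i, dist (e' i) a' ≤ dist (e i) a) (hb : ∀ i, dist (e' i) b' ≤ dist (e i) b)
    (hy : ∀ (L : ℕ) (η : ℝ), 0 < η → ∃ N : ℕ, ∀ n, N ≤ n → ∀ i, ‖e i‖ ≤ L →
      y (n, i) - η * n ≤ y' (n, i))
    (h : y ∈ JA e β a b ε) : y' ∈ JA e' β a' b' ε := by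
  intro k
  obtain ⟨N, L, hJ⟩ := h (2 * k + 1)
  obtain ⟨N', hN'⟩ := hy L (1 / (((2 * k + 1 : ℕ) : ℝ) + 1)) Nat.one_div_pos_of_nat
  have key : ∀ m i, St e y (β - 1 / (((2 * k + 1 : ℕ) : ℝ) + 1)) N L m i →
      St e' y' (β - 1 / ((k : ℝ) + 1)) (max N N') (L + C) m i := by
    intro m i hi
    refine ⟨by push_cast; linarith [h2 i, hi.1], fun n n1 n2 => ?_⟩
    have a1 := hi.2 n ((le_max_left _ _).trans n1) n2
    have a2 := hN' n ((le_max_right _ _).trans n1) i hi.1
    have a3 : 1 / ((k : ℝ) + 1) = 2 * (1 / (((2 * k + 1 : ℕ) : ℝ) + 1)) := by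
      push_cast
      field_simp
      ring
    rw [a3]
    linarith
  refine ⟨max N N', L + C, fun m => ?_⟩
  obtain ⟨p, q, c1, c2, c3, c4⟩ := hJ m
  exact ⟨p, q, (ha p).trans c1, (hb q).trans c2, key m p c3,
    c4.lift id fun i j hij => ⟨key m j hij.1, (h1 i j).trans hij.2⟩⟩

theorem Jn_join [ProperSpace X] {e : D → X} {φ : ℕ → X → ℝ} (hφ : ∀ n, Continuous (φ n))
    {β ε : ℝ} {a b : X} (h : Jn e (fun t => φ t.1 (e t.2)) β a b ε) :
    ∃ (N : ℕ) (C : Set X), IsPreconnected C ∧ (∀ x ∈ C, ∀ n, N ≤ n → β * n ≤ φ n x) ∧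
      (∃ x ∈ C, dist x a ≤ ε) ∧ ∃ x ∈ C, dist x b ≤ ε := by
  obtain ⟨N, L, hJ⟩ := h
  let G : ℕ → Set X := fun m => {x | ‖x‖ ≤ L ∧ ∀ n, N ≤ n → n ≤ m → β * n ≤ φ n x}
  have hG : ∀ m, IsCompact (G m) := by
    intro m
    refine (isCompact_closedBall (0 : X) L).of_isClosed_subset ?_
      fun x hx => mem_closedBall_zero_iff.2 hx.1
    refine (isClosed_le continuous_norm continuous_const).inter ?_
    change IsClosed {x | ∀ n, N ≤ n → n ≤ m → β * n ≤ φ n x}
    simp only [ofPred_forall]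
    exact isClosed_iInter fun n => isClosed_iInter fun _ => isClosed_iInter fun _ =>
      isClosed_le continuous_const (hφ n)
  obtain ⟨C, c1, c2, c3, c4⟩ := limit_join hG
    (fun m m' hm x hx => ⟨hx.1, fun n n1 n2 => hx.2 n n1 (n2.trans hm)⟩)
    (isClosed_closedBall (x := a) (ε := ε)) (isClosed_closedBall (x := b) (ε := ε)) (fun m => by
      obtain ⟨p, q, c1, c2, c3, c4⟩ := hJ m
      exact ⟨e p, c1, e q, c2, c3, c4.lift e fun i j hij => hij⟩)
  exact ⟨N, C, c2, fun x hx n hn => (mem_iInter.1 (c1 hx) n).2 n hn le_rfl, c3, c4⟩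

theorem JA_of_compact {e : D → X} (he : DenseRange e) {φ : ℕ → X → ℝ}
    (hφ : ∀ n, Continuous (φ n)) {β ε : ℝ} {a b x y : X} {N : ℕ} {K : Set X} (hK : IsCompact K)
    (hc : IsPreconnected K) (hl : ∀ x ∈ K, ∀ n, N ≤ n → β * n ≤ φ n x) (hx : x ∈ K) (hy : y ∈ K)
    (ha : dist x a < ε) (hb : dist y b < ε) : (fun t => φ t.1 (e t.2)) ∈ JA e β a b ε := by
  intro k
  obtain ⟨R, hR⟩ := hK.isBounded.exists_norm_le
  obtain ⟨L, hL⟩ := exists_nat_gt R
  refine ⟨N + 1, L, fun m => ?_⟩
  let O : Set X := {x | ‖x‖ < L} ∩ ⋂ n ∈ Finset.Icc (N + 1) m,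
    {x | (β - 1 / ((k : ℝ) + 1)) * n < φ n x}
  have hO : IsOpen O := (isOpen_lt continuous_norm continuous_const).inter
    (isOpen_biInter_finset fun n _ => isOpen_lt continuous_const (hφ n))
  have hKO : K ⊆ O := fun z hz => ⟨(hR z hz).trans_lt hL, mem_iInter₂.2 fun n hn => by
    have h1 := (Finset.mem_Icc.1 hn).1
    have h2 := hl z hz n (by omega)
    have h3 : (0 : ℝ) < n := by exact_mod_cast (show 0 < n by omega)
    have h4 : 0 < 1 / ((k : ℝ) + 1) * n := mul_pos Nat.one_div_pos_of_nat h3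
    show (β - 1 / ((k : ℝ) + 1)) * n < φ n z
    linarith⟩
  have key : ∀ i, e i ∈ O →
      St e (fun t => φ t.1 (e t.2)) (β - 1 / ((k : ℝ) + 1)) (N + 1) L m i := fun i hi =>
    ⟨le_of_lt hi.1, fun n n1 n2 => le_of_lt (mem_iInter₂.1 hi.2 n (Finset.mem_Icc.2 ⟨n1, n2⟩))⟩
  obtain ⟨p, q, c1, c2, c3, c4⟩ := dense_chain he hK hc hO hKO
    (Nat.one_div_pos_of_nat (n := m)) hx hy ha hb
  exact ⟨p, q, c1, c2, key p c3, c4.lift id fun i j hij => ⟨key j hij.1, hij.2⟩⟩

end J

variable {Ω Ω' H H' T : Type*} [MeasurableSpace Ω] [MeasurableSpace Ω'] {P : Measure Ω}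
  {P' : Measure Ω'} [IsProbabilityMeasure P] [IsProbabilityMeasure P'] [NormedAddCommGroup H]
  [InnerProductSpace ℝ H] [NormedAddCommGroup H'] [InnerProductSpace ℝ H']

/-- equality in law of countable Gaussian families -/
theorem ae_transfer [Countable T] {X : T → Ω → ℝ} {v : T → H} {X' : T → Ω' → ℝ} {v' : T → H'}
    (h : ∀ I : Finset T, GF P (fun j : I => X j) fun j => v j)
    (h' : ∀ I : Finset T, GF P' (fun j : I => X' j) fun j => v' j)
    (hg : ∀ i j, ⟪v i, v j⟫_ℝ = ⟪v' i, v' j⟫_ℝ) {B : Set (T → ℝ)} (hB : MeasurableSet B)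
    (hX : ∀ᵐ ω ∂P, (fun t => X t ω) ∈ B) : ∀ᵐ ω ∂P', (fun t => X' t ω) ∈ B := by
  have m1 : AEMeasurable (fun ω t => X t ω) P :=
    aemeasurable_pi_lambda _ fun t => (h {t}).meas ⟨t, Finset.mem_singleton_self t⟩
  have m2 : AEMeasurable (fun ω t => X' t ω) P' :=
    aemeasurable_pi_lambda _ fun t => (h' {t}).meas ⟨t, Finset.mem_singleton_self t⟩
  have l1 := isProjectiveLimit_map (X := X) m1
  have l2 := isProjectiveLimit_map (X := X') m2
  have e : ∀ I : Finset T, P.map (fun ω => I.restrict (X · ω))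
      = P'.map (fun ω => I.restrict (X' · ω)) := fun I =>
    (h I).map_eq (h' I) fun i j => hg i j
  simp_rw [e] at l1
  have e2 := l1.unique l2
  rw [← ae_map_iff m2 (p := fun y => y ∈ B) hB, ← e2, ae_map_iff m1 (p := fun y => y ∈ B) hB]
  exact hX

/-- zero-one law for events invariant under Cameron-Martin shifts -/
theorem Iso.zero_one {W : H →ₗ[ℝ] (Ω → ℝ)} (h : Iso P W) (v : T → H) {B : Set (T → ℝ)}
    (hB : MeasurableSet B)
    (hs : ∀ (g : H) (y : T → ℝ), y ∈ B → (fun t => y t + ⟪g, v t⟫_ℝ) ∈ B) :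
    (∀ᵐ ω ∂P, (fun t => W (v t) ω) ∉ B) ∨ ∀ᵐ ω ∂P, (fun t => W (v t) ω) ∈ B := by
  classical
  let A : Set Ω := {ω | (fun t => W (v t) ω) ∈ B}
  have mX : Measurable fun ω t => W (v t) ω := measurable_pi_lambda _ fun t => h.meas _
  have mA : MeasurableSet A := mX hB
  have key : IndepFun (A.indicator (1 : Ω → ℝ)) (fun ω t => W (v t) ω) P := by
    refine IndepFun.indepFun_process (measurable_one.indicator mA) (fun t => h.meas _) fun I => ?_
    let V : Submodule ℝ H := Submodule.span ℝ (range fun i : I => v i)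
    have : FiniteDimensional ℝ V := FiniteDimensional.span_of_finite ℝ (finite_range _)
    let b := stdOrthonormalBasis ℝ V
    let u : T → H := fun t => v t - V.starProjection (v t)
    have i1 : IndepFun (fun ω t => W (u t) ω) (fun ω (i : I) => W (v i) ω) P := by
      refine IndepFun.process_indepFun (fun t => h.meas _)
        (measurable_pi_lambda _ fun t => h.meas _) fun J => ?_
      exact h.indep (fun j : J => u j) (fun i : I => v i) fun j i =>
        V.starProjection_inner_eq_zero _ _ (Submodule.subset_span ⟨i, rfl⟩)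
    have e1 : ∀ ω t, W (v t) ω = W (u t) ω + ⟪∑ j, W (b j) ω • (b j : H), v t⟫_ℝ := by
      intro ω t
      have e2 : V.starProjection (v t) = ∑ j, ⟪(b j : H), v t⟫_ℝ • (b j : H) :=
        b.starProjection_eq_sum_rankOne ▸ by simp
      simp only [u, map_sub, Pi.sub_apply, e2, map_sum, map_smul, Finset.sum_apply, Pi.smul_apply,
        smul_eq_mul, sum_inner, real_inner_smul_left]
      simp only [mul_comm]
      ring
    have e3 : A.indicator (1 : Ω → ℝ) = B.indicator 1 ∘ fun ω t => W (u t) ω := by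
      funext ω
      have : ω ∈ A ↔ (fun t => W (u t) ω) ∈ B := by
        constructor
        · intro hω
          have := hs (-∑ j, W (b j) ω • (b j : H)) _ hω
          simpa only [inner_neg_left, e1 ω, add_neg_cancel_right] using this
        · intro hω
          have := hs (∑ j, W (b j) ω • (b j : H)) _ hω
          simp only [← e1 ω] at this
          exact this
      by_cases hω : ω ∈ A
      · simp [hω, this.1 hω]
      · simp [hω, mt this.2 hω]
    rw [e3]
    exact i1.comp (measurable_one.indicator hB) measurable_id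
  have k2 := key.measure_inter_preimage_eq_mul {1} B (measurableSet_singleton 1) hB
  have e4 : A.indicator (1 : Ω → ℝ) ⁻¹' {1} = A := by
    ext ω
    by_cases hω : ω ∈ A <;> simp [hω]
  rw [e4] at k2
  change P (A ∩ A) = P A * P A at k2
  rw [inter_self] at k2
  by_cases h0 : P A = 0
  · exact Or.inl (measure_eq_zero_iff_ae_notMem.1 h0)
  · right
    have h1 : P A = 1 := by
      have := (ENNReal.mul_right_inj h0 (measure_ne_top P A)).1 ((mul_one _).trans k2)
      exact this.symm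
    exact (mem_ae_iff_prob_eq_one mA).2 h1

end Pool.Agent.Lib.MP_a0a493_pr
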