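import Pool.Agent.Lib.MP_a0a493_pr.Cell
import Pool.Agent.Lib.MP_a0a493_pr.SLaw

/-! Independence of the mollifier and invariance under isometries. -/

namespace Pool.Agent.Lib.MP_a0a493_pr

open MeasureTheory ProbabilityTheory Real Set Filter Metric Topology
open scoped InnerProductSpace

variable {d : ℕ} {ρ ρ' f g : E d → ℝ} {Ω : Type*} [MeasurableSpace Ω] {P : Measure Ω}
  [IsProbabilityMeasure P] {W : HH d →ₗ[ℝ] (Ω → ℝ)}

/-- the dyadic points -/
noncomputable def dy (t : ℕ × Zd d) : E d := yp t.1 0 t.2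

theorem yp_apply (k : ℕ) (z : E d) (x : Zd d) (i : Fin d) : yp k z x i = x i / 2 ^ k + z i := by
  simp only [yp, PiLp.add_apply, PiLp.smul_apply, pt_apply, smul_eq_mul, exp_neg, exp_jlog]
  ring

theorem yp_mul (k n : ℕ) (z : E d) (x : Zd d) :
    yp (k + n) z (((2 ^ k : ℕ) : ℤ) • x) = yp n z x := by
  ext i
  rw [yp_apply, yp_apply, Pi.smul_apply, smul_eq_mul, pow_add]
  push_cast
  field_simp

theorem dense_dy : DenseRange (dy (d := d)) := by
  refine Metric.denseRange_iff.2 fun u r hr => ?_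
  obtain ⟨m, hm⟩ := pow_unbounded_of_one_lt (d / r) (one_lt_two (α := ℝ))
  refine ⟨(m, fun i => ⌊2 ^ m * u i⌋), (dist_le_of (r := 1 / 2 ^ m) (by positivity)
    fun i => ?_).trans_lt ?_⟩
  · simp only [dy, yp_apply, PiLp.zero_apply, add_zero]
    have a1 := Int.floor_le (2 ^ m * u i)
    have a2 := Int.lt_floor_add_one (2 ^ m * u i)
    have e : u i - (⌊2 ^ m * u i⌋ : ℝ) / 2 ^ m = (2 ^ m * u i - ⌊2 ^ m * u i⌋) / 2 ^ m := by
      field_simp
    rw [e, abs_of_nonneg (div_nonneg (by linarith) (by positivity))]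
    gcongr
    linarith
  · rw [div_lt_iff₀ hr] at hm
    rw [mul_one_div, div_lt_iff₀ (by positivity)]
    linarith

omit [IsProbabilityMeasure P] in
theorem Iso.neg {H : Type*} [NormedAddCommGroup H] [InnerProductSpace ℝ H]
    {W : H →ₗ[ℝ] (Ω → ℝ)} (h : Iso P W) : Iso P (-W) := by
  have e : ∀ v, (-W) v = W (-v) := fun v => by simp
  exact ⟨fun v => e v ▸ h.meas _, fun v => by rw [e, h.law, norm_neg]⟩

theorem cell_ae (hd : 1 ≤ d) (h : Iso P W) (hρ : Test ρ) (h1 : ∫ x, ρ x = 1) (L : ℕ) {η : ℝ}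
    (hη : 0 < η) : ∀ᵐ ω ∂P, ∀ᶠ n : ℕ in atTop, ∀ w : Zd d, ‖yp n 0 w‖ ≤ L → ∀ j : ℕ,
      ∀ x ∈ box d (2 ^ j), W (Ev (-(n * log 2)) 0 (yp n 0 w) -
        vec (Af (dm ρ n (yp (j + n) (yp n 0 w) x)))) ω < η * n := by
  classical
  obtain ⟨C, C0, hC⟩ := cell_tail hd h hρ h1 (Nat.cast_nonneg (α := ℝ) L)
    (Λ := (d + 1) / η) (by positivity)
  let A : ℕ → Zd d → ℕ → Set Ω := fun n w j => {ω | ∃ x ∈ box d (2 ^ j),
    η * n ≤ W (Ev (-(n * log 2)) 0 (yp n 0 w) - vec (Af (dm ρ n (yp (j + n) (yp n 0 w) x)))) ω}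
  let B : ℕ → Set Ω := fun n =>
    {ω | ∃ w ∈ (box d ((L + 1) * 2 ^ n)).filter fun w => ‖yp n 0 w‖ ≤ L, ω ∈ ⋃ j, A n w j}
  have hA : ∀ n w, ‖yp n 0 w‖ ≤ L → P.real (⋃ j, A n w j) ≤ C * exp (-((d + 1) * n)) := by
    intro n w hw
    have m : Monotone (A n w) := monotone_nat_of_le_succ fun j ω ⟨x, hx, hω⟩ =>
      ⟨((2 ^ 1 : ℕ) : ℤ) • x, mem_box.2 fun i => by
        have := mem_box.1 hx i
        rw [Pi.smul_apply, smul_eq_mul, abs_mul]
        push_cast at this ⊢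
        rw [pow_succ (2 : ℤ) j]
        norm_num
        linarith, by rwa [show j + 1 + n = 1 + (j + n) by ring, yp_mul]⟩
    refine ENNReal.toReal_le_of_le_ofReal (by positivity) ?_
    rw [m.measure_iUnion]
    refine iSup_le fun j => (ENNReal.le_ofReal_iff_toReal_le (measure_ne_top _ _)
      (by positivity)).2 ((sub_le (hC j n _ hw (η * n)) fun ω hω => Or.inr hω).trans_eq ?_)
    congr 2
    field_simp
  have hB : ∀ n, P.real (B n) ≤ (9 * (L + 1)) ^ d * C * (1 / 2) ^ n := by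
    intro n
    refine (union_le _ _ fun w hw => hA n w (Finset.mem_filter.1 hw).2).trans ?_
    have c1 : (((box d ((L + 1) * 2 ^ n)).filter fun w => ‖yp n 0 w‖ ≤ L).card : ℝ)
        ≤ (9 * (L + 1)) ^ d * (2 ^ n) ^ d := by
      refine (Nat.cast_le.2 (Finset.card_filter_le _ _)).trans ?_
      rw [card_box, ← mul_pow]
      push_cast
      have : (1 : ℝ) ≤ 2 ^ n := one_le_pow₀ one_le_two
      have : (0 : ℝ) ≤ L * 2 ^ n := by positivity
      exact pow_le_pow_left₀ (by positivity) (by nlinarith) d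
    have c2 : exp (-((d + 1) * n)) ≤ (1 / 2) ^ ((d + 1) * n) := by
      have : exp (-((d + 1) * n)) = exp (-1) ^ ((d + 1) * n) := by
        rw [← exp_nat_mul]; push_cast; ring_nf
      rw [this]
      refine pow_le_pow_left₀ (exp_pos _).le ?_ _
      rw [exp_neg, one_div]
      exact inv_anti₀ two_pos (by linarith [add_one_le_exp (1 : ℝ)])
    have c3 : ((2 : ℝ) ^ n) ^ d * (1 / 2) ^ ((d + 1) * n) = (1 / 2) ^ n := by
      rw [add_mul, pow_add, one_mul, ← pow_mul, mul_comm n d, ← mul_assoc, ← mul_pow]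
      simp
    calc _ ≤ (9 * (L + 1)) ^ d * (2 ^ n) ^ d * (C * (1 / 2) ^ ((d + 1) * n)) := by gcongr
      _ = _ := by rw [← c3]; ring
  have hs : ∑' n, P (B n) ≠ ⊤ := by
    have s1 : Summable fun n : ℕ => (9 * (L + 1) : ℝ) ^ d * C * (1 / 2) ^ n :=
      summable_geometric_two.mul_left _
    refine ne_top_of_le_ne_top (s1.tsum_ofReal_ne_top) (ENNReal.tsum_le_tsum fun n => ?_)
    exact (ENNReal.le_ofReal_iff_toReal_le (measure_ne_top _ _) (by positivity)).2 (hB n)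
  filter_upwards [ae_eventually_notMem hs] with ω hω
  filter_upwards [hω] with n hn w hw j x hx
  by_contra hc
  refine hn ⟨w, Finset.mem_filter.2 ⟨mem_box.2 fun i => ?_, hw⟩,
    mem_iUnion.2 ⟨j, x, hx, not_lt.1 hc⟩⟩
  have a1 := le_dist (yp n 0 w) 0 i
  rw [dist_zero_right, yp_apply, PiLp.zero_apply, add_zero, sub_zero, abs_div,
    abs_of_pos (show (0 : ℝ) < 2 ^ n by positivity), div_le_iff₀ (by positivity)] at a1
  have a2 : |(w i : ℝ)| ≤ 2 * ((L + 1) * 2 ^ n) := by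
    have : (0 : ℝ) < 2 ^ n := by positivity
    have : (0 : ℝ) ≤ L := by positivity
    nlinarith
  exact_mod_cast a2

theorem cmp_ae (hd : 1 ≤ d) (h : Iso P W) (hρ : Test ρ) (h1 : ∫ x, ρ x = 1) (hρ' : Test ρ')
    (h1' : ∫ x, ρ' x = 1) : ∀ᵐ ω ∂P, ∀ (L : ℕ) (η : ℝ), 0 < η → ∀ᶠ n : ℕ in atTop,
      ∀ i, ‖dy i‖ ≤ L →
        W (vec (Af (dm ρ' n (dy i)))) ω - η * n ≤ W (vec (Af (dm ρ n (dy i)))) ω := by
  have a1 := ae_all_iff.2 fun L : ℕ => ae_all_iff.2 fun k : ℕ =>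
    (cell_ae hd h hρ h1 (L + 4 * d) (Nat.one_div_pos_of_nat (n := k))).and
      (cell_ae hd h.neg hρ' h1' (L + 4 * d) (Nat.one_div_pos_of_nat (n := k)))
  filter_upwards [a1] with ω hω L η hη
  obtain ⟨k, hk⟩ := exists_nat_one_div_lt (half_pos hη)
  filter_upwards [(hω L k).1, (hω L k).2] with n b1 b2
  rintro ⟨m, x⟩ hx
  have R0 : 0 < 2 ^ m := by positivity
  set p : Zd d := ((2 ^ n : ℕ) : ℤ) • x with hp
  have c1 := sub_mem_box R0 (p := p) (x := p) fun i => by simp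
  set w := cen (2 ^ m) p
  have c2 : dy (m, x) = yp (m + n) (yp n 0 w) (p - ((2 ^ m : ℕ) : ℤ) • w) := by
    rw [← yp_mul m n 0 w, ← yp_add, add_sub_cancel, hp, add_comm m n, yp_mul, dy]
  have c3 : ‖yp n 0 w‖ ≤ (L + 4 * d : ℕ) := by
    have e1 := dist_yp0 m n (yp n 0 w) c1
    rw [← c2] at e1
    have e2 : exp (-(n * log 2)) ≤ 1 := exp_le_one_iff.2 (neg_nonpos.2 (jlog n))
    have e3 := norm_le_norm_add_norm_sub' (yp n 0 w) (dy (m, x))
    rw [← dist_eq_norm] at e3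
    push_cast
    nlinarith [Nat.cast_nonneg (α := ℝ) d]
  have c4 := b1 w c3 m _ c1
  have c5 := b2 w c3 m _ c1
  rw [← c2] at c4 c5
  simp only [map_sub, Pi.sub_apply, LinearMap.neg_apply, Pi.neg_apply] at c4 c5
  nlinarith [Nat.cast_nonneg (α := ℝ) n]

theorem shift_small (hd : 1 ≤ d) (hρ : Test ρ) (h1 : ∫ x, ρ x = 1) (v : HH d) (L : ℕ) {η : ℝ}
    (hη : 0 < η) : ∃ N : ℕ, ∀ n, N ≤ n → ∀ x : E d, ‖x‖ ≤ L →
      |⟪v, vec (Af (dm ρ n x))⟫_ℝ| ≤ η * n := by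
  obtain ⟨b, R, hn⟩ := hρ.nice
  have R0 := hn.pos
  set K := 4 * (b ^ 2 * Kc d (R + L))
  have K0 : 0 ≤ K := by unfold K Kc; positivity
  obtain ⟨N, hN⟩ := exists_nat_ge (‖v‖ ^ 2 * (2 + 2 * K) / η ^ 2)
  refine ⟨N + 1, fun n hn' x hx => ?_⟩
  have a1 := dm_var hd hρ h1 hn n (x := x) (z := x) (δ := L) (by rw [dist_self]; positivity) hx
  have a2 := norm_Ev (neg_nonpos.2 (jlog n)) x
  have a3 := sq_sub_le (Ev (-(n * log 2)) 0 x) (Ev (-(n * log 2)) 0 x - vec (Af (dm ρ n x)))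
  rw [sub_sub_cancel] at a3
  have a4 : (N : ℝ) + 1 ≤ n := by exact_mod_cast hn'
  have a5 := log_le_sub_one_of_pos two_pos
  have N0 := Nat.cast_nonneg (α := ℝ) N
  have a6 : ‖vec (Af (dm ρ n x))‖ ^ 2 ≤ (2 + 2 * K) * n := by nlinarith
  refine (abs_real_inner_le_norm _ _).trans (abs_le_of_sq_le_sq' ?_ (by positivity)).2
  rw [div_le_iff₀ (by positivity)] at hN
  rw [mul_pow, mul_pow]
  have a7 := mul_le_mul_of_nonneg_left a6 (sq_nonneg ‖v‖)
  have a8 : ‖v‖ ^ 2 * (2 + 2 * K) * n ≤ n * η ^ 2 * n :=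
    mul_le_mul_of_nonneg_right (hN.trans (by nlinarith [sq_nonneg η])) (by positivity)
  nlinarith

theorem vecAf_comb (hd : 1 ≤ d) (hf : Test f) (hg : Test g) (f0 : ∫ x, f x = 0)
    (g0 : ∫ x, g x = 0) (a b : ℝ) :
    vec (Af (a • f + b • g)) = a • vec (Af f) + b • vec (Af g) := by
  rw [Af_comb hf.int hg.int, vec_add ((hf.ok hd f0).smul _) ((hg.ok hd g0).smul _),
    vec_smul (hf.ok hd f0), vec_smul (hg.ok hd g0)]

theorem int_iso (R : E d ≃ₗᵢ[ℝ] E d) (c : E d) (F : E d → ℝ) :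
    ∫ x, F (R (x - c)) = ∫ x, F x :=
  (integral_sub_right_eq_self (fun x => F (R x)) c).trans
    (R.measurePreserving.integral_comp R.toHomeomorph.measurableEmbedding F)

theorem Test.iso (hf : Test f) (R : E d ≃ₗᵢ[ℝ] E d) (c : E d) : Test fun x => f (R (x - c)) :=
  ⟨hf.1.comp (R.contDiff.comp (contDiff_id.sub contDiff_const)),
    hf.2.comp_homeomorph ((Homeomorph.subRight c).trans R.toHomeomorph)⟩

theorem norm_iso (hd : 2 ≤ d) (hf : Test f) (f0 : ∫ x, f x = 0) (R : E d ≃ₗᵢ[ℝ] E d) (c : E d) :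
    ‖vec (Af fun x => f (R (x - c)))‖ ^ 2 = ‖vec (Af f)‖ ^ 2 := by
  rw [energy hd hf.nice.choose_spec.choose_spec f0,
    energy hd (hf.iso R c).nice.choose_spec.choose_spec ((int_iso R c f).trans f0),
    ← int_iso R c fun x => ∫ y, f x * f y * log (1 / ‖x - y‖)]
  refine integral_congr_ae (Eventually.of_forall fun x => ?_)
  beta_reduce
  rw [← int_iso R c fun y => f (R (x - c)) * f y * log (1 / ‖R (x - c) - y‖)]
  simp only [← map_sub, sub_sub_sub_cancel_right, LinearIsometryEquiv.norm_map]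

theorem inner_iso (hd : 2 ≤ d) (hf : Test f) (hg : Test g) (f0 : ∫ x, f x = 0)
    (g0 : ∫ x, g x = 0) (R : E d ≃ₗᵢ[ℝ] E d) (c : E d) :
    ⟪vec (Af f), vec (Af g)⟫_ℝ
      = ⟪vec (Af fun x => f (R (x - c))), vec (Af fun x => g (R (x - c)))⟫_ℝ := by
  have hd1 : 1 ≤ d := by omega
  have a1 := norm_iso hd (hf.comb hg 1 1) (by rw [int_comb hf.int hg.int, f0, g0]; simp) R c
  have a2 := vecAf_comb hd1 (hf.iso R c) (hg.iso R c) ((int_iso R c f).trans f0)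
    ((int_iso R c g).trans g0) 1 1
  rw [vecAf_comb hd1 hf hg f0 g0] at a1
  replace a1 := (congrArg (fun v => ‖v‖ ^ 2) a2).symm.trans a1
  simp only [one_smul, norm_add_sq_real, norm_iso hd hf f0, norm_iso hd hg g0] at a1
  linarith

theorem dm_iso (ρ : E d → ℝ) (R : E d ≃ₗᵢ[ℝ] E d) (c x : E d) (n : ℕ) :
    (fun u => dm ρ n (R (x - c)) (R (u - c))) = (1 : ℝ) • dm (fun u => ρ (R (u - 0))) n x
      + (-1 : ℝ) • dm (fun u => ρ (R (u - 0))) 0 c := by
  funext u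
  simp only [dm, mol, Pi.add_apply, Pi.smul_apply, smul_eq_mul, ← map_sub, sub_zero, map_smul,
    sub_sub_sub_cancel_right, zero_sub, ← map_neg, neg_sub]
  ring

end Pool.Agent.Lib.MP_a0a493_pr
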