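import Pool.Agent.Lib.MP_a0a493_pr.BlkG
import Pool.Agent.Lib.MP_a0a493_pr.SMoll

/-! The vector of a test function in the spectral Hilbert space. -/

namespace Pool.Agent.Lib.MP_a0a493_pr

open MeasureTheory ProbabilityTheory Metric Real Set
open scoped InnerProductSpace

variable {d : ℕ} {f g ρ : E d → ℝ} {z : E d} {B R : ℝ}

/-- the Fourier transform at a rescaled frequency -/
noncomputable def Tf (f : E d → ℝ) (p : ℝ × E d) : ℂ := ∫ y, f y • ch (exp (-p.1) * ⟪p.2, y⟫_ℝ)

theorem meas_Tf (hf : Measurable f) : Measurable (Tf f) :=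
  ((by fun_prop : Measurable fun q : (ℝ × E d) × E d =>
    f q.2 • ch (exp (-q.1.1) * ⟪q.1.2, q.2⟫_ℝ)).stronglyMeasurable.integral_prod_right').measurable

theorem int_fch (hf : Integrable f) (l : ℝ) (ξ : E d) :
    Integrable fun y => f y • ch (l * ⟪ξ, y⟫_ℝ) :=
  hf.smul_of_top_left (memLp_top_of_bound (by fun_prop : Continuous _).aestronglyMeasurable 1
    (Filter.Eventually.of_forall fun _ => (norm_ch _).le))

theorem norm_Tf (p : ℝ × E d) : ‖Tf f p‖ ≤ ∫ y, |f y| :=
  (norm_integral_le_integral_norm _).trans_eq (by simp only [norm_smul, norm_ch, mul_one]; rfl)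

theorem Tf_comb (h : Integrable f) (h' : Integrable g) (a b : ℝ) :
    Tf (a • f + b • g) = a • Tf f + b • Tf g := by
  funext p
  simp only [Tf, Pi.add_apply, Pi.smul_apply, add_smul, smul_assoc]
  rw [← integral_smul, ← integral_smul]
  exact integral_add ((int_fch h _ _).smul a) ((int_fch h' _ _).smul b)

theorem Tf_sq (hm : Measurable f) (h : Integrable f) (s : ℝ) :
    ∫ ξ, ‖Tf f (s, ξ)‖ ^ 2 ∂stdGaussian (E d) =
      ∫ q : E d × E d, f q.1 * f q.2 * kg (exp (-s) • (q.2 - q.1)) ∂volume.prod volume := by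
  have i0 := h.mul_prod h
  have e : ∀ ξ, ‖Tf f (s, ξ)‖ ^ 2 = ∫ q : E d × E d,
      f q.1 * f q.2 * cos ⟪ξ, exp (-s) • (q.2 - q.1)⟫_ℝ ∂volume.prod volume := fun ξ => by
    rw [integral_prod _ (i0.mul_bdd (c := 1) (by fun_prop : Continuous _).aestronglyMeasurable
      (Filter.Eventually.of_forall fun q => abs_cos_le_one _)), ← real_inner_self_eq_norm_sq, Tf,
      real_inner_comm, ← integral_inner (int_fch h _ _)]
    refine integral_congr_ae (Filter.Eventually.of_forall fun x => ?_)
    simp only []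
    rw [real_inner_comm, ← integral_inner (int_fch h _ _)]
    refine integral_congr_ae (Filter.Eventually.of_forall fun y => ?_)
    simp only [real_inner_smul_left, real_inner_smul_right, inner_ch, inner_sub_right, mul_sub]
    ring
  simp only [e]
  rw [integral_integral_swap]
  · simp only [integral_const_mul, int_cos]
  · exact ((integrable_const (1 : ℝ)).mul_prod i0.abs).mono'
      (by fun_prop : Measurable _).aestronglyMeasurable (Filter.Eventually.of_forall fun q => by
        rw [one_mul, Function.uncurry, Real.norm_eq_abs, abs_mul]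
        exact mul_le_of_le_one_right (abs_nonneg _) (abs_cos_le_one _))

theorem int_kg : Integrable (kg : E d → ℝ) := by
  have := GaussianFourier.integral_rexp_neg_mul_sq_norm (V := E d) (b := 1 / 2) (by norm_num)
  have e : (kg : E d → ℝ) = fun v => exp (-(1 / 2) * ‖v‖ ^ 2) := by
    funext v; rw [kg]; ring_nf
  rw [e]
  exact .of_integral_ne_zero (by rw [this]; positivity)

/-- transform minus that of a point mass above the scale `exp α` -/
noncomputable def DG (f : E d → ℝ) (z : E d) (α : ℝ) (p : ℝ × E d) : ℂ :=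
  Tf f p - (∫ y, f y) • if α < p.1 then ch (exp (-p.1) * ⟪p.2, z⟫_ℝ) else 0

theorem norm_DG (hd : 1 ≤ d) (h : Nice f z B R) (α : ℝ) : MemLp (DG f z α) 2 (gm d) ∧
    ‖gv (DG f z α)‖ ^ 2 ≤ B * (B * (V1 d * R ^ d)) * ((∫ w : E d, kg w) * exp α ^ d) +
      (B * (V1 d * R ^ d) * (R * exp (-α))) ^ 2 * ∫ ξ, ‖ξ‖ ^ 2 ∂stdGaussian (E d) := by
  have hB := h.nonneg
  have hV := V1_pos d
  have hR := h.pos
  have hl := h.l1
  have hm := h.meas
  have h0 : 0 ≤ ∫ y, |f y| := integral_nonneg fun _ => abs_nonneg _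
  have k0 : 0 ≤ ∫ w : E d, kg w := integral_nonneg fun _ => (kg_pos _).le
  have k1 : 0 ≤ ∫ ξ, ‖ξ‖ ^ 2 ∂stdGaussian (E d) := integral_nonneg fun _ => sq_nonneg _
  set a := B * (B * (V1 d * R ^ d)) * ((∫ w : E d, kg w) * exp α ^ d)
  set b := (B * (V1 d * R ^ d) * (R * exp (-α))) ^ 2 * ∫ ξ, ‖ξ‖ ^ 2 ∂stdGaussian (E d)
  have i1 : Integrable ((Iic α).indicator fun s => a * exp (-α) * exp s) :=
    (integrable_indicator_iff measurableSet_Iic).2 ((integrableOn_exp_Iic α).const_mul _)
  have i2 : Integrable ((Ioi α).indicator fun s => b * exp α * exp (-s)) :=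
    (integrable_indicator_iff measurableSet_Ioi).2 ((integrableOn_exp_neg_Ioi α).const_mul _)
  have m : Measurable (DG f z α) := (meas_Tf hm).sub ((Measurable.ite
    (f := fun p : ℝ × E d => ch (exp (-p.1) * ⟪p.2, z⟫_ℝ))
    (measurable_fst measurableSet_Ioi) (by fun_prop) measurable_const).fun_const_smul (∫ y, f y))
  have p2 : ∀ s > α, ∀ ξ, ‖DG f z α (s, ξ)‖ ^ 2
      ≤ (B * (V1 d * R ^ d) * (R * exp (-s))) ^ 2 * ‖ξ‖ ^ 2 := by
    intro s hs ξ
    rw [← mul_pow]
    refine pow_le_pow_left₀ (norm_nonneg _) ?_ 2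
    simp only [DG, show α < s from hs, if_true, Tf]
    rw [← integral_smul_const, ← integral_sub (int_fch h.int _ _) (h.int.smul_const _)]
    refine (norm_integral_le_of_norm_le (h.int.abs.mul_const (R * exp (-s) * ‖ξ‖))
      (Filter.Eventually.of_forall fun y => ?_)).trans ?_
    · by_cases hy : f y = 0
      · simp [hy]
      rw [← smul_sub, norm_smul]
      refine mul_le_mul_of_nonneg_left ((norm_ch_sub _ _).trans ?_) (abs_nonneg _)
      rw [← mul_sub, ← inner_sub_right, abs_mul, abs_of_pos (exp_pos _), mul_comm R, mul_assoc,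
        mul_comm R]
      refine mul_le_mul_of_nonneg_left ((abs_real_inner_le_norm _ _).trans ?_) (exp_pos _).le
      rw [← dist_eq_norm']
      exact mul_le_mul_of_nonneg_left (h.sup y hy).le (norm_nonneg _)
    · rw [integral_mul_const, mul_assoc (B * _)]
      gcongr
  have := gv_bound m (fun s => ?_) (i1.add i2) fun s => ?_
  · refine ⟨this.1, this.2.trans (le_of_eq ?_)⟩
    rw [integral_add' i1 i2, integral_indicator measurableSet_Iic,
      integral_indicator measurableSet_Ioi, integral_const_mul, integral_const_mul, integral_exp_Iic,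
      integral_exp_neg_Ioi, mul_assoc a, mul_assoc b, ← exp_add, ← exp_add]
    simp
  · have m2 : AEStronglyMeasurable (fun ξ => ‖DG f z α (s, ξ)‖ ^ 2) (stdGaussian (E d)) :=
      (by fun_prop : Measurable _).aestronglyMeasurable
    rcases le_or_gt s α with hs | hs
    · refine .of_bound m2 ((∫ y, |f y|) ^ 2) (Filter.Eventually.of_forall fun ξ => ?_)
      simp only [DG, not_lt.2 hs, if_false, smul_zero, sub_zero, norm_pow, norm_norm]
      exact pow_le_pow_left₀ (norm_nonneg _) (norm_Tf _) 2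
    · exact (int_sq.const_mul _).mono' m2 (Filter.Eventually.of_forall fun ξ => by
        rw [Real.norm_of_nonneg (sq_nonneg _)]; exact p2 s hs ξ)
  · rcases le_or_gt s α with hs | hs
    · rw [Pi.add_apply, indicator_of_mem (mem_Iic.2 hs),
        indicator_of_notMem (show s ∉ Ioi α from not_lt.2 hs), add_zero]
      simp only [DG, not_lt.2 hs, if_false, smul_zero, sub_zero]
      have j : ∀ x : E d, Integrable fun y : E d => kg (exp (-s) • (y - x)) := fun x =>
        (int_kg.comp_smul (exp_pos _).ne').comp_sub_right x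
      rw [Tf_sq hm h.int, integral_prod _ ((h.int.mul_prod h.int).mul_bdd (c := 1)
        (by fun_prop : Continuous _).aestronglyMeasurable (Filter.Eventually.of_forall fun q => by
          rw [Real.norm_of_nonneg (kg_pos _).le]; exact kg_le_one _))]
      refine (Real.le_norm_self _).trans ((norm_integral_le_of_norm_le (h.int.abs.mul_const
        (B * ((∫ w : E d, kg w) * exp s ^ d))) (Filter.Eventually.of_forall fun x => ?_)).trans ?_)
      · refine (norm_integral_le_of_norm_le ((j x).const_mul (|f x| * B))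
          (Filter.Eventually.of_forall fun y => ?_)).trans_eq ?_
        · rw [Real.norm_eq_abs, abs_mul, abs_mul, abs_of_pos (kg_pos _)]
          exact mul_le_mul_of_nonneg_right (mul_le_mul_of_nonneg_left (h.bd y) (abs_nonneg _))
            (kg_pos _).le
        · rw [integral_const_mul, integral_sub_right_eq_self (fun y : E d => kg (exp (-s) • y)),
            Measure.integral_comp_smul, finrank_euclideanSpace_fin, exp_neg, inv_pow, inv_inv,
            abs_of_pos (pow_pos (exp_pos s) d), smul_eq_mul]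
          ring
      · have a1 : exp s ^ d ≤ exp α ^ d * (exp (-α) * exp s) := by
          have : exp s = exp α * (exp (-α) * exp s) := by rw [← exp_add, ← exp_add]; ring_nf
          rw [congrArg (· ^ d) this, mul_pow]
          exact mul_le_mul_of_nonneg_left (pow_le_of_le_one (by positivity)
            (by rw [← exp_add]; exact exp_le_one_iff.2 (by linarith)) (by omega)) (by positivity)
        rw [integral_mul_const]
        calc _ ≤ B * (V1 d * R ^ d) * (B * ((∫ w : E d, kg w) * (exp α ^ d * (exp (-α) * exp s)))) := by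
              gcongr
          _ = _ := by ring
    · rw [Pi.add_apply, indicator_of_notMem (show s ∉ Iic α from not_le.2 hs),
        indicator_of_mem (mem_Ioi.2 hs), zero_add]
      refine (integral_mono_of_nonneg (Filter.Eventually.of_forall fun _ => sq_nonneg _)
        (int_sq.const_mul _) (Filter.Eventually.of_forall (p2 s hs))).trans ?_
      have a1 : exp (-s) ^ 2 ≤ exp (-α) ^ 2 * (exp α * exp (-s)) := by
        simp only [sq, ← exp_add]
        exact exp_le_exp.2 (by linarith)
      rw [integral_const_mul]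
      calc _ = (B * (V1 d * R ^ d) * R) ^ 2 * (∫ ξ, ‖ξ‖ ^ 2 ∂stdGaussian (E d)) * exp (-s) ^ 2 := by
            ring
        _ ≤ (B * (V1 d * R ^ d) * R) ^ 2 * (∫ ξ, ‖ξ‖ ^ 2 ∂stdGaussian (E d))
            * (exp (-α) ^ 2 * (exp α * exp (-s))) := by gcongr
        _ = _ := by ring

/-- the constant in the scale free bound -/
noncomputable def KG (d : ℕ) (κ : ℝ) : ℝ :=
  V1 d * κ ^ d * (∫ w : E d, kg w) + (V1 d * κ ^ d * κ) ^ 2 * ∫ ξ, ‖ξ‖ ^ 2 ∂stdGaussian (E d)

theorem norm_DG' (hd : 1 ≤ d) {b κ α : ℝ} (h : Nice f z (b * exp (-α) ^ d) (κ * exp α)) :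
    ‖gv (DG f z α)‖ ^ 2 ≤ b ^ 2 * KG d κ := by
  refine (norm_DG hd h α).2.trans (le_of_eq ?_)
  rw [KG, exp_neg, inv_pow, mul_pow κ]
  have := exp_pos α
  field_simp

theorem Test.memG (hd : 1 ≤ d) (h : Test f) (h0 : ∫ y, f y = 0) : MemLp (Tf f) 2 (gm d) := by
  have := (norm_DG hd h.nice.choose_spec.choose_spec 0).1
  rwa [show DG f 0 0 = Tf f from funext fun p => by simp [DG, h0]] at this

/-- the regularised radial kernel -/
noncomputable def Dr (s : ℝ) : ℝ := dp 1 s - if 0 < s then 1 else 0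

theorem int_Dr : Integrable Dr := by
  have i1 : Integrable ((Iic 0).indicator fun s => exp 1 * exp s) :=
    (integrable_indicator_iff measurableSet_Iic).2 ((integrableOn_exp_Iic 0).const_mul _)
  have i2 : Integrable ((Ioi 0).indicator fun s => exp (-s)) :=
    (integrable_indicator_iff measurableSet_Ioi).2 (integrableOn_exp_neg_Ioi 0)
  refine (i1.add i2).mono' ((continuous_dp 1).measurable.sub (Measurable.ite measurableSet_Ioi
    measurable_const measurable_const)).aestronglyMeasurable (Filter.Eventually.of_forall fun s => ?_)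
  have a := exp_pos (-s)
  rw [Dr, Pi.add_apply, Real.norm_eq_abs]
  rcases le_or_gt s 0 with hs | hs
  · rw [indicator_of_mem (mem_Iic.2 hs), indicator_of_notMem (show s ∉ Ioi 0 from not_lt.2 hs),
      if_neg (not_lt.2 hs), sub_zero, add_zero, abs_of_pos (dp_pos _ _), ← exp_add]
    exact exp_le_exp.2 (by nlinarith [add_one_le_exp (-s)])
  · rw [indicator_of_notMem (show s ∉ Iic 0 from not_le.2 hs), indicator_of_mem (mem_Ioi.2 hs),
      if_pos hs, zero_add, abs_sub_comm, abs_of_nonneg (sub_nonneg.2 (dp_le_one one_pos.le s)), dp]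
    have b : exp (-s) ≤ 1 := exp_le_one_iff.2 (by linarith)
    nlinarith [add_one_le_exp (-(exp (-s) ^ 2 * 1) / 2)]

theorem energyG (hd : 2 ≤ d) (h : Test f) (h0 : ∫ y, f y = 0) :
    ‖gv (Tf f)‖ ^ 2 = ‖vec (Af f)‖ ^ 2 := by
  obtain ⟨B, R, hn⟩ := h.nice
  have hf := hn.meas
  let D : E d → ℝ → ℝ := fun w s => kg (exp (-s) • w) - if 0 < s then 1 else 0
  have hc : ∀ w : E d, w ≠ 0 → Integrable (D w) ∧
      ∫ s, D w s = (∫ s, Dr s) - log ‖w‖ ∧ ∫ s, ‖D w s‖ ≤ (∫ s, ‖Dr s‖) + |log ‖w‖| := by
    intro w hw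
    have hw' : 0 < ‖w‖ := norm_pos_iff.2 hw
    have e1 : D w = fun s => Dr (s - log ‖w‖) +
        ((if 0 < s - log ‖w‖ then 1 else 0) - if 0 < s then 1 else 0 : ℝ) := by
      funext s
      simp only [D, Dr, dp, kg]
      rw [norm_smul, Real.norm_of_nonneg (exp_pos _).le, neg_sub, sub_eq_add_neg (log ‖w‖),
        exp_add, exp_log hw']
      ring_nf
    obtain ⟨j1, j2, j3⟩ := int_step (log ‖w‖)
    have i2 := int_Dr.comp_sub_right (log ‖w‖)
    rw [e1]
    refine ⟨i2.add j1, ?_, ?_⟩
    · rw [integral_add i2 j1, j2, integral_sub_right_eq_self Dr]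
      ring
    · rw [← j3, ← integral_sub_right_eq_self (fun s => ‖Dr s‖) (log ‖w‖),
        ← integral_add i2.norm j1.norm]
      exact integral_mono (i2.add j1).norm (i2.norm.add j1.norm) fun s => norm_add_le _ _
  have i0 := hn.int.mul_prod hn.int
  have z0 : ∫ q : E d × E d, f q.1 * f q.2 ∂volume.prod volume = 0 := by
    rw [integral_prod_mul, h0, mul_zero]
  have il := int_log hd hn
  have : Nontrivial (E d) := Module.nontrivial_of_finrank_pos (R := ℝ)
    (by rw [finrank_euclideanSpace_fin]; omega)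
  have ne : ∀ᵐ q : E d × E d ∂volume.prod volume, q.2 - q.1 ≠ 0 :=
    (Measure.ae_prod_iff_ae_ae ((measurableSet_eq_fun (by fun_prop) measurable_const).compl)).2
      (Filter.Eventually.of_forall fun x => (volume.ae_ne x).mono fun y hy => sub_ne_zero.2 hy)
  have m : AEStronglyMeasurable (fun p : (E d × E d) × ℝ =>
      f p.1.1 * f p.1.2 * D (p.1.2 - p.1.1) p.2) ((volume.prod volume).prod volume) :=
    (Measurable.mul (by fun_prop) (Measurable.sub (by fun_prop) (Measurable.ite
      (measurable_snd measurableSet_Ioi) measurable_const measurable_const))).aestronglyMeasurable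
  have i := (integrable_prod_iff m).2 ⟨ne.mono fun q hq => (hc _ hq).1.const_mul (f q.1 * f q.2),
    ((i0.abs.mul_const _).add il.abs).mono' m.norm.integral_prod_right' (ne.mono fun q hq => by
      rw [Real.norm_of_nonneg (integral_nonneg fun _ => norm_nonneg _)]
      simp only [norm_mul (f q.1 * f q.2), Pi.add_apply]
      rw [integral_const_mul, abs_mul (f q.1 * f q.2), ← mul_add]
      exact mul_le_mul_of_nonneg_left (hc _ hq).2.2 (abs_nonneg _))⟩
  have e1 : ∀ s, ∫ q : E d × E d, f q.1 * f q.2 * kg (exp (-s) • (q.2 - q.1)) ∂volume.prod volume =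
      ∫ q : E d × E d, f q.1 * f q.2 * D (q.2 - q.1) s ∂volume.prod volume := fun s => by
    simp only [D, mul_sub]
    rw [integral_sub (i0.mul_bdd (c := 1) (g := fun q => kg (exp (-s) • (q.2 - q.1)))
      (by fun_prop : Continuous _).aestronglyMeasurable (Filter.Eventually.of_forall fun q => by
        rw [Real.norm_of_nonneg (kg_pos _).le]; exact kg_le_one _)) (i0.mul_const _),
      integral_mul_const, z0, zero_mul, sub_zero]
  rw [energy hd hn h0, ← real_inner_self_eq_norm_sq,
    inner_gv (h.memG (by omega) h0) (h.memG (by omega) h0)]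
  simp only [real_inner_self_eq_norm_sq, Tf_sq hf hn.int, e1]
  rw [← integral_integral_swap i]
  calc _ = ∫ q : E d × E d, f q.1 * f q.2 * (∫ s, Dr s) - f q.1 * f q.2 * log ‖q.2 - q.1‖
        ∂volume.prod volume := integral_congr_ae (ne.mono fun q hq => by
          simp only []
          rw [integral_const_mul, (hc _ hq).2.1, mul_sub])
    _ = -∫ x, ∫ y, f x * f y * log ‖y - x‖ := by
        rw [integral_sub (i0.mul_const _) il, integral_mul_const, z0, zero_mul, zero_sub,
          integral_prod _ il]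
    _ = _ := by
        simp only [one_div, log_inv, mul_neg, integral_neg, norm_sub_rev]

theorem innerG (hd : 2 ≤ d) (hf : Test f) (hg : Test g) (f0 : ∫ x, f x = 0) (g0 : ∫ x, g x = 0) :
    ⟪gv (Tf f), gv (Tf g)⟫_ℝ = ⟪vec (Af f), vec (Af g)⟫_ℝ := by
  have hd1 : 1 ≤ d := by omega
  have a1 := energyG hd (hf.comb hg 1 1) (by rw [int_comb hf.int hg.int, f0, g0]; simp)
  rw [vecAf_comb hd1 hf hg f0 g0, Tf_comb hf.int hg.int, one_smul, one_smul, one_smul, one_smul,
    gv_add (hf.memG hd1 f0) (hg.memG hd1 g0), norm_add_sq_real, norm_add_sq_real,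
    energyG hd hf f0, energyG hd hg g0] at a1
  linarith

/-- the vector of the mollified field -/
noncomputable def vG (ρ : E d → ℝ) (n : ℕ) (x : E d) : HG d := gv (Tf (dm ρ n x))

theorem vG_var (hd : 1 ≤ d) (h : Test ρ) (h1 : ∫ x, ρ x = 1) {b R δ : ℝ} (hn : Nice ρ 0 b R) (n : ℕ)
    {x : E d} (hx : ‖x‖ ≤ δ) :
    ‖EG (-(n * log 2)) 0 x - vG ρ n x‖ ^ 2 ≤ 4 * (b ^ 2 * KG d (R + δ)) := by
  have d0 := (norm_nonneg x).trans hx
  have n1 := nice_mol hn n (x := x) (z := x) (δ := δ) (by rw [dist_self]; positivity)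
  have n2 := nice_mol hn 0 (x := 0) (z := x) (δ := δ) (by simpa using hx)
  have e : EG (-(n * log 2)) 0 x - vG ρ n x =
      gv (DG (mol ρ 0 0) x (-((0 : ℕ) * log 2))) - gv (DG (mol ρ n x) x (-(n * log 2))) := by
    rw [EG, vG, ← gv_sub (mem_EG ..) ((test_dm h n x).memG hd (int_dm h n x)),
      ← gv_sub (norm_DG hd n2 _).1 (norm_DG hd n1 _).1]
    congr 1
    funext p
    have := jlog n
    rw [dm, Tf_comb (test_mol h n x).int (test_mol h 0 0).int, Pi.sub_apply, Pi.sub_apply, DG, DG,
      int_mol, int_mol, h1, wf, Nat.cast_zero, zero_mul, neg_zero]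
    by_cases a : -(n * log 2) < p.1 <;> by_cases c : 0 < p.1 <;>
      simp [a, c, indicator, ← not_lt] <;> first | linarith | ring
  rw [e]
  linarith [sq_sub_le (gv (DG (mol ρ 0 0) x (-((0 : ℕ) * log 2))))
    (gv (DG (mol ρ n x) x (-(n * log 2)))), norm_DG' hd n1, norm_DG' hd n2]

theorem vG_inc (hd : 2 ≤ d) (h : Test ρ) (δ : ℝ) : ∃ C : ℝ, 0 ≤ C ∧ ∀ (n : ℕ) (x y : E d),
    2 ^ n * dist x y ≤ δ → ‖vG ρ n x - vG ρ n y‖ ≤ C * (2 ^ n * dist x y) := by
  obtain ⟨b, R, hn⟩ := h.nice
  obtain ⟨L, hL⟩ := h.1.lipschitzWith_of_hasCompactSupport h.2 (by simp)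
  refine ⟨L * √(Kc d (R + δ)), by positivity, fun n x y hxy => ?_⟩
  have d0 : 0 ≤ δ := le_trans (by positivity) hxy
  have a := dm_inc (by omega) h hn hL n (x := x) (y := y) (z := x) (δ := δ)
    (by rw [dist_self]; positivity) (by
      rw [exp_neg, exp_jlog, ← div_eq_mul_inv, le_div_iff₀ (by positivity)]; linarith)
  have R0 := hn.pos
  refine abs_le_of_sq_le_sq' ?_ (by positivity) |>.2
  rw [norm_sub_sq_real, vG, vG, energyG hd (test_dm h ..) (int_dm h ..),
    energyG hd (test_dm h ..) (int_dm h ..), innerG hd (test_dm h ..) (test_dm h ..) (int_dm h ..)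
    (int_dm h ..), ← norm_sub_sq_real, mul_right_comm, mul_pow, sq_sqrt (by unfold Kc; positivity)]
  exact a

end Pool.Agent.Lib.MP_a0a493_pr
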