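import Pool.Agent.Lib.MP_a0a493_pr.Iso

/-! Gaussian estimates for the strict upper bound. -/

namespace Pool.Agent.Lib.MP_a0a493_pr

open MeasureTheory ProbabilityTheory Real Set Filter Topology
open scoped InnerProductSpace

variable {Ω : Type*} [MeasurableSpace Ω] {P : Measure Ω} [IsProbabilityMeasure P]
  {H : Type*} [NormedAddCommGroup H] [InnerProductSpace ℝ H] {W : H →ₗ[ℝ] (Ω → ℝ)}

theorem Iso.map_pi (h : Iso P W) {J : Type*} [Fintype J] (v : J → H)
    (ho : ∀ i j, i ≠ j → ⟪v i, v j⟫_ℝ = 0) :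
    (P.map fun ω j => W (v j) ω) = Measure.pi fun j => gaussianReal 0 (‖v j‖₊ ^ 2) := by
  classical
  have g : GF (Measure.pi fun j => gaussianReal 0 (‖v j‖₊ ^ 2)) (fun j (y : J → ℝ) => y j) v := by
    refine ⟨fun j => (measurable_pi_apply j).aemeasurable, fun c => ?_⟩
    simp only [ch_sum]
    rw [integral_fintype_prod_eq_prod (fun j (x : ℝ) => ch (c j * x)), norm_sq_gram, gc_sum]
    refine Finset.prod_congr rfl fun j _ => ?_
    rw [integral_ch_gauss, Finset.sum_eq_single j (fun i _ hi => by rw [ho j i hi.symm, mul_zero])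
      (by simp), real_inner_self_eq_norm_sq]
    congr 1
    push_cast
    ring
  rw [(h.gf v).map_eq g fun _ _ => rfl]
  exact Measure.map_id

theorem Iso.prod_tail (h : Iso P W) {J : Type*} [Fintype J] (v : J → H)
    (ho : ∀ i j, i ≠ j → ⟪v i, v j⟫_ℝ = 0) (f : J → ℝ → ℝ) (f0 : ∀ j x, 0 ≤ f j x)
    (fi : ∀ j, Integrable (f j) (gaussianReal 0 (‖v j‖₊ ^ 2))) (c : ℝ) :
    c * P.real {ω | c ≤ ∏ j, f j (W (v j) ω)} ≤ ∏ j, ∫ x, f j x ∂gaussianReal 0 (‖v j‖₊ ^ 2) := by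
  have m : Measurable fun ω j => W (v j) ω := measurable_pi_iff.2 fun j => h.meas _
  have i1 := Integrable.fintype_prod fi
  rw [← integral_fintype_prod_eq_prod]
  rw [← h.map_pi v ho] at i1 ⊢
  rw [integral_map m.aemeasurable i1.aestronglyMeasurable]
  exact mul_meas_ge_le_integral_of_nonneg
    (Eventually.of_forall fun ω => Finset.prod_nonneg fun j _ => f0 _ _)
    ((integrable_map_measure i1.aestronglyMeasurable m.aemeasurable).1 i1) c

/-- the truncated exponential -/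
noncomputable def tr (γ b x : ℝ) : ℝ := if x ≤ b then exp (γ * x) else 0

theorem tr_nonneg (γ b x : ℝ) : 0 ≤ tr γ b x := by unfold tr; split_ifs <;> positivity

theorem tr_int (γ b : ℝ) (v : NNReal) : Integrable (tr γ b) (gaussianReal 0 v) :=
  (integrable_exp_mul_gaussianReal γ).indicator (s := Iic b) measurableSet_Iic

theorem tr_le {γ b θ : ℝ} {v : NNReal} (hv : 0 < (v : ℝ)) (hθ : 0 < θ)
    (hγ : γ = b / v + θ / √v) :
    ∫ x, tr γ b x ∂gaussianReal 0 v ≤ exp (γ * b - b ^ 2 / (2 * v)) / θ := by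
  have sv : 0 < √(v : ℝ) := sqrt_pos.2 hv
  have hκ : 0 < θ / √v := by positivity
  rw [integral_gaussianReal_eq_integral_smul (by exact_mod_cast hv.ne')]
  set c := (√(2 * π * v))⁻¹ * exp (γ * b - b ^ 2 / (2 * v) - θ / √v * b) with hc
  have i1 : Integrable ((Iic b).indicator fun x => c * exp (θ / √v * x)) :=
    (integrable_indicator_iff measurableSet_Iic).2 ((integrableOn_exp_mul_Iic hκ b).const_mul c)
  refine (integral_mono_of_nonneg (Eventually.of_forall fun x =>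
    mul_nonneg (gaussianPDFReal_nonneg _ _ _) (tr_nonneg _ _ _)) i1
    (Eventually.of_forall fun x => ?_)).trans ?_
  · show gaussianPDFReal 0 v x * tr γ b x ≤ _
    by_cases hx : x ≤ b
    · rw [indicator_of_mem (mem_Iic.2 hx), tr, if_pos hx, gaussianPDFReal, hc, mul_assoc,
        mul_assoc (√(2 * π * v))⁻¹, ← exp_add, ← exp_add]
      refine mul_le_mul_of_nonneg_left (exp_le_exp.2 ?_) (by positivity)
      have e : -(x - 0) ^ 2 / (2 * v) + γ * x = γ * b - b ^ 2 / (2 * v) - θ / √v * b +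
          θ / √v * x - (x - b) ^ 2 / (2 * v) := by
        rw [hγ]; field_simp; ring
      rw [e]
      exact sub_le_self _ (by positivity)
    · rw [indicator_of_notMem (by simpa using hx), tr, if_neg hx, mul_zero]
  · rw [integral_indicator measurableSet_Iic, integral_const_mul, integral_exp_mul_Iic hκ, hc,
      mul_assoc, ← mul_div_assoc, ← exp_add, sub_add_cancel, div_div_eq_mul_div, ← mul_div_assoc]
    refine div_le_div_of_nonneg_right ?_ hθ.le
    rw [mul_comm, mul_assoc]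
    refine mul_le_of_le_one_right (exp_pos _).le ?_
    rw [← div_eq_mul_inv, div_le_one (by positivity)]
    exact sqrt_le_sqrt (by nlinarith [pi_gt_three])

theorem orth_sum (f : ℕ → H) (ho : ∀ i j, i < j → ⟪f i, f j⟫_ℝ = 0) (k : ℕ) :
    ‖∑ i ∈ Finset.range k, f i‖ ^ 2 = ∑ i ∈ Finset.range k, ‖f i‖ ^ 2 := by
  induction k with
  | zero => simp
  | succ k ih =>
    rw [Finset.sum_range_succ, Finset.sum_range_succ, norm_add_sq_real, ih, sum_inner,
      Finset.sum_eq_zero fun i hi => ho i k (Finset.mem_range.1 hi)]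
    ring

theorem orth_add {u v : H} (h : ⟪u, v⟫_ℝ = 0) (a b : ℝ) :
    ‖a • u + b • v‖ ^ 2 = a ^ 2 * ‖u‖ ^ 2 + b ^ 2 * ‖v‖ ^ 2 := by
  rw [norm_add_sq_real, real_inner_smul_left, real_inner_smul_right, h, norm_smul, norm_smul,
    mul_pow, mul_pow, Real.norm_eq_abs, Real.norm_eq_abs, sq_abs, sq_abs]
  ring

/-- the choice of the parameters -/
theorem exists_par {g C C' ε : ℝ} (hg : 0 < g) (hC : 1 ≤ C) (hC' : 0 < C') (hε : 0 < ε) :
    ∃ (m0 m1 : ℕ) (K θ γ : ℝ), 0 < m1 ∧ 0 < θ ∧ g ≤ γ ∧ γ ≤ g + 1 ∧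
      γ = (g * (m1 * log 2) + K) / (m1 * log 2) + θ / √(m1 * log 2) ∧
      C * exp ((γ - g) ^ 2 * (m0 * log 2) / 2 + (γ - g) * K) / θ ≤ 1 / 4 ∧
      C ^ 2 * exp (g ^ 2 * (m0 * log 2) / 2 - g * K +
        (γ - g) ^ 2 * (m0 * log 2 + m1 * log 2) / 2) ≤ 1 / 4 ∧
      2 * C ^ 2 * exp (g ^ 2 * (m0 * log 2 + m1 * log 2) - ε ^ 2 * 2 ^ m0 / (2 * C')) ≤ 1 / 2 := by
  have l0 := log_pos one_lt_two
  have l1 : log 2 ≤ 1 := log_two_lt_d9.le.trans (by norm_num)
  generalize log 2 = L at *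
  have sL : 0 < √L := sqrt_pos.2 l0
  obtain ⟨θ, hθ⟩ : ∃ θ, θ = 4 * C * exp 1 := ⟨_, rfl⟩
  have θ0 : 0 < θ := by rw [hθ]; positivity
  obtain ⟨a, ha⟩ : ∃ a, a = (4 * C ^ 2 + θ ^ 2 + 2) / g := ⟨_, rfl⟩
  obtain ⟨A, hA⟩ : ∃ A, A = a + g / 2 := ⟨_, rfl⟩
  obtain ⟨B, hB⟩ : ∃ B, B = A / L + θ / √L := ⟨_, rfl⟩
  have a0 : 0 < a := by rw [ha]; positivity
  have A0 : 0 < A := by rw [hA]; positivity
  have B0 : 0 < B := by rw [hB]; positivity
  have t1 := (tendsto_pow_const_div_const_pow_of_one_lt 4 (r := (2 : ℝ)) one_lt_two).eventually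
    (gt_mem_nhds (show 0 < ε ^ 2 / (2 * C') / (2 * g ^ 2 + 4 * C ^ 2) by positivity))
  obtain ⟨x, h1, h2⟩ := (t1.and ((tendsto_natCast_atTop_atTop (R := ℝ)).eventually_ge_atTop
    (1 + B + B ^ 2 + 2 * A * B + A ^ 2 / L))).exists
  have p1 : 0 ≤ B ^ 2 := by positivity
  have p2 : 0 ≤ 2 * A * B := by positivity
  have p3 : 0 ≤ A ^ 2 / L := by positivity
  have x1 : (1 : ℝ) ≤ x := by linarith
  have x0 : (0 : ℝ) < x := by linarith
  obtain ⟨K, hK⟩ : ∃ K, K = a + g / 2 * (x * L) := ⟨_, rfl⟩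
  have K0 : 0 ≤ K := by rw [hK]; positivity
  have K1 : K ≤ A * x := by
    have e1 : x * L ≤ x := mul_le_of_le_one_right x0.le l1
    have e2 := mul_le_mul_of_nonneg_left e1 (half_pos hg).le
    have e3 := le_mul_of_one_le_right a0.le x1
    rw [hK, hA, add_mul]
    linarith
  have hs : √(((x ^ 4 : ℕ) : ℝ) * L) = x ^ 2 * √L := by
    rw [sqrt_mul (by positivity)]
    congr 1
    rw [sqrt_eq_iff_mul_self_eq (by positivity) (by positivity)]
    push_cast
    ring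
  obtain ⟨δ, hδ⟩ : ∃ δ, δ = K / (x ^ 4 * L) + θ / (x ^ 2 * √L) := ⟨_, rfl⟩
  have δ0 : 0 ≤ δ := by rw [hδ]; positivity
  have q1 : K / (x ^ 4 * L) ≤ A / L / x ^ 2 := by
    rw [div_div, div_le_div_iff₀ (by positivity) (by positivity)]
    calc K * (L * x ^ 2) ≤ A * x * (L * x ^ 2) := by gcongr
      _ = A * (x ^ 3 * L) := by ring
      _ ≤ A * (x ^ 4 * L) := by gcongr; norm_num
  have δ1 : δ ≤ B / x ^ 2 := by
    rw [hδ, hB, add_div, div_div θ, mul_comm √L]
    exact add_le_add q1 le_rfl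
  have δ2 : δ * x ≤ B / x := by
    refine (mul_le_mul_of_nonneg_right δ1 x0.le).trans_eq ?_
    field_simp
  have b1 : B / x ≤ 1 := (div_le_one x0).2 (by linarith)
  have δ3 : δ ≤ 1 := (le_mul_of_one_le_right δ0 x1).trans (δ2.trans b1)
  have δ4 : δ ^ 2 * (x * L) ≤ 1 := by
    calc δ ^ 2 * (x * L) = δ * (δ * x) * L := by ring
      _ ≤ 1 * 1 * 1 := by gcongr; exact δ2.trans b1
      _ = 1 := by ring
  have δ5 : δ * K ≤ 1 / 2 := by
    calc δ * K ≤ δ * (A * x) := by gcongr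
      _ = A * (δ * x) := by ring
      _ ≤ A * (B / x) := by gcongr
      _ ≤ 1 / 2 := by
        rw [← mul_div_assoc, div_le_iff₀ x0]
        linarith
  have δ6 : δ ^ 2 * (x ^ 4 * L) ≤ 2 + 2 * θ ^ 2 := by
    have e1 : (K / (x ^ 4 * L)) ^ 2 * (x ^ 4 * L) ≤ 1 := by
      have : (K / (x ^ 4 * L)) ^ 2 * (x ^ 4 * L) = K ^ 2 / (x ^ 4 * L) := by field_simp
      rw [this, div_le_one (by positivity)]
      have : A ^ 2 ≤ x * L := (div_le_iff₀ l0).1 (by linarith)
      calc K ^ 2 ≤ (A * x) ^ 2 := by gcongr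
        _ = A ^ 2 * x ^ 2 := by ring
        _ ≤ x * L * x ^ 2 := by gcongr
        _ = x ^ 3 * L := by ring
        _ ≤ x ^ 4 * L := by gcongr; norm_num
    have e2 : (θ / (x ^ 2 * √L)) ^ 2 * (x ^ 4 * L) = θ ^ 2 := by
      rw [div_pow, mul_pow, sq_sqrt l0.le]
      field_simp
    have e3 : δ ^ 2 ≤ 2 * (K / (x ^ 4 * L)) ^ 2 + 2 * (θ / (x ^ 2 * √L)) ^ 2 := by
      rw [hδ]
      exact add_sq_le.trans_eq (by ring)
    have e4 := mul_le_mul_of_nonneg_right e3 (show 0 ≤ x ^ 4 * L by positivity)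
    linarith
  have ex : ∀ y : ℝ, 4 * C ^ 2 ≤ y → C ^ 2 * exp (-y) ≤ 1 / 4 := fun y hy => by
    rw [exp_neg, ← div_eq_mul_inv, div_le_iff₀ (exp_pos _)]
    linarith [add_one_le_exp y]
  refine ⟨x, x ^ 4, K, θ, g + δ, pow_pos (by exact_mod_cast x0) 4, θ0, by linarith, by linarith,
    ?_, ?_, ?_, ?_⟩
  · rw [hs, hδ]
    push_cast
    field_simp
    ring
  · rw [add_sub_cancel_left, div_le_iff₀ θ0, hθ]
    have := exp_le_exp.2 (show δ ^ 2 * (x * L) / 2 + δ * K ≤ 1 by linarith only [δ4, δ5])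
    linarith only [mul_le_mul_of_nonneg_left this (zero_le_one.trans hC)]
  · rw [add_sub_cancel_left]
    refine le_trans (mul_le_mul_of_nonneg_left (exp_le_exp.2 ?_) (by positivity))
      (ex _ le_rfl)
    have : g * K = 4 * C ^ 2 + θ ^ 2 + 2 + g ^ 2 * (x * L) / 2 := by
      rw [hK, ha]; field_simp
    push_cast
    linarith
  · have e := ex (ε ^ 2 * 2 ^ x / (2 * C') - g ^ 2 * (x * L + (x ^ 4 : ℕ) * L)) (by
      rw [div_lt_div_iff₀ (by positivity) (by positivity)] at h1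
      have e1 : (1 : ℝ) ≤ x ^ 4 := one_le_pow₀ x1
      have e2 : (x : ℝ) ≤ x ^ 4 := le_self_pow₀ x1 (by norm_num)
      have e3 : x * L + x ^ 4 * L ≤ 2 * x ^ 4 := by
        linarith only [e2, mul_le_of_le_one_right x0.le l1,
          mul_le_of_le_one_right (zero_le_one.trans e1) l1]
      have e4 := mul_le_mul_of_nonneg_left e3 (sq_nonneg g)
      have e5 := mul_le_mul_of_nonneg_left e1 (sq_nonneg C)
      rw [div_mul_eq_mul_div] at h1
      push_cast
      linarith only [h1, e4, e5])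
    rw [neg_sub] at e
    linarith

end Pool.Agent.Lib.MP_a0a493_pr
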