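import Pool.Agent.Lib.MP_a0a493_pr.Iso

/-! Adaptive exploration of an isonormal process: random revealed subspaces. -/

namespace Pool.Agent.Lib.MP_a0a493_pr

open MeasureTheory ProbabilityTheory Set
open scoped InnerProductSpace ENNReal

variable {Ω H S S' β : Type*} [NormedAddCommGroup H] [InnerProductSpace ℝ H]
  {W : H →ₗ[ℝ] (Ω → ℝ)}

/-- the information carried by the process on a subspace -/
@[instance_reducible] def sga (W : H →ₗ[ℝ] (Ω → ℝ)) (U : Submodule ℝ H) : MeasurableSpace Ω :=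
  MeasurableSpace.comap (fun ω (h : U) => W h ω) inferInstance

theorem sg_le {U : Submodule ℝ H} {m : MeasurableSpace Ω} :
    sga W U ≤ m ↔ ∀ h ∈ U, Measurable[m] (W h) := by
  rw [sga, ← measurable_iff_comap_le, measurable_pi_iff]
  exact ⟨fun h v hv => h ⟨v, hv⟩, fun h v => h v v.2⟩

theorem sg_meas {U : Submodule ℝ H} {h : H} (hh : h ∈ U) : Measurable[sga W U] (W h) :=
  sg_le.1 le_rfl h hh

theorem sg_mono {U V : Submodule ℝ H} (h : U ≤ V) : sga W U ≤ sga W V :=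
  sg_le.2 fun _ hv => sg_meas (h hv)

/-- the information carried by the process on a random subspace -/
@[instance_reducible] def ks (W : H →ₗ[ℝ] (Ω → ℝ)) (U : Ω → Submodule ℝ H) : MeasurableSpace Ω where
  MeasurableSet' A := ∀ V, ∃ B, MeasurableSet[sga W V] B ∧ ∀ ω, U ω = V → (ω ∈ A ↔ ω ∈ B)
  measurableSet_empty _ := ⟨∅, @MeasurableSet.empty _ (sga W _), fun _ _ => Iff.rfl⟩
  measurableSet_compl _ h V := by
    obtain ⟨B, h1, h2⟩ := h V
    exact ⟨Bᶜ, h1.compl, fun ω hω => not_congr (h2 ω hω)⟩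
  measurableSet_iUnion f h V := by
    choose B h1 h2 using fun i => h i V
    exact ⟨⋃ i, B i, MeasurableSet.iUnion h1, fun ω hω => by
      simp only [mem_iUnion]; exact exists_congr fun i => h2 i ω hω⟩

/-- a random element with finitely many values -/
structure Sk (m : MeasurableSpace Ω) (st : Ω → S) : Prop where
  fin : (range st).Finite
  meas : ∀ σ, MeasurableSet[m] {ω | st ω = σ}

/-- an adapted random subspace -/
structure Ad (W : H →ₗ[ℝ] (Ω → ℝ)) (U : Ω → Submodule ℝ H) : Prop where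
  fin : (range U).Finite
  meas : ∀ V, MeasurableSet[sga W V] {ω | U ω = V}

theorem Sk.const (m : MeasurableSpace Ω) (σ : S) : Sk m fun _ => σ :=
  ⟨(finite_singleton σ).subset range_const_subset, fun _ => MeasurableSet.const _⟩

theorem Sk.mono {m m' : MeasurableSpace Ω} {st : Ω → S} (h : Sk m st) (hm : m ≤ m') : Sk m' st :=
  ⟨h.fin, fun σ => hm _ (h.meas σ)⟩

theorem Sk.set {m : MeasurableSpace Ω} {st : Ω → S} (h : Sk m st) {A : S → Set Ω}
    (hA : ∀ ω, MeasurableSet[m] (A (st ω))) : MeasurableSet[m] {ω | ω ∈ A (st ω)} := by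
  have e : {ω | ω ∈ A (st ω)} = ⋃ σ ∈ range st, {ω | st ω = σ} ∩ A σ := by
    ext ω
    simp only [mem_ofPred_eq, mem_iUnion, mem_inter_iff]
    exact ⟨fun h => ⟨_, ⟨ω, rfl⟩, rfl, h⟩, fun ⟨_, _, h1, h2⟩ => h1 ▸ h2⟩
  rw [e]
  refine h.fin.measurableSet_biUnion ?_
  rintro _ ⟨ω, rfl⟩
  exact (h.meas _).inter (hA ω)

theorem Sk.bind {m : MeasurableSpace Ω} {st : Ω → S} (h : Sk m st) {f : S → Ω → S'}
    (hf : ∀ ω, Sk m (f (st ω))) : Sk m fun ω => f (st ω) ω := by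
  refine ⟨(h.fin.biUnion (t := fun σ => range (f σ)) ?_).subset ?_,
    fun σ => h.set (A := fun s => {ω | f s ω = σ}) fun ω => (hf ω).meas σ⟩
  · rintro _ ⟨ω, rfl⟩
    exact (hf ω).fin
  · rintro _ ⟨ω, rfl⟩
    exact mem_biUnion ⟨ω, rfl⟩ ⟨ω, rfl⟩

theorem Sk.map {m : MeasurableSpace Ω} {st : Ω → S} (h : Sk m st) (f : S → S') :
    Sk m fun ω => f (st ω) :=
  h.bind (f := fun σ _ => f σ) fun _ => Sk.const _ _

theorem Sk.prod {m : MeasurableSpace Ω} {st : Ω → S} {st' : Ω → S'} (h : Sk m st)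
    (h' : Sk m st') : Sk m fun ω => (st ω, st' ω) :=
  h.bind (f := fun σ ω => (σ, st' ω)) fun _ => h'.map _

theorem Ad.const (V : Submodule ℝ H) : Ad W fun _ : Ω => V :=
  ⟨(finite_singleton V).subset range_const_subset, fun _ => MeasurableSet.const _⟩

theorem Sk.set_ks {U : Ω → Submodule ℝ H} {st : Ω → S} (h : Sk (ks W U) st)
    {N : S → Submodule ℝ H} {A : S → Set Ω} (hA : ∀ ω, MeasurableSet[sga W (N (st ω))] (A (st ω)))
    (hN : ∀ ω, N (st ω) ≤ U ω) : MeasurableSet[ks W U] {ω | ω ∈ A (st ω)} := by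
  intro V
  choose B h1 h2 using fun σ => h.meas σ V
  refine ⟨⋃ σ ∈ range st ∩ {σ | N σ ≤ V}, B σ ∩ A σ,
    (h.fin.subset inter_subset_left).measurableSet_biUnion ?_, fun ω hω => ?_⟩
  · rintro _ ⟨⟨ω, rfl⟩, hσ⟩
    exact (h1 _).inter (sg_mono hσ _ (hA ω))
  · simp only [mem_ofPred_eq, mem_iUnion, mem_inter_iff]
    exact ⟨fun h => ⟨_, ⟨⟨ω, rfl⟩, hω ▸ hN ω⟩, (h2 _ ω hω).1 rfl, h⟩,
      fun ⟨σ, _, a, b⟩ => (show st ω = σ from (h2 _ ω hω).2 a) ▸ b⟩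

theorem Sk.meas_ks [MeasurableSpace β] {U : Ω → Submodule ℝ H} {st : Ω → S} (h : Sk (ks W U) st)
    {N : S → Submodule ℝ H} {Y : S → Ω → β} (hY : ∀ ω, Measurable[sga W (N (st ω))] (Y (st ω)))
    (hN : ∀ ω, N (st ω) ≤ U ω) : Measurable[ks W U] fun ω => Y (st ω) ω :=
  fun t ht => h.set_ks (A := fun σ => Y σ ⁻¹' t) (fun ω => hY ω ht) hN

theorem Sk.bind_ks {U : Ω → Submodule ℝ H} {st : Ω → S} (h : Sk (ks W U) st)
    {N : S → Submodule ℝ H} {f : S → Ω → S'} (hf : ∀ ω, Sk (sga W (N (st ω))) (f (st ω)))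
    (hN : ∀ ω, N (st ω) ≤ U ω) : Sk (ks W U) fun ω => f (st ω) ω := by
  refine ⟨(h.fin.biUnion (t := fun σ => range (f σ)) ?_).subset ?_,
    fun σ => h.set_ks (A := fun s => {ω | f s ω = σ}) (fun ω => (hf ω).meas σ) hN⟩
  · rintro _ ⟨ω, rfl⟩
    exact (hf ω).fin
  · rintro _ ⟨ω, rfl⟩
    exact mem_biUnion ⟨ω, rfl⟩ ⟨ω, rfl⟩

theorem Ad.sk {U : Ω → Submodule ℝ H} (h : Ad W U) : Sk (ks W U) U :=
  ⟨h.fin, fun V' V => ⟨{_ω | V = V'}, MeasurableSet.const _, fun _ hω => hω ▸ Iff.rfl⟩⟩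

theorem Ad.piece {U : Ω → Submodule ℝ H} (h : Ad W U) {A : Set Ω} (hA : MeasurableSet[ks W U] A)
    (V' : Submodule ℝ H) : MeasurableSet[sga W V'] (A ∩ {ω | U ω ≤ V'}) := by
  choose B h1 h2 using hA
  have e : A ∩ {ω | U ω ≤ V'} = ⋃ V ∈ range U ∩ {V | V ≤ V'}, {ω | U ω = V} ∩ B V := by
    ext ω
    simp only [mem_ofPred_eq, mem_iUnion, mem_inter_iff]
    exact ⟨fun h => ⟨_, ⟨⟨ω, rfl⟩, h.2⟩, rfl, (h2 _ ω rfl).1 h.1⟩,
      fun ⟨V, a, b, c⟩ => ⟨(h2 V ω b).2 c, b ▸ a.2⟩⟩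
  rw [e]
  exact (h.fin.subset inter_subset_left).measurableSet_biUnion fun V hV =>
    sg_mono hV.2 _ ((h.meas V).inter (h1 V))

theorem Ad.ks_le {U : Ω → Submodule ℝ H} (h : Ad W U) {V : Submodule ℝ H} (hV : ∀ ω, U ω ≤ V) :
    ks W U ≤ sga W V := fun A hA => by
  have := h.piece hA V
  rwa [show {ω | U ω ≤ V} = univ from eq_univ_of_forall hV, inter_univ] at this

theorem Ad.ext {U U' : Ω → Submodule ℝ H} (h : Ad W U) (h' : Sk (ks W U) U')
    (hl : ∀ ω, U ω ≤ U' ω) : Ad W U' ∧ ks W U ≤ ks W U' := by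
  refine ⟨⟨h'.fin, fun V => ?_⟩, fun A hA V =>
    ⟨_, h.piece hA V, fun ω hω => ⟨fun a => ⟨a, hω ▸ hl ω⟩, fun a => a.1⟩⟩⟩
  have := h.piece (h'.meas V) V
  have e : {ω | U' ω = V} ∩ {ω | U ω ≤ V} = {ω | U' ω = V} :=
    inter_eq_left.2 fun ω (hω : U' ω = V) => show U ω ≤ V from hω ▸ hl ω
  rwa [e] at this

variable [mΩ : MeasurableSpace Ω] {P : Measure Ω} [IsProbabilityMeasure P]

omit [IsProbabilityMeasure P] in
theorem Iso.sg_le (h : Iso P W) (U : Submodule ℝ H) : sga W U ≤ mΩ :=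
  Pool.Agent.Lib.MP_a0a493_pr.sg_le.2 fun v _ => h.meas v

omit [IsProbabilityMeasure P] in
theorem Iso.ks_le (h : Iso P W) {U : Ω → Submodule ℝ H} (hU : Ad W U) : ks W U ≤ mΩ :=
  (hU.ks_le (V := ⊤) fun _ => le_top).trans (h.sg_le _)

theorem Iso.indep_sg (h : Iso P W) {U V : Submodule ℝ H} (ho : U ⟂ V) :
    Indep (sga W U) (sga W V) P :=
  (IndepFun_iff_Indep _ _ _).1 (IndepFun.process_indepFun_process (fun _ => h.meas _)
    (fun _ => h.meas _) fun I J => h.indep (fun i : I => ((i : U) : H))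
      (fun j : J => ((j : V) : H)) fun i j => ho.inner_eq i.1.2 j.1.2)

/-- fresh directions are independent of what has been revealed -/
theorem Iso.step (h : Iso P W) {U : Ω → Submodule ℝ H} (hU : Ad W U) {st : Ω → S}
    (hs : Sk (ks W U) st) {X : Ω → ℝ≥0∞} (hX : Measurable[ks W U] X) {N : S → Submodule ℝ H}
    {Z : S → Ω → ℝ≥0∞} (hZ : ∀ ω, Measurable[sga W (N (st ω))] (Z (st ω)))
    (ho : ∀ ω, U ω ⟂ N (st ω)) {a : ℝ≥0∞} (ha : ∀ ω, ∫⁻ ω', Z (st ω) ω' ∂P ≤ a) :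
    ∫⁻ ω, X ω * Z (st ω) ω ∂P ≤ a * ∫⁻ ω, X ω ∂P := by
  classical
  have hp := hU.sk.prod hs
  let E : Submodule ℝ H × S → Set Ω := fun τ => {ω | (U ω, st ω) = τ}
  have m1 : ∀ τ, Measurable[sga W τ.1] ((E τ).indicator X) := by
    intro τ t ht
    have a1 := hU.piece (hp.meas τ) τ.1
    have a2 := hU.piece ((hX ht).inter (hp.meas τ)) τ.1
    have a3 : ∀ A, A ∩ E τ ∩ {ω | U ω ≤ τ.1} = A ∩ E τ := fun A =>
      inter_eq_left.2 fun ω hω => (congrArg Prod.fst hω.2).le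
    rw [indicator_preimage]
    refine (a3 _ ▸ a2 :).union (((@measurable_const _ _ _ (sga W τ.1) _) ht).diff ?_)
    have := a3 univ
    rw [univ_inter] at this
    exact this ▸ a1
  have s1 : ∀ (F : Submodule ℝ H × S → Ω → ℝ≥0∞) ω, X ω * F (U ω, st ω) ω =
      ∑ τ ∈ hp.fin.toFinset, (E τ).indicator X ω * F τ ω := by
    intro F ω
    rw [Finset.sum_eq_single (U ω, st ω)]
    · rw [indicator_of_mem (show ω ∈ E (U ω, st ω) from rfl)]
    · intro τ _ hτ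
      rw [indicator_of_notMem (show ω ∉ E τ from fun e => hτ e.symm), zero_mul]
    · exact fun hn => absurd (hp.fin.mem_toFinset.2 ⟨ω, rfl⟩) hn
  have s2 := s1 fun _ _ => 1
  simp only [mul_one] at s2
  simp only [s1 fun τ ω => Z τ.2 ω]
  conv_rhs => simp only [s2]
  rw [lintegral_finsetSum, lintegral_finsetSum, Finset.mul_sum]
  · refine Finset.sum_le_sum fun τ hτ => ?_
    obtain ⟨ω, rfl⟩ := hp.fin.mem_toFinset.1 hτ
    rw [lintegral_mul_eq_lintegral_mul_lintegral_of_independent_measurableSpace (h.sg_le _)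
      (h.sg_le _) (h.indep_sg (ho ω)) (m1 _) (hZ ω), mul_comm]
    exact mul_le_mul_left (ha ω) _
  · exact fun τ _ => (m1 τ).mono (h.sg_le _) le_rfl
  · intro τ hτ
    obtain ⟨ω, rfl⟩ := hp.fin.mem_toFinset.1 hτ
    exact ((m1 _).mono (h.sg_le _) le_rfl).mul ((hZ ω).mono (h.sg_le _) le_rfl)

theorem Iso.step_prob (h : Iso P W) {U : Ω → Submodule ℝ H} (hU : Ad W U) {st : Ω → S}
    (hs : Sk (ks W U) st) {N : S → Submodule ℝ H} {A : S → Set Ω}
    (hA : ∀ ω, MeasurableSet[sga W (N (st ω))] (A (st ω))) (ho : ∀ ω, U ω ⟂ N (st ω)) {a : ℝ≥0∞}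
    (ha : ∀ ω, P (A (st ω)) ≤ a) : P {ω | ω ∈ A (st ω)} ≤ a := by
  have a1 := h.step hU hs (X := fun _ => 1) measurable_const (Z := fun σ => (A σ).indicator 1)
    (fun ω => (@measurable_const _ _ _ (sga W _) _).indicator (hA ω)) ho (a := a) fun ω => by
      rw [lintegral_indicator_one (h.sg_le _ _ (hA ω))]; exact ha ω
  have m : MeasurableSet {ω | ω ∈ A (st ω)} :=
    (hs.mono (h.ks_le hU)).set fun ω => h.sg_le _ _ (hA ω)
  simp only [one_mul, lintegral_const, measure_univ, mul_one] at a1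
  rw [← lintegral_indicator_one m]
  exact a1

end Pool.Agent.Lib.MP_a0a493_pr
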