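import Pool.Agent.Lib.MP_a0a493_pr.AdA

/-! Exponential moments of the squared norm of the process on revealed subspaces. -/

namespace Pool.Agent.Lib.MP_a0a493_pr

open MeasureTheory ProbabilityTheory Set Real
open scoped InnerProductSpace ENNReal

variable {Ω H S : Type*} [NormedAddCommGroup H] [InnerProductSpace ℝ H]
  {W : H →ₗ[ℝ] (Ω → ℝ)}

theorem gauss_sq {c : ℝ} (hc : c < 1 / 2) :
    ∫⁻ x, ENNReal.ofReal (exp (c * x ^ 2)) ∂gaussianReal 0 1
      = ENNReal.ofReal (√(1 - 2 * c))⁻¹ := by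
  have hb : 0 < 1 / 2 - c := by linarith
  rw [gaussianReal_of_var_ne_zero _ one_ne_zero,
    lintegral_withDensity_eq_lintegral_mul _ (measurable_gaussianPDF _ _) (by fun_prop)]
  have e : ∀ x, (gaussianPDF 0 1 * fun x => ENNReal.ofReal (exp (c * x ^ 2))) x =
      ENNReal.ofReal ((√(2 * π))⁻¹ * exp (-(1 / 2 - c) * x ^ 2)) := fun x => by
    rw [Pi.mul_apply, gaussianPDF, ← ENNReal.ofReal_mul (gaussianPDFReal_nonneg _ _ _),
      gaussianPDFReal, mul_assoc, ← exp_add]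
    congr 3
    · simp
    · simp; ring
  simp only [e]
  rw [← ofReal_integral_eq_lintegral_ofReal ((integrable_exp_neg_mul_sq hb).const_mul _)
    (Filter.Eventually.of_forall fun x => by positivity), integral_const_mul, integral_gaussian,
    ← sqrt_inv, ← sqrt_inv, ← sqrt_mul (by positivity)]
  congr 2
  have := pi_pos
  have h2 : 1 - 2 * c ≠ 0 := by linarith
  have h3 : 1 - c * 2 ≠ 0 := by linarith
  field_simp

open Classical in
/-- the squared norm of the process on a finite dimensional subspace -/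
noncomputable def Qn (W : H →ₗ[ℝ] (Ω → ℝ)) (U : Submodule ℝ H) (ω : Ω) : ℝ :=
  if _h : FiniteDimensional ℝ U then ∑ k, W (stdOrthonormalBasis ℝ U k) ω ^ 2 else 0

theorem Qn_nonneg (U : Submodule ℝ H) (ω : Ω) : 0 ≤ Qn W U ω := by
  unfold Qn
  split_ifs
  · positivity
  · rfl

theorem Qn_meas (U : Submodule ℝ H) : Measurable[sga W U] (Qn W U) := by
  unfold Qn
  split_ifs
  · let _ := sga W U
    exact Finset.measurable_sum _ fun k _ => (sg_meas (Subtype.coe_prop _)).pow_const 2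
  · exact @measurable_const _ _ _ (sga W U) _

theorem Qn_spec (U : Submodule ℝ H) [hU : FiniteDimensional ℝ U] (ω : Ω) :
    ∃ w ∈ U, ‖w‖ ^ 2 = Qn W U ω ∧ ∀ h ∈ U, W h ω = ⟪w, h⟫_ℝ := by
  let b := stdOrthonormalBasis ℝ U
  refine ⟨(∑ k, W (b k) ω • b k : U), Subtype.coe_prop _, ?_, fun h hh => ?_⟩
  · rw [Qn, dif_pos hU, ← Submodule.coe_norm, ← b.sum_sq_norm_inner_right]
    refine Finset.sum_congr rfl fun k _ => ?_
    rw [b.orthonormal.inner_right_fintype, Real.norm_eq_abs, sq_abs]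
  · have e := congrArg Subtype.val (b.sum_repr' ⟨h, hh⟩)
    simp only [Submodule.coe_sum, Submodule.coe_smul, Submodule.coe_inner] at e ⊢
    conv_lhs => rw [← e]
    simp only [map_sum, map_smul, Finset.sum_apply, Pi.smul_apply, smul_eq_mul, sum_inner,
      real_inner_smul_left, mul_comm]

theorem abs_le_Qn {U : Submodule ℝ H} [FiniteDimensional ℝ U] {h : H} (hh : h ∈ U) (ω : Ω) :
    |W h ω| ≤ ‖h‖ * √(Qn W U ω) := by
  obtain ⟨w, -, h1, h2⟩ := Qn_spec (W := W) U ω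
  rw [h2 h hh, ← h1, sqrt_sq (norm_nonneg _), mul_comm]
  exact abs_real_inner_le_norm _ _

theorem Qn_le_add {U V : Submodule ℝ H} [FiniteDimensional ℝ V] (h : U ≤ V) (ω : Ω) :
    Qn W V ω ≤ Qn W U ω + Qn W (Uᗮ ⊓ V) ω := by
  have := Submodule.finiteDimensional_of_le h
  have := Submodule.finiteDimensional_of_le (inf_le_right : Uᗮ ⊓ V ≤ V)
  obtain ⟨w, w0, w1, w2⟩ := Qn_spec (W := W) V ω
  obtain ⟨u, u0, u1, u2⟩ := Qn_spec (W := W) U ω
  obtain ⟨n, n0, n1, n2⟩ := Qn_spec (W := W) (Uᗮ ⊓ V) ω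
  have p0 := U.starProjection_apply_mem w
  have p1 := U.sub_starProjection_mem_orthogonal w
  have e : ‖w‖ ^ 2 = ⟪u + n, w⟫_ℝ := by
    have a1 : W w ω = W (U.starProjection w) ω + W (w - U.starProjection w) ω := by simp
    have a2 := u2 _ p0
    have a3 := n2 _ ⟨p1, V.sub_mem w0 (h p0)⟩
    have a4 := U.inner_right_of_mem_orthogonal u0 p1
    have a5 := U.inner_left_of_mem_orthogonal p0 n0.1
    rw [← real_inner_self_eq_norm_sq, ← w2 w w0, a1, a2, a3, inner_add_left]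
    rw [inner_sub_right] at a4 ⊢
    linarith
  have e2 : ‖u + n‖ ^ 2 = ‖u‖ ^ 2 + ‖n‖ ^ 2 := by
    rw [norm_add_sq_real, U.inner_right_of_mem_orthogonal u0 n0.1]; ring
  have e3 := real_inner_le_norm (u + n) w
  rw [← w1, ← u1, ← n1, ← e2]
  nlinarith [sq_nonneg (‖u + n‖ - ‖w‖)]

/-- exponential of the squared norm -/
noncomputable def eQ (W : H →ₗ[ℝ] (Ω → ℝ)) (U : Submodule ℝ H) (ω : Ω) : ℝ≥0∞ :=
  ENNReal.ofReal (exp (1 / 4 * Qn W U ω))

theorem eQ_meas (U : Submodule ℝ H) : Measurable[sga W U] (eQ W U) := by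
  let _ := sga W U
  exact ENNReal.measurable_ofReal.comp (measurable_exp.comp ((Qn_meas U).const_mul _))

variable [mΩ : MeasurableSpace Ω] {P : Measure Ω} [IsProbabilityMeasure P]

theorem Iso.exp_sq (h : Iso P W) {c : ℝ} (hc : c < 1 / 2) {ι : Type*} {b : ι → H}
    (hb : Orthonormal ℝ b) (s : Finset ι) :
    ∫⁻ ω, ENNReal.ofReal (exp (c * ∑ k ∈ s, W (b k) ω ^ 2)) ∂P
      = ENNReal.ofReal (√(1 - 2 * c))⁻¹ ^ s.card := by
  classical
  induction s using Finset.induction_on with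
  | empty => simp
  | insert a s ha ih =>
    have i1 := (h.indep (fun _ : Unit => b a) (fun k : s => b k) fun _ k =>
      hb.2 fun e => ha (e ▸ k.2)).comp
      (φ := fun y : Unit → ℝ => ENNReal.ofReal (exp (c * y () ^ 2)))
      (ψ := fun y : s → ℝ => ENNReal.ofReal (exp (c * ∑ k, y k ^ 2))) (by fun_prop) (by fun_prop)
    have m : ∀ v, Measurable (W v) := h.meas
    have i2 := lintegral_mul_eq_lintegral_mul_lintegral_of_indepFun'' (by
      refine Measurable.aemeasurable ?_; simp only [Function.comp_def]; fun_prop) (by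
      refine Measurable.aemeasurable ?_; simp only [Function.comp_def]; fun_prop) i1
    have e : ∀ ω, ∑ k : s, W (b k) ω ^ 2 = ∑ k ∈ s, W (b k) ω ^ 2 := fun ω =>
      Finset.sum_coe_sort s fun k => W (b k) ω ^ 2
    simp only [Function.comp_apply, e] at i2
    have i3 : ∫⁻ ω, ENNReal.ofReal (exp (c * W (b a) ω ^ 2)) ∂P
        = ENNReal.ofReal (√(1 - 2 * c))⁻¹ := by
      rw [← gauss_sq hc, show (1 : NNReal) = ‖b a‖₊ ^ 2 by rw [hb.nnnorm_eq_one, one_pow],
        ← h.map_eq, lintegral_map (by fun_prop) (m _)]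
    simp only [Finset.sum_insert ha, mul_add, exp_add, ENNReal.ofReal_mul (exp_pos _).le]
    rw [i2, ih, i3, Finset.card_insert_of_notMem ha, pow_succ']

theorem Iso.int_eQ (h : Iso P W) (U : Submodule ℝ H) [hU : FiniteDimensional ℝ U] {D : ℕ}
    (hD : Module.finrank ℝ U ≤ D) : ∫⁻ ω, eQ W U ω ∂P ≤ 2 ^ D := by
  have o : Orthonormal ℝ fun k => (stdOrthonormalBasis ℝ U k : H) :=
    (stdOrthonormalBasis ℝ U).orthonormal.comp_linearIsometry U.subtypeₗᵢ
  simp only [eQ, Qn, dif_pos hU]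
  rw [h.exp_sq (by norm_num) o, Finset.card_univ, Fintype.card_fin]
  refine (pow_le_pow_left₀ zero_le ?_ _).trans (pow_le_pow_right₀ one_le_two hD)
  rw [← ENNReal.ofReal_ofNat 2]
  refine ENNReal.ofReal_le_ofReal (inv_le_of_inv_le₀ two_pos (le_sqrt_of_sq_le (by norm_num)))

/-- revealing a subspace of dimension at most `D` -/
theorem Iso.reveal (h : Iso P W) {U R : Ω → Submodule ℝ H} (hU : Ad W U) (hR : Sk (ks W U) R)
    (f1 : ∀ ω, FiniteDimensional ℝ (U ω)) (f2 : ∀ ω, FiniteDimensional ℝ (R ω)) {D : ℕ}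
    (hD : ∀ ω, Module.finrank ℝ (R ω) ≤ D) :
    ∫⁻ ω, eQ W (U ω ⊔ R ω) ω ∂P ≤ 2 ^ D * ∫⁻ ω, eQ W (U ω) ω ∂P := by
  refine le_trans (lintegral_mono fun ω => ?_) (h.step hU (hU.sk.prod hR)
    (X := fun ω => eQ W (U ω) ω) (hU.sk.meas_ks (N := id) (Y := eQ W) (fun ω => eQ_meas _)
      fun _ => le_rfl) (N := fun τ => τ.1ᗮ ⊓ (τ.1 ⊔ τ.2)) (Z := fun τ => eQ W (τ.1ᗮ ⊓ (τ.1 ⊔ τ.2)))
    (fun ω => eQ_meas _) (fun ω => (U ω).isOrtho_orthogonal_right.mono_right inf_le_left)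
    fun ω => ?_)
  · have := f1 ω
    have := f2 ω
    simp only [eQ]
    rw [← ENNReal.ofReal_mul (exp_pos _).le, ← exp_add, ← mul_add]
    exact ENNReal.ofReal_le_ofReal (exp_le_exp.2 (mul_le_mul_of_nonneg_left
      (Qn_le_add le_sup_left ω) (by norm_num)))
  · have := f1 ω
    have := f2 ω
    have := Submodule.finiteDimensional_of_le
      (inf_le_right : (U ω)ᗮ ⊓ (U ω ⊔ R ω) ≤ U ω ⊔ R ω)
    have a1 := Submodule.finrank_add_inf_finrank_orthogonal (le_sup_left : U ω ≤ U ω ⊔ R ω)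
    have a2 := Submodule.finrank_add_le_finrank_add_finrank (U ω) (R ω)
    have a3 := hD ω
    exact h.int_eQ ((U ω)ᗮ ⊓ (U ω ⊔ R ω)) (by omega)

omit [IsProbabilityMeasure P] in
theorem markov_exp {X : Ω → ℝ} (hX : Measurable X) {t : ℝ} {D : ℕ}
    (h : ∫⁻ ω, ENNReal.ofReal (exp (X ω)) ∂P ≤ 2 ^ D) :
    P {ω | t ≤ X ω} ≤ ENNReal.ofReal (exp (D - t)) := by
  have a1 := mul_meas_ge_le_lintegral₀ (μ := P) (f := fun ω => ENNReal.ofReal (exp (X ω)))
    (by fun_prop) (ENNReal.ofReal (exp t))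
  have a2 : {ω | t ≤ X ω} ⊆ {ω | ENNReal.ofReal (exp t) ≤ ENNReal.ofReal (exp (X ω))} :=
    fun ω hω => ENNReal.ofReal_le_ofReal (exp_le_exp.2 hω)
  have a3 : (2 : ℝ≥0∞) ^ D ≤ ENNReal.ofReal (exp D) := by
    rw [← ENNReal.ofReal_ofNat 2, ← ENNReal.ofReal_pow two_pos.le, ← exp_one_pow]
    exact ENNReal.ofReal_le_ofReal (pow_le_pow_left₀ two_pos.le
      (by linarith [add_one_le_exp (1 : ℝ)]) _)
  rw [exp_sub, ENNReal.ofReal_div_of_pos (exp_pos _), ENNReal.le_div_iff_mul_le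
    (Or.inl (by simpa using exp_pos t)) (Or.inl ENNReal.ofReal_ne_top), mul_comm]
  exact (mul_le_mul_right (measure_mono a2) _).trans (a1.trans (h.trans a3))

/-- lower tail of a chi-square variable -/
theorem Iso.chi_low (h : Iso P W) {ι : Type*} [Fintype ι] {b : ι → H} (hb : Orthonormal ℝ b)
    {ε D : ℝ} {M : ℕ} (hε : 0 < ε) (hε1 : ε ≤ 1) (hD : D ≤ Fintype.card ι + M) :
    P {ω | ∑ k, W (b k) ω ^ 2 ≤ (1 - ε) * D} ≤ ENNReal.ofReal (exp (M - ε ^ 2 / 8 * D)) := by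
  have m : ∀ v, Measurable (W v) := h.meas
  set t := ε / 4 with ht
  have a1 := h.exp_sq (c := -t) (by linarith) hb Finset.univ
  have a2 : (√(1 - 2 * -t))⁻¹ ≤ exp (-(t - 2 * t ^ 2)) := by
    rw [exp_neg]
    refine inv_anti₀ (exp_pos _) (le_sqrt_of_sq_le ?_)
    rw [← exp_nat_mul]
    have b1 := add_one_le_exp (-(((2 : ℕ) : ℝ) * (t - 2 * t ^ 2)))
    rw [exp_neg] at b1
    have b2 := exp_pos (((2 : ℕ) : ℝ) * (t - 2 * t ^ 2))
    have b3 := mul_le_mul_of_nonneg_left b1 b2.le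
    rw [mul_inv_cancel₀ b2.ne'] at b3
    push_cast at b2 b3 ⊢
    have t0 : 0 < t := by linarith
    have t1 : t ≤ 1 / 4 := by linarith
    have b4 : 0 < 1 - 2 * t + 4 * t ^ 2 := by nlinarith
    by_contra hc
    have := mul_lt_mul_of_pos_right (not_le.1 hc) b4
    nlinarith [pow_pos t0 3]
  have a3 := markov_exp (P := P) (D := 0)
    (X := fun ω => -t * ∑ k, W (b k) ω ^ 2 + Fintype.card ι * (t - 2 * t ^ 2)) (by fun_prop)
    (t := ε ^ 2 / 8 * D - M) (by
      simp only [exp_add, ENNReal.ofReal_mul (exp_pos _).le]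
      rw [lintegral_mul_const _ (by fun_prop), a1, ← ENNReal.ofReal_pow (by positivity),
        ← ENNReal.ofReal_mul (by positivity), pow_zero, ENNReal.ofReal_le_one, exp_nat_mul,
        Finset.card_univ, ← mul_pow]
      refine pow_le_one₀ (by positivity) ?_
      rw [exp_neg] at a2
      exact (mul_le_mul_of_nonneg_right a2 (exp_pos _).le).trans (inv_mul_cancel₀ (exp_pos _).ne').le)
  refine (measure_mono fun ω hω => ?_).trans (a3.trans_eq (by simp))
  have b1 : ∑ k, W (b k) ω ^ 2 ≤ (1 - ε) * D := hω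
  have b2 : 0 ≤ t - 2 * t ^ 2 := by nlinarith
  have b3 : t - 2 * t ^ 2 ≤ 1 := by nlinarith
  have b4 := mul_le_mul_of_nonneg_right hD b2
  have b5 := mul_le_mul_of_nonneg_left b3 (Nat.cast_nonneg (α := ℝ) M)
  have b6 := mul_le_mul_of_nonneg_left b1 (show 0 ≤ t by linarith)
  show ε ^ 2 / 8 * D - M ≤ -t * ∑ k, W (b k) ω ^ 2 + Fintype.card ι * (t - 2 * t ^ 2)
  have b7 : D * (t - 2 * t ^ 2) - t * ((1 - ε) * D) = ε ^ 2 / 8 * D := by rw [ht]; ring
  linarith

end Pool.Agent.Lib.MP_a0a493_pr
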