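import Mathlib

/-! Indicators of balls and their overlap kernel. -/

namespace Pool.Agent.Lib.MP_a0a493_pr

open MeasureTheory Metric

abbrev E (d : ℕ) : Type := EuclideanSpace ℝ (Fin d)

variable {d : ℕ}

/-- volume of the unit ball -/
noncomputable def V1 (d : ℕ) : ℝ := (volume (ball (0 : E d) 1)).toReal

theorem V1_pos (d : ℕ) : 0 < V1 d :=
  ENNReal.toReal_pos (measure_ball_pos _ _ one_pos).ne' measure_ball_lt_top.ne

/-- indicator of a ball -/
noncomputable def bi (r : ℝ) (x u : E d) : ℝ := if dist x u < r then 1 else 0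

theorem bi_nonneg (r : ℝ) (x u : E d) : 0 ≤ bi r x u := by unfold bi; split_ifs <;> norm_num

theorem bi_le_one (r : ℝ) (x u : E d) : bi r x u ≤ 1 := by unfold bi; split_ifs <;> norm_num

theorem abs_bi (r : ℝ) (x u : E d) : |bi r x u| ≤ 1 :=
  abs_le.2 ⟨by linarith [bi_nonneg r x u], bi_le_one r x u⟩

theorem abs_bi_sub (r : ℝ) (x y u : E d) : |bi r x u - bi r y u| ≤ 1 :=
  abs_le.2 ⟨by linarith [bi_nonneg r x u, bi_le_one r y u],
    by linarith [bi_nonneg r y u, bi_le_one r x u]⟩

theorem bi_comm (r : ℝ) (x u : E d) : bi r x u = bi r u x := by unfold bi; rw [dist_comm]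

theorem bi_zero {r : ℝ} {x u : E d} (h : r ≤ dist x u) : bi r x u = 0 := if_neg (not_lt.2 h)

theorem bi_one {r : ℝ} {x u : E d} (h : dist x u < r) : bi r x u = 1 := if_pos h

theorem bi_add (r : ℝ) (x u w : E d) : bi r (x + w) (u + w) = bi r x u := by
  unfold bi; rw [dist_add_right]

@[fun_prop] theorem measurable_bi {X : Type*} [MeasurableSpace X] {r : X → ℝ} {x u : X → E d}
    (hr : Measurable r) (hx : Measurable x) (hu : Measurable u) :
    Measurable fun t => bi (r t) (x t) (u t) :=
  Measurable.ite (measurableSet_lt (hx.dist hu) hr) measurable_const measurable_const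

theorem bi_eq (r : ℝ) (x : E d) : bi r x = (ball x r).indicator 1 := by
  funext u
  simp only [bi, Set.indicator, mem_ball, dist_comm u x, Pi.one_apply]

theorem integrable_bi (r : ℝ) (x : E d) : Integrable (bi r x) := by
  rw [bi_eq]
  exact (integrable_indicator_iff measurableSet_ball).2
    (integrableOn_const measure_ball_lt_top.ne)

theorem integral_bi {r : ℝ} (hr : 0 < r) (x : E d) : ∫ u, bi r x u = V1 d * r ^ d := by
  rw [bi_eq, integral_indicator_one measurableSet_ball, Measure.real,
    Measure.addHaar_ball_of_pos _ _ hr, ENNReal.toReal_mul, ENNReal.toReal_ofReal (by positivity),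
    finrank_euclideanSpace_fin, mul_comm, V1]

theorem integral_bi_sub (hd : 1 ≤ d) {r : ℝ} (hr : 0 < r) (y z : E d) :
    ∫ u, |bi r y u - bi r z u| ≤ 2 * d * dist y z / r * (V1 d * r ^ d) := by
  have hV := V1_pos d
  have i0 := ((integrable_bi r y).sub (integrable_bi r z)).abs
  have hd' : (1 : ℝ) ≤ d := by exact_mod_cast hd
  rcases lt_or_ge (dist y z) r with h | h
  · have h' : 0 < r - dist y z := sub_pos.2 h
    calc _ ≤ ∫ u, (bi r y u - bi (r - dist y z) y u) + (bi r z u - bi (r - dist y z) z u) := by
          refine integral_mono i0 (((integrable_bi _ y).sub (integrable_bi _ y)).add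
            ((integrable_bi _ z).sub (integrable_bi _ z))) fun u => ?_
          have a := dist_triangle y z u
          have b := dist_triangle z y u
          have c := dist_comm y z
          have e := dist_nonneg (x := y) (y := z)
          simp only [bi]
          split_ifs <;> first | linarith | norm_num
      _ = 2 * V1 d * (r ^ d - (r - dist y z) ^ d) := by
          rw [integral_add (f := fun u => bi r y u - bi (r - dist y z) y u)
            (g := fun u => bi r z u - bi (r - dist y z) z u)
            ((integrable_bi _ y).sub (integrable_bi _ y))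
            ((integrable_bi _ z).sub (integrable_bi _ z)),
            integral_sub (integrable_bi _ y) (integrable_bi _ y),
            integral_sub (integrable_bi _ z) (integrable_bi _ z), integral_bi hr, integral_bi hr,
            integral_bi h', integral_bi h']
          ring
      _ ≤ _ := by
          have a : 1 + d * (-(dist y z / r)) ≤ (1 + -(dist y z / r)) ^ d :=
            one_add_mul_le_pow (by linarith [(div_le_one hr).2 h.le]) d
          have b : (r - dist y z) ^ d = r ^ d * (1 + -(dist y z / r)) ^ d := by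
            rw [← mul_pow]; congr 1; field_simp; ring
          have c := mul_le_mul_of_nonneg_left a (mul_pos hV (pow_pos hr d)).le
          rw [b]
          have e : 2 * d * dist y z / r = 2 * (d * (dist y z / r)) := by ring
          rw [e]
          linarith
  · calc _ ≤ ∫ u, bi r y u + bi r z u := by
          refine integral_mono i0 ((integrable_bi _ y).add (integrable_bi _ z)) fun u => ?_
          exact abs_le.2 ⟨by linarith [bi_nonneg r y u, bi_nonneg r z u],
            by linarith [bi_nonneg r y u, bi_nonneg r z u]⟩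
      _ = 2 * (V1 d * r ^ d) := by
          rw [integral_add (integrable_bi _ y) (integrable_bi _ z), integral_bi hr, integral_bi hr]
          ring
      _ ≤ _ := by
          refine mul_le_mul_of_nonneg_right ?_ (by positivity)
          rw [le_div_iff₀ hr]
          nlinarith

/-- normalised overlap of two unit balls -/
noncomputable def kap (w : E d) : ℝ := (∫ u, bi 1 0 u * bi 1 w u) / V1 d

theorem integrable_bi_mul (r : ℝ) (x y : E d) : Integrable fun u => bi r x u * bi r y u :=
  (integrable_bi r x).mul_bdd (c := 1) (by fun_prop : Measurable _).aestronglyMeasurable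
    (Filter.Eventually.of_forall fun u => abs_bi r y u)

theorem integral_bi_mul {r : ℝ} (hr : 0 < r) (x y : E d) :
    ∫ u, bi r x u * bi r y u = V1 d * r ^ d * kap (r⁻¹ • (y - x)) := by
  have e : ∀ a u : E d, bi r (x + a) (x + r • u) = bi 1 (r⁻¹ • a) u := by
    intro a u
    have : dist (x + a) (x + r • u) = r * dist (r⁻¹ • a) u := by
      rw [dist_add_left, ← abs_of_pos hr, ← Real.norm_eq_abs, ← dist_smul₀, Real.norm_eq_abs,
        abs_of_pos hr, smul_inv_smul₀ hr.ne']
    unfold bi
    simp only [this, mul_lt_iff_lt_one_right hr]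
  have h := Measure.integral_comp_smul volume (fun u : E d => bi r x (x + u) * bi r y (x + u)) r
  rw [integral_add_left_eq_self (fun u : E d => bi r x u * bi r y u) x,
    finrank_euclideanSpace_fin, abs_of_pos (by positivity), smul_eq_mul] at h
  have e1 : ∀ u, bi r x (x + r • u) = bi 1 0 u := fun u => by simpa using e 0 u
  have e2 : ∀ u, bi r y (x + r • u) = bi 1 (r⁻¹ • (y - x)) u := fun u => by
    simpa using e (y - x) u
  simp only [e1, e2] at h
  rw [kap, h]
  have := (V1_pos d).ne'
  field_simp

theorem kap_nonneg (w : E d) : 0 ≤ kap w :=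
  div_nonneg (integral_nonneg fun _ => mul_nonneg (bi_nonneg _ _ _) (bi_nonneg _ _ _))
    (V1_pos d).le

theorem kap_le_one (w : E d) : kap w ≤ 1 := by
  rw [kap, div_le_one (V1_pos d)]
  refine (integral_mono (integrable_bi_mul _ _ _) (integrable_bi 1 0) fun u =>
    mul_le_of_le_one_right (bi_nonneg _ _ _) (bi_le_one _ _ _)).trans ?_
  rw [integral_bi one_pos]; simp

theorem kap_zero {w : E d} (h : 2 ≤ ‖w‖) : kap w = 0 := by
  rw [kap, div_eq_zero_iff]
  refine Or.inl (integral_eq_zero_of_ae (Filter.Eventually.of_forall fun u => ?_))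
  have a := dist_triangle_right 0 w u
  rw [dist_zero_left] at a
  simp only [bi]
  split_ifs <;> first | linarith | simp

theorem one_sub_kap (hd : 1 ≤ d) (w : E d) : 1 - kap w ≤ 2 * d * ‖w‖ := by
  have h := integral_bi_sub hd one_pos (0 : E d) w
  have h1 := integral_bi one_pos (0 : E d)
  have h2 : ∫ u, bi 1 (0 : E d) u - bi 1 0 u * bi 1 w u ≤ ∫ u, |bi 1 0 u - bi 1 w u| := by
    refine integral_mono ((integrable_bi _ _).sub (integrable_bi_mul _ _ _))
      ((integrable_bi _ _).sub (integrable_bi _ _)).abs fun u => ?_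
    simp only [bi]
    split_ifs <;> norm_num
  rw [integral_sub (integrable_bi _ _) (integrable_bi_mul _ _ _), h1] at h2
  rw [dist_zero_left] at h
  simp only [one_pow, mul_one, div_one] at h h2
  rw [kap, sub_le_comm, le_div_iff₀ (V1_pos d)]
  linarith

theorem kap_radial {w w' : E d} (h : ‖w‖ = ‖w'‖) : kap w = kap w' := by
  let g := Submodule.reflection (ℝ ∙ (w - w'))ᗮ
  have hg : g w = w' := Submodule.reflection_sub h
  unfold kap
  rw [← g.measurePreserving.integral_comp g.toHomeomorph.measurableEmbedding
    (fun u => bi 1 0 u * bi 1 w' u)]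
  congr 2
  funext u
  unfold bi
  rw [← hg, g.dist_map, dist_zero_left, dist_zero_left, g.norm_map]

theorem measurable_kap : Measurable (kap : E d → ℝ) :=
  ((by fun_prop : Measurable fun p : E d × E d => bi 1 0 p.2 * bi 1 p.1 p.2).stronglyMeasurable
    |>.integral_prod_right').measurable.div_const _

/-- mixtures of kernels -/
theorem mix {ν : E d → ℝ} (hν : Integrable ν) (mν : Measurable ν) {K : E d → E d → ℝ}
    (mK : Measurable fun p : E d × E d => K p.1 p.2) (iK : ∀ y, Integrable (K y)) {t : ℝ}
    (ht : ∀ y, ν y ≠ 0 → ∫ u, |K y u| ≤ t) :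
    Integrable (fun u => ∫ y, ν y * K y u) ∧ ∫ u, |∫ y, ν y * K y u| ≤ (∫ y, |ν y|) * t := by
  have m : AEStronglyMeasurable (fun p : E d × E d => ν p.1 * K p.1 p.2) (volume.prod volume) :=
    ((mν.comp measurable_fst).mul mK).aestronglyMeasurable
  have b : ∀ y, ∫ u, ‖ν y * K y u‖ ≤ |ν y| * t := fun y => by
    simp only [Real.norm_eq_abs, abs_mul, integral_const_mul]
    by_cases h : ν y = 0
    · simp [h]
    · exact mul_le_mul_of_nonneg_left (ht y h) (abs_nonneg _)
  have i1 : Integrable fun y => ∫ u, ‖ν y * K y u‖ :=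
    (hν.abs.mul_const t).mono' m.norm.integral_prod_right' (Filter.Eventually.of_forall fun y => by
      rw [Real.norm_of_nonneg (integral_nonneg fun _ => norm_nonneg _)]; exact b y)
  have i : Integrable (fun p : E d × E d => ν p.1 * K p.1 p.2) (volume.prod volume) :=
    (integrable_prod_iff m).2 ⟨Filter.Eventually.of_forall fun y => (iK y).const_mul (ν y), i1⟩
  refine ⟨i.integral_prod_right, ?_⟩
  calc _ ≤ ∫ u, ∫ y, ‖ν y * K y u‖ :=
        integral_mono i.integral_prod_right.abs i.norm.integral_prod_right fun u =>
          norm_integral_le_integral_norm fun y => ν y * K y u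
    _ = ∫ y, ∫ u, ‖ν y * K y u‖ := (integral_integral_swap i.norm).symm
    _ ≤ ∫ y, |ν y| * t := integral_mono i1 (hν.abs.mul_const t) b
    _ = _ := integral_mul_const _ _

end Pool.Agent.Lib.MP_a0a493_pr
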