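import Pool.Agent.Lib.MP_a0a493_pr.AdB

/-! Incremental optimisation inside one block of scales: the deterministic geometry. -/

namespace Pool.Agent.Lib.MP_a0a493_pr

open MeasureTheory Real Finset
open scoped InnerProductSpace

variable {Ω H X : Type*} [NormedAddCommGroup H] [InnerProductSpace ℝ H] [NormedAddCommGroup X]
  [InnerProductSpace ℝ X]

/-- damped fields `F` and their gradients `G` in one block of scales -/
structure Blk (T K : ℝ) (fk : ℝ → ℝ) (F : ℝ → X → H) (G : ℝ → X → X →ₗ[ℝ] H) : Prop where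
  GG : ∀ s s', 0 ≤ s → 0 ≤ s' → ∀ x y a b, ⟪a, x - y⟫_ℝ = 0 →
    ⟪G s x a, G s' y b⟫_ℝ = fk (s + s' + ‖x - y‖ ^ 2) * ⟪a, b⟫_ℝ
  FG : ∀ s s', 0 ≤ s → 0 ≤ s' → ∀ z x b,
    ⟪F s z, G s' x b⟫_ℝ = fk (s + s' + ‖z - x‖ ^ 2) * ⟪b, z - x⟫_ℝ
  nF : ∀ s, 0 ≤ s → ∀ x, ‖F s x‖ ^ 2 ≤ T
  nG : ∀ s, 0 ≤ s → ∀ x a, ‖G s x a‖ ≤ K * ‖a‖
  lG : ∀ s, 0 ≤ s → ∀ x y a, ‖G s x a - G s y a‖ ≤ K * ‖x - y‖ * ‖a‖

/-- step sizes -/
noncomputable def dl (s : ℕ → ℝ) (i : ℕ) : ℝ := √(s i - s (i + 1))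

/-- positions -/
noncomputable def pos (s : ℕ → ℝ) (a : X) (σ : ℕ → X) (i : ℕ) : X :=
  a + ∑ l ∈ range i, dl s l • σ l

/-- gradients along the trajectory -/
noncomputable def gg (G : ℝ → X → X →ₗ[ℝ] H) (s : ℕ → ℝ) (a : X) (σ : ℕ → X) : ℕ → X →ₗ[ℝ] H
  | 0 => 0
  | i + 1 => G (s i) (pos s a σ i)

/-- variances along the trajectory -/
noncomputable def ph (fk : ℝ → ℝ) (s : ℕ → ℝ) : ℕ → ℝ
  | 0 => 0
  | i + 1 => fk (2 * s i)

/-- directions orthogonal to the previous steps -/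
noncomputable def VV (σ : ℕ → X) (i : ℕ) : Submodule ℝ X := (Submodule.span ℝ (σ '' Set.Iio i))ᗮ

/-- the first `i` directions are orthonormal -/
def ON (σ : ℕ → X) (i : ℕ) : Prop := ∀ l < i, σ l ∈ VV σ l ∧ ‖σ l‖ = 1

theorem mem_VV {σ : ℕ → X} {i : ℕ} {a : X} : a ∈ VV σ i ↔ ∀ l < i, ⟪σ l, a⟫_ℝ = 0 := by
  rw [VV, ← Submodule.span_singleton_le_iff_mem, ← Submodule.isOrtho_iff_le,
    Submodule.isOrtho_comm, Submodule.isOrtho_span]
  simp only [Set.mem_image, Set.mem_Iio, Set.mem_singleton_iff]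
  exact ⟨fun h l hl => h ⟨l, hl, rfl⟩ rfl, fun h _ ⟨l, hl, e⟩ _ e' => e ▸ e' ▸ h l hl⟩

theorem VV_anti (σ : ℕ → X) {i j : ℕ} (h : i ≤ j) : VV σ j ≤ VV σ i := fun _ ha =>
  mem_VV.2 fun l hl => mem_VV.1 ha l (hl.trans_le h)

theorem pos_succ (s : ℕ → ℝ) (a : X) (σ : ℕ → X) (i : ℕ) :
    pos s a σ (i + 1) = pos s a σ i + dl s i • σ i := by
  rw [pos, pos, sum_range_succ, add_assoc]

theorem inner_pos {s : ℕ → ℝ} {a b : X} {σ : ℕ → X} {i j m : ℕ} (hb : b ∈ VV σ m) (hi : i ≤ m)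
    (hj : j ≤ m) : ⟪b, pos s a σ j - pos s a σ i⟫_ℝ = 0 := by
  have : ∀ j ≤ m, ⟪b, pos s a σ j⟫_ℝ = ⟪b, a⟫_ℝ := fun j hj => by
    rw [pos, inner_add_right, inner_sum, sum_eq_zero, add_zero]
    intro l hl
    rw [inner_smul_right, real_inner_comm, mem_VV.1 hb l ((mem_range.1 hl).trans_le hj), mul_zero]
  rw [inner_sub_right, this j hj, this i hi, sub_self]

theorem ON.sub_mem {s : ℕ → ℝ} {a : X} {σ : ℕ → X} {M i j : ℕ} (h : ON σ M) (hij : i ≤ j)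
    (hj : j ≤ M) : pos s a σ j - pos s a σ i ∈ VV σ i := by
  induction j, hij using Nat.le_induction with
  | base => simp
  | succ j hij ih =>
    rw [pos_succ, add_sub_right_comm]
    exact (VV σ i).add_mem (ih (by omega)) ((VV σ i).smul_mem _ (VV_anti σ hij (h j hj).1))

theorem ON.norm_sub {s : ℕ → ℝ} (hs : Antitone s) {a : X} {σ : ℕ → X} {M i j : ℕ} (h : ON σ M)
    (hij : i ≤ j) (hj : j ≤ M) : ‖pos s a σ j - pos s a σ i‖ ^ 2 = s i - s j := by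
  induction j, hij using Nat.le_induction with
  | base => simp
  | succ j hij ih =>
    rw [pos_succ, add_sub_right_comm, norm_add_sq_real, ih (by omega), inner_smul_right,
      real_inner_comm, inner_pos (h j hj).1 hij le_rfl, norm_smul, (h j hj).2, mul_one,
      Real.norm_eq_abs, sq_abs, dl, sq_sqrt (sub_nonneg.2 (hs j.le_succ))]
    ring

variable {T K : ℝ} {fk : ℝ → ℝ} {F : ℝ → X → H} {G : ℝ → X → X →ₗ[ℝ] H} {s : ℕ → ℝ} {a : X}
  {σ : ℕ → X} {M : ℕ}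

theorem Blk.gram (B : Blk T K fk F G) (hs : Antitone s) (s0 : ∀ i, 0 ≤ s i) (h : ON σ M) {i l m : ℕ}
    (hi : i ≤ M) (hl : l ≤ m) (hm : m ≤ i + 1) {u : X} (hu : u ∈ VV σ i) (v : X) :
    ⟪gg G s a σ m u, gg G s a σ l v⟫_ℝ = ph fk s l * ⟪u, v⟫_ℝ := by
  rcases l with _ | l
  · simp [gg, ph]
  obtain ⟨m, rfl⟩ := Nat.exists_eq_add_one.2 (show 0 < m by omega)
  rw [gg, gg, ph, B.GG _ _ (s0 _) (s0 _) _ _ _ _ (inner_pos hu (by omega) (by omega)),
    h.norm_sub hs (by omega) (by omega)]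
  congr 2
  ring

/-- innovations -/
noncomputable def Hh (G : ℝ → X → X →ₗ[ℝ] H) (s : ℕ → ℝ) (a : X) (σ : ℕ → X) (i : ℕ) :
    X →ₗ[ℝ] H := gg G s a σ (i + 1) - gg G s a σ i

theorem Blk.HH_lt (B : Blk T K fk F G) (hs : Antitone s) (s0 : ∀ i, 0 ≤ s i) (h : ON σ M) {i l : ℕ}
    (hi : i ≤ M) (hl : l < i) {u : X} (hu : u ∈ VV σ i) (v : X) :
    ⟪Hh G s a σ i u, Hh G s a σ l v⟫_ℝ = 0 := by
  simp only [Hh, LinearMap.sub_apply, inner_sub_left, inner_sub_right]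
  rw [B.gram hs s0 h hi (by omega) le_rfl hu, B.gram hs s0 h hi (by omega) le_rfl hu,
    B.gram hs s0 h hi (by omega) i.le_succ hu, B.gram hs s0 h hi (by omega) i.le_succ hu]
  ring

theorem Blk.HH_eq (B : Blk T K fk F G) (hs : Antitone s) (s0 : ∀ i, 0 ≤ s i) (h : ON σ M) {i : ℕ}
    (hi : i ≤ M) {u v : X} (hu : u ∈ VV σ i) (hv : v ∈ VV σ i) :
    ⟪Hh G s a σ i u, Hh G s a σ i v⟫_ℝ = (ph fk s (i + 1) - ph fk s i) * ⟪u, v⟫_ℝ := by
  simp only [Hh, LinearMap.sub_apply, inner_sub_left, inner_sub_right]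
  rw [B.gram hs s0 h hi le_rfl le_rfl hu, B.gram hs s0 h hi i.le_succ le_rfl hu,
    B.gram hs s0 h hi le_rfl i.le_succ hu, real_inner_comm (gg G s a σ (i + 1) v),
    B.gram hs s0 h hi i.le_succ le_rfl hv, real_inner_comm u v]
  ring

theorem Blk.FH (B : Blk T K fk F G) (hs : Antitone s) (s0 : ∀ i, 0 ≤ s i) (h : ON σ M) {i : ℕ}
    (hi : i ≤ M) {u : X} (hu : u ∈ VV σ i) : ⟪F (s M) (pos s a σ M), Hh G s a σ i u⟫_ℝ
      = (ph fk s (i + 1) - ph fk s i) * ⟪u, pos s a σ M - pos s a σ i⟫_ℝ := by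
  have e : ∀ l ≤ i, ⟪F (s M) (pos s a σ M), gg G s a σ (l + 1) u⟫_ℝ
      = ph fk s (l + 1) * ⟪u, pos s a σ M - pos s a σ i⟫_ℝ := fun l hl => by
    have e1 := inner_pos (s := s) (a := a) hu hl le_rfl
    rw [gg, ph, B.FG _ _ (s0 _) (s0 _), h.norm_sub hs (by omega) le_rfl]
    rw [inner_sub_right] at e1 ⊢
    rw [inner_sub_right, ← sub_eq_zero.1 e1]
    congr 2
    ring
  rw [Hh, LinearMap.sub_apply, inner_sub_right, e i le_rfl]
  rcases i with _ | i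
  · simp [gg, ph]
  · rw [e i i.le_succ]; ring

/-- the part of the terminal field that is not seen by the innovations -/
noncomputable def rs (F : ℝ → X → H) (G : ℝ → X → X →ₗ[ℝ] H) (s : ℕ → ℝ) (a : X) (σ : ℕ → X)
    (M : ℕ) : H :=
  F (s M) (pos s a σ M) - ∑ i ∈ range M, Hh G s a σ i (pos s a σ M - pos s a σ i)

theorem Blk.rs_orth (B : Blk T K fk F G) (hs : Antitone s) (s0 : ∀ i, 0 ≤ s i) (h : ON σ M) {l : ℕ}
    (hl : l < M) {u : X} (hu : u ∈ VV σ l) : ⟪rs F G s a σ M, Hh G s a σ l u⟫_ℝ = 0 := by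
  rw [rs, inner_sub_left, B.FH hs s0 h hl.le hu, sum_inner, sum_eq_single l,
    B.HH_eq hs s0 h hl.le (h.sub_mem hl.le le_rfl) hu, real_inner_comm, sub_self]
  · intro i hi hil
    have hi' := (mem_range.1 hi).le
    rcases lt_or_gt_of_ne hil with c | c
    · rw [real_inner_comm, B.HH_lt hs s0 h hl.le c hu]
    · exact B.HH_lt hs s0 h hi' c (h.sub_mem hi' le_rfl) u
  · exact fun hn => absurd (mem_range.2 hl) hn

theorem Blk.rs_norm (B : Blk T K fk F G) (hs : Antitone s) (s0 : ∀ i, 0 ≤ s i) (h : ON σ M) :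
    ‖rs F G s a σ M‖ ^ 2 ≤ T := by
  have e : ⟪rs F G s a σ M,
      ∑ i ∈ range M, Hh G s a σ i (pos s a σ M - pos s a σ i)⟫_ℝ = 0 := by
    rw [inner_sum]
    exact sum_eq_zero fun i hi => B.rs_orth hs s0 h (mem_range.1 hi)
      (h.sub_mem (mem_range.1 hi).le le_rfl)
  have e2 := norm_add_sq_real (rs F G s a σ M)
    (∑ i ∈ range M, Hh G s a σ i (pos s a σ M - pos s a σ i))
  rw [e, rs, sub_add_cancel, ← rs] at e2
  nlinarith [B.nF (s M) (s0 M) (pos s a σ M),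
    sq_nonneg ‖∑ i ∈ range M, Hh G s a σ i (pos s a σ M - pos s a σ i)‖]

theorem pos_congr {σ' : ℕ → X} {i : ℕ} (h : ∀ l < i, σ l = σ' l) {j : ℕ} (hj : j ≤ i) :
    pos s a σ j = pos s a σ' j := by
  rw [pos, pos, sum_congr rfl fun l hl => by rw [h l ((mem_range.1 hl).trans_le hj)]]

theorem gg_congr {σ' : ℕ → X} {i : ℕ} (h : ∀ l < i, σ l = σ' l) {j : ℕ} (hj : j ≤ i + 1) :
    gg G s a σ j = gg G s a σ' j := by
  rcases j with _ | j
  · rfl
  · rw [gg, gg, pos_congr h (by omega)]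

theorem VV_congr {σ' : ℕ → X} {i : ℕ} (h : ∀ l < i, σ l = σ' l) : VV σ i = VV σ' i := by
  rw [VV, VV, Set.image_congr (s := Set.Iio i) h]

variable [FiniteDimensional ℝ X]

/-- projected innovations -/
noncomputable def LL (G : ℝ → X → X →ₗ[ℝ] H) (s : ℕ → ℝ) (a : X) (σ : ℕ → X) (i : ℕ) :
    X →ₗ[ℝ] H := Hh G s a σ i ∘ₗ (VV σ i).starProjection.toLinearMap

theorem LL_apply (i : ℕ) (c : X) :
    LL G s a σ i c = Hh G s a σ i ((VV σ i).starProjection c) := rfl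

theorem LL_congr {σ' : ℕ → X} {i : ℕ} (h : ∀ l < i, σ l = σ' l) :
    LL G s a σ i = LL G s a σ' i := by
  simp only [LL, Hh, gg_congr h le_rfl, gg_congr h i.le_succ, VV_congr h]

theorem finrank_VV (σ : ℕ → X) (i : ℕ) :
    Module.finrank ℝ X ≤ Module.finrank ℝ (VV σ i) + i := by
  classical
  have a1 := Submodule.finrank_add_finrank_orthogonal (Submodule.span ℝ (σ '' Set.Iio i))
  have a2 := finrank_span_finset_le_card (R := ℝ) ((range i).image σ)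
  have a3 := card_image_le (s := range i) (f := σ)
  rw [Set.finrank, coe_image, coe_range] at a2
  rw [card_range] at a3
  unfold VV
  omega

theorem ON.proj (h : ON σ M) {i : ℕ} (hi : i ≤ M) (c : X) :
    (VV σ i).starProjection c = c - ∑ l ∈ range i, ⟪σ l, c⟫_ℝ • σ l := by
  refine Submodule.eq_starProjection_of_mem_of_inner_eq_zero (mem_VV.2 fun m hm => ?_)
    fun w hw => ?_
  · rw [inner_sub_right, inner_sum, sum_eq_single m, inner_smul_right, real_inner_self_eq_norm_sq,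
      (h m (by omega)).2]
    · ring
    · intro l hl hlm
      have hl' := mem_range.1 hl
      rw [inner_smul_right]
      rcases lt_or_gt_of_ne hlm with c | c
      · rw [real_inner_comm (σ l), mem_VV.1 (h m (by omega)).1 l c, mul_zero]
      · rw [mem_VV.1 (h l (by omega)).1 m c, mul_zero]
    · exact fun hn => absurd (mem_range.2 hm) hn
  · rw [sub_sub_cancel, sum_inner]
    exact sum_eq_zero fun l hl => by
      rw [real_inner_smul_left, mem_VV.1 hw l (mem_range.1 hl), mul_zero]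

/-- the random vector representing the process along a linear map -/
noncomputable def rv (W : H →ₗ[ℝ] (Ω → ℝ)) (L : X →ₗ[ℝ] H) (ω : Ω) : X :=
  ∑ k, W (L (stdOrthonormalBasis ℝ X k)) ω • stdOrthonormalBasis ℝ X k

theorem inner_rv (W : H →ₗ[ℝ] (Ω → ℝ)) (L : X →ₗ[ℝ] H) (ω : Ω) (c : X) :
    ⟪rv W L ω, c⟫_ℝ = W (L c) ω := by
  conv_rhs => rw [← (stdOrthonormalBasis ℝ X).sum_repr' c]
  simp only [rv, map_sum, map_smul, Finset.sum_apply, Pi.smul_apply, smul_eq_mul, sum_inner,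
    real_inner_smul_left, mul_comm]

theorem rv_mem (W : H →ₗ[ℝ] (Ω → ℝ)) (i : ℕ) (ω : Ω) : rv W (LL G s a σ i) ω ∈ VV σ i :=
  mem_VV.2 fun l hl => by
    have e : σ l ∈ (VV σ i)ᗮ := Submodule.le_orthogonal_orthogonal _
      (Submodule.subset_span (Set.mem_image_of_mem σ hl))
    rw [real_inner_comm, inner_rv, LL_apply, (Submodule.starProjection_apply_eq_zero_iff _).2 e]
    simp

end Pool.Agent.Lib.MP_a0a493_pr
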