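import Pool.Agent.Lib.MP_a0a493_pr.BlkA
import Pool.Agent.Lib.MP_a0a493_pr.Ball

/-! Incremental optimisation inside one block of scales: the algorithm, gain and stability. -/

namespace Pool.Agent.Lib.MP_a0a493_pr

open MeasureTheory Real Finset
open scoped InnerProductSpace

variable {Ω H : Type*} [NormedAddCommGroup H] [InnerProductSpace ℝ H] {d : ℕ}

theorem sk_pick {X : Type*} [m : MeasurableSpace X] (A : X → Set X) (hA : ∀ v, MeasurableSet (A v))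
    (v0 : X) (t : Finset X) : ∃ p : X → X, Sk m p ∧
      ∀ y, (p y = v0 ∨ p y ∈ t) ∧ ((∃ v ∈ t, y ∈ A v) → y ∈ A (p y)) := by
  classical
  induction t using Finset.induction_on with
  | empty => exact ⟨_, Sk.const _ v0, fun y => ⟨Or.inl rfl, by simp⟩⟩
  | insert v t _ ih =>
    obtain ⟨p, h1, h2⟩ := ih
    have s1 : Sk m fun y => y ∈ A v := ⟨Set.toFinite _, fun σ => by
      by_cases h : σ
      · simpa [h] using hA v
      · simp only [h, eq_iff_iff, iff_false]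
        exact (hA v).compl⟩
    refine ⟨fun y => if y ∈ A v then v else p y,
      s1.bind (f := fun (c : Prop) y => if c then v else p y) fun y => ?_, fun y => ?_⟩
    · split_ifs
      · exact Sk.const _ _
      · exact h1
    · beta_reduce
      split_ifs with h
      · exact ⟨Or.inr (mem_insert_self _ _), fun _ => h⟩
      · refine ⟨(h2 y).1.imp_right mem_insert_of_mem, ?_⟩
        rintro ⟨w, hw, hy⟩
        exact (h2 y).2 ⟨w, (mem_insert.1 hw).resolve_left fun e => h (e ▸ hy), hy⟩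

theorem exists_pk (ν : ℝ) (V : Submodule ℝ (E d)) : ∃ p : E d → E d, Sk inferInstance p ∧
    (0 < ν → V ≠ ⊥ → ∀ y, (p y ∈ V ∧ ‖p y‖ = 1) ∧ (y ∈ V → ‖‖y‖ • p y - y‖ ≤ ν * ‖y‖)) := by
  by_cases h : 0 < ν ∧ V ≠ ⊥
  swap
  · exact ⟨_, Sk.const _ 0, fun a b => absurd ⟨a, b⟩ h⟩
  have hu : ∀ y ∈ V, y ≠ 0 → ‖y‖⁻¹ • y ∈ (V : Set (E d)) ∩ Metric.sphere 0 1 := fun y hy h0 =>
    ⟨V.smul_mem _ hy, by simpa using norm_smul_inv_norm (𝕜 := ℝ) h0⟩
  obtain ⟨y0, a1, a2⟩ := Submodule.exists_mem_ne_zero_of_ne_bot h.2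
  obtain ⟨t, t1, t2, t3⟩ := ((isCompact_sphere (0 : E d) 1).inter_left
    V.closed_of_finiteDimensional).finite_cover_balls h.1
  obtain ⟨p, p1, p2⟩ := sk_pick (fun v => {y : E d | ‖‖y‖ • v - y‖ ≤ ν * ‖y‖})
    (fun v => (isClosed_le (by fun_prop) (by fun_prop)).measurableSet) (‖y0‖⁻¹ • y0) t2.toFinset
  refine ⟨p, p1, fun _ _ y => ⟨?_, fun hy => ?_⟩⟩
  · have : p y ∈ (V : Set (E d)) ∩ Metric.sphere 0 1 :=
      (p2 y).1.elim (fun e => e ▸ hu y0 a1 a2) fun e => t1 (t2.mem_toFinset.1 e)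
    exact ⟨this.1, by simpa using this.2⟩
  · rcases eq_or_ne y 0 with rfl | h0
    · simp
    obtain ⟨v, v1, v2⟩ := Set.mem_iUnion₂.1 (t3 (hu y hy h0))
    refine (p2 y).2 ⟨v, t2.mem_toFinset.2 v1, ?_⟩
    have e : ‖y‖ • v - y = ‖y‖ • (v - ‖y‖⁻¹ • y) := by
      rw [smul_sub, smul_inv_smul₀ (norm_ne_zero_iff.2 h0)]
    rw [Set.mem_ofPred_eq, e, norm_smul, norm_norm, mul_comm, ← dist_eq_norm, dist_comm]
    exact mul_le_mul_of_nonneg_right (le_of_lt v2) (norm_nonneg _)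

/-- a direction from a finite net -/
noncomputable def pick (ν : ℝ) (V : Submodule ℝ (E d)) : E d → E d := (exists_pk ν V).choose

/-- the directions chosen in the first steps -/
noncomputable def hist (W : H →ₗ[ℝ] (Ω → ℝ)) (G : ℝ → E d → E d →ₗ[ℝ] H) (s : ℕ → ℝ) (ν : ℝ)
    (a : E d) : ℕ → Ω → ℕ → E d
  | 0, _ => 0
  | i + 1, ω => Function.update (hist W G s ν a i ω) i
      (pick ν (VV (hist W G s ν a i ω) i) (rv W (LL G s a (hist W G s ν a i ω) i) ω))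

variable {W : H →ₗ[ℝ] (Ω → ℝ)} {T K ν : ℝ} {fk : ℝ → ℝ} {F : ℝ → E d → H}
  {G : ℝ → E d → E d →ₗ[ℝ] H} {s : ℕ → ℝ} {a b : E d} {σ σ' : ℕ → E d} {M : ℕ} {ω : Ω}

theorem hist_stab {i j : ℕ} (h : i ≤ j) : ∀ l < i, hist W G s ν a j ω l = hist W G s ν a i ω l := by
  intro l hl
  induction j, h using Nat.le_induction with
  | base => rfl
  | succ j h ih => rw [hist, Function.update_of_ne (by omega), ih]

theorem hist_spec {i : ℕ} (h : i < M) : hist W G s ν a M ω i =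
    pick ν (VV (hist W G s ν a M ω) i) (rv W (LL G s a (hist W G s ν a M ω) i) ω) := by
  rw [hist_stab h i i.lt_succ_self, hist, Function.update_self, VV_congr (hist_stab h.le),
    LL_congr (hist_stab h.le)]

theorem VV_ne (σ : ℕ → E d) {i : ℕ} (h : i < d) : VV σ i ≠ ⊥ := fun e => by
  have := finrank_VV σ i
  rw [e, finrank_bot, finrank_euclideanSpace_fin] at this
  omega

theorem hist_ON (hν : 0 < ν) (hM : M ≤ d) : ON (hist W G s ν a M ω) M := fun l hl => by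
  rw [hist_spec hl]
  exact ((exists_pk ν _).choose_spec.2 hν (VV_ne _ (by omega)) _).1

theorem hist_dir (hν : 0 < ν) (hM : M ≤ d) {i : ℕ} (h : i < M) :
    ‖‖rv W (LL G s a (hist W G s ν a M ω) i) ω‖ • hist W G s ν a M ω i -
      rv W (LL G s a (hist W G s ν a M ω) i) ω‖
      ≤ ν * ‖rv W (LL G s a (hist W G s ν a M ω) i) ω‖ := by
  rw [hist_spec h]
  exact ((exists_pk ν _).choose_spec.2 hν (VV_ne _ (by omega)) _).2 (rv_mem W i ω)

theorem gain (hs : Antitone s) (s0 : ∀ i, 0 ≤ s i) (s1 : s 0 ≤ 1) (hν : 0 ≤ ν) (h : ON σ M)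
    (hd : ∀ i < M, ‖‖rv W (LL G s a σ i) ω‖ • σ i - rv W (LL G s a σ i) ω‖
      ≤ ν * ‖rv W (LL G s a σ i) ω‖) :
    ∑ i ∈ range M, ‖rv W (LL G s a σ i) ω‖ * (dl s i - ν) + W (rs F G s a σ M) ω
      ≤ W (F (s M) (pos s a σ M)) ω := by
  simp only [rs, map_sub, map_sum, Pi.sub_apply, Finset.sum_apply]
  rw [add_sub, sub_le_iff_le_add, add_comm]
  refine add_le_add_right (sum_le_sum fun i hi => ?_) _
  have hi' := mem_range.1 hi
  have a1 := h.sub_mem (s := s) (a := a) hi'.le le_rfl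
  have a2 := h.norm_sub hs (a := a) hi'.le le_rfl
  have a3 := mem_VV.1 (h.sub_mem (s := s) (a := a) hi' le_rfl) i i.lt_succ_self
  have a4 := inner_rv W (LL G s a σ i) ω (pos s a σ M - pos s a σ i)
  rw [LL_apply, Submodule.starProjection_eq_self_iff.2 a1, map_sub, map_sub, Pi.sub_apply] at a4
  rw [← a4]
  set y := pos s a σ M - pos s a σ i
  set ζ := rv W (LL G s a σ i) ω
  have a5 : ⟪σ i, y⟫_ℝ = dl s i := by
    have e : y = pos s a σ M - pos s a σ (i + 1) + dl s i • σ i := by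
      simp only [y, pos_succ]; abel
    rw [e, inner_add_right, a3, inner_smul_right, real_inner_self_eq_norm_sq, (h i hi').2]
    ring
  have a6 : ‖y‖ ≤ 1 := by
    rw [← sq_le_one_iff₀ (norm_nonneg _), a2]
    linarith [hs i.zero_le, s0 M]
  have a7 := real_inner_le_norm (‖ζ‖ • σ i - ζ) y
  rw [inner_sub_left, real_inner_smul_left, a5] at a7
  have a8 := mul_le_mul (hd i hi') a6 (norm_nonneg _) (by positivity)
  linarith

theorem dir_close {X : Type*} [NormedAddCommGroup X] [NormedSpace ℝ X] {z z' v v' : X}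
    (hν : 0 ≤ ν) (hν1 : ν ≤ 1) (hv : ‖v'‖ = 1) (h : ‖‖z‖ • v - z‖ ≤ ν * ‖z‖)
    (h' : ‖‖z'‖ • v' - z'‖ ≤ ν * ‖z'‖) : ‖z‖ * ‖v - v'‖ ≤ 2 * ν * ‖z‖ + 3 * ‖z - z'‖ := by
  have e : ‖z‖ • (v - v') = (‖z‖ • v - z) + (z - z') - (‖z'‖ • v' - z')
      - (‖z‖ - ‖z'‖) • v' := by rw [smul_sub, sub_smul]; abel
  have r2 := congrArg norm e
  rw [norm_smul, norm_norm] at r2
  have r3 : ‖(‖z‖ - ‖z'‖) • v'‖ ≤ ‖z - z'‖ := by
    rw [norm_smul, hv, mul_one]; exact abs_norm_sub_norm_le _ _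
  have r4 : ‖z'‖ ≤ ‖z‖ + ‖z - z'‖ := by rw [norm_sub_rev]; exact norm_le_norm_add_norm_sub' _ _
  have r5 := mul_le_mul_of_nonneg_left r4 hν
  have r6 := mul_le_of_le_one_left (norm_nonneg (z - z')) hν1
  linarith [norm_add_le (‖z‖ • v - z) (z - z'),
    norm_sub_le (‖z‖ • v - z + (z - z')) (‖z'‖ • v' - z'),
    norm_sub_le (‖z‖ • v - z + (z - z') - (‖z'‖ • v' - z')) ((‖z‖ - ‖z'‖) • v')]

theorem four_terms {X : Type*} [NormedAddCommGroup X] [NormedSpace ℝ X] {g1 g0 g1' g0' : X →ₗ[ℝ] H}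
    {u u' : X} {A B : ℝ} (h1 : ‖g1 (u - u')‖ ≤ A) (h0 : ‖g0 (u - u')‖ ≤ A)
    (k1 : ‖g1 u' - g1' u'‖ ≤ B) (k0 : ‖g0 u' - g0' u'‖ ≤ B) :
    ‖(g1 - g0) u - (g1' - g0') u'‖ ≤ 2 * A + 2 * B := by
  have e : (g1 - g0) u - (g1' - g0') u' = g1 (u - u') - g0 (u - u')
      + ((g1 u' - g1' u') - (g0 u' - g0' u')) := by
    simp only [LinearMap.sub_apply, map_sub]; abel
  rw [e]
  linarith [norm_add_le (g1 (u - u') - g0 (u - u')) ((g1 u' - g1' u') - (g0 u' - g0' u')),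
    norm_sub_le (g1 (u - u')) (g0 (u - u')), norm_sub_le (g1 u' - g1' u') (g0 u' - g0' u')]

theorem proj_close (h : ON σ M) (h' : ON σ' M) {i : ℕ} (hi : i ≤ M) (c : E d) :
    ‖(VV σ i).starProjection c - (VV σ' i).starProjection c‖
      ≤ 2 * (∑ l ∈ range i, ‖σ l - σ' l‖) * ‖c‖ := by
  rw [h.proj hi, h'.proj hi, sub_sub_sub_cancel_left, ← sum_sub_distrib, mul_sum, sum_mul]
  refine (norm_sum_le _ _).trans (sum_le_sum fun l hl => ?_)
  have hl' : l < M := by have := mem_range.1 hl; omega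
  have e : ⟪σ' l, c⟫_ℝ • σ' l - ⟪σ l, c⟫_ℝ • σ l =
      -(⟪σ l - σ' l, c⟫_ℝ • σ' l + ⟪σ l, c⟫_ℝ • (σ l - σ' l)) := by
    rw [inner_sub_left, sub_smul, smul_sub]; abel
  rw [e, norm_neg]
  refine (norm_add_le _ _).trans ?_
  rw [norm_smul, norm_smul, (h' l hl').2, Real.norm_eq_abs, Real.norm_eq_abs]
  have r1 := abs_real_inner_le_norm (σ l - σ' l) c
  have r2 := abs_real_inner_le_norm (σ l) c
  rw [(h l hl').2] at r2
  nlinarith [norm_nonneg (σ l - σ' l)]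

theorem rv_close {L L' : E d →ₗ[ℝ] H} {A Q : ℝ} (hA : 0 ≤ A) (hQ : 0 ≤ Q)
    (h : ∀ c, ‖L c - L' c‖ ≤ A * ‖c‖) (hW : ∀ c, |W (L c - L' c) ω| ≤ ‖L c - L' c‖ * Q) :
    ‖rv W L ω - rv W L' ω‖ ≤ A * Q := by
  have r1 := hW (rv W L ω - rv W L' ω)
  rw [map_sub W, Pi.sub_apply, ← inner_rv, ← inner_rv, ← inner_sub_left,
    real_inner_self_eq_norm_sq, abs_sq] at r1
  have r2 := mul_le_mul_of_nonneg_right (h (rv W L ω - rv W L' ω)) hQ
  generalize ‖rv W L ω - rv W L' ω‖ = c at r1 r2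
  by_contra hc
  have := mul_nonneg hA hQ
  nlinarith [not_le.1 hc]

theorem Blk.close (B : Blk T K fk F G) (s0 : ∀ i, 0 ≤ s i) (hs : Antitone s) (s1 : s 0 ≤ 1)
    (hK : 0 ≤ K) (hν : 0 ≤ ν) (hν1 : ν ≤ 1) (h : ON σ M) (h' : ON σ' M)
    (hd : ∀ i < M, ‖‖rv W (LL G s a σ i) ω‖ • σ i - rv W (LL G s a σ i) ω‖
      ≤ ν * ‖rv W (LL G s a σ i) ω‖)
    (hd' : ∀ i < M, ‖‖rv W (LL G s b σ' i) ω‖ • σ' i - rv W (LL G s b σ' i) ω‖
      ≤ ν * ‖rv W (LL G s b σ' i) ω‖)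
    {U : Submodule ℝ H} (hU : ∀ i ≤ M, ∀ c, gg G s a σ i c ∈ U ∧ gg G s b σ' i c ∈ U)
    {Q C η : ℝ} (hQ : 0 ≤ Q) (hC : 0 ≤ C) (hW : ∀ v ∈ U, |W v ω| ≤ ‖v‖ * Q)
    (hκ : ∀ i < M, 0 < ‖rv W (LL G s a σ i) ω‖ ∧ 18 * K * Q ≤ C * ‖rv W (LL G s a σ i) ω‖)
    (hab : ‖a - b‖ ≤ η) : ‖pos s a σ M - pos s b σ' M‖ ≤ (η + ν) * (3 + C) ^ M := by
  have η0 : 0 ≤ η := (norm_nonneg _).trans hab
  obtain ⟨S, hS⟩ : ∃ S : ℕ → ℝ, ∀ i, S i = ∑ l ∈ range i, ‖σ l - σ' l‖ := ⟨_, fun _ => rfl⟩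
  have S0 : ∀ i, 0 ≤ S i := fun i => by rw [hS]; positivity
  have S1 : ∀ i, S (i + 1) = S i + ‖σ i - σ' i‖ := fun i => by rw [hS, hS, sum_range_succ]
  have Sm : Monotone S := monotone_nat_of_le_succ fun i => by
    linarith [norm_nonneg (σ i - σ' i), S1 i]
  have p1 : ∀ j, ‖pos s a σ j - pos s b σ' j‖ ≤ η + S j := fun j => by
    rw [pos, pos, add_sub_add_comm, ← sum_sub_distrib, hS]
    refine (norm_add_le _ _).trans (add_le_add hab ((norm_sum_le _ _).trans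
      (sum_le_sum fun l _ => ?_)))
    rw [← smul_sub, norm_smul, dl, Real.norm_of_nonneg (sqrt_nonneg _)]
    refine mul_le_of_le_one_left (norm_nonneg _) (sqrt_le_one.2 ?_)
    linarith [hs l.zero_le, s0 (l + 1)]
  have p2 : ∀ j c, ‖gg G s a σ j c‖ ≤ K * ‖c‖ := fun j c => by
    rcases j with _ | j
    · simpa [gg] using mul_nonneg hK (norm_nonneg c)
    · exact B.nG _ (s0 _) _ _
  have p3 : ∀ i, ∀ j ≤ i + 1, ∀ c, ‖gg G s a σ j c - gg G s b σ' j c‖ ≤ K * (η + S i) * ‖c‖ := by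
    intro i j hj c
    have := S0 i
    rcases j with _ | j
    · simp only [gg, sub_self, norm_zero]; positivity
    · refine (B.lG _ (s0 _) _ _ _).trans ?_
      gcongr
      exact (p1 j).trans (add_le_add_right (Sm (by omega)) _)
  have key : ∀ i ≤ M, S i + (η + ν) ≤ (η + ν) * (3 + C) ^ i := by
    intro i hi
    induction i with
    | zero => simp [hS]
    | succ i ih =>
      have hS0 := S0 i
      have q2 : ∀ c, ‖LL G s a σ i c - LL G s b σ' i c‖ ≤ 6 * K * (η + S i) * ‖c‖ := fun c => by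
        have r0 : ‖(VV σ' i).starProjection c‖ ≤ ‖c‖ := Submodule.norm_starProjection_apply_le _ _
        have r1 := mul_le_mul_of_nonneg_left (proj_close h h' (i := i) (by omega) c) hK
        have r2 := mul_le_mul_of_nonneg_left r0 (show 0 ≤ K * (η + S i) by positivity)
        have r3 : 0 ≤ K * η * ‖c‖ := by positivity
        rw [← hS] at r1
        exact (four_terms ((p2 _ _).trans r1) ((p2 _ _).trans r1) ((p3 i _ le_rfl _).trans r2)
          ((p3 i _ i.le_succ _).trans r2)).trans (by linarith)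
      have q3 := rv_close (by positivity) hQ q2 fun c => hW _ (U.sub_mem
        (U.sub_mem (hU _ hi _).1 (hU _ (by omega) _).1)
        (U.sub_mem (hU _ hi _).2 (hU _ (by omega) _).2))
      have q4 : ‖σ i - σ' i‖ ≤ 2 * ν + C * (η + S i) := by
        obtain ⟨r0, r1⟩ := hκ i (by omega)
        have r2 := dir_close hν hν1 (h' i (by omega)).2 (hd i (by omega)) (hd' i (by omega))
        have r7 := mul_le_mul_of_nonneg_right r1 (show 0 ≤ η + S i by positivity)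
        exact le_of_mul_le_mul_left (by linarith) r0
      have q5 := mul_le_mul_of_nonneg_right (ih (by omega)) (show 0 ≤ 3 + C by positivity)
      rw [pow_succ, ← mul_assoc, S1]
      nlinarith [mul_nonneg hC hν]
  linarith [p1 M, key M le_rfl]

end Pool.Agent.Lib.MP_a0a493_pr
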