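import Pool.Agent.Lib.MP_a0a493_pr.BlkB

/-! Incremental optimisation inside one block of scales: probability estimates. -/

namespace Pool.Agent.Lib.MP_a0a493_pr

open MeasureTheory Real Finset
open scoped InnerProductSpace ENNReal

variable {Ω H : Type*} [NormedAddCommGroup H] [InnerProductSpace ℝ H] {d : ℕ}
  {W : H →ₗ[ℝ] (Ω → ℝ)} {T K ν : ℝ} {fk : ℝ → ℝ} {F : ℝ → E d → H}
  {G : ℝ → E d → E d →ₗ[ℝ] H} {s : ℕ → ℝ} {M : ℕ}

/-- successively revealed subspaces -/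
def chn (U : Ω → Submodule ℝ H) (R : ℕ → Ω → Submodule ℝ H) : ℕ → Ω → Submodule ℝ H
  | 0, ω => U ω
  | i + 1, ω => chn U R i ω ⊔ R i ω

theorem chn_le {U : Ω → Submodule ℝ H} {R : ℕ → Ω → Submodule ℝ H} {V : Submodule ℝ H} {ω : Ω}
    {i : ℕ} : chn U R i ω ≤ V ↔ U ω ≤ V ∧ ∀ l < i, R l ω ≤ V := by
  induction i with
  | zero => simp [chn]
  | succ i ih => rw [chn, sup_le_iff, ih, Nat.forall_lt_succ_right, and_assoc]

theorem rv_meas (L : E d →ₗ[ℝ] H) : Measurable[sga W (LinearMap.range L)] (rv W L) := by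
  let _ := sga W (LinearMap.range L)
  exact Finset.measurable_sum _ fun k _ =>
    (sg_meas (LinearMap.mem_range_self L _)).smul_const _

theorem hist_step {U : Ω → Submodule ℝ H} {a : Ω → E d} {i : ℕ}
    (h : Sk (ks W U) fun ω => (a ω, hist W G s ν (a ω) i ω))
    (hl : ∀ ω, LinearMap.range (LL G s (a ω) (hist W G s ν (a ω) i ω) i) ≤ U ω) :
    Sk (ks W U) fun ω => (a ω, hist W G s ν (a ω) (i + 1) ω) := by
  refine h.bind_ks (N := fun τ => LinearMap.range (LL G s τ.1 τ.2 i))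
    (f := fun τ ω => (τ.1, Function.update τ.2 i (pick ν (VV τ.2 i) (rv W (LL G s τ.1 τ.2 i) ω))))
    (fun ω => Sk.map ?_ fun v => (a ω, Function.update (hist W G s ν (a ω) i ω) i v)) hl
  have p := (exists_pk ν (VV (hist W G s ν (a ω) i ω) i)).choose_spec.1
  exact ⟨p.fin.subset (Set.range_comp_subset_range _ _), fun σ => rv_meas _ (p.meas σ)⟩

/-- the state of two trajectories -/
noncomputable def st2 (W : H →ₗ[ℝ] (Ω → ℝ)) (G : ℝ → E d → E d →ₗ[ℝ] H) (s : ℕ → ℝ) (ν : ℝ)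
    (a b : Ω → E d) (i : ℕ) (ω : Ω) : (E d × (ℕ → E d)) × (E d × (ℕ → E d)) :=
  ((a ω, hist W G s ν (a ω) i ω), (b ω, hist W G s ν (b ω) i ω))

/-- the terminal point -/
noncomputable def Psi (W : H →ₗ[ℝ] (Ω → ℝ)) (G : ℝ → E d → E d →ₗ[ℝ] H) (s : ℕ → ℝ) (ν : ℝ)
    (M : ℕ) (a : E d) (ω : Ω) : E d := pos s a (hist W G s ν a M ω) M

theorem Psi_near (hs : Antitone s) (s0 : ∀ i, 0 ≤ s i) (s1 : s 0 ≤ 1) (hν : 0 < ν) (hM : M ≤ d)
    (a : E d) (ω : Ω) : ‖Psi W G s ν M a ω - a‖ ≤ 1 := by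
  have := (hist_ON (W := W) (G := G) (s := s) (a := a) (ω := ω) hν hM).norm_sub hs (a := a)
    M.zero_le le_rfl
  rw [pos.eq_def s a _ 0, sum_range_zero, add_zero] at this
  rw [← sq_le_one_iff₀ (norm_nonneg _), Psi, this]
  linarith [s0 M]

variable [mΩ : MeasurableSpace Ω] {P : Measure Ω} [IsProbabilityMeasure P]

theorem Iso.chain_ad (h : Iso P W) {U : Ω → Submodule ℝ H} (hU : Ad W U)
    (fU : ∀ ω, FiniteDimensional ℝ (U ω)) {a b : Ω → E d} (ha : Sk (ks W U) a)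
    (hb : Sk (ks W U) b) (R : ℕ → (E d × (ℕ → E d)) × (E d × (ℕ → E d)) → Submodule ℝ H)
    (fR : ∀ i τ, FiniteDimensional ℝ (R i τ)) {D : ℕ} (hD : ∀ i τ, Module.finrank ℝ (R i τ) ≤ D)
    (hR : ∀ i ω, LinearMap.range (LL G s (a ω) (hist W G s ν (a ω) i ω) i)
        ≤ R i (st2 W G s ν a b i ω) ∧
      LinearMap.range (LL G s (b ω) (hist W G s ν (b ω) i ω) i) ≤ R i (st2 W G s ν a b i ω))
    (i : ℕ) : Ad W (chn U (fun i ω => R i (st2 W G s ν a b i ω)) i) ∧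
      ks W U ≤ ks W (chn U (fun i ω => R i (st2 W G s ν a b i ω)) i) ∧
      Sk (ks W (chn U (fun i ω => R i (st2 W G s ν a b i ω)) i)) (st2 W G s ν a b i) ∧
      (∀ ω, FiniteDimensional ℝ (chn U (fun i ω => R i (st2 W G s ν a b i ω)) i ω)) ∧
      ∫⁻ ω, eQ W (chn U (fun i ω => R i (st2 W G s ν a b i ω)) i ω) ω ∂P
        ≤ 2 ^ (D * i) * ∫⁻ ω, eQ W (U ω) ω ∂P := by
  induction i with
  | zero =>
    exact ⟨hU, le_rfl, (ha.map fun v => (v, 0)).prod (hb.map fun v => (v, 0)), fU, by simp [chn]⟩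
  | succ i ih =>
    obtain ⟨i1, i2, i3, i4, i5⟩ := ih
    obtain ⟨j1, j2⟩ := i1.ext (U' := chn U (fun i ω => R i (st2 W G s ν a b i ω)) (i + 1))
      ((i1.sk.prod i3).map fun τ => τ.1 ⊔ R i τ.2) fun _ => le_sup_left
    refine ⟨j1, i2.trans j2, (hist_step ((i3.mono j2).map Prod.fst) fun ω =>
      (hR i ω).1.trans le_sup_right).prod (hist_step ((i3.mono j2).map Prod.snd) fun ω =>
      (hR i ω).2.trans le_sup_right), fun ω => ?_, ?_⟩
    · have := i4 ω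
      have := fR i (st2 W G s ν a b i ω)
      exact Submodule.finiteDimensional_sup _ _
    · refine (h.reveal i1 (i3.map (R i)) i4 (fun _ => fR _ _) fun _ => hD _ _).trans ?_
      rw [mul_add, mul_one, pow_add, mul_comm _ (2 ^ D), mul_assoc]
      exact mul_le_mul_right i5 _

theorem Iso.blk_ext (h : Iso P W) {U : Ω → Submodule ℝ H} (hU : Ad W U)
    (fU : ∀ ω, FiniteDimensional ℝ (U ω)) {a b : Ω → E d} (ha : Sk (ks W U) a)
    (hb : Sk (ks W U) b) (F : ℝ → E d → H) (G : ℝ → E d → E d →ₗ[ℝ] H) (s : ℕ → ℝ) (ν : ℝ) (M : ℕ) :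
    ∃ U' : Ω → Submodule ℝ H, Ad W U' ∧ ks W U ≤ ks W U' ∧ (∀ ω, U ω ≤ U' ω) ∧
      (∀ ω, FiniteDimensional ℝ (U' ω)) ∧ Sk (ks W U') (fun ω => Psi W G s ν M (a ω) ω) ∧
      Sk (ks W U') (fun ω => Psi W G s ν M (b ω) ω) ∧
      (∀ ω, F (s M) (Psi W G s ν M (a ω) ω) ∈ U' ω) ∧
      (∀ ω, ∀ i ≤ M, ∀ c, gg G s (a ω) (hist W G s ν (a ω) M ω) i c ∈ U' ω ∧
        gg G s (b ω) (hist W G s ν (b ω) M ω) i c ∈ U' ω) ∧
      (∀ ω (V : Submodule ℝ H), U ω ≤ V → (∀ r x, F r x ∈ V) → (∀ r x c, G r x c ∈ V) →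
        U' ω ≤ V) ∧
      ∫⁻ ω, eQ W (U' ω) ω ∂P ≤ 2 ^ (4 * d * M + 1) * ∫⁻ ω, eQ W (U ω) ω ∂P := by
  let R1 : ℕ → E d × (ℕ → E d) → Submodule ℝ H := fun i τ =>
    LinearMap.range (gg G s τ.1 τ.2 (i + 1)) ⊔ LinearMap.range (gg G s τ.1 τ.2 i)
  have r1 : ∀ L : E d →ₗ[ℝ] H, Module.finrank ℝ (LinearMap.range L) ≤ d := fun L => by
    simpa using L.finrank_range_le
  have r2 : ∀ i τ, Module.finrank ℝ (R1 i τ) ≤ d + d := fun i τ =>
    (Submodule.finrank_add_le_finrank_add_finrank _ _).trans (add_le_add (r1 _) (r1 _))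
  have r3 : ∀ i τ, LinearMap.range (LL G s τ.1 τ.2 i) ≤ R1 i τ := by
    rintro i τ _ ⟨c, rfl⟩
    exact Submodule.sub_mem _ (Submodule.mem_sup_left ⟨_, rfl⟩) (Submodule.mem_sup_right ⟨_, rfl⟩)
  obtain ⟨i1, i2, i3, i4, i5⟩ := h.chain_ad (G := G) (s := s) (ν := ν) hU fU ha hb
    (fun i τ => R1 i τ.1 ⊔ R1 i τ.2) (fun _ _ => inferInstance) (D := 4 * d)
    (fun i τ => (Submodule.finrank_add_le_finrank_add_finrank _ _).trans
      (by linarith [r2 i τ.1, r2 i τ.2]))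
    (fun i ω => ⟨(r3 i (a ω, _)).trans le_sup_left, (r3 i (b ω, _)).trans le_sup_right⟩) M
  set V := chn U (fun i ω => R1 i (st2 W G s ν a b i ω).1 ⊔ R1 i (st2 W G s ν a b i ω).2) M
  have k1 : Sk (ks W V) fun ω => Psi W G s ν M (a ω) ω := i3.map fun τ => pos s τ.1.1 τ.1.2 M
  have k2 : Sk (ks W V) fun ω => Psi W G s ν M (b ω) ω := i3.map fun τ => pos s τ.2.1 τ.2.2 M
  obtain ⟨j1, j2⟩ := i1.ext (U' := fun ω => V ω ⊔ ℝ ∙ F (s M) (Psi W G s ν M (a ω) ω))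
    ((i1.sk.prod k1).map fun τ => τ.1 ⊔ ℝ ∙ F (s M) τ.2) fun _ => le_sup_left
  refine ⟨_, j1, i2.trans j2, fun ω => (chn_le.1 le_rfl).1.trans le_sup_left, fun ω => ?_,
    k1.mono j2, k2.mono j2, fun ω => Submodule.mem_sup_right (Submodule.mem_span_singleton_self _),
    fun ω i hi c => ?_, fun ω V' h1 h2 h3 => sup_le (chn_le.2 ⟨h1, fun l _ => ?_⟩)
      ((Submodule.span_singleton_le_iff_mem _ _).2 (h2 _ _)), ?_⟩
  · have := i4 ω
    exact Submodule.finiteDimensional_sup _ _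
  · rcases i with _ | i
    · exact ⟨Submodule.zero_mem _, Submodule.zero_mem _⟩
    · have q := ((chn_le.1 (le_refl (V ω))).2 i hi).trans (le_sup_left
        (b := ℝ ∙ F (s M) (Psi W G s ν M (a ω) ω)))
      rw [gg_congr (hist_stab (Nat.le_of_succ_le hi)) le_rfl,
        gg_congr (hist_stab (Nat.le_of_succ_le hi)) le_rfl]
      exact ⟨q (Submodule.mem_sup_left (Submodule.mem_sup_left ⟨_, rfl⟩)),
        q (Submodule.mem_sup_right (Submodule.mem_sup_left ⟨_, rfl⟩))⟩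
  · have q : ∀ (a : E d) (σ : ℕ → E d) j, LinearMap.range (gg G s a σ j) ≤ V' := by
      rintro a σ (_ | j) _ ⟨c, rfl⟩
      · exact V'.zero_mem
      · exact h3 _ _ _
    exact sup_le (sup_le (q _ _ _) (q _ _ _)) (sup_le (q _ _ _) (q _ _ _))
  · refine (h.reveal i1 (k1.map fun v => ℝ ∙ F (s M) v) i4 (fun _ => inferInstance) (D := 1)
      fun ω => ?_).trans ?_
    · simpa using finrank_span_le_card (R := ℝ) ({F (s M) (Psi W G s ν M (a ω) ω)} : Set H)
    · rw [pow_add, mul_comm _ (2 ^ 1), mul_assoc]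
      exact mul_le_mul_right i5 _

theorem Blk.low (B : Blk T K fk F G) (h : Iso P W) (hs : Antitone s) (s0 : ∀ i, 0 ≤ s i)
    {σ : ℕ → E d} {i : ℕ} (hσ : ON σ i) (hi : i ≤ M) (hv : 0 < ph fk s (i + 1) - ph fk s i) {ε : ℝ}
    (hε : 0 < ε) (hε1 : ε ≤ 1) (a : E d) :
    P {ω | ‖rv W (LL G s a σ i) ω‖ ^ 2 ≤ (ph fk s (i + 1) - ph fk s i) * ((1 - ε) * d)}
      ≤ ENNReal.ofReal (exp (M - ε ^ 2 / 8 * d)) := by
  set v := ph fk s (i + 1) - ph fk s i with hvd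
  let b := stdOrthonormalBasis ℝ (VV σ i)
  have o : Orthonormal ℝ fun k => (b k : E d) :=
    b.orthonormal.comp_linearIsometry (VV σ i).subtypeₗᵢ
  have e : (√v)⁻¹ * (√v)⁻¹ = v⁻¹ := by rw [← mul_inv, mul_self_sqrt hv.le]
  have o2 : Orthonormal ℝ fun k => (√v)⁻¹ • Hh G s a σ i (b k) := by
    classical
    rw [orthonormal_iff_ite] at o ⊢
    intro k l
    rw [real_inner_smul_left, real_inner_smul_right, B.HH_eq hs s0 hσ le_rfl (b k).2 (b l).2, o,
      ← mul_assoc, e, ← mul_assoc, inv_mul_cancel₀ hv.ne', one_mul]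
  refine le_trans (measure_mono fun ω hω => ?_) (h.chi_low o2 hε hε1 (D := d) (M := M) ?_)
  · have a1 := o.sum_inner_products_le (rv W (LL G s a σ i) ω) (s := univ)
    have a2 : ∀ k, W ((√v)⁻¹ • Hh G s a σ i (b k)) ω ^ 2
        = v⁻¹ * ‖⟪(b k : E d), rv W (LL G s a σ i) ω⟫_ℝ‖ ^ 2 := fun k => by
      rw [real_inner_comm, inner_rv, LL_apply, Submodule.starProjection_eq_self_iff.2 (b k).2,
        map_smul, Pi.smul_apply, smul_eq_mul, mul_pow, sq, e, Real.norm_eq_abs, sq_abs]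
    simp only [Set.mem_ofPred_eq, a2, ← mul_sum] at hω ⊢
    exact (inv_mul_le_iff₀ hv).2 (a1.trans hω)
  · have := finrank_VV σ i
    rw [finrank_euclideanSpace_fin] at this
    rw [Fintype.card_fin]
    exact_mod_cast this.trans (by omega)

theorem Blk.good (B : Blk T K fk F G) (h : Iso P W) (hs : Antitone s) (s0 : ∀ i, 0 ≤ s i)
    (s1 : s 0 ≤ 1) (hT : 0 < T) (hK : 0 ≤ K) (hν : 0 < ν) (hν1 : ν ≤ 1) (hM : M ≤ d) (hM1 : 1 ≤ M)
    {ε κ g η θ : ℝ} (hε : 0 < ε) (hε1 : ε < 1) (hκ : 0 < κ)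
    (hv : ∀ i < M, κ ≤ √((ph fk s (i + 1) - ph fk s i) * (1 - ε)) ∧ ν ≤ dl s i ∧
      g ≤ √((ph fk s (i + 1) - ph fk s i) * (1 - ε)) * (dl s i - ν))
    (hθ : (η + ν) * (3 + 18 * K * √(24 * M) / κ) ^ M ≤ θ) {a b : E d} (hab : ‖a - b‖ ≤ η) :
    P {ω | ¬ (‖Psi W G s ν M a ω - Psi W G s ν M b ω‖ ≤ θ ∧
        (M * g - 1) * √d ≤ W (F (s M) (Psi W G s ν M a ω)) ω)}
      ≤ ENNReal.ofReal (M * exp (M - ε ^ 2 / 8 * d) + exp (-(d / (2 * T))) + exp (-d)) := by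
  have d1 : (1 : ℝ) ≤ d := by exact_mod_cast hM1.trans hM
  have M1 : (1 : ℝ) ≤ M := by exact_mod_cast hM1
  have vp : ∀ i < M, 0 < ph fk s (i + 1) - ph fk s i := fun i hi =>
    (mul_pos_iff_of_pos_right (by linarith)).1 (sqrt_pos.1 (hκ.trans_le (hv i hi).1))
  have c := h.chain_ad (G := G) (s := s) (ν := ν) (Ad.const ⊥) (fun _ => inferInstance)
    (Sk.const _ a) (Sk.const _ a) (fun i τ => LinearMap.range (LL G s τ.1.1 τ.1.2 i))
    (fun _ _ => inferInstance) (D := d) (fun i τ => by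
      simpa using (LL G s τ.1.1 τ.1.2 i).finrank_range_le) (fun _ _ => ⟨le_rfl, le_rfl⟩)
  have p1 : ∀ i ∈ range M, P {ω | ‖rv W (LL G s a (hist W G s ν a M ω) i) ω‖ ^ 2
      ≤ (ph fk s (i + 1) - ph fk s i) * ((1 - ε) * d)}
      ≤ ENNReal.ofReal (exp (M - ε ^ 2 / 8 * d)) := by
    intro i hi
    have hi' := mem_range.1 hi
    simp only [LL_congr (hist_stab hi'.le)]
    refine h.step_prob (c i).1 ((c i).2.2.1.map fun τ => τ.1.2)
      (N := fun σ => LinearMap.range (LL G s a σ i))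
      (A := fun σ => {ω | ‖rv W (LL G s a σ i) ω‖ ^ 2
        ≤ (ph fk s (i + 1) - ph fk s i) * ((1 - ε) * d)}) (fun ω => ?_) (fun ω => ?_)
      fun ω => B.low h hs s0 (hist_ON hν (by omega)) hi'.le (vp i hi') hε hε1.le a
    · exact rv_meas _ (t := {y | ‖y‖ ^ 2 ≤ (ph fk s (i + 1) - ph fk s i) * ((1 - ε) * d)})
        (isClosed_le (by fun_prop) continuous_const).measurableSet
    · refine Submodule.isOrtho_iff_le.2 (chn_le.2 ⟨bot_le, fun l hl => ?_⟩)
      rintro _ ⟨u, rfl⟩ _ ⟨v, rfl⟩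
      simp only [st2]
      rw [← LL_congr (hist_stab hl.le)]
      exact B.HH_lt hs s0 (hist_ON hν (by omega)) le_rfl hl
        (Submodule.starProjection_apply_mem _ _) _
  have p2 : P {ω | √d ≤ W (-rs F G s a (hist W G s ν a M ω) M) ω}
      ≤ ENNReal.ofReal (exp (-(d / (2 * T)))) := by
    refine h.step_prob (c M).1 ((c M).2.2.1.map fun τ => τ.1.2)
      (N := fun σ => ℝ ∙ rs F G s a σ M) (A := fun σ => {ω | √d ≤ W (-rs F G s a σ M) ω})
      (fun ω => ?_) (fun ω => ?_) fun ω => ?_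
    · exact sg_meas (Submodule.neg_mem _ (Submodule.mem_span_singleton_self _)) measurableSet_Ici
    · refine Submodule.isOrtho_iff_le.2 (chn_le.2 ⟨bot_le, fun l hl => ?_⟩)
      rintro _ ⟨u, rfl⟩
      simp only [st2]
      rw [← LL_congr (hist_stab hl.le), Submodule.mem_orthogonal_singleton_iff_inner_right]
      exact B.rs_orth hs s0 (hist_ON hν hM) hl (Submodule.starProjection_apply_mem _ _)
    · refine (ENNReal.le_ofReal_iff_toReal_le (measure_ne_top _ _) (exp_pos _).le).2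
        ((h.tail (V := T) (t := √d / T) (by
          rw [norm_neg]; exact B.rs_norm hs s0 (hist_ON hν hM)) (by positivity) _).trans_eq ?_)
      congr 1
      field_simp
      rw [sq_sqrt (by linarith)]
      ring
  obtain ⟨U, u1, -, -, u4, -, -, -, u8, -, u10⟩ := h.blk_ext (Ad.const ⊥) (fun _ => inferInstance)
    (Sk.const _ a) (Sk.const _ b) F G s ν M
  have p3 : P {ω | 6 * d * M ≤ 1 / 4 * Qn W (U ω) ω} ≤ ENNReal.ofReal (exp (-d)) := by
    refine (markov_exp (D := 4 * d * M + 1) (((u1.sk.meas_ks (N := id) (Y := Qn W)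
      (fun ω => Qn_meas _) fun _ => le_rfl).mono (h.ks_le u1) le_rfl).const_mul _)
      (u10.trans ?_)).trans (ENNReal.ofReal_le_ofReal (exp_le_exp.2 ?_))
    · exact mul_le_of_le_one_right' (by simpa using h.int_eQ ⊥ (D := 0) (by simp))
    · push_cast
      nlinarith
  refine le_trans (measure_mono (t := (⋃ i ∈ range M, {ω | ‖rv W (LL G s a (hist W G s ν a M ω) i) ω‖
    ^ 2 ≤ (ph fk s (i + 1) - ph fk s i) * ((1 - ε) * d)}) ∪
    {ω | √d ≤ W (-rs F G s a (hist W G s ν a M ω) M) ω} ∪ {ω | 6 * d * M ≤ 1 / 4 * Qn W (U ω) ω})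
    fun ω hω => ?_) ?_
  · by_contra hc
    simp only [Set.mem_union, Set.mem_iUnion, Set.mem_ofPred_eq, not_or, not_exists, not_le,
      mem_range, map_neg, Pi.neg_apply] at hc
    obtain ⟨⟨c1, c2⟩, c3⟩ := hc
    have sd := sqrt_pos.2 (show (0 : ℝ) < d by linarith)
    have c4 : ∀ i < M, √((ph fk s (i + 1) - ph fk s i) * (1 - ε)) * √d
        ≤ ‖rv W (LL G s a (hist W G s ν a M ω) i) ω‖ := fun i hi => by
      rw [← sqrt_mul' _ (by linarith), mul_assoc]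
      exact sqrt_le_iff.2 ⟨norm_nonneg _, (c1 i hi).le⟩
    refine hω ⟨le_trans ?_ hθ, le_trans ?_ (gain hs s0 s1 hν.le (hist_ON hν hM)
      fun i hi => hist_dir hν hM hi)⟩
    · have := u4 ω
      refine B.close s0 hs s1 hK hν.le hν1 (hist_ON hν hM) (hist_ON hν hM)
        (fun i hi => hist_dir hν hM hi) (fun i hi => hist_dir hν hM hi) (u8 ω)
        (Q := √(24 * M) * √d) (by positivity) (by positivity) (fun v hv => (abs_le_Qn hv ω).trans ?_)
        (fun i hi => ?_) hab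
      · rw [← sqrt_mul' _ (by linarith)]
        exact mul_le_mul_of_nonneg_left (sqrt_le_sqrt (by linarith)) (norm_nonneg _)
      · have q := (mul_le_mul_of_nonneg_right (hv i hi).1 sd.le).trans (c4 i hi)
        refine ⟨lt_of_lt_of_le (by positivity) q, le_trans (le_of_eq ?_)
          (mul_le_mul_of_nonneg_left q (by positivity))⟩
        field_simp
    · have q := card_nsmul_le_sum (range M) (fun i => ‖rv W (LL G s a (hist W G s ν a M ω) i) ω‖
        * (dl s i - ν)) (g * √d) fun i hi => by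
          have hi' := mem_range.1 hi
          have r1 := mul_le_mul_of_nonneg_right (hv i hi').2.2 sd.le
          have r2 := mul_le_mul_of_nonneg_right (c4 i hi') (sub_nonneg.2 (hv i hi').2.1)
          linarith
      rw [card_range, nsmul_eq_mul] at q
      linarith
  · rw [ENNReal.ofReal_add (by positivity) (by positivity),
      ENNReal.ofReal_add (by positivity) (by positivity)]
    refine (measure_union_le _ _).trans (add_le_add ((measure_union_le _ _).trans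
      (add_le_add ((measure_biUnion_finset_le _ _).trans ?_) p2)) p3)
    rw [ENNReal.ofReal_mul (by positivity), ENNReal.ofReal_natCast]
    simpa using sum_le_card_nsmul _ _ _ p1

end Pool.Agent.Lib.MP_a0a493_pr
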