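import Pool.Agent.Lib.MP_a0a493_pr.GH
import Pool.Agent.Lib.MP_a0a493_pr.BlkA

/-! The blocks of scales in the spectral Hilbert space. -/

namespace Pool.Agent.Lib.MP_a0a493_pr

open MeasureTheory ProbabilityTheory Real Set
open scoped InnerProductSpace

variable {d : ℕ} {T c : ℝ} {φ φ' : ℝ → ℝ}

theorem mem_ind (h : Continuous φ) (a b : ℝ) : MemLp ((Ioc a b).indicator φ) 2 := by
  rw [memLp_indicator_iff_restrict measurableSet_Ioc,
    memLp_two_iff_integrable_sq h.aestronglyMeasurable]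
  exact (h.pow 2).integrableOn_Ioc

/-- a weight living in one block -/
noncomputable def ws (T c : ℝ) (φ : ℝ → ℝ) (s : ℝ) : ℝ := (Ioc (-T) 0).indicator φ (s + c)

theorem meas_ws (h : Continuous φ) : Measurable (ws T c φ) :=
  (h.measurable.indicator measurableSet_Ioc).comp (measurable_add_const c)

theorem mem_ws (h : Continuous φ) : MemLp (ws T c φ) 2 :=
  (mem_ind h _ _).comp_measurePreserving (measurePreserving_add_right volume c)

theorem int_ws (Ψ : ℝ → ℝ) : ∫ s, ws T c φ s * ws T c φ' s * Ψ (s + c)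
    = ∫ t in Ioc (-T) 0, φ t * φ' t * Ψ t := by
  rw [← integral_indicator measurableSet_Ioc, ← integral_add_right_eq_self
    ((Ioc (-T) 0).indicator fun t => φ t * φ' t * Ψ t) c]
  refine integral_congr_ae (Filter.Eventually.of_forall fun s => ?_)
  by_cases h : s + c ∈ Ioc (-T) 0 <;> simp [ws, h]

/-- damping factor -/
noncomputable def dp (r t : ℝ) : ℝ := exp (-(exp (-t) ^ 2 * r) / 2)

@[fun_prop] theorem continuous_dp (r : ℝ) : Continuous (dp r) := by unfold dp; fun_prop

theorem dp_pos (r t : ℝ) : 0 < dp r t := exp_pos _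

theorem dp_le_one {r : ℝ} (h : 0 ≤ r) (t : ℝ) : dp r t ≤ 1 :=
  exp_le_one_iff.2 (by nlinarith [mul_nonneg (sq_nonneg (exp (-t))) h])

theorem dp_mul (r r' t : ℝ) (u : E d) :
    dp r t * dp r' t * kg (exp (-t) • u) = dp (r + r' + ‖u‖ ^ 2) t := by
  rw [dp, dp, dp, kg, ← exp_add, ← exp_add, norm_smul, Real.norm_of_nonneg (exp_pos _).le]
  ring_nf

/-- damped field of a block -/
noncomputable def FB (T c r : ℝ) (x : E d) : HG d :=
  gv (wf (ws T c (dp r)) (fun s => exp (-(s + c))) x)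

/-- damped gradient of a block -/
noncomputable def GB (T c r : ℝ) (x : E d) : E d →ₗ[ℝ] HG d where
  toFun a := gv (wg (ws T c fun t => exp (-t) * dp r t) (fun s => exp (-(s + c))) x a)
  map_add' a b := by
    rw [← gv_add (mem_wg (meas_ws (by fun_prop)) (mem_ws (by fun_prop)) (by fun_prop) _ _)
      (mem_wg (meas_ws (by fun_prop)) (mem_ws (by fun_prop)) (by fun_prop) _ _)]
    congr 1
    funext p
    simp only [wg, Pi.add_apply, inner_add_right, mul_add, add_smul]
  map_smul' t a := by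
    rw [RingHom.id_apply, ← gv_smul (mem_wg (meas_ws (by fun_prop)) (mem_ws (by fun_prop))
      (by fun_prop) _ _)]
    congr 1
    funext p
    simp only [wg, Pi.smul_apply, real_inner_smul_right, smul_smul, mul_left_comm]

/-- gradient covariance of a block -/
noncomputable def fkB (T r : ℝ) : ℝ := ∫ t in Ioc (-T) 0, exp (-t) ^ 2 * dp r t

theorem inner_FF (r r' : ℝ) (x y : E d) :
    ⟪FB T c r x, FB T c r' y⟫_ℝ = ∫ t in Ioc (-T) 0, dp (r + r' + ‖y - x‖ ^ 2) t := by
  rw [FB, FB, inner_ff (meas_ws (by fun_prop)) (mem_ws (by fun_prop)) (meas_ws (by fun_prop))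
    (mem_ws (by fun_prop)) (by fun_prop), int_ws fun t => kg (exp (-t) • (y - x))]
  simp only [dp_mul]

theorem inner_FG (r r' : ℝ) (z x b : E d) :
    ⟪FB T c r z, GB T c r' x b⟫_ℝ = fkB T (r + r' + ‖z - x‖ ^ 2) * ⟪b, z - x⟫_ℝ := by
  rw [FB, GB, LinearMap.coe_mk, AddHom.coe_mk, inner_fg (meas_ws (by fun_prop))
    (mem_ws (by fun_prop)) (meas_ws (by fun_prop)) (mem_ws (by fun_prop)) (by fun_prop),
    int_ws fun t => ⟪b, exp (-t) • (z - x)⟫_ℝ * kg (exp (-t) • (z - x)), fkB, ← integral_mul_const]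
  refine integral_congr_ae (Filter.Eventually.of_forall fun t => ?_)
  simp only [← dp_mul, real_inner_smul_right]
  ring

theorem inner_GG (r r' : ℝ) (x y a b : E d) : ⟪GB T c r x a, GB T c r' y b⟫_ℝ = ∫ t in Ioc (-T) 0,
    exp (-t) ^ 2 * dp (r + r' + ‖x - y‖ ^ 2) t
      * (⟪a, b⟫_ℝ - exp (-t) ^ 2 * (⟪a, x - y⟫_ℝ * ⟪b, x - y⟫_ℝ)) := by
  rw [GB, GB, LinearMap.coe_mk, AddHom.coe_mk, LinearMap.coe_mk, AddHom.coe_mk,
    inner_gg (meas_ws (by fun_prop)) (mem_ws (by fun_prop)) (meas_ws (by fun_prop))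
    (mem_ws (by fun_prop)) (by fun_prop), int_ws fun t => (⟪a, b⟫_ℝ - ⟪a, exp (-t) • (x - y)⟫_ℝ
      * ⟪b, exp (-t) • (x - y)⟫_ℝ) * kg (exp (-t) • (x - y))]
  refine integral_congr_ae (Filter.Eventually.of_forall fun t => ?_)
  simp only [← dp_mul, real_inner_smul_right]
  ring

theorem int_blk (hT : 0 ≤ T) (h : Continuous φ) {A : ℝ} (hA : ∀ t, -T < t → φ t ≤ A) :
    ∫ t in Ioc (-T) 0, φ t ≤ T * A := by
  refine (setIntegral_mono_on h.integrableOn_Ioc continuous_const.integrableOn_Ioc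
    measurableSet_Ioc fun t ht => hA t ht.1).trans_eq ?_
  simp [hT]

theorem norm_sub_int {H : Type*} [NormedAddCommGroup H] [InnerProductSpace ℝ H] {u v : H}
    {a b e : ℝ → ℝ} (ha : Continuous a) (hb : Continuous b) (he : Continuous e)
    (h1 : ⟪u, u⟫_ℝ = ∫ t in Ioc (-T) 0, a t) (h2 : ⟪u, v⟫_ℝ = ∫ t in Ioc (-T) 0, b t)
    (h3 : ⟪v, v⟫_ℝ = ∫ t in Ioc (-T) 0, e t) :
    ‖u - v‖ ^ 2 = ∫ t in Ioc (-T) 0, (a t - 2 * b t + e t) := by
  rw [norm_sub_sq_real, ← real_inner_self_eq_norm_sq, ← real_inner_self_eq_norm_sq, h1, h2, h3,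
    integral_add (by fun_prop : Continuous fun t => a t - 2 * b t).integrableOn_Ioc
      he.integrableOn_Ioc, integral_sub ha.integrableOn_Ioc
      (by fun_prop : Continuous fun t => 2 * b t).integrableOn_Ioc, integral_const_mul]

theorem blk_B (hT : 0 ≤ T) (c : ℝ) :
    Blk T (2 * (T + 1) * exp T ^ 2) (fkB T) (FB (d := d) T c) (GB T c) := by
  have e1 : 1 ≤ exp T ^ 2 := one_le_pow₀ (one_le_exp hT)
  have e2 : ∀ t, -T < t → exp (-t) ^ 2 ≤ exp T ^ 2 := fun t ht =>
    pow_le_pow_left₀ (exp_pos _).le (exp_le_exp.2 (by linarith)) 2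
  refine ⟨fun r r' _ _ x y a b h => ?_, fun r r' _ _ => inner_FG r r', fun r hr x => ?_,
    fun r hr x a => ?_, fun r hr x y a => ?_⟩
  · simp only [inner_GG, h, zero_mul, mul_zero, sub_zero, integral_mul_const, fkB]
  · rw [← real_inner_self_eq_norm_sq, inner_FF]
    exact (int_blk hT (by fun_prop) fun t _ => dp_le_one (by positivity) t).trans_eq (mul_one T)
  · refine abs_le_of_sq_le_sq' ?_ (by positivity) |>.2
    rw [← real_inner_self_eq_norm_sq, inner_GG]
    refine (int_blk hT (by fun_prop) (A := exp T ^ 2 * ‖a‖ ^ 2) fun t ht => ?_).trans ?_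
    · simp only [sub_self, inner_zero_right, mul_zero, sub_zero, real_inner_self_eq_norm_sq]
      exact mul_le_mul_of_nonneg_right ((mul_le_of_le_one_right (by positivity)
        (dp_le_one (by positivity) t)).trans (e2 t ht)) (by positivity)
    · rw [mul_pow, ← mul_assoc]
      exact mul_le_mul_of_nonneg_right (by nlinarith [mul_nonneg hT (sub_nonneg.2 e1)])
        (by positivity)
  · refine abs_le_of_sq_le_sq' ?_ (by positivity) |>.2
    rw [norm_sub_int (by fun_prop) (by fun_prop) (by fun_prop) (inner_GG ..) (inner_GG ..)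
      (inner_GG ..)]
    refine (int_blk hT (by fun_prop) (A := 3 * (exp T ^ 2) ^ 2 * (‖x - y‖ * ‖a‖) ^ 2)
      fun t ht => ?_).trans ?_
    · simp only [sub_self, inner_zero_right, mul_zero, sub_zero, real_inner_self_eq_norm_sq,
        ← dp_mul, smul_zero]
      have k0 : kg (0 : E d) = 1 := by simp [kg]
      have k1 := one_sub_kg (exp (-t) • (x - y))
      have k2 := kg_le_one (exp (-t) • (x - y))
      have k3 := kg_pos (exp (-t) • (x - y))
      have k4 : ⟪a, x - y⟫_ℝ * ⟪a, x - y⟫_ℝ ≤ (‖x - y‖ * ‖a‖) ^ 2 := by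
        rw [← abs_mul_abs_self, ← sq, mul_comm]
        exact pow_le_pow_left₀ (abs_nonneg _) (abs_real_inner_le_norm _ _) 2
      rw [norm_smul, Real.norm_of_nonneg (exp_pos _).le, mul_pow] at k1
      rw [k0]
      set l := exp (-t) ^ 2
      set k := kg (exp (-t) • (x - y))
      have l0 : 0 ≤ l := by positivity
      have k5 : dp r t * dp r t ≤ 1 :=
        mul_le_one₀ (dp_le_one hr t) (dp_pos _ _).le (dp_le_one hr t)
      have k6 : (1 - k) * ‖a‖ ^ 2 + k * (l * (⟪a, x - y⟫_ℝ * ⟪a, x - y⟫_ℝ))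
          ≤ 3 / 2 * l * (‖x - y‖ * ‖a‖) ^ 2 := by
        have := mul_le_mul_of_nonneg_right k1 (sq_nonneg ‖a‖)
        have := mul_le_mul k2 (mul_le_mul_of_nonneg_left k4 l0)
          (mul_nonneg l0 (mul_self_nonneg _)) zero_le_one
        nlinarith
      have k7 : 0 ≤ (1 - k) * ‖a‖ ^ 2 + k * (l * (⟪a, x - y⟫_ℝ * ⟪a, x - y⟫_ℝ)) :=
        add_nonneg (mul_nonneg (by linarith) (sq_nonneg _))
          (mul_nonneg k3.le (mul_nonneg l0 (mul_self_nonneg _)))
      calc _ = 2 * l * (dp r t * dp r t * ((1 - k) * ‖a‖ ^ 2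
            + k * (l * (⟪a, x - y⟫_ℝ * ⟪a, x - y⟫_ℝ)))) := by ring
        _ ≤ 2 * l * (1 * (3 / 2 * l * (‖x - y‖ * ‖a‖) ^ 2)) := by gcongr
        _ = 3 * l ^ 2 * (‖x - y‖ * ‖a‖) ^ 2 := by ring
        _ ≤ _ := by gcongr; exact e2 t ht
    · rw [mul_assoc _ ‖x - y‖, mul_pow _ (‖x - y‖ * ‖a‖), ← mul_assoc]
      refine mul_le_mul_of_nonneg_right ?_ (by positivity)
      rw [mul_pow _ (exp T ^ 2), ← mul_assoc]
      exact mul_le_mul_of_nonneg_right (by nlinarith) (by positivity)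

theorem fkB_eq (hT : 0 ≤ T) (r : ℝ) : r * fkB T r = exp (-r / 2) - exp (-(exp T ^ 2 * r) / 2) := by
  rw [fkB, ← integral_const_mul, ← intervalIntegral.integral_of_le (by linarith),
    intervalIntegral.integral_eq_sub_of_hasDerivAt (f := dp r) (fun t _ => ?_)
      (Continuous.intervalIntegrable (by fun_prop) _ _)]
  · simp [dp]
  · refine (((((hasDerivAt_id t).fun_neg.exp.fun_pow 2).mul_const r).fun_neg.div_const 2).exp).congr_deriv ?_
    simp only [dp, id]
    norm_num
    ring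

theorem dif_B (hT : 0 ≤ T) {r : ℝ} (hr : 0 ≤ r) (z x : E d) :
    ‖FB T c 0 z - FB T c r x‖ ^ 2 ≤ exp T ^ 2 * (r + ‖z - x‖ ^ 2) / 2 := by
  rw [norm_sub_int (by fun_prop) (by fun_prop) (by fun_prop) (inner_FF ..) (inner_FF ..)
    (inner_FF ..), norm_sub_rev z x]
  set u := r + ‖x - z‖ ^ 2
  have u0 : 0 ≤ u := by positivity
  refine (setIntegral_mono_on (g := fun t => exp (-t) ^ 2 * u)
    (Continuous.integrableOn_Ioc (by fun_prop)) (Continuous.integrableOn_Ioc (by fun_prop))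
    measurableSet_Ioc fun t _ => ?_).trans ?_
  · have a1 := dp_le_one (r := 0 + 0 + ‖z - z‖ ^ 2) (by positivity) t
    have a2 := dp_le_one (r := r + r + ‖x - x‖ ^ 2) (by positivity) t
    have a3 := add_one_le_exp (-(exp (-t) ^ 2 * u) / 2)
    rw [zero_add r]
    unfold dp at *
    linarith
  · rw [← intervalIntegral.integral_of_le (by linarith),
      intervalIntegral.integral_eq_sub_of_hasDerivAt (f := fun t => -(exp (-t) ^ 2 * u) / 2)
      (fun t _ => ?_) (Continuous.intervalIntegrable (by fun_prop) _ _)]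
    · simp only [neg_zero, exp_zero, neg_neg]
      linarith
    · refine ((((hasDerivAt_id t).fun_neg.exp.fun_pow 2).mul_const u).fun_neg.div_const 2).congr_deriv ?_
      simp only [id]
      norm_num
      ring

/-- functions living in one block -/
def NB (d : ℕ) (T c : ℝ) : Submodule ℝ (HG d) where
  carrier := {v | ∀ᵐ p ∂gm d, p.1 + c ∉ Ioc (-T) 0 → v p = 0}
  add_mem' {u v} hu hv := by
    filter_upwards [hu, hv, Lp.coeFn_add u v] with p h1 h2 h3 h
    rw [h3, Pi.add_apply, h1 h, h2 h, add_zero]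
  zero_mem' := by
    filter_upwards [Lp.coeFn_zero ℂ 2 (gm d)] with p h _ using h
  smul_mem' t v hv := by
    filter_upwards [hv, Lp.coeFn_smul t v] with p h1 h2 h
    rw [h2, Pi.smul_apply, h1 h, smul_zero]

theorem gv_NB {g : ℝ × E d → ℂ} (h : ∀ p, p.1 + c ∉ Ioc (-T) 0 → g p = 0) : gv g ∈ NB d T c := by
  by_cases m : MemLp g 2 (gm d)
  · rw [gv_eq m]
    filter_upwards [m.coeFn_toLp] with p h1 h2
    rw [h1, h p h2]
  · rw [gv, dif_neg m]
    exact Submodule.zero_mem _

theorem FB_mem (r : ℝ) (x : E d) : FB T c r x ∈ NB d T c :=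
  gv_NB fun p h => by rw [wf, ws, indicator_of_notMem h, zero_smul]

theorem GB_mem (r : ℝ) (x a : E d) : GB T c r x a ∈ NB d T c :=
  gv_NB fun p h => by rw [wg, ws, indicator_of_notMem h, zero_mul, zero_smul]

theorem NB_orth {c' : ℝ} (h : c + T ≤ c') : NB d T c ⟂ NB d T c' := by
  refine Submodule.isOrtho_iff_inner_eq.2 fun u hu v hv => ?_
  rw [L2.inner_def]
  refine integral_eq_zero_of_ae ?_
  filter_upwards [hu, hv] with p h1 h2
  by_cases a : p.1 + c ∈ Ioc (-T) 0
  · rw [h2 fun b => by linarith [a.1, b.2], inner_zero_right, Pi.zero_apply]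
  · rw [h1 a, inner_zero_left, Pi.zero_apply]

/-- the layers of the field -/
noncomputable def EG (α β : ℝ) (z : E d) : HG d :=
  gv (wf ((Ioc α β).indicator fun _ => 1) (fun s => exp (-s)) z)

theorem mem_EG (α β : ℝ) (z : E d) :
    MemLp (wf ((Ioc α β).indicator fun _ => 1) (fun s => exp (-s)) z) 2 (gm d) :=
  mem_wf (measurable_const.indicator measurableSet_Ioc) (mem_ind continuous_const _ _)
    (by fun_prop) z

theorem EG_add {α β γ : ℝ} (h1 : α ≤ β) (h2 : β ≤ γ) (z : E d) :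
    EG α β z + EG β γ z = EG α γ z := by
  rw [EG, EG, EG, ← gv_add (mem_EG ..) (mem_EG ..), ← Ioc_union_Ioc_eq_Ioc h1 h2,
    indicator_union_of_disjoint (Ioc_disjoint_Ioc_of_le le_rfl)]
  congr 1
  funext p
  simp only [wf, Pi.add_apply, add_smul]

theorem norm_EG {α β : ℝ} (h : α ≤ β) (z : E d) : ‖EG α β z‖ ^ 2 = β - α := by
  rw [← real_inner_self_eq_norm_sq, EG, inner_ff (measurable_const.indicator measurableSet_Ioc)
    (mem_ind continuous_const _ _) (measurable_const.indicator measurableSet_Ioc)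
    (mem_ind continuous_const _ _) (by fun_prop)]
  simp [kg, ← inter_indicator_mul, integral_indicator, h]

theorem EG_sum (hT : 0 ≤ T) (j : ℕ) (z : E d) :
    EG (-(j * T)) 0 z = ∑ i ∈ Finset.range j, FB T (i * T) 0 (exp (i * T) • z) := by
  induction j with
  | zero => simpa using norm_EG (α := 0) le_rfl z
  | succ j ih =>
    have : 0 ≤ j * T := by positivity
    rw [Finset.sum_range_succ, ← ih, ← EG_add (β := -(j * T)) (by push_cast; linarith)
      (by linarith), add_comm, add_right_inj, EG, FB]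
    congr 1
    funext p
    simp only [wf, ws, real_inner_smul_right, ← mul_assoc, ← exp_add, indicator, mem_Ioc, dp]
    push_cast
    congr 1
    · refine if_congr (and_congr ?_ ?_) (by simp) rfl <;> constructor <;> intro <;> linarith
    · ring_nf

end Pool.Agent.Lib.MP_a0a493_pr
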