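import Pool.Agent.Lib.MP_a0a493_pr.PartA

/-! Renormalisation: uniform upper tails at record scales. -/

namespace Pool.Agent.Lib.MP_a0a493_pr

open MeasureTheory ProbabilityTheory Real Set Filter
open scoped InnerProductSpace

variable {d : ℕ} {Ω : Type*} [MeasurableSpace Ω] {P : Measure Ω} [IsProbabilityMeasure P]
  {W : HH d →ₗ[ℝ] (Ω → ℝ)}

theorem top_tail (hd : 1 ≤ d) (h : Iso P W) {Λ : ℝ} (hΛ : 0 < Λ) : ∃ C : ℝ, 0 < C ∧ ∀ (j : ℕ) (u : ℝ),
    P.real {ω | ∃ x ∈ box d (2 ^ j), u ≤ W (Ev ((j - 3 : ℕ) * log 2) (j * log 2) (pt x)) ω} ≤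
      C * exp (-Λ * u) := by
  obtain ⟨C, C0, hC⟩ := chain h d (V := 3 + 2 * d ^ 2 * 8) (by positivity) hΛ
  refine ⟨C, C0, fun j => hC j _ (reg_of (by positivity) (fun x _ => ?_) fun x _ y _ r hr => ?_)⟩
  · have a : ((j - 3 : ℕ) : ℝ) ≤ j := by exact_mod_cast Nat.sub_le j 3
    have b : (j : ℝ) ≤ (j - 3 : ℕ) + 3 := by exact_mod_cast (by omega : j ≤ j - 3 + 3)
    have c := log_le_sub_one_of_pos two_pos
    have e := log_nonneg one_le_two
    exact (norm_Ev (by gcongr) _).trans (by nlinarith)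
  · have := inc_Ev hd ((j - 3 : ℕ) * log 2) (j * log 2) (c := 1) (M := 8) (n := j) zero_le_one (by
      rw [exp_neg, exp_jlog, one_mul, le_div_iff₀ (by positivity), inv_mul_le_iff₀ (by positivity)]
      refine (pow_le_pow_right₀ one_le_two (by omega : j ≤ j - 3 + 3)).trans (le_of_eq ?_)
      rw [pow_add]; norm_num) 0 hr
    simpa only [one_smul, add_zero] using this

theorem fc_shift0 (h : Iso P W) (j : ℕ) (s : ℝ) (z : Zd d) :
    P.real {ω | Cr (2 ^ j) s fun x => W (Ev 0 (j * log 2) (pt (z + x))) ω} = fc P W j s := by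
  simpa only [exp_zero, one_smul, add_zero, add_comm z, pt_add] using fc_shift h j s 0 (pt z)

theorem fc_rec (h : Iso P W) (j : ℕ) (s u b : ℝ) (hb : P.real {ω | ∃ x ∈ box d (2 ^ (j + 3)),
    u ≤ W (Ev (j * log 2) ((j + 3 : ℕ) * log 2) (pt x)) ω} ≤ b) :
    fc P W (j + 3) (s + u) ≤ b + (33 ^ d) ^ 2 * fc P W j s ^ 2 := by
  classical
  have hR : 0 < 2 ^ j := by positivity
  let A : Zd d → Set Ω := fun a =>
    {ω | Cr (2 ^ j) s fun x => W (Ev 0 (j * log 2) (pt (((2 ^ j : ℕ) : ℤ) • a + x))) ω}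
  have b1 := union_le (P := P) ((box d 8 ×ˢ box d 8).filter fun q => Far 6 q.1 q.2)
    (fun q => A q.1 ∩ A q.2) (c := fc P W j s ^ 2) fun q hq => by
      obtain ⟨i, hi⟩ := (Finset.mem_filter.1 hq).2
      have ind := h.indep
        (fun x : box d (2 ^ j) => Ev 0 (j * log 2) (pt (((2 ^ j : ℕ) : ℤ) • q.1 + x)))
        (fun x : box d (2 ^ j) => Ev 0 (j * log 2) (pt (((2 ^ j : ℕ) : ℤ) • q.2 + x)))
        fun x y => inner_Ev_far (le_trans (by
          have a := abs_le.1 (mem_box.1 x.2 i)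
          have b := abs_le.1 (mem_box.1 y.2 i)
          have c : 2 * ((2 ^ j : ℕ) : ℤ) ≤ |(((2 ^ j : ℕ) : ℤ) • q.1 + x.1) i -
              (((2 ^ j : ℕ) : ℤ) • q.2 + y.1) i| := by
            have r0 : (0 : ℤ) < (2 ^ j : ℕ) := by exact_mod_cast hR
            simp only [Pi.add_apply, Pi.smul_apply, smul_eq_mul]
            rcases le_abs.1 hi with e | e
            · exact le_abs.2 (Or.inl (by nlinarith))
            · exact le_abs.2 (Or.inr (by nlinarith))
          rw [exp_jlog, pt_apply, pt_apply, ← Int.cast_sub, ← Int.cast_abs]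
          exact le_trans (by push_cast; rfl) (Int.cast_le.2 c)) (le_dist _ _ i))
      have e := ind.measure_inter_preimage_eq_mul _ _ (meas_CrS (2 ^ j) s) (meas_CrS (2 ^ j) s)
      have e2 : ∀ a, (fun ω (x : box d (2 ^ j)) => W (Ev 0 (j * log 2)
          (pt (((2 ^ j : ℕ) : ℤ) • a + x))) ω) ⁻¹' CrS d (2 ^ j) s = A a := fun a =>
        Set.ext fun ω => mem_CrS fun x => W (Ev 0 (j * log 2) (pt (((2 ^ j : ℕ) : ℤ) • a + x))) ω
      rw [e2, e2] at e
      rw [Measure.real, e, ENNReal.toReal_mul, sq]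
      exact (congrArg₂ (· * ·) (fc_shift0 h j s _) (fc_shift0 h j s _)).le
  refine (sub_le2 hb b1 ?_).trans (add_le_add le_rfl (mul_le_mul_of_nonneg_right ?_ (sq_nonneg _)))
  · rintro ω ⟨p, q, hf, hc⟩ hn
    have hS : ∀ x ∈ {x | x ∈ box d (2 ^ (j + 3)) ∧
        s + u ≤ W (Ev 0 ((j + 3 : ℕ) * log 2) (pt x)) ω}, s ≤ W (Ev 0 (j * log 2) (pt x)) ω := by
      intro x hx
      have a := not_le.1 fun h => hn ⟨x, hx.1, h⟩
      have b := hx.2
      rw [← Ev_add (jlog j) (mul_le_mul_of_nonneg_right (by exact_mod_cast Nat.le_add_right j 3)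
        (log_nonneg one_le_two)), map_add, Pi.add_apply] at b
      linarith
    have hf' : Far (2 ^ j : ℕ) p q := hf.imp fun i hi => le_trans (by
      exact_mod_cast Nat.pow_le_pow_right two_pos (Nat.le_add_right j 3)) hi
    refine ⟨(cen (2 ^ j) p, cen (2 ^ j) q), Finset.mem_filter.2 ⟨Finset.mem_product.2
      ⟨cen_mem hR (by rw [← show 2 ^ (j + 3) = 2 ^ j * 8 from pow_add 2 j 3]; exact hc.1.1),
      cen_mem hR (by rw [← show 2 ^ (j + 3) = 2 ^ j * 8 from pow_add 2 j 3]; exact hc.mem.1)⟩,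
      hf.imp fun i hi => ?_⟩, hc.cr hR hf' hS, hc.symm.cr hR hf'.symm hS⟩
    have a := cen_near hR p i
    have b := cen_near hR q i
    have r0 : (0 : ℤ) < (2 ^ j : ℕ) := by exact_mod_cast hR
    rw [show 2 ^ (j + 3) = 2 ^ j * 8 from pow_add 2 j 3, Nat.cast_mul] at hi
    simp only [Nat.cast_ofNat] at hi
    rcases le_abs.1 hi with e | e
    · exact le_abs.2 (Or.inl (by nlinarith))
    · exact le_abs.2 (Or.inr (by nlinarith))
  · refine (Nat.cast_le.2 (Finset.card_filter_le _ _)).trans (le_of_eq ?_)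
    rw [Finset.card_product, card_box]
    push_cast
    ring

theorem record (x : ℕ → ℝ) (h : ∀ M, ∃ k, M < x k) (N : ℕ) : ∃ k ≥ N, ∀ j ≤ k, x j ≤ x k := by
  obtain ⟨M, hM⟩ := ((finite_lt_nat N).image x).bddAbove
  obtain ⟨k0, h0⟩ := h M
  obtain ⟨k, hk, hm⟩ := (Finset.range (k0 + 1)).exists_max_image x ⟨0, by simp⟩
  rw [Finset.mem_range] at hk
  refine ⟨k, not_lt.1 fun h1 => ?_, fun j hj => hm j (Finset.mem_range.2 (by omega))⟩
  linarith [hM ⟨k, h1, rfl⟩, hm k0 (by simp)]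

theorem partB (hd : 3 ≤ d) (h : Iso P W) : ∃ c : ℝ, 0 < c ∧ ∀ Λ : ℝ, 0 < Λ → ∃ η : ℝ, 0 < η ∧
    ∀ N, ∃ k ≥ N, ∃ a : ℝ, η ≤ fc P W k (a - 1) ∧
      ∀ j ≤ k, ∀ t, 0 ≤ t → fc P W j (a - c * (k - j) + t) ≤ exp (-Λ * t) := by
  classical
  obtain ⟨c0, hc0, hA⟩ := partA hd h
  refine ⟨c0 / 2, by positivity, fun Λ hΛ => ?_⟩
  obtain ⟨C, C0, hC⟩ := top_tail (by omega) h (Λ := 4 * Λ) (by positivity)
  obtain ⟨δ, hδ⟩ : ∃ δ : ℝ, δ = 1 / (2 * (33 ^ d) ^ 2) := ⟨_, rfl⟩
  have δ0 : 0 < δ := by rw [hδ]; positivity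
  have δ1 : δ ≤ 1 / 4 := by
    have : (33 : ℝ) ^ 1 ≤ 33 ^ d := pow_le_pow_right₀ (by norm_num) (by omega)
    rw [hδ]
    exact one_div_le_one_div_of_le (by norm_num) (by nlinarith)
  obtain ⟨T, hT⟩ : ∃ T : ℝ, T = 2 * C / δ / Λ := ⟨_, rfl⟩
  have T0 : 0 ≤ T := by rw [hT]; positivity
  have hT2 : ∀ t, T ≤ t → C * exp (-(4 * Λ) * (t / 2)) ≤ δ / 2 * exp (-Λ * t) := fun t ht => by
    have a : 2 * C / δ ≤ exp (Λ * t) := by
      have := add_one_le_exp (Λ * t)
      have e : Λ * T = 2 * C / δ := by rw [hT]; field_simp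
      nlinarith
    have e : exp (-Λ * t) = exp (Λ * t) * exp (-(4 * Λ) * (t / 2)) := by rw [← exp_add]; ring_nf
    rw [div_le_iff₀ δ0] at a
    rw [e, ← mul_assoc]
    exact mul_le_mul_of_nonneg_right (by linarith) (exp_pos _).le
  have η0 : 0 < δ * exp (-Λ * T) := by positivity
  have ex : ∀ j, ∃ s : ℕ, fc P W j s < δ * exp (-Λ * T) := fun j => by
    have t := ((tendsto_exp_neg_atTop_nhds_zero.comp tendsto_natCast_atTop_atTop).mul_const
      (exp (j * log 2 / 2))).const_mul ((box d (2 ^ j)).card : ℝ)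
    rw [zero_mul, mul_zero] at t
    obtain ⟨s, hs⟩ := (t.eventually (gt_mem_nhds η0)).exists
    refine ⟨s, lt_of_le_of_lt (sub_le (union_le _ (fun x => {ω | (s : ℝ) ≤
      W (Ev 0 (j * log 2) (pt x)) ω}) fun x _ => (h.tail (norm_Ev (jlog j) _) zero_le_one s).trans
        (le_of_eq ?_)) fun ω hω => Cr.exists hω) hs⟩
    rw [Function.comp_apply, ← exp_add]
    ring_nf
  refine ⟨_, η0, fun N => ?_⟩
  obtain ⟨k, hk, hr⟩ := record (fun j => Nat.find (ex j) - c0 / 2 * j) (fun M => by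
    obtain ⟨k, hk, h1⟩ := hA ⌈M / (c0 / 2)⌉₊
    have a : c0 * k < Nat.find (ex k) := not_le.1 fun h2 => by
      have := (fc_anti k h2).trans_lt (Nat.find_spec (ex k))
      have b : exp (-Λ * T) ≤ 1 := exp_le_one_iff.2 (by nlinarith)
      nlinarith
    have b := (div_le_iff₀ (by positivity)).1 ((Nat.le_ceil _).trans (Nat.cast_le.2 hk))
    exact ⟨k, by linarith⟩) (N + 1)
  refine ⟨k, by omega, Nat.find (ex k), ?_, fun j hj t ht => le_trans ?_
    (mul_le_of_le_one_left (exp_pos _).le (by linarith : δ ≤ 1))⟩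
  · have a := hr 0 k.zero_le
    have b : (1 : ℝ) ≤ k := by exact_mod_cast (by omega : 1 ≤ k)
    have c : (0 : ℝ) < Nat.find (ex k) := by
      simp only [Nat.cast_zero, mul_zero, sub_zero] at a
      nlinarith [Nat.cast_nonneg (α := ℝ) (Nat.find (ex 0))]
    have e : 0 < Nat.find (ex k) := by exact_mod_cast c
    have := not_lt.1 (Nat.find_min (ex k) (Nat.sub_one_lt e.ne'))
    rwa [Nat.cast_pred e] at this
  induction j using Nat.strong_induction_on generalizing t with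
  | _ j ih =>
    have a := hr j hj
    have a0 := Nat.cast_nonneg (α := ℝ) (Nat.find (ex j))
    rcases le_total t T with h1 | h1
    · refine ((fc_anti j (by linarith)).trans (Nat.find_spec (ex j)).le).trans ?_
      exact mul_le_mul_of_nonneg_left (exp_le_exp.2 (by nlinarith)) δ0.le
    have h2 := hT2 t h1
    have h3 : 0 < δ / 2 * exp (-Λ * t) := by positivity
    rcases lt_or_ge j 3 with h4 | h4
    · have b := hC j (t / 2)
      rw [show j - 3 = 0 by omega, Nat.cast_zero, zero_mul] at b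
      refine (sub_le b fun ω hω => (Cr.exists hω).imp fun x hx => ⟨hx.1, le_trans ?_ hx.2⟩).trans
        (by linarith)
      linarith
    · obtain ⟨i, rfl⟩ := Nat.exists_eq_add_of_le' h4
      have b := fc_rec h i (Nat.find (ex k) - c0 / 2 * (k - i) + t / 2) (t / 2) _ (hC (i + 3) _)
      have c := ih i (by omega) (by omega) (t / 2) (by linarith)
      have e := pow_le_pow_left₀ measureReal_nonneg c 2
      have f : (33 ^ d) ^ 2 * (δ * exp (-Λ * (t / 2))) ^ 2 = δ / 2 * exp (-Λ * t) := by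
        rw [mul_pow, ← exp_nat_mul, sq δ]
        nth_rewrite 1 [hδ]
        field_simp
        ring_nf
      refine (fc_anti _ (by push_cast; linarith)).trans (b.trans ?_)
      have g := mul_le_mul_of_nonneg_left e (by positivity : (0 : ℝ) ≤ (33 ^ d) ^ 2)
      unfold fc at g ⊢
      linarith

end Pool.Agent.Lib.MP_a0a493_pr
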