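import Pool.Agent.Lib.MP_a0a493_pr.Moll
import Pool.Agent.Lib.MP_a0a493_pr.PartB

/-! Good crossings: all intermediate scales are controlled along the path. -/

namespace Pool.Agent.Lib.MP_a0a493_pr

open MeasureTheory ProbabilityTheory Real Set Filter Metric
open scoped InnerProductSpace

variable {d : ℕ} {ρ : E d → ℝ} {Ω : Type*} [MeasurableSpace Ω] {P : Measure Ω}
  [IsProbabilityMeasure P] {W : HH d →ₗ[ℝ] (Ω → ℝ)}

/-- the lattice of mesh `2^(-k)` centred at `z` -/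
noncomputable def yp (k : ℕ) (z : E d) (x : Zd d) : E d := exp (-(k * log 2)) • pt x + z

theorem yp_add (k : ℕ) (z : E d) (x y : Zd d) : yp k z (x + y) = yp k (yp k z x) y := by
  simp only [yp, pt_add, smul_add]; abel

theorem yp_zero (k : ℕ) (z : E d) : yp k z 0 = z := by
  have : pt (0 : Zd d) = 0 := by ext i; simp [pt_apply]
  simp [yp, this]

theorem dist_yp (k : ℕ) (z : E d) {x y : Zd d} {r : ℕ} (h : Near r x y) :
    dist (yp k z x) (yp k z y) ≤ d * r / 2 ^ k := by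
  rw [yp, yp, dist_aff (exp_pos _).le, exp_neg, exp_jlog, div_eq_inv_mul]
  exact mul_le_mul_of_nonneg_left (dist_pt h) (by positivity)

theorem dist_yp0 (j n : ℕ) (z : E d) {x : Zd d} (h : x ∈ box d (2 ^ j)) :
    dist z (yp (j + n) z x) ≤ 4 * d * exp (-(n * log 2)) := by
  have := dist_yp (j + n) z (near_box (zero_mem_box _) h)
  rw [yp_zero] at this
  refine this.trans (le_of_eq ?_)
  rw [exp_neg, exp_jlog, pow_add]
  push_cast
  field_simp

theorem cell_tail (hd : 1 ≤ d) (h : Iso P W) (hρ : Test ρ) (h1 : ∫ x, ρ x = 1) {M Λ : ℝ}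
    (hM : 0 ≤ M) (hΛ : 0 < Λ) : ∃ C : ℝ, 0 < C ∧ ∀ (j n : ℕ) (z : E d), ‖z‖ ≤ M → ∀ t,
      P.real {ω | (∃ x ∈ box d (2 ^ j), t ≤ W (Ev (-(n * log 2)) 0 (yp (j + n) z x) -
        Ev (-(n * log 2)) 0 z) ω) ∨ ∃ x ∈ box d (2 ^ j), t ≤ W (Ev (-(n * log 2)) 0 z -
        vec (Af (dm ρ n (yp (j + n) z x)))) ω} ≤ C * exp (-Λ * t) := by
  obtain ⟨b, R, hn⟩ := hρ.nice
  obtain ⟨L, hL⟩ := hρ.1.lipschitzWith_of_hasCompactSupport hρ.2 (by simp)
  have R0 := hn.pos
  have K0 : 0 ≤ Kc d (R + (4 * d + M)) := by unfold Kc; positivity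
  obtain ⟨C1, C10, hC1⟩ := chain h d (V := 2 * d * (4 * d) + 2 * d ^ 2 * 1) (by positivity) hΛ
  obtain ⟨C2, C20, hC2⟩ := chain h d (V := 4 * (b ^ 2 * Kc d (R + (4 * d + M))) +
    L ^ 2 * (4 * d ^ 2) * Kc d (R + (4 * d + M))) (by positivity) hΛ
  refine ⟨C1 + C2, by positivity, fun j n z hz t => ?_⟩
  have e0 := exp_pos (-(n * log 2))
  have hx : ∀ x ∈ box d (2 ^ j), dist z (yp (j + n) z x) ≤ (4 * d + M) * exp (-(n * log 2)) :=
    fun x hx => (dist_yp0 j n z hx).trans (by nlinarith)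
  rw [add_mul]
  refine sub_le2 (hC1 j (fun x => Ev (-(n * log 2)) 0 (yp (j + n) z x) - Ev (-(n * log 2)) 0 z)
    (reg_of (by positivity) (fun x hx => ?_) fun x _ y _ r hr => ?_) t)
    (hC2 j (fun x => Ev (-(n * log 2)) 0 z - vec (Af (dm ρ n (yp (j + n) z x))))
    (reg_of (by positivity) (fun x h2 => dm_var hd hρ h1 hn n (hx x h2)
      (hz.trans (le_add_of_nonneg_left (by positivity)))) fun x h2 y h3 r hr => ?_) t)
    fun ω hω hn => hω.resolve_left hn
  · refine (norm_Ev_sub hd _ _ (dist_comm z _ ▸ dist_yp0 j n z hx)).trans (le_of_eq ?_)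
    rw [mul_assoc, mul_assoc, mul_assoc, ← exp_add, add_neg_cancel, exp_zero]
    ring
  · rw [sub_sub_sub_cancel_right]
    refine inc_Ev hd _ _ (exp_pos _).le (le_of_eq ?_) z hr
    rw [← exp_add, ← exp_jlog, one_div, ← exp_neg]
    push_cast
    ring_nf
  · rw [sub_sub_sub_cancel_left, norm_sub_rev]
    refine (dm_inc hd hρ hn hL n (hx x h2) (hx y h3)).trans ?_
    have a : 2 ^ n * dist (yp (j + n) z x) (yp (j + n) z y) ≤ d * r / 2 ^ j :=
      (mul_le_mul_of_nonneg_left (dist_yp _ z hr) (by positivity)).trans (le_of_eq (by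
        rw [pow_add]; field_simp))
    have c : 2 ^ n * dist (yp (j + n) z x) (yp (j + n) z y) ≤ 4 * d :=
      (mul_le_mul_of_nonneg_left (dist_yp _ z (near_box h2 h3)) (by positivity)).trans (le_of_eq (by
        rw [pow_add]; push_cast; field_simp))
    have e := mul_le_mul a c (by positivity) (by positivity)
    calc _ = L ^ 2 * Kc d (R + (4 * d + M)) * (2 ^ n * dist (yp (j + n) z x) (yp (j + n) z y) *
          (2 ^ n * dist (yp (j + n) z x) (yp (j + n) z y))) := by ring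
      _ ≤ L ^ 2 * Kc d (R + (4 * d + M)) * (d * r / 2 ^ j * (4 * d)) := by gcongr
      _ = _ := by ring

open Classical in
/-- a crossing along which all scales are large -/
def Gd (k : ℕ) (β A : ℝ) (F : ℕ → Zd d → ℝ) : Prop :=
  Cr (2 ^ k) 0 fun x => if ∀ m : Fin k, β * ((m : ℕ) + 1 : ℕ) - A ≤ F (m + 1) x then 0 else -1

theorem Far.half {r : ℤ} {p q : Zd d} (h : Far (2 * r) p q) (x : Zd d) : Far r x p ∨ Far r x q := by
  obtain ⟨i, hi⟩ := h
  by_contra hc
  have a := not_le.1 fun h => hc (Or.inl ⟨i, h⟩)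
  have b := not_le.1 fun h => hc (Or.inr ⟨i, h⟩)
  rw [abs_lt] at a b
  rcases le_abs.1 hi with e | e <;> omega

theorem conn_of_mem {S : Set (Zd d)} {p q : Zd d} (h : Conn S p q) :
    Conn {x | Conn S p x} p q := h.cluster fun _ hx => hx

theorem one_box (hd : 1 ≤ d) (h : Iso P W) (hρ : Test ρ) (h1 : ∫ x, ρ x = 1) {M c : ℝ}
    (hM : 0 ≤ M) (hc : 0 < c) : ∃ C : ℝ, 0 < C ∧ ∀ (k : ℕ) (a A : ℝ) (z : E d), ‖z‖ ≤ M → 0 ≤ A →
      (∀ j ≤ k, ∀ t, 0 ≤ t → fc P W j (a - c * (k - j) + t) ≤ exp (-(6 * (d + 1) / c) * t)) →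
      P.real {ω | (Cr (2 ^ k) (a - 1) fun x => W (Ev (-(k * log 2)) 0 (yp k z x)) ω) ∧
        ¬ Gd k (c / 2) (1 + 3 * A) fun n x => W (vec (Af (dm ρ n (yp k z x)))) ω} ≤
        C * exp (-(6 * (d + 1) / c) * A) := by
  obtain ⟨C, C0, hC⟩ := cell_tail hd h hρ h1 (M := M + 4 * d) (Λ := 6 * (d + 1) / c)
    (by positivity) (by positivity)
  refine ⟨16 ^ d * (1 + C) * 2, by positivity, fun k a A z hz hA ht => ?_⟩
  let Z : ℕ → Zd d → E d := fun j q => yp k z (((2 ^ j : ℕ) : ℤ) • q)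
  let B : ℕ → ℕ → Zd d → Set Ω := fun j n q => {ω | (Cr (2 ^ j) (a - c * n + (c * n / 6 + A))
      fun x => W (Ev (-(k * log 2)) (-(n * log 2)) (yp k (Z j q) x)) ω) ∨
    ((∃ x ∈ box d (2 ^ j), c * n / 6 + A ≤ W (Ev (-(n * log 2)) 0 (yp k (Z j q) x) -
        Ev (-(n * log 2)) 0 (Z j q)) ω) ∨ ∃ x ∈ box d (2 ^ j), c * n / 6 + A ≤
        W (Ev (-(n * log 2)) 0 (Z j q) - vec (Af (dm ρ n (yp k (Z j q) x)))) ω)}
  have b1 : ∀ j n, j + n = k → ∀ q ∈ box d (2 ^ n), P.real (B j n q) ≤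
      (1 + C) * exp (-(6 * (d + 1) / c) * (c * n / 6 + A)) := by
    rintro j n rfl q hq
    have e1 := fc_shift h j (a - c * n + (c * n / 6 + A)) (-((j + n : ℕ) * log 2)) (Z j q)
    have e2 := ht j (Nat.le_add_right _ _) (c * n / 6 + A) (by positivity)
    rw [show j * log 2 + -((j + n : ℕ) * log 2) = -(n * log 2) by push_cast; ring] at e1
    rw [show ((j + n : ℕ) : ℝ) - j = n by push_cast; ring, ← e1] at e2
    rw [add_mul, one_mul]
    refine sub_le2 e2 (hC j n (Z j q) ?_ _) fun ω hω hn => hω.resolve_left hn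
    have e3 := dist_yp0 (j + n) 0 z (x := ((2 ^ j : ℕ) : ℤ) • q) (mem_box.2 fun i => by
      have := mem_box.1 hq i
      rw [Pi.smul_apply, smul_eq_mul, abs_mul, pow_add, Nat.abs_cast, Nat.cast_mul, mul_left_comm]
      exact mul_le_mul_of_nonneg_left this (Nat.cast_nonneg _))
    rw [Nat.cast_zero, zero_mul, neg_zero, exp_zero, mul_one, dist_comm, dist_eq_norm] at e3
    exact (norm_le_insert' _ z).trans (add_le_add hz e3)
  have b2 : ∀ m ∈ Finset.range k, P.real {ω | ∃ q ∈ box d (2 ^ (m + 1)),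
      ω ∈ B (k - (m + 1)) (m + 1) q} ≤
      16 ^ d * (1 + C) * exp (-(6 * (d + 1) / c) * A) * (1 / 2) ^ m := fun m hm => by
    rw [Finset.mem_range] at hm
    refine (union_le _ _ (b1 _ _ (by omega))).trans ?_
    have e : -(6 * (d + 1) / c) * (c * (m + 1 : ℕ) / 6 + A) =
        -((d + 1) * m) + (-(d + 1) + -(6 * (d + 1) / c) * A) := by
      push_cast; field_simp; ring
    have f : exp (-(d + 1) + -(6 * (d + 1) / c) * A) ≤ exp (-(6 * (d + 1) / c) * A) :=
      exp_le_exp.2 (by linarith [Nat.cast_nonneg (α := ℝ) d])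
    rw [e, exp_add]
    calc _ = (box d (2 ^ (m + 1))).card * exp (-((d + 1) * m)) * ((1 + C) *
          exp (-(d + 1) + -(6 * (d + 1) / c) * A)) := by ring
      _ ≤ 16 ^ d * (1 / 2) ^ m * ((1 + C) * exp (-(6 * (d + 1) / c) * A)) :=
          mul_le_mul (chain_count d m) (by gcongr) (by positivity) (by positivity)
      _ = _ := by ring
  refine sub_le (B := ⋃ m ∈ Finset.range k, {ω | ∃ q ∈ box d (2 ^ (m + 1)),
      ω ∈ B (k - (m + 1)) (m + 1) q}) ((measureReal_biUnion_finset_le _ _).trans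
      ((Finset.sum_le_sum b2).trans ?_)) ?_
  · rw [← Finset.mul_sum, mul_right_comm _ 2]
    exact mul_le_mul_of_nonneg_left (sum_geometric_two_le k) (by positivity)
  rintro ω ⟨⟨p, q, hf, hc⟩, hn⟩
  by_contra hb
  refine hn ⟨p, q, hf, (conn_of_mem hc).mono fun x hx => ⟨hx.mem.1, ?_⟩⟩
  refine (if_pos fun m => ?_).ge
  obtain ⟨j, hj⟩ : ∃ j, k = j + (m + 1) := ⟨k - (m + 1), by omega⟩
  have hR : 0 < 2 ^ j := by positivity
  have hq : cen (2 ^ j) x ∈ box d (2 ^ ((m : ℕ) + 1)) := cen_mem hR (by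
    rw [← pow_add, ← hj]; exact hx.mem.1)
  have nb : ω ∉ B j (m + 1) (cen (2 ^ j) x) := fun e => hb (mem_iUnion₂.2
    ⟨m, Finset.mem_range.2 m.2, _, hq, by rwa [show k - (m + 1) = j by omega]⟩)
  simp only [B, mem_ofPred_eq, not_or, not_exists, not_and, not_le] at nb
  obtain ⟨n1, n2, n3⟩ := nb
  have far : Far (2 * (2 ^ j : ℕ)) p q := hf.imp fun i hi => le_trans (by
    exact_mod_cast (pow_succ' 2 j).ge.trans (Nat.pow_le_pow_right two_pos (by omega))) hi
  have cr : Cr (2 ^ j) (a - 1) fun y => W (Ev (-(k * log 2)) 0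
      (yp k z (((2 ^ j : ℕ) : ℤ) • cen (2 ^ j) x + y))) ω :=
    (far.half x).elim (fun e => hx.symm.cr hR e fun _ h => h.2) fun e =>
      (hx.symm.trans hc).cr hR e fun _ h => h.2
  have n4 := n3 _ (sub_mem_box hR (p := x) (x := x) fun i => by simp)
  rw [← yp_add, add_sub_cancel, map_sub, Pi.sub_apply] at n4
  by_contra hlt
  refine n1 (cr.mono fun y hy h2 => ?_)
  have n5 := n2 y hy
  rw [map_sub, Pi.sub_apply] at n5
  rw [yp_add, ← Ev_add (β := -(((m : ℕ) + 1 : ℕ) * log 2)) (neg_le_neg (mul_le_mul_of_nonneg_right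
    (Nat.cast_le.2 (by omega)) (log_nonneg one_le_two))) (neg_nonpos.2 (jlog _)), map_add,
    Pi.add_apply] at h2
  linarith [not_le.1 hlt]

theorem none_le {H : Type*} [NormedAddCommGroup H] [InnerProductSpace ℝ H]
    {W : H →ₗ[ℝ] (Ω → ℝ)} (h : Iso P W) {R : ℕ} (s : ℝ) (v : ℕ → Zd d → H)
    (ho : ∀ i i', i < i' → ∀ x ∈ box d R, ∀ y ∈ box d R, ⟪v i x, v i' y⟫_ℝ = 0) {η : ℝ}
    (hη : ∀ i, η ≤ P.real {ω | Cr R s fun x => W (v i x) ω}) (L : ℕ) :
    P.real {ω | ∀ i < L, ¬ Cr R s fun x => W (v i x) ω} ≤ (1 - η) ^ L := by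
  induction L with
  | zero => simp
  | succ L ih =>
    have ind := h.indep (fun j : Fin L × box d R => v j.1 j.2) (fun x : box d R => v L x)
      fun j x => ho _ _ j.1.2 _ j.2.2 _ x.2
    have e := ind.measure_inter_preimage_eq_mul
      (⋂ i : Fin L, (fun y (x : box d R) => y (i, x)) ⁻¹' (CrS d R s)ᶜ) (CrS d R s)ᶜ
      (MeasurableSet.iInter fun i => (measurable_pi_iff.2 fun x => measurable_pi_apply _)
        (meas_CrS R s).compl) (meas_CrS R s).compl
    have e1 : (fun ω (j : Fin L × box d R) => W (v j.1 j.2) ω) ⁻¹'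
        (⋂ i : Fin L, (fun y (x : box d R) => y (i, x)) ⁻¹' (CrS d R s)ᶜ) =
        {ω | ∀ i < L, ¬ Cr R s fun x => W (v i x) ω} := by
      ext ω
      simp only [mem_preimage, mem_iInter, mem_compl_iff, mem_ofPred_eq, Fin.forall_iff]
      exact forall₂_congr fun i _ => not_congr (mem_CrS fun x => W (v i x) ω)
    have e2 : (fun ω (x : box d R) => W (v L x) ω) ⁻¹' CrS d R s =
        {ω | Cr R s fun x => W (v L x) ω} := Set.ext fun ω => mem_CrS fun x => W (v L x) ω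
    have e3 := probReal_compl_eq_one_sub (μ := P)
      ((measurable_pi_iff.2 fun x : box d R => h.meas (v L x)) (meas_CrS R s))
    rw [e1, preimage_compl, e2] at e
    rw [e2] at e3
    have e4 := congrArg ENNReal.toReal e
    rw [ENNReal.toReal_mul] at e4
    refine sub_le (e4.le.trans (mul_le_mul ih (e3.le.trans (sub_le_sub_left (hη L) 1))
      ENNReal.toReal_nonneg (measureReal_nonneg.trans ih))) fun ω hω =>
      ⟨fun i hi => hω i (by omega), hω L (by omega)⟩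

theorem many_boxes (hd : 3 ≤ d) (h : Iso P W) : ∃ β : ℝ, 0 < β ∧ ∀ ρ : E d → ℝ, Test ρ →
    ∫ x, ρ x = 1 → ∀ ε : ℝ, 0 < ε → ∃ (L : ℕ) (A : ℝ), ∀ N, ∃ k ≥ N, P.real {ω | ∀ i < L,
      ¬ Gd k β A fun n x => W (vec (Af (dm ρ n (yp k (pt fun _ => 8 * i) x)))) ω} ≤ ε := by
  obtain ⟨c, c0, hB⟩ := partB hd h
  refine ⟨c / 2, by positivity, fun ρ hρ h1 ε ε0 => ?_⟩
  have Λ0 : 0 < 6 * (d + 1) / c := by positivity
  obtain ⟨η, η0, hη⟩ := hB _ Λ0
  obtain ⟨L, hL⟩ := exists_pow_lt_of_lt_one (half_pos ε0) (sub_lt_self 1 η0)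
  obtain ⟨C, C0, hC⟩ := one_box (by omega) h hρ h1 (M := d * (8 * L : ℕ)) (by positivity) c0
  have t := ((tendsto_exp_neg_atTop_nhds_zero.comp (tendsto_id.const_mul_atTop Λ0)).const_mul
    C).const_mul (L : ℝ)
  rw [mul_zero, mul_zero] at t
  obtain ⟨A, hA, A0⟩ := ((t.eventually (gt_mem_nhds (half_pos ε0))).and
    (eventually_ge_atTop 0)).exists
  refine ⟨L, 1 + 3 * A, fun N => ?_⟩
  obtain ⟨k, hk, a, h2, h3⟩ := hη N
  refine ⟨k, hk, ?_⟩
  have b1 := none_le h (R := 2 ^ k) (a - 1)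
    (fun i x => Ev (-(k * log 2)) 0 (yp k (pt fun _ => 8 * i) x)) (fun i i' hi x hx y hy => by
      refine inner_Ev_far (le_trans ?_ (le_dist _ _ ⟨0, by omega⟩))
      have a := (abs_le.1 (mem_box.1 hx ⟨0, by omega⟩)).2
      have b := (abs_le.1 (mem_box.1 hy ⟨0, by omega⟩)).1
      have a' : (x ⟨0, by omega⟩ : ℝ) ≤ 2 * 2 ^ k := by exact_mod_cast a
      have b' : -(2 * 2 ^ k) ≤ (y ⟨0, by omega⟩ : ℝ) := by exact_mod_cast b
      have c : (i : ℝ) + 1 ≤ i' := by exact_mod_cast hi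
      have e : (2 ^ k : ℝ)⁻¹ * (x ⟨0, by omega⟩ - y ⟨0, by omega⟩) ≤ 4 :=
        (inv_mul_le_iff₀ (by positivity)).2 (by linarith)
      refine le_abs.2 (Or.inr ?_)
      simp only [yp, PiLp.add_apply, PiLp.smul_apply, pt_apply, smul_eq_mul, exp_neg, exp_jlog,
        exp_zero]
      push_cast
      linarith) (η := η) (fun i => h2.trans (le_of_eq (by
      simpa only [add_neg_cancel, yp] using (fc_shift h k (a - 1) (-(k * log 2)) _).symm))) L
  have b2 := union_le (P := P) (Finset.range L) _ fun i hi => hC k a A (pt fun _ => 8 * (i : ℤ)) (by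
    have := dist_pt (x := fun _ : Fin d => 8 * (i : ℤ)) (y := 0) (r := 8 * L) fun j => by
      have := Finset.mem_range.1 hi
      simp only [Pi.zero_apply, sub_zero]
      push_cast
      rw [abs_le]; omega
    rwa [show pt (0 : Zd d) = 0 by ext i; simp [pt_apply], dist_zero_right] at this) A0 h3
  refine (sub_le2 b1 b2 fun ω hω hn => ?_).trans ?_
  · simp only [mem_ofPred_eq, not_forall, not_not] at hn
    obtain ⟨i, hi, hn⟩ := hn
    exact ⟨i, Finset.mem_range.2 hi, hn, hω i hi⟩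
  · simp only [Function.comp_apply, id] at hA
    rw [Finset.card_range, neg_mul]
    linarith

end Pool.Agent.Lib.MP_a0a493_pr
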