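import Mathlib

/-! The log-correlated Gaussian field and its thick points. -/

namespace Pool.Agent.Lib.MP_a0a493_pr

open MeasureTheory ProbabilityTheory Filter

/-- Test functions: smooth with compact support. -/
def Test {d : ℕ} (f : EuclideanSpace ℝ (Fin d) → ℝ) : Prop :=
  ContDiff ℝ (⊤ : ℕ∞) f ∧ HasCompactSupport f

/-- `Φ f` is the pairing of the field with the test function `f`: it is linear in `f`, and for `f`
of mean zero it is a centred Gaussian with variance `∫∫ f(x) f(y) log (1/|x-y|)`.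
The global additive constant may be fixed in any way. -/
structure IsLGF {d : ℕ} {Ω : Type*} [MeasurableSpace Ω] (P : Measure Ω)
    (Φ : (EuclideanSpace ℝ (Fin d) → ℝ) → Ω → ℝ) : Prop where
  lin : ∀ f g, Test f → Test g → ∀ a b : ℝ,
    ∀ᵐ ω ∂P, Φ (a • f + b • g) ω = a * Φ f ω + b * Φ g ω
  law : ∀ f, Test f → ∫ x, f x = 0 → HasLaw (Φ f)
    (gaussianReal 0 (∫ x, ∫ y, f x * f y * Real.log (1 / ‖x - y‖)).toNNReal) P

/-- The function `u ↦ ρ_n (x - u)` with `ρ_n (y) = 2^(n d) ρ (2^n y)`. -/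
noncomputable def mol {d : ℕ} (ρ : EuclideanSpace ℝ (Fin d) → ℝ) (n : ℕ)
    (x u : EuclideanSpace ℝ (Fin d)) : ℝ :=
  2 ^ (n * d) * ρ ((2 : ℝ) ^ n • (x - u))

/-- The set of `α`-thick points: `liminf φ_n (x) / (n log 2) ≥ α`. -/
def thick {d : ℕ} {Ω : Type*} (Φ : (EuclideanSpace ℝ (Fin d) → ℝ) → Ω → ℝ)
    (ρ : EuclideanSpace ℝ (Fin d) → ℝ) (α : ℝ) (ω : Ω) : Set (EuclideanSpace ℝ (Fin d)) :=
  {x | (α : EReal) ≤
    liminf (fun n : ℕ => ((Φ (mol ρ n x) ω / (n * Real.log 2) : ℝ) : EReal)) atTop}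

end Pool.Agent.Lib.MP_a0a493_pr
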