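import Pool.Agent.Lib.MP_a0a493_pr.Vec

/-! The vector attached to a test function and the logarithmic energy identity. -/

namespace Pool.Agent.Lib.MP_a0a493_pr

open MeasureTheory Metric Real Set
open scoped InnerProductSpace

variable {d : ℕ} {f : E d → ℝ} {z : E d} {B R : ℝ}

/-- bounded measurable functions supported in a ball -/
structure Nice (f : E d → ℝ) (z : E d) (B R : ℝ) : Prop where
  meas : Measurable f
  bd : ∀ y, |f y| ≤ B
  sup : ∀ y, f y ≠ 0 → dist z y < R
  pos : 0 < R

theorem Nice.le (h : Nice f z B R) (y : E d) : |f y| ≤ B * bi R z y := by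
  by_cases h0 : f y = 0
  · rw [h0, abs_zero]
    exact mul_nonneg ((abs_nonneg _).trans (h.bd y)) (bi_nonneg _ _ _)
  · rw [bi_one (h.sup y h0), mul_one]; exact h.bd y

theorem Nice.int (h : Nice f z B R) : Integrable f :=
  ((integrable_bi R z).const_mul B).mono' h.meas.aestronglyMeasurable
    (Filter.Eventually.of_forall h.le)

theorem Nice.l1 (h : Nice f z B R) : ∫ y, |f y| ≤ B * (V1 d * R ^ d) := by
  rw [← integral_bi h.pos z, ← integral_const_mul]
  exact integral_mono h.int.abs ((integrable_bi R z).const_mul B) h.le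

theorem Nice.nonneg (h : Nice f z B R) : 0 ≤ B := (abs_nonneg _).trans (h.bd z)

/-- ball averages of a function -/
noncomputable def Af (f : E d → ℝ) (p : ℝ × E d) : ℝ := ∫ y, f y * bi (exp p.1) y p.2

theorem measurable_Af (hf : Measurable f) : Measurable (Af f) :=
  ((by fun_prop : Measurable fun q : (ℝ × E d) × E d =>
    f q.2 * bi (exp q.1.1) q.2 q.1.2).stronglyMeasurable.integral_prod_right').measurable

theorem int_mul_bi (hf : Integrable f) (r : ℝ) (u : E d) : Integrable fun y => f y * bi r y u :=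
  hf.mul_bdd (c := 1) (by fun_prop : Measurable _).aestronglyMeasurable
    (Filter.Eventually.of_forall fun y => abs_bi r y u)

/-- ball averages minus those of a point mass above the scale `exp α` -/
noncomputable def Dv (f : E d → ℝ) (z : E d) (α : ℝ) (p : ℝ × E d) : ℝ :=
  Af f p - (∫ y, f y) * if α < p.1 then bi (exp p.1) z p.2 else 0

theorem norm_Dv (hd : 1 ≤ d) (h : Nice f z B R) (α : ℝ) : Ok (Dv f z α) ∧ ‖vec (Dv f z α)‖ ^ 2 ≤
    B * (B * (V1 d * R ^ d)) * (V1 d * exp α ^ d) +
      (B * (V1 d * R ^ d)) ^ 2 * (2 * d * R * exp (-α)) := by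
  have hB := h.nonneg
  have hV := V1_pos d
  have hR := h.pos
  have hl := h.l1
  have h0 : 0 ≤ ∫ y, |f y| := integral_nonneg fun _ => abs_nonneg _
  refine ok_two (g := Dv f z α) ((measurable_Af h.meas).sub (measurable_const.mul (Measurable.ite
    (measurable_fst measurableSet_Ioi) (by fun_prop) measurable_const))) (α := α)
    (fun s hs => ?_) fun s hs => ?_
  · simp only [Dv, not_lt.2 hs, if_false, mul_zero, sub_zero, Af]
    have hv := vb_pos d s
    have m := mix h.int h.meas (K := bi (exp s)) (by fun_prop) (integrable_bi _) (t := vb d s)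
      fun y _ => by simp only [abs_of_nonneg (bi_nonneg _ _ _), integral_bi (exp_pos s), vb, le_refl]
    refine ⟨B * vb d s, fun u => ?_, m.1, ?_⟩
    · rw [vb, ← integral_bi (exp_pos s) u, ← integral_const_mul]
      refine norm_integral_le_of_norm_le (f := fun y => f y * bi (exp s) y u)
        ((integrable_bi _ u).const_mul B)
        (Filter.Eventually.of_forall fun y => ?_)
      rw [Real.norm_eq_abs, abs_mul, abs_of_nonneg (bi_nonneg _ _ _), bi_comm]
      exact mul_le_mul_of_nonneg_right (h.bd y) (bi_nonneg _ _ _)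
    · have a : vb d s ≤ V1 d * exp α ^ d * exp (s - α) := by
        have : exp s = exp α * exp (s - α) := by rw [← exp_add]; ring_nf
        rw [vb, this, mul_pow, ← mul_assoc]
        exact mul_le_mul_of_nonneg_left (pow_le_of_le_one (exp_pos _).le
          (exp_le_one_iff.2 (by linarith)) (by omega)) (by positivity)
      calc _ ≤ B * vb d s * (B * (V1 d * R ^ d) * vb d s) :=
            mul_le_mul_of_nonneg_left (m.2.trans (by gcongr)) (by positivity)
        _ = vb d s * (B * (B * (V1 d * R ^ d)) * vb d s) := by ring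
        _ ≤ vb d s * (B * (B * (V1 d * R ^ d)) * (V1 d * exp α ^ d * exp (s - α))) := by gcongr
        _ = _ := by ring
  · have hv := vb_pos d s
    have e : (fun u => Dv f z α (s, u)) =
        fun u => ∫ y, f y * (bi (exp s) y u - bi (exp s) z u) := by
      funext u
      simp only [Dv, show α < s from hs, if_true, Af, mul_sub]
      rw [integral_sub (int_mul_bi h.int _ _) (h.int.mul_const _), integral_mul_const]
    rw [e]
    have m := mix h.int h.meas (K := fun y u => bi (exp s) y u - bi (exp s) z u) (by fun_prop)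
      (fun y => (integrable_bi _ y).sub (integrable_bi _ z))
      fun y hy => int_bi_sub hd s (R := R) (by rw [dist_comm]; exact (h.sup y hy).le)
    refine ⟨B * (V1 d * R ^ d), fun u => le_trans ?_ hl, m.1, ?_⟩
    · refine norm_integral_le_of_norm_le (f := fun y => f y * (bi (exp s) y u - bi (exp s) z u))
        h.int.abs (Filter.Eventually.of_forall fun y => ?_)
      rw [Real.norm_eq_abs, abs_mul]
      exact mul_le_of_le_one_right (abs_nonneg _) (abs_bi_sub _ _ _ _)
    · calc _ ≤ B * (V1 d * R ^ d) * (B * (V1 d * R ^ d) * (vb d s * (2 * d * R * exp (-s)))) :=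
            mul_le_mul_of_nonneg_left (m.2.trans (by gcongr)) (by positivity)
        _ = _ := by
            have : exp (-s) = exp (-α) * exp (α - s) := by rw [← exp_add]; ring_nf
            rw [this]; ring

/-- the constant in the scale free bound -/
noncomputable def Kc (d : ℕ) (κ : ℝ) : ℝ := V1 d ^ 2 * κ ^ d + (V1 d * κ ^ d) ^ 2 * (2 * d * κ)

theorem norm_Dv' (hd : 1 ≤ d) {b κ α : ℝ} (h : Nice f z (b * exp (-α) ^ d) (κ * exp α)) :
    ‖vec (Dv f z α)‖ ^ 2 ≤ b ^ 2 * Kc d κ := by
  refine (norm_Dv hd h α).2.trans (le_of_eq ?_)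
  rw [Kc, exp_neg, inv_pow, mul_pow κ]
  have := exp_pos α
  field_simp

theorem Dv_eq (h0 : ∫ y, f y = 0) (z : E d) (α : ℝ) : Dv f z α = Af f := by
  funext p; simp [Dv, h0]

theorem Nice.ok (hd : 1 ≤ d) (h : Nice f z B R) (h0 : ∫ y, f y = 0) : Ok (Af f) :=
  Dv_eq h0 z 0 ▸ (norm_Dv hd h 0).1

theorem Af_sq (h : Nice f z B R) (s : ℝ) : (vb d s)⁻¹ * ∫ u, Af f (s, u) * Af f (s, u) =
    ∫ q : E d × E d, f q.1 * f q.2 * kap (exp (-s) • (q.2 - q.1)) ∂volume.prod volume := by
  have hv := vb_pos d s
  have hf := h.meas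
  have e : ∀ q : E d × E d, ∫ u, f q.1 * bi (exp s) q.1 u * (f q.2 * bi (exp s) q.2 u) =
      vb d s * (f q.1 * f q.2 * kap (exp (-s) • (q.2 - q.1))) := fun q => by
    simp only [mul_mul_mul_comm (f q.1)]
    rw [integral_const_mul, integral_bi_mul (exp_pos s), exp_neg, vb]
    ring
  have m : AEStronglyMeasurable (fun p : (E d × E d) × E d =>
      f p.1.1 * bi (exp s) p.1.1 p.2 * (f p.1.2 * bi (exp s) p.1.2 p.2))
      ((volume.prod volume).prod volume) := (by fun_prop : Measurable _).aestronglyMeasurable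
  have i := (integrable_prod_iff m).2 ⟨Filter.Eventually.of_forall fun q => by
      simp only [mul_mul_mul_comm (f q.1)]
      exact (integrable_bi_mul _ _ _).const_mul _,
    ((h.int.abs.mul_prod h.int.abs).mul_const (vb d s)).mono' m.norm.integral_prod_right'
      (Filter.Eventually.of_forall fun q => by
        rw [Real.norm_of_nonneg (integral_nonneg fun _ => norm_nonneg _), vb,
          ← integral_bi (exp_pos s) q.1, ← integral_const_mul]
        refine integral_mono_of_nonneg (Filter.Eventually.of_forall fun _ => norm_nonneg _)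
          ((integrable_bi _ _).const_mul _) (Filter.Eventually.of_forall fun u => ?_)
        simp only [Real.norm_eq_abs, abs_mul, abs_of_nonneg (bi_nonneg _ _ _)]
        rw [mul_mul_mul_comm]
        exact mul_le_mul_of_nonneg_left (mul_le_of_le_one_right (bi_nonneg _ _ _)
          (bi_le_one _ _ _)) (by positivity))⟩
  have e2 : ∀ u, Af f (s, u) * Af f (s, u) = ∫ q : E d × E d,
      f q.1 * bi (exp s) q.1 u * (f q.2 * bi (exp s) q.2 u) ∂volume.prod volume := fun u =>
    (integral_prod_mul (fun y => f y * bi (exp s) y u) fun y => f y * bi (exp s) y u).symm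
  simp only [e2]
  rw [← integral_integral_swap i]
  simp only [e]
  rw [integral_const_mul, ← mul_assoc, inv_mul_cancel₀ hv.ne', one_mul]

/-- the regularised kernel -/
noncomputable def Dk (w : E d) (s : ℝ) : ℝ := kap (exp (-s) • w) - if 0 < s then 1 else 0

theorem int_Dk (hd : 1 ≤ d) {e : E d} (he : ‖e‖ = 1) : Integrable (Dk e) := by
  have i1 : Integrable ((Ioi (-1 : ℝ)).indicator fun s => 2 * d * exp (-s)) :=
    (integrable_indicator_iff measurableSet_Ioi).2 ((integrableOn_exp_neg_Ioi _).const_mul _)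
  have hd' : (1 : ℝ) ≤ d := by exact_mod_cast hd
  refine i1.mono' ((measurable_kap.comp (by fun_prop)).sub (Measurable.ite measurableSet_Ioi
    measurable_const measurable_const)).aestronglyMeasurable (Filter.Eventually.of_forall fun s => ?_)
  have hn : ‖exp (-s) • e‖ = exp (-s) := by
    rw [norm_smul, he, mul_one, Real.norm_of_nonneg (exp_pos _).le]
  have a := kap_nonneg (exp (-s) • e)
  have b := kap_le_one (exp (-s) • e)
  have c := one_sub_kap hd (exp (-s) • e)
  rw [hn] at c
  rw [Real.norm_eq_abs, Dk]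
  by_cases h : -1 < s
  · rw [indicator_of_mem (mem_Ioi.2 h), abs_le]
    split_ifs with h1
    · constructor <;> nlinarith [exp_pos (-s)]
    · have := one_le_exp (show 0 ≤ -s by linarith)
      constructor <;> nlinarith
  · rw [indicator_of_notMem (show s ∉ Ioi (-1 : ℝ) from h), if_neg (by linarith),
      kap_zero (by rw [hn]; linarith [add_one_le_exp (-s)])]
    simp

theorem int_step (l : ℝ) : Integrable (fun s : ℝ => ((if 0 < s - l then 1 else 0) -
    if 0 < s then 1 else 0 : ℝ)) ∧ ∫ s : ℝ, ((if 0 < s - l then 1 else 0) -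
    if 0 < s then 1 else 0 : ℝ) = -l ∧ ∫ s : ℝ, ‖((if 0 < s - l then 1 else 0) -
    if 0 < s then 1 else 0 : ℝ)‖ = |l| := by
  have i : ∀ a b c : ℝ, Integrable ((Ioc a b).indicator fun _ => c) := fun a b c =>
    (integrable_indicator_iff measurableSet_Ioc).2 (integrableOn_const measure_Ioc_lt_top.ne)
  rcases le_total 0 l with h | h
  · have e : ∀ s : ℝ, ((if 0 < s - l then 1 else 0) - if 0 < s then 1 else 0 : ℝ) =
        (Ioc 0 l).indicator (fun _ => -1) s := fun s => by
      simp only [indicator, mem_Ioc, ← not_lt]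
      by_cases a : 0 < s <;> by_cases b : l < s <;> simp [a, b] <;> linarith
    simp only [e, norm_indicator_eq_indicator_norm]
    exact ⟨i _ _ _, by simp [h], by simp [h, abs_of_nonneg h]⟩
  · have e : ∀ s : ℝ, ((if 0 < s - l then 1 else 0) - if 0 < s then 1 else 0 : ℝ) =
        (Ioc l 0).indicator (fun _ => 1) s := fun s => by
      simp only [indicator, mem_Ioc, ← not_lt]
      by_cases a : 0 < s <;> by_cases b : l < s <;> simp [a, b] <;> linarith
    simp only [e, norm_indicator_eq_indicator_norm]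
    exact ⟨i _ _ _, by simp [h], by simp [h, abs_of_nonpos h]⟩

theorem Dk_facts (hd : 1 ≤ d) : ∃ c0 c1 : ℝ, ∀ w : E d, w ≠ 0 → Integrable (Dk w) ∧
    ∫ s, Dk w s = c0 - log ‖w‖ ∧ ∫ s, ‖Dk w s‖ ≤ c1 + |log ‖w‖| := by
  let e : E d := EuclideanSpace.single ⟨0, hd⟩ 1
  have he : ‖e‖ = 1 := by simp [e]
  have i := int_Dk hd he
  refine ⟨∫ s, Dk e s, ∫ s, ‖Dk e s‖, fun w hw => ?_⟩
  have hw' : 0 < ‖w‖ := norm_pos_iff.2 hw
  have e1 : Dk w = fun s => Dk e (s - log ‖w‖) +
      ((if 0 < s - log ‖w‖ then 1 else 0) - if 0 < s then 1 else 0 : ℝ) := by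
    funext s
    rw [Dk, Dk, kap_radial (w' := exp (-(s - log ‖w‖)) • e)]
    · ring
    · rw [norm_smul, norm_smul, he, Real.norm_of_nonneg (exp_pos _).le,
        Real.norm_of_nonneg (exp_pos _).le, neg_sub, sub_eq_add_neg, exp_add, exp_log hw']
      ring
  obtain ⟨j1, j2, j3⟩ := int_step (log ‖w‖)
  have i2 := i.comp_sub_right (log ‖w‖)
  rw [e1]
  refine ⟨i2.add j1, ?_, ?_⟩
  · rw [integral_add i2 j1, j2, integral_sub_right_eq_self (Dk e)]
    ring
  · rw [← j3, ← integral_sub_right_eq_self (fun s => ‖Dk e s‖) (log ‖w‖),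
      ← integral_add i2.norm j1.norm]
    exact integral_mono (i2.add j1).norm (i2.norm.add j1.norm) fun s => norm_add_le _ _

theorem int_log (hd : 2 ≤ d) (h : Nice f z B R) : Integrable (fun q : E d × E d =>
    f q.1 * f q.2 * log ‖q.2 - q.1‖) (volume.prod volume) := by
  have hf := h.meas
  have g : IntegrableOn (fun w : E d => log ‖w‖) (ball 0 (2 * R)) := by
    refine integrableOn_ball_of_norm_le_rpow (C := (2 * R) ^ 2 + 1) (α := 1)
      (by rw [finrank_euclideanSpace_fin]; omega)
      (by rw [finrank_euclideanSpace_fin]; exact_mod_cast hd) ?_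
      (by fun_prop : Measurable _).aestronglyMeasurable
    filter_upwards [ae_restrict_mem measurableSet_ball] with w hw
    rw [mem_ball_zero_iff] at hw
    rcases (norm_nonneg w).eq_or_lt with h0 | h0
    · simp [← h0]
    · rw [rpow_neg_one, Real.norm_eq_abs, ← div_eq_mul_inv, le_div_iff₀ h0]
      have a := log_le_sub_one_of_pos h0
      have b := one_sub_inv_le_log_of_pos h0
      have c := mul_inv_cancel₀ h0.ne'
      rcases abs_cases (log ‖w‖) with e | e <;> rw [e.1] <;> nlinarith
  have i := (h.int.abs.convolution_integrand (ContinuousLinearMap.mul ℝ ℝ)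
    ((integrable_indicator_iff measurableSet_ball).2 g).abs).swap.const_mul B
  refine i.mono' (by fun_prop : Measurable _).aestronglyMeasurable
    (Filter.Eventually.of_forall fun q => ?_)
  show _ ≤ B * (|f q.1| * |(ball 0 (2 * R)).indicator (fun w : E d => log ‖w‖) (q.2 - q.1)|)
  have hB := h.nonneg
  by_cases h1 : f q.1 = 0
  · simp [h1]
  by_cases h2 : f q.2 = 0
  · rw [h2, mul_zero, zero_mul, norm_zero]; positivity
  rw [indicator_of_mem, Real.norm_eq_abs, abs_mul, abs_mul, mul_comm |f q.1|, mul_assoc]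
  · exact mul_le_mul_of_nonneg_right (h.bd _) (by positivity)
  · rw [mem_ball_zero_iff, ← dist_eq_norm]
    linarith [dist_triangle_left q.2 q.1 z, h.sup _ h1, h.sup _ h2]

theorem energy (hd : 2 ≤ d) (h : Nice f z B R) (h0 : ∫ y, f y = 0) :
    ‖vec (Af f)‖ ^ 2 = ∫ x, ∫ y, f x * f y * log (1 / ‖x - y‖) := by
  have hd1 : 1 ≤ d := by omega
  have hf := h.meas
  obtain ⟨c0, c1, hc⟩ := Dk_facts hd1
  have i0 := h.int.mul_prod h.int
  have z0 : ∫ q : E d × E d, f q.1 * f q.2 ∂volume.prod volume = 0 := by
    rw [integral_prod_mul, h0, mul_zero]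
  have il := int_log hd h
  have : Nontrivial (E d) := Module.nontrivial_of_finrank_pos (R := ℝ)
    (by rw [finrank_euclideanSpace_fin]; omega)
  have ne : ∀ᵐ q : E d × E d ∂volume.prod volume, q.2 - q.1 ≠ 0 :=
    (Measure.ae_prod_iff_ae_ae ((measurableSet_eq_fun (by fun_prop) measurable_const).compl)).2
      (Filter.Eventually.of_forall fun x => (volume.ae_ne x).mono fun y hy => sub_ne_zero.2 hy)
  have m : AEStronglyMeasurable (fun p : (E d × E d) × ℝ =>
      f p.1.1 * f p.1.2 * Dk (p.1.2 - p.1.1) p.2) ((volume.prod volume).prod volume) :=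
    (Measurable.mul (by fun_prop) ((measurable_kap.comp (by fun_prop)).sub (Measurable.ite
      (measurable_snd measurableSet_Ioi) measurable_const measurable_const))).aestronglyMeasurable
  have i := (integrable_prod_iff m).2 ⟨ne.mono fun q hq => (hc _ hq).1.const_mul (f q.1 * f q.2),
    ((i0.abs.mul_const c1).add il.abs).mono' m.norm.integral_prod_right' (ne.mono fun q hq => by
      rw [Real.norm_of_nonneg (integral_nonneg fun _ => norm_nonneg _)]
      simp only [norm_mul (f q.1 * f q.2), Pi.add_apply]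
      rw [integral_const_mul, abs_mul (f q.1 * f q.2), ← mul_add]
      exact mul_le_mul_of_nonneg_left (hc _ hq).2.2 (abs_nonneg _))⟩
  have e1 : ∀ s, ∫ q : E d × E d, f q.1 * f q.2 * kap (exp (-s) • (q.2 - q.1)) ∂volume.prod volume =
      ∫ q : E d × E d, f q.1 * f q.2 * Dk (q.2 - q.1) s ∂volume.prod volume := fun s => by
    simp only [Dk, mul_sub]
    rw [integral_sub (i0.mul_bdd (c := 1) (g := fun q => kap (exp (-s) • (q.2 - q.1))) (measurable_kap.comp (by fun_prop)).aestronglyMeasurable
      (Filter.Eventually.of_forall fun q => by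
        rw [Real.norm_of_nonneg (kap_nonneg _)]; exact kap_le_one _)) (i0.mul_const _),
      integral_mul_const, z0, zero_mul, sub_zero]
  rw [← real_inner_self_eq_norm_sq, inner_vec' (h.ok hd1 h0) (h.ok hd1 h0)]
  simp only [Af_sq h, e1]
  rw [← integral_integral_swap i]
  calc _ = ∫ q : E d × E d, f q.1 * f q.2 * c0 - f q.1 * f q.2 * log ‖q.2 - q.1‖
        ∂volume.prod volume := integral_congr_ae (ne.mono fun q hq => by
          simp only []
          rw [integral_const_mul, (hc _ hq).2.1, mul_sub])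
    _ = -∫ x, ∫ y, f x * f y * log ‖y - x‖ := by
        rw [integral_sub (i0.mul_const _) il, integral_mul_const, z0, zero_mul, zero_sub,
          integral_prod _ il]
    _ = _ := by
        simp only [one_div, log_inv, mul_neg, integral_neg, norm_sub_rev]

end Pool.Agent.Lib.MP_a0a493_pr
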