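import Pool.Agent.Lib.MP_a0a493_pr.Cell

/-! Transfer to the field and passage to the limit. -/

namespace Pool.Agent.Lib.MP_a0a493_pr

open MeasureTheory ProbabilityTheory Real Set Filter Metric Topology

variable {d : ℕ}

open Classical in
theorem gd_set (k L : ℕ) (β A : ℝ) : ∃ B : Set (Fin L × Fin k × box d (2 ^ k) → ℝ),
    MeasurableSet B ∧ ∀ F : ℕ → ℕ → Zd d → ℝ,
      ((fun j => F j.1 (j.2.1 + 1) j.2.2) ∈ B ↔ ∀ i < L, ¬ Gd k β A (F i)) := by
  refine ⟨⋂ i : Fin L, (fun y (x : box d (2 ^ k)) => if ∀ m : Fin k,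
    β * ((m : ℕ) + 1 : ℕ) - A ≤ y (i, m, x) then (0 : ℝ) else -1) ⁻¹' (CrS d (2 ^ k) 0)ᶜ,
    MeasurableSet.iInter fun i => (measurable_pi_iff.2 fun x => Measurable.ite ?_
      measurable_const measurable_const) (meas_CrS _ 0).compl, fun F => ?_⟩
  · rw [ofPred_forall]
    exact MeasurableSet.iInter fun m => measurableSet_le measurable_const (measurable_pi_apply _)
  · simp only [mem_iInter, mem_preimage, mem_compl_iff]
    rw [Fin.forall_iff]
    exact forall₂_congr fun i _ => not_congr (mem_CrS fun x => if ∀ m : Fin k,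
      β * ((m : ℕ) + 1 : ℕ) - A ≤ F i (m + 1) x then 0 else -1)

theorem det_limit {φ : ℕ → E d → ℝ} (hφ : ∀ n, Continuous (φ n)) {β A a : ℝ} (hβ : 0 < β) {L : ℕ}
    (h : ∀ N, ∃ k ≥ N, ∃ i < L, Gd k β A fun n x => φ n (yp k (pt fun _ => 8 * i) x) - a) :
    ∃ x ∈ {x | ((β / 2 : ℝ) : EReal) ≤ liminf (fun n : ℕ => ((φ n x / (n * log 2) : ℝ) : EReal)) atTop},
      (connectedComponentIn {x | ((β / 2 : ℝ) : EReal) ≤
        liminf (fun n : ℕ => ((φ n x / (n * log 2) : ℝ) : EReal)) atTop} x).Nontrivial := by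
  let G : ℕ → Set (E d) := fun n => closedBall 0 (d * (8 * L : ℕ) + 4 * d) ∩
    ⋂ m < n, {u | β * (m + 1 : ℕ) - A ≤ φ (m + 1) u - a}
  obtain ⟨p, hp, hn⟩ := limit_conn (G := G) (fun n => (isCompact_closedBall _ _).inter_right
    (isClosed_biInter fun m _ => isClosed_le continuous_const ((hφ _).sub continuous_const)))
    (fun n n' hn => inter_subset_inter_right _ (biInter_subset_biInter_left fun m hm =>
      lt_of_lt_of_le hm hn)) one_pos fun n ε ε0 => by
    obtain ⟨N, hN⟩ := pow_unbounded_of_one_lt (d / ε) (one_lt_two (α := ℝ))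
    obtain ⟨k, hk, i, hi, p, q, ⟨j, hf⟩, hc⟩ := h (max n N)
    have mem : ∀ x ∈ {x | x ∈ box d (2 ^ k) ∧ (0 : ℝ) ≤ (fun x => open Classical in if ∀ m : Fin k,
        β * ((m : ℕ) + 1 : ℕ) - A ≤ φ (m + 1) (yp k (pt fun _ => 8 * i) x) - a then 0 else -1) x},
        yp k (pt fun _ => 8 * i) x ∈ G n := by
      rintro x ⟨h1, h2⟩
      refine ⟨?_, mem_iInter₂.2 fun m hm => ?_⟩
      · have a := dist_pt (x := fun _ : Fin d => 8 * (i : ℤ)) (y := 0) (r := 8 * L) fun j => by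
          simp only [Pi.zero_apply, sub_zero]
          push_cast
          rw [abs_le]; omega
        have b := dist_yp0 k 0 (pt fun _ => 8 * i) h1
        rw [Nat.cast_zero, zero_mul, neg_zero, exp_zero, mul_one, add_zero] at b
        rw [show pt (0 : Zd d) = 0 by ext i; simp [pt_apply]] at a
        rw [mem_closedBall]
        linarith [dist_triangle_left (yp k (pt fun _ => 8 * i) x) 0 (pt fun _ => 8 * i)]
      · simp only [] at h2
        split_ifs at h2 with h3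
        · exact h3 ⟨m, (lt_of_lt_of_le hm (le_max_left n N)).trans_le hk⟩
        · linarith
    refine ⟨_, yp k (pt fun _ => 8 * i) q, le_trans ?_ (le_dist _ _ j), mem p hc.1,
      Relation.ReflTransGen.lift (p := fun x y => y ∈ G n ∧ dist x y < ε) (yp k (pt fun _ => 8 * i))
        (fun x y hxy => ⟨mem y hxy.1, ?_⟩) _ _ hc.2⟩
    · have : (2 : ℝ) ^ k ≤ |(p j : ℝ) - q j| := by exact_mod_cast hf
      simp only [yp, PiLp.add_apply, PiLp.smul_apply, pt_apply, smul_eq_mul, exp_neg, exp_jlog,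
        add_sub_add_right_eq_sub, ← mul_sub]
      rw [abs_mul, abs_of_pos (by positivity), le_inv_mul_iff₀ (by positivity), mul_one]
      exact this
    · refine (dist_yp k _ (r := 1) hxy.2).trans_lt ?_
      have : (2 : ℝ) ^ N ≤ 2 ^ k := pow_le_pow_right₀ one_le_two ((le_max_right n N).trans hk)
      rw [div_lt_iff₀ ε0] at hN
      rw [div_lt_iff₀ (by positivity), Nat.cast_one, mul_one]
      nlinarith
  have sub : (⋂ n, G n) ⊆ {x | ((β / 2 : ℝ) : EReal) ≤
      liminf (fun n : ℕ => ((φ n x / (n * log 2) : ℝ) : EReal)) atTop} := fun u hu => by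
    refine le_liminf_of_le (u := fun n : ℕ => ((φ n u / (n * log 2) : ℝ) : EReal))
      (by isBoundedDefault) ?_
    filter_upwards [eventually_ge_atTop 1, tendsto_natCast_atTop_atTop.eventually_ge_atTop
      ((A - a) / (β / 2))] with n h1 h2
    obtain ⟨m, rfl⟩ := Nat.exists_eq_add_of_le' h1
    have h3 : β * (m + 1 : ℕ) - A ≤ φ (m + 1) u - a :=
      mem_iInter₂.1 (mem_iInter.1 hu (m + 1)).2 m m.lt_succ_self
    have h4 := log_le_sub_one_of_pos two_pos
    have h5 := log_pos one_lt_two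
    have h6 : (0 : ℝ) < (m + 1 : ℕ) := by positivity
    rw [div_le_iff₀ (half_pos hβ)] at h2
    rw [EReal.coe_le_coe_iff, le_div_iff₀ (by positivity)]
    nlinarith [mul_pos hβ h6]
  exact ⟨p, sub hp, hn.mono (connectedComponentIn_mono p sub)⟩

theorem main (hd : 3 ≤ d) : ∃ α : ℝ, 0 < α ∧ ∀ (Ω : Type) [MeasurableSpace Ω] (P : Measure Ω)
    [IsProbabilityMeasure P] (Φ : (E d → ℝ) → Ω → ℝ), IsLGF P Φ → ∀ ρ, Test ρ → ∫ x, ρ x = 1 →
    (∀ᵐ ω ∂P, ∀ n, Continuous fun x => Φ (mol ρ n x) ω) →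
    ∀ᵐ ω ∂P, ∃ x ∈ thick Φ ρ α ω, (connectedComponentIn (thick Φ ρ α ω) x).Nontrivial := by
  obtain ⟨Ω', _, P', _, W, hW⟩ := exists_iso (HH d)
  obtain ⟨β, β0, hβ⟩ := many_boxes hd hW
  refine ⟨β / 2, half_pos β0, fun Ω _ P _ Φ hΦ ρ hρ h1 hc => ?_⟩
  rw [ae_iff]
  refine le_antisymm (ENNReal.le_of_forall_pos_le_add fun ε ε0 _ => ?_) zero_le
  obtain ⟨L, A, hL⟩ := hβ ρ hρ h1 ε ε0
  choose k hk hP using hL
  let D : ℕ → Set Ω := fun N => {ω | ∀ i < L, ¬ Gd (k N) β A fun n x =>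
    Φ (mol ρ n (yp (k N) (pt fun _ => 8 * i) x)) ω - Φ (mol ρ 0 0) ω}
  have hD : ∀ N, P (D N) ≤ ε := fun N => by
    obtain ⟨B, mB, hB⟩ := gd_set (d := d) (k N) L β A
    have e := (hΦ.gf (by omega) (J := Fin L × Fin (k N) × box d (2 ^ k N))
      (f := fun j => dm ρ (j.2.1 + 1) (yp (k N) (pt fun _ => 8 * (j.1 : ℕ)) j.2.2))
      (fun j => test_dm hρ _ _) (fun j => int_dm hρ _ _)
      (X := fun j ω => Φ (mol ρ (j.2.1 + 1) (yp (k N) (pt fun _ => 8 * (j.1 : ℕ)) j.2.2)) ω -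
        Φ (mol ρ 0 0) ω) fun j => (hΦ.lin _ _ (test_mol hρ _ _) (test_mol hρ 0 0) 1 (-1)).mono
          fun ω hω => by rw [dm, hω]; ring).prob_eq (hW.gf _) (fun _ _ => rfl) mB
    have e1 : D N = _ := Set.ext fun ω => (hB fun i n x =>
      Φ (mol ρ n (yp (k N) (pt fun _ => 8 * i) x)) ω - Φ (mol ρ 0 0) ω).symm
    have e2 := Set.ext fun ω => hB fun i n x =>
      W (vec (Af (dm ρ n (yp (k N) (pt fun _ => 8 * i) x)))) ω
    refine ((congrArg P e1).trans (e.trans (congrArg P' e2))).trans_le ?_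
    rw [← ENNReal.ofReal_coe_nnreal]
    exact (ENNReal.le_ofReal_iff_toReal_le (measure_ne_top _ _) ε.2).2 (hP N)
  rw [zero_add]
  refine (measure_mono_ae (t := ⋃ N, ⋂ N' ≥ N, D N') ?_).trans ?_
  · filter_upwards [hc] with ω hω hn
    by_contra h2
    refine hn (det_limit (a := Φ (mol ρ 0 0) ω) (A := A) (L := L) hω β0 fun N => ?_)
    have : ¬ ∀ N' ≥ N, ω ∈ D N' := fun h3 => h2 (mem_iUnion.2 ⟨N, mem_iInter₂.2 h3⟩)
    simp only [D, mem_ofPred_eq, not_forall, not_not] at this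
    obtain ⟨N', h3, i, hi, h4⟩ := this
    exact ⟨k N', (hk N').trans' h3, i, hi, h4⟩
  · rw [Monotone.measure_iUnion fun N N' h => biInter_subset_biInter_left fun m hm =>
      le_trans h hm]
    exact iSup_le fun N => (measure_mono (biInter_subset_of_mem (le_refl N))).trans (hD N)

end Pool.Agent.Lib.MP_a0a493_pr
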