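import Pool.Agent.Lib.MP_a0a493_pr.Iso
import Pool.Agent.Lib.MP_a0a493_pr.Ball

/-! A spectral Hilbert space: scales times standard Gaussian frequencies. -/

namespace Pool.Agent.Lib.MP_a0a493_pr

open MeasureTheory ProbabilityTheory Real Set
open scoped InnerProductSpace

variable {d : ℕ}

/-- the Gaussian kernel -/
noncomputable def kg (u : E d) : ℝ := exp (-‖u‖ ^ 2 / 2)

theorem kg_pos (u : E d) : 0 < kg u := exp_pos _

theorem kg_le_one (u : E d) : kg u ≤ 1 :=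
  exp_le_one_iff.2 (by linarith [sq_nonneg ‖u‖])

theorem one_sub_kg (u : E d) : 1 - kg u ≤ ‖u‖ ^ 2 / 2 := by
  linarith [add_one_le_exp (-‖u‖ ^ 2 / 2), show kg u = exp (-‖u‖ ^ 2 / 2) from rfl]

@[fun_prop] theorem continuous_kg : Continuous (kg : E d → ℝ) := by unfold kg; fun_prop

attribute [fun_prop] continuous_ch

@[fun_prop] theorem measurable_ch : Measurable ch := continuous_ch.measurable

theorem inner_ch (x y : ℝ) : ⟪ch x, ch y⟫_ℝ = cos (y - x) := by
  rw [Complex.inner, ch, ch, ← Complex.exp_conj, ← Complex.exp_add, ← Complex.exp_ofReal_mul_I_re]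
  congr 2
  simp only [map_mul, Complex.conj_ofReal, Complex.conj_I]
  push_cast
  ring

theorem int_cos (u : E d) : ∫ ξ, cos ⟪ξ, u⟫_ℝ ∂stdGaussian (E d) = kg u := by
  have a := congrArg Complex.re (charFun_stdGaussian u)
  have i : Integrable (fun ξ : E d => ch ⟪ξ, u⟫_ℝ) (stdGaussian (E d)) :=
    integrable_ch (by fun_prop)
  have b := integral_re i
  simp only [ch, RCLike.re_to_complex, Complex.exp_ofReal_mul_I_re] at b
  rw [b, ← charFun_apply, a, kg, ← Complex.exp_ofReal_re]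
  push_cast
  rfl

theorem int_sq : Integrable (fun ξ : E d => ‖ξ‖ ^ 2) (stdGaussian (E d)) :=
  (IsGaussian.memLp_two_id (μ := stdGaussian (E d))).norm.integrable_sq

theorem int_one_sq : Integrable (fun ξ : E d => (1 + ‖ξ‖) ^ 2) (stdGaussian (E d)) :=
  ((integrable_const 2).add (int_sq.const_mul 2)).mono'
    (by fun_prop : Continuous _).aestronglyMeasurable (Filter.Eventually.of_forall fun ξ => by
      rw [Real.norm_of_nonneg (sq_nonneg _), Pi.add_apply]
      nlinarith [sq_nonneg (1 - ‖ξ‖)])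

theorem deriv_int {p : E d → ℝ} (hp : Continuous p) {C : ℝ} (hC : ∀ ξ, |p ξ| ≤ C * (1 + ‖ξ‖))
    {φ φ' : ℝ → ℝ} (hφ : ∀ t, HasDerivAt φ (φ' t) t) (c1 : Continuous φ') (b0 : ∀ t, |φ t| ≤ 1)
    (b1 : ∀ t, |φ' t| ≤ 1) (u a : E d) :
    HasDerivAt (fun t : ℝ => ∫ ξ, p ξ * φ ⟪ξ, u + t • a⟫_ℝ ∂stdGaussian (E d))
      (∫ ξ, p ξ * ⟪ξ, a⟫_ℝ * φ' ⟪ξ, u⟫_ℝ ∂stdGaussian (E d)) 0 := by
  have c0 : Continuous φ := continuous_iff_continuousAt.2 fun t => (hφ t).continuousAt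
  have C0 : 0 ≤ C := by simpa using (abs_nonneg _).trans (hC 0)
  have := (hasDerivAt_integral_of_dominated_loc_of_deriv_le (μ := stdGaussian (E d)) (x₀ := (0 : ℝ))
    (F := fun t ξ => p ξ * φ ⟪ξ, u + t • a⟫_ℝ)
    (F' := fun t ξ => p ξ * ⟪ξ, a⟫_ℝ * φ' ⟪ξ, u + t • a⟫_ℝ)
    (bound := fun ξ => C * ‖a‖ * (1 + ‖ξ‖) ^ 2) Filter.univ_mem
    (Filter.Eventually.of_forall fun t => (by fun_prop : Continuous _).aestronglyMeasurable)
    ((int_one_sq.const_mul C).mono' (by fun_prop : Continuous _).aestronglyMeasurable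
      (Filter.Eventually.of_forall fun ξ => ?_))
    (by fun_prop : Continuous _).aestronglyMeasurable
    (Filter.Eventually.of_forall fun ξ t _ => ?_) (int_one_sq.const_mul _)
    (Filter.Eventually.of_forall fun ξ t _ => ?_)).2
  · simpa using this
  · rw [Real.norm_eq_abs, abs_mul]
    refine (mul_le_of_le_one_right (abs_nonneg _) (b0 _)).trans ((hC ξ).trans ?_)
    have := norm_nonneg ξ
    exact mul_le_mul_of_nonneg_left (by nlinarith) C0
  · rw [Real.norm_eq_abs, abs_mul, abs_mul]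
    refine (mul_le_of_le_one_right (by positivity) (b1 _)).trans ?_
    calc _ ≤ C * (1 + ‖ξ‖) * ((1 + ‖ξ‖) * ‖a‖) := mul_le_mul (hC ξ)
          ((abs_real_inner_le_norm _ _).trans (by gcongr; linarith)) (abs_nonneg _) (by positivity)
      _ = _ := by ring
  · have e : (fun t : ℝ => ⟪ξ, u + t • a⟫_ℝ) = fun t => ⟪ξ, u⟫_ℝ + t * ⟪ξ, a⟫_ℝ := by
      funext t; rw [inner_add_right, real_inner_smul_right]
    have h1 : HasDerivAt (fun t : ℝ => ⟪ξ, u + t • a⟫_ℝ) ⟪ξ, a⟫_ℝ t := by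
      rw [e]; simpa using ((hasDerivAt_id t).mul_const ⟪ξ, a⟫_ℝ).const_add ⟪ξ, u⟫_ℝ
    exact (((hφ _).comp t h1).const_mul (p ξ)).congr_deriv (by ring)

theorem deriv_kg (u a : E d) :
    HasDerivAt (fun t : ℝ => kg (u + t • a)) (-⟪a, u⟫_ℝ * kg u) 0 := by
  have h1 : HasDerivAt (fun t : ℝ => u + t • a) a 0 := by
    simpa using ((hasDerivAt_id (0 : ℝ)).smul_const a).const_add u
  refine (h1.norm_sq.fun_neg.div_const 2).exp.congr_deriv ?_
  simp only [kg, zero_smul, add_zero, real_inner_comm]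
  ring

theorem int_sin (a u : E d) :
    ∫ ξ, ⟪ξ, a⟫_ℝ * sin ⟪ξ, u⟫_ℝ ∂stdGaussian (E d) = ⟪a, u⟫_ℝ * kg u := by
  have h := deriv_int (p := fun _ => 1) continuous_const (C := 1) (fun ξ => by simp) hasDerivAt_cos
    (by fun_prop) abs_cos_le_one (fun t => by simpa using abs_sin_le_one t) u a
  simp only [one_mul, int_cos, mul_neg, integral_neg] at h
  linarith [h.unique (deriv_kg u a)]

theorem int_cos2 (a b u : E d) :
    ∫ ξ, ⟪ξ, a⟫_ℝ * ⟪ξ, b⟫_ℝ * cos ⟪ξ, u⟫_ℝ ∂stdGaussian (E d)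
      = (⟪a, b⟫_ℝ - ⟪a, u⟫_ℝ * ⟪b, u⟫_ℝ) * kg u := by
  have h := deriv_int (p := fun ξ => ⟪ξ, a⟫_ℝ) (by fun_prop) (C := ‖a‖) (fun ξ =>
    (abs_real_inner_le_norm _ _).trans (by nlinarith [norm_nonneg a, norm_nonneg ξ])) hasDerivAt_sin
    (by fun_prop) abs_sin_le_one abs_cos_le_one u b
  simp only [int_sin] at h
  simp only [inner_add_right, real_inner_smul_right] at h
  have h2 := ((((hasDerivAt_id (0 : ℝ)).mul_const ⟪a, b⟫_ℝ).const_add ⟪a, u⟫_ℝ).mul (deriv_kg u b))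
  rw [h.unique h2]
  simp only [id, zero_smul, add_zero, zero_mul]
  ring

noncomputable abbrev gm (d : ℕ) : Measure (ℝ × E d) :=
  (volume : Measure ℝ).prod (stdGaussian (E d))

abbrev HG (d : ℕ) : Type := Lp ℂ 2 (gm d)

open Classical in
/-- the vector of a square integrable function -/
noncomputable def gv (g : ℝ × E d → ℂ) : HG d := if h : MemLp g 2 (gm d) then h.toLp g else 0

variable {g g' : ℝ × E d → ℂ}

theorem gv_eq (h : MemLp g 2 (gm d)) : gv g = h.toLp g := dif_pos h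

theorem gv_add (h : MemLp g 2 (gm d)) (h' : MemLp g' 2 (gm d)) : gv (g + g') = gv g + gv g' := by
  rw [gv_eq h, gv_eq h', gv_eq (h.add h'), MemLp.toLp_add]

theorem gv_sub (h : MemLp g 2 (gm d)) (h' : MemLp g' 2 (gm d)) : gv (g - g') = gv g - gv g' := by
  rw [gv_eq h, gv_eq h', gv_eq (h.sub h'), MemLp.toLp_sub]

theorem gv_smul (h : MemLp g 2 (gm d)) (c : ℝ) : gv (c • g) = c • gv g := by
  rw [gv_eq h, gv_eq (h.const_smul c), MemLp.toLp_const_smul]

theorem inner_gv (h : MemLp g 2 (gm d)) (h' : MemLp g' 2 (gm d)) : ⟪gv g, gv g'⟫_ℝ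
    = ∫ s, ∫ ξ, ⟪g (s, ξ), g' (s, ξ)⟫_ℝ ∂stdGaussian (E d) := by
  have e : (fun p => ⟪gv g p, gv g' p⟫_ℝ) =ᵐ[gm d] fun p => ⟪g p, g' p⟫_ℝ := by
    rw [gv_eq h, gv_eq h']
    filter_upwards [h.coeFn_toLp, h'.coeFn_toLp] with p h1 h2
    rw [h1, h2]
  rw [L2.inner_def, integral_congr_ae e,
    integral_prod _ ((L2.integrable_inner (𝕜 := ℝ) (gv g) (gv g')).congr e)]

theorem gv_bound (mg : Measurable g)
    (ig : ∀ s, Integrable (fun ξ => ‖g (s, ξ)‖ ^ 2) (stdGaussian (E d))) {G : ℝ → ℝ}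
    (iG : Integrable G) (hG : ∀ s, ∫ ξ, ‖g (s, ξ)‖ ^ 2 ∂stdGaussian (E d) ≤ G s) :
    MemLp g 2 (gm d) ∧ ‖gv g‖ ^ 2 ≤ ∫ s, G s := by
  have m : AEStronglyMeasurable (fun p => ‖g p‖ ^ 2) (gm d) :=
    (by fun_prop : Measurable _).aestronglyMeasurable
  have n : ∀ s, 0 ≤ ∫ ξ, ‖g (s, ξ)‖ ^ 2 ∂stdGaussian (E d) := fun s =>
    integral_nonneg fun _ => sq_nonneg _
  have o : MemLp g 2 (gm d) := by
    refine (memLp_two_iff_integrable_sq_norm mg.aestronglyMeasurable).2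
      ((integrable_prod_iff m).2 ⟨Filter.Eventually.of_forall ig, iG.mono'
        m.norm.integral_prod_right' (Filter.Eventually.of_forall fun s => ?_)⟩)
    simp only [norm_pow, norm_norm]
    rw [Real.norm_of_nonneg (n s)]
    exact hG s
  refine ⟨o, ?_⟩
  rw [← real_inner_self_eq_norm_sq, inner_gv o o]
  simp only [real_inner_self_eq_norm_sq]
  exact integral_mono_of_nonneg (Filter.Eventually.of_forall n) iG (Filter.Eventually.of_forall hG)

theorem gv_mem (mg : Measurable g) {w : ℝ → ℝ} (hw : MemLp w 2) {C : ℝ}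
    (hg : ∀ p, ‖g p‖ ≤ |w p.1| * (C * (1 + ‖p.2‖))) : MemLp g 2 (gm d) := by
  refine (memLp_two_iff_integrable_sq_norm mg.aestronglyMeasurable).2
    ((hw.integrable_sq.mul_prod (int_one_sq.const_mul (C ^ 2))).mono'
    (by fun_prop : Measurable _).aestronglyMeasurable (Filter.Eventually.of_forall fun p => ?_))
  rw [norm_pow, norm_norm, ← mul_pow, ← sq_abs (w p.1), ← mul_pow]
  exact pow_le_pow_left₀ (norm_nonneg _) (hg p) 2

/-- plane waves -/
noncomputable def wf (w l : ℝ → ℝ) (x : E d) (p : ℝ × E d) : ℂ := w p.1 • ch (l p.1 * ⟪p.2, x⟫_ℝ)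

/-- gradients of plane waves -/
noncomputable def wg (w l : ℝ → ℝ) (x a : E d) (p : ℝ × E d) : ℂ :=
  (w p.1 * ⟪p.2, a⟫_ℝ) • ch (l p.1 * ⟪p.2, x⟫_ℝ + π / 2)

variable {w w' l : ℝ → ℝ}

theorem meas_wf (mw : Measurable w) (ml : Measurable l) (x : E d) : Measurable (wf w l x) := by
  unfold wf; fun_prop

theorem mem_wf (mw : Measurable w) (hw : MemLp w 2) (ml : Measurable l) (x : E d) :
    MemLp (wf w l x) 2 (gm d) :=
  gv_mem (meas_wf mw ml x) hw (C := 1) fun p => by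
    rw [wf, norm_smul, norm_ch, Real.norm_eq_abs]
    exact mul_le_mul_of_nonneg_left (by linarith [norm_nonneg p.2]) (abs_nonneg _)

theorem mem_wg (mw : Measurable w) (hw : MemLp w 2) (ml : Measurable l) (x a : E d) :
    MemLp (wg w l x a) 2 (gm d) :=
  gv_mem (by unfold wg; fun_prop) hw (C := ‖a‖) fun p => by
    rw [wg, norm_smul, norm_ch, Real.norm_eq_abs, mul_one, abs_mul]
    exact mul_le_mul_of_nonneg_left ((abs_real_inner_le_norm _ _).trans
      (by nlinarith [norm_nonneg a, norm_nonneg p.2])) (abs_nonneg _)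

theorem inner_ff (mw : Measurable w) (hw : MemLp w 2) (mw' : Measurable w') (hw' : MemLp w' 2)
    (ml : Measurable l) (x y : E d) :
    ⟪gv (wf w l x), gv (wf w' l y)⟫_ℝ = ∫ s, w s * w' s * kg (l s • (y - x)) := by
  rw [inner_gv (mem_wf mw hw ml x) (mem_wf mw' hw' ml y)]
  refine integral_congr_ae (Filter.Eventually.of_forall fun s => ?_)
  simp only [wf, real_inner_smul_left, real_inner_smul_right, inner_ch, ← int_cos, inner_sub_right,
    mul_sub (l s), integral_const_mul, mul_assoc, mul_left_comm (w' s)]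

theorem inner_fg (mw : Measurable w) (hw : MemLp w 2) (mw' : Measurable w') (hw' : MemLp w' 2)
    (ml : Measurable l) (z x b : E d) : ⟪gv (wf w l z), gv (wg w' l x b)⟫_ℝ
      = ∫ s, w s * w' s * (⟪b, l s • (z - x)⟫_ℝ * kg (l s • (z - x))) := by
  rw [inner_gv (mem_wf mw hw ml z) (mem_wg mw' hw' ml x b)]
  refine integral_congr_ae (Filter.Eventually.of_forall fun s => ?_)
  simp only [← int_sin, ← integral_const_mul]
  refine integral_congr_ae (Filter.Eventually.of_forall fun ξ => ?_)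
  simp only [wf, wg, real_inner_smul_left, real_inner_smul_right, inner_ch, inner_sub_right]
  rw [← cos_pi_div_two_sub]
  ring_nf

theorem inner_gg (mw : Measurable w) (hw : MemLp w 2) (mw' : Measurable w') (hw' : MemLp w' 2)
    (ml : Measurable l) (x y a b : E d) : ⟪gv (wg w l x a), gv (wg w' l y b)⟫_ℝ = ∫ s, w s * w' s *
      ((⟪a, b⟫_ℝ - ⟪a, l s • (x - y)⟫_ℝ * ⟪b, l s • (x - y)⟫_ℝ) * kg (l s • (x - y))) := by
  rw [inner_gv (mem_wg mw hw ml x a) (mem_wg mw' hw' ml y b)]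
  refine integral_congr_ae (Filter.Eventually.of_forall fun s => ?_)
  simp only [← int_cos2, ← integral_const_mul]
  refine integral_congr_ae (Filter.Eventually.of_forall fun ξ => ?_)
  simp only [wg, real_inner_smul_left, real_inner_smul_right, inner_ch, inner_sub_right]
  rw [← cos_neg]
  ring_nf

end Pool.Agent.Lib.MP_a0a493_pr
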