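import Pool.Agent.Lib.MP_a0a493_pr.Defs

/-! The two percolation thresholds. -/

namespace Pool.Agent.Lib.MP_a0a493_pr

open MeasureTheory

/-- A realisation of the field on a probability space together with a mollifier of integral one,
such that the mollified fields `φ_n` are continuous functions. -/
structure IsSetting {d : ℕ} {Ω : Type*} [MeasurableSpace Ω] (P : Measure Ω)
    (Φ : (EuclideanSpace ℝ (Fin d) → ℝ) → Ω → ℝ) (ρ : EuclideanSpace ℝ (Fin d) → ℝ) : Prop where
  prob : IsProbabilityMeasure P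
  lgf : IsLGF P Φ
  test : Test ρ
  int : ∫ x, ρ x = 1
  cont : ∀ᵐ ω ∂P, ∀ n, Continuous fun x => Φ (mol ρ n x) ω

/-- `α_c`: the supremum of the `α > 0` such that almost surely the set of `α`-thick points has a
connected component with more than one point. -/
noncomputable def alphaC {d : ℕ} {Ω : Type*} [MeasurableSpace Ω] (P : Measure Ω)
    (Φ : (EuclideanSpace ℝ (Fin d) → ℝ) → Ω → ℝ) (ρ : EuclideanSpace ℝ (Fin d) → ℝ) : ENNReal :=
  ⨆ (α : ℝ) (_ : 0 < α) (_ : ∀ᵐ ω ∂P, ∃ x ∈ thick Φ ρ α ω,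
    (connectedComponentIn (thick Φ ρ α ω) x).Nontrivial), ENNReal.ofReal α

/-- `α_{∞,c}`: the supremum of the `α > 0` such that almost surely the set of `α`-thick points has
an unbounded connected component. -/
noncomputable def alphaInf {d : ℕ} {Ω : Type*} [MeasurableSpace Ω] (P : Measure Ω)
    (Φ : (EuclideanSpace ℝ (Fin d) → ℝ) → Ω → ℝ) (ρ : EuclideanSpace ℝ (Fin d) → ℝ) : ENNReal :=
  ⨆ (α : ℝ) (_ : 0 < α) (_ : ∀ᵐ ω ∂P, ∃ x ∈ thick Φ ρ α ω,
    ¬ Bornology.IsBounded (connectedComponentIn (thick Φ ρ α ω) x)), ENNReal.ofReal α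

end Pool.Agent.Lib.MP_a0a493_pr
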