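import Pool.Agent.Lib.MP_a0a493_pr.SMain
import Pool.Agent.Lib.MP_a0a493_pr.SDefs
import Pool.Agent.Lib.MP_a0a493_pr.Final

/-! The two thresholds coincide and the transition is sharp. -/

namespace Pool.Agent.Lib.MP_a0a493_pr

open MeasureTheory ProbabilityTheory Set Filter Metric Topology

variable {d : ℕ} {Ω Ω' : Type*} [MeasurableSpace Ω] [MeasurableSpace Ω'] {P : Measure Ω}
  {P' : Measure Ω'} {Φ : (E d → ℝ) → Ω → ℝ} {Φ' : (E d → ℝ) → Ω' → ℝ} {ρ ρ' : E d → ℝ}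

theorem IsSetting.soft (hd : 2 ≤ d) (S : IsSetting P Φ ρ) (S' : IsSetting P' Φ' ρ') {α α' : ℝ}
    (hα : α' < α) (h : ¬ ∀ᵐ ω ∂P, IsTotallyDisconnected (thick Φ ρ α ω)) :
    ∀ᵐ ω ∂P', IsConnected (thick Φ' ρ' α' ω) ∧ Dense (thick Φ' ρ' α' ω) := by
  have := S.prob
  have := S'.prob
  exact (Pool.Agent.Lib.MP_a0a493_pr.soft hd S.lgf S.test S.int S.cont S'.lgf S'.test S'.int
    S'.cont hα h).mono fun ω hω => ⟨⟨hω.1.nonempty, hω.2⟩, hω.1⟩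

theorem unb_of (hd : 2 ≤ d) {T : Set (E d)} (h : IsConnected T ∧ Dense T) :
    ∃ x ∈ T, ¬ Bornology.IsBounded (connectedComponentIn T x) := by
  obtain ⟨x, hx⟩ := h.1.nonempty
  refine ⟨x, hx, fun hb => ?_⟩
  rw [h.1.isPreconnected.connectedComponentIn hx] at hb
  have : Nontrivial (E d) := Module.nontrivial_of_finrank_pos (R := ℝ) (by simp; omega)
  exact NormedSpace.unbounded_univ ℝ (E d) (h.2.closure_eq ▸ hb.closure)

theorem nontriv_of {T : Set (E d)} (h : ∃ x ∈ T, ¬ Bornology.IsBounded (connectedComponentIn T x)) :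
    ∃ x ∈ T, (connectedComponentIn T x).Nontrivial :=
  h.imp fun _ hx => ⟨hx.1, not_subsingleton_iff.1 fun hs => hx.2 hs.finite.isBounded⟩

theorem IsSetting.not_td (S : IsSetting P Φ ρ) {α : ℝ} (h : ∀ᵐ ω ∂P, ∃ x ∈ thick Φ ρ α ω,
    (connectedComponentIn (thick Φ ρ α ω) x).Nontrivial) :
    ¬ ∀ᵐ ω ∂P, IsTotallyDisconnected (thick Φ ρ α ω) := by
  have := S.prob
  intro h0
  obtain ⟨ω, ⟨x, -, hx⟩, h2⟩ := (h.and h0).exists
  exact hx.not_subsingleton (h2 _ (connectedComponentIn_subset _ _)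
    isPreconnected_connectedComponentIn)

theorem IsSetting.below (hd : 2 ≤ d) (S : IsSetting P Φ ρ) (S' : IsSetting P' Φ' ρ') {α : ℝ}
    (h : ENNReal.ofReal α < alphaC P Φ ρ) :
    ∀ᵐ ω ∂P', IsConnected (thick Φ' ρ' α ω) ∧ Dense (thick Φ' ρ' α ω) := by
  simp only [alphaC, lt_iSup_iff] at h
  obtain ⟨β, β0, h1, h2⟩ := h
  exact S.soft hd S' ((ENNReal.ofReal_lt_ofReal_iff β0).1 h2) (S.not_td h1)

theorem IsSetting.le_inf (hd : 2 ≤ d) (S : IsSetting P Φ ρ) (S' : IsSetting P' Φ' ρ') {α : ℝ}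
    (h : ¬ ∀ᵐ ω ∂P, IsTotallyDisconnected (thick Φ ρ α ω)) :
    ENNReal.ofReal α ≤ alphaInf P' Φ' ρ' := by
  refine le_of_forall_lt_imp_le_of_dense fun c hc => ?_
  rcases eq_or_ne c 0 with rfl | c0
  · exact zero_le
  have c1 := ne_top_of_lt hc
  rw [← ENNReal.ofReal_toReal c1] at hc ⊢
  have c2 := ENNReal.toReal_pos c0 c1
  exact le_iSup₂_of_le c.toReal c2 (le_iSup_of_le ((S.soft hd S'
    ((ENNReal.ofReal_lt_ofReal_iff_of_nonneg c2.le).1 hc) h).mono fun _ => unb_of hd) le_rfl)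

theorem inf_le_c : alphaInf P Φ ρ ≤ alphaC P Φ ρ :=
  iSup₂_le fun α α0 => iSup_le fun h => le_iSup₂_of_le α α0
    (le_iSup_of_le (h.mono fun _ => nontriv_of) le_rfl)

theorem IsSetting.c_le_inf (hd : 2 ≤ d) (S : IsSetting P Φ ρ) (S' : IsSetting P' Φ' ρ') :
    alphaC P Φ ρ ≤ alphaInf P' Φ' ρ' :=
  iSup₂_le fun _ _ => iSup_le fun h => S.le_inf hd S' (S.not_td h)

theorem IsSetting.above (hd : 2 ≤ d) (S : IsSetting P Φ ρ) {α : ℝ}
    (h : alphaC P Φ ρ < ENNReal.ofReal α) : ∀ᵐ ω ∂P, IsTotallyDisconnected (thick Φ ρ α ω) := by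
  by_contra h0
  exact h.not_ge ((S.le_inf hd S h0).trans inf_le_c)

theorem IsSetting.pos {Ω : Type} [MeasurableSpace Ω] {P : Measure Ω} {Φ : (E d → ℝ) → Ω → ℝ}
    (hd : 3 ≤ d) (S : IsSetting P Φ ρ) : 0 < alphaC P Φ ρ := by
  have := S.prob
  obtain ⟨α, α0, h⟩ := main hd
  exact (ENNReal.ofReal_pos.2 α0).trans_le (le_iSup₂_of_le α α0
    (le_iSup_of_le (h Ω P Φ S.lgf ρ S.test S.int S.cont) le_rfl))

end Pool.Agent.Lib.MP_a0a493_pr
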