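import Pool.Agent.Lib.MP_a0a493_pr.OutB
import Pool.Agent.Lib.MP_a0a493_pr.TfG
import Pool.Agent.Lib.MP_a0a493_pr.SThr

/-! The lower bound on the threshold in high dimension. -/

namespace Pool.Agent.Lib.MP_a0a493_pr

open MeasureTheory Real Finset Filter Topology
open scoped InnerProductSpace ENNReal

theorem var_low {ε T : ℝ} {M : ℕ} (e0 : 0 < ε) (e1 : ε < 1) (hT : 0 ≤ T) {s : ℕ → ℝ}
    (hs : ∀ i, s i = ε ^ 2 / 2 * (1 - ε) ^ i) (hΛ : exp T ^ 2 * s M = 2 / ε ^ 2) {i : ℕ}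
    (hi : i < M) : ε * (1 - ε) / √2 ≤
      √((ph (fkB T) s (i + 1) - ph (fkB T) s i) * (1 - ε)) * dl s i := by
  have q0 : 0 < 1 - ε := by linarith
  have an : ∀ {i j}, i ≤ j → s j ≤ s i := fun h => by
    rw [hs, hs]
    exact mul_le_mul_of_nonneg_left (pow_le_pow_of_le_one q0.le (by linarith) h) (by positivity)
  have s0 : ∀ i, 0 < s i := fun i => by rw [hs]; positivity
  have su : ∀ i, s (i + 1) = (1 - ε) * s i := fun i => by rw [hs, hs]; ring
  have up : ∀ i, 2 * s i * fkB T (2 * s i) ≤ 1 := fun i => by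
    rw [fkB_eq hT]
    linarith [exp_pos (-(exp T ^ 2 * (2 * s i)) / 2),
      exp_le_one_iff.2 (show -(2 * s i) / 2 ≤ 0 by linarith [s0 i])]
  have lo : 1 - ε ^ 2 ≤ 2 * s i * fkB T (2 * s i) := by
    have a1 := mul_le_mul_of_nonneg_left (an hi.le) (sq_nonneg (exp T))
    have a2 : exp (-(exp T ^ 2 * (2 * s i)) / 2) ≤ ε ^ 2 / 2 := by
      rw [← inv_div 2 (ε ^ 2), neg_div, exp_neg]
      exact inv_anti₀ (by positivity) (by linarith [add_one_le_exp (exp T ^ 2 * (2 * s i) / 2)])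
    have a3 := an i.zero_le
    rw [hs 0] at a3
    rw [fkB_eq hT]
    linarith [add_one_le_exp (-(2 * s i) / 2)]
  have a : ε * (1 - ε) ≤ 2 * s i * (ph (fkB T) s (i + 1) - ph (fkB T) s i) := by
    rcases i with _ | i
    · simp only [ph]; nlinarith
    · have := mul_le_mul_of_nonneg_left (up i) q0.le
      simp only [ph]
      rw [← mul_assoc, mul_left_comm, ← su] at this
      linarith
  rw [dl, su, ← sqrt_mul' _ (by nlinarith [s0 i]), div_le_iff₀ (by positivity),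
    ← sqrt_mul' _ two_pos.le]
  refine le_sqrt_of_sq_le ?_
  nlinarith [mul_le_mul_of_nonneg_left a (mul_pos e0 q0).le]

theorem ev_sqrt {δ : ℝ} (h : 0 < δ) (A B : ℝ) : ∀ᶠ M : ℕ in atTop, B + A * √M < δ * M := by
  have t := tendsto_sqrt_atTop.comp (tendsto_natCast_atTop_atTop (R := ℝ))
  filter_upwards [t.eventually_ge_atTop 1, t.eventually_gt_atTop ((|B| + A) / δ)] with j j1 j2
  simp only [Function.comp, div_lt_iff₀ h] at j1 j2
  have := mul_self_sqrt (Nat.cast_nonneg (α := ℝ) j)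
  nlinarith [le_abs_self B, mul_le_mul_of_nonneg_left j1 (abs_nonneg B)]

theorem Jn.ja {X D : Type*} [NormedAddCommGroup X] {e : D → X} {y : ℕ × D → ℝ} {β ε : ℝ} {a b : X}
    (h : Jn e y β a b ε) : y ∈ JA e β a b ε := by
  intro k
  obtain ⟨N, L, h⟩ := h
  refine ⟨N, L, fun m => ?_⟩
  obtain ⟨p, q, h1, h2, h3, h4⟩ := h m
  have key : ∀ {i}, St e y β N L m i → St e y (β - 1 / ((k : ℝ) + 1)) N L m i := fun h =>
    ⟨h.1, fun n n1 n2 => le_trans (mul_le_mul_of_nonneg_right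
      (sub_le_self _ (by positivity)) n.cast_nonneg) (h.2 n n1 n2)⟩
  exact ⟨p, q, h1, h2, key h3, Relation.ReflTransGen.mono
    (fun _ _ h => by exact ⟨key h.1, h.2⟩) p q h4⟩

theorem exists_dat {θ : ℝ} (h0 : 0 < θ) (h1 : θ < √2) : ∀ᶠ d : ℕ in atTop, ∃ D : Dat d (HG d),
    D.OK ∧ (D.F = fun k : ℕ => FB D.T (k * D.T)) ∧ ∃ (l c ε : ℝ) (T0 : ℕ),
      (∀ (Ω : Type) [MeasurableSpace Ω] (P : Measure Ω) [IsProbabilityMeasure P]
        (W : HG d →ₗ[ℝ] (Ω → ℝ)), Iso P W → ∀ k a b, ‖a - b‖ ≤ 3 * exp D.T / D.N →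
          P {ω | ¬ D.gd W k a b ω} ≤ ENNReal.ofReal (exp (-l))) ∧ 0 ≤ l ∧ D.N + 2 ≤ l * ε ∧
      D.T ≤ T0 * log 2 ∧ 4 * d * D.M + 4 * T0 + D.N + 4 ≤ c / 4 ∧ 0 ≤ ε ∧
      θ * √d * D.T < (1 - ε) * D.γ - √(c * (D.L + ε * D.T)) := by
  obtain ⟨ε, e2, e0, e1⟩ : ∃ ε : ℝ, θ < √2 * (1 - ε) ^ 4 ∧ 0 < ε ∧ ε < 1 / 2 := by
    have t : Tendsto (fun ε : ℝ => √2 * (1 - ε) ^ 4) (𝓝[>] 0) (𝓝 (√2 * (1 - 0) ^ 4)) :=
      (Continuous.tendsto (by fun_prop) _).mono_left nhdsWithin_le_nhds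
    exact ((t.eventually_const_lt (by simpa using h1)).and
      (Ioo_mem_nhdsGT (show (0 : ℝ) < 1 / 2 by norm_num))).exists
  have q0 : 0 < 1 - ε := by linarith
  have r2 : 0 < √2 := by positivity
  set g0 := ε * (1 - ε) / √2 with hg0
  have g1 : 0 < g0 := by positivity
  set L := 1 / ε ^ 2 + 50
  have δ0 : 0 < (1 - ε) * (g0 * (1 - ε)) - θ * (ε / (2 * (1 - ε))) := by
    rw [sub_pos, ← mul_div_assoc, div_lt_iff₀ (by positivity)]
    have : (1 - ε) * (g0 * (1 - ε)) * (2 * (1 - ε)) = √2 * (1 - ε) ^ 4 * ε := by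
      rw [hg0]; field_simp; rw [sq_sqrt two_pos.le]
    rw [this]
    exact mul_lt_mul_of_pos_right e2 e0
  obtain ⟨M, m1, M1⟩ := ((ev_sqrt δ0 (5 * √(L + 1)) (θ * (log (4 / ε ^ 4) / 2) + 1)).and
    (eventually_ge_atTop 1)).exists
  let s : ℕ → ℝ := fun i => ε ^ 2 / 2 * (1 - ε) ^ i
  have s0 : ∀ i, 0 < s i := fun i => by positivity
  have an : Antitone s := fun i j h =>
    mul_le_mul_of_nonneg_left (pow_le_pow_of_le_one q0.le (by linarith) h) (by positivity)
  have s1 : s 0 ≤ 1 / 8 := by simp only [s, pow_zero]; nlinarith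
  set T := log (2 / ε ^ 2 / s M) / 2 with hT
  have hΛ : exp T ^ 2 * s M = 2 / ε ^ 2 := by
    rw [← exp_nat_mul, hT, Nat.cast_ofNat, mul_div_cancel₀ _ two_ne_zero, exp_log (by positivity),
      div_mul_cancel₀ _ (s0 M).ne']
  have T1 : 1 ≤ T := by
    refine exp_le_exp.1 (exp_one_lt_three.le.trans (abs_le_of_sq_le_sq' ?_ (exp_pos _).le).2)
    have a1 : 8 ≤ 2 / ε ^ 2 := by rw [le_div_iff₀ (by positivity)]; nlinarith
    nlinarith [mul_le_mul_of_nonneg_left ((an M.zero_le).trans s1) (sq_nonneg (exp T))]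
  have T2 : T ≤ log (4 / ε ^ 4) / 2 + ε / (2 * (1 - ε)) * M := by
    have a1 : 2 / ε ^ 2 / s M = 4 / ε ^ 4 * (1 - ε)⁻¹ ^ M := by
      simp only [s, inv_pow]; field_simp; norm_num
    have a2 := log_le_sub_one_of_pos (inv_pos.2 q0)
    have a3 : (1 - ε)⁻¹ - 1 = ε / (2 * (1 - ε)) * 2 := by field_simp; ring
    rw [hT, a1, log_mul (by positivity) (by positivity), log_pow]
    nlinarith [Nat.cast_nonneg (α := ℝ) M]
  have T0 : 0 < T := by linarith
  set K := 2 * (T + 1) * exp T ^ 2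
  set A := (3 + 18 * K * √(24 * M) / g0) ^ M
  have A1 : 1 ≤ A := one_le_pow₀ (le_add_of_le_of_nonneg (by norm_num) (by positivity))
  set η := exp (-T) / (2 * A)
  have η0 : 0 < η := by positivity
  have η1 : η ≤ 1 := (div_le_one (by positivity)).2
    ((exp_le_one_iff.2 (by linarith)).trans (by linarith))
  set ν := min η (ε * √(ε * s M))
  have ν0 : 0 < ν := lt_min η0 (by have := s0 M; positivity)
  obtain ⟨N, hN⟩ := exists_nat_ge (3 * exp T / η)
  have N1 : 3 * exp T ≤ N := le_trans (le_div_self (by positivity) η0 η1) hN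
  have N0 : (0 : ℝ) < N := lt_of_lt_of_le (by positivity) N1
  have g2 : 1 ≤ M * (g0 * (1 - ε)) := by
    have a1 : 0 ≤ log (4 / ε ^ 4) := log_nonneg ((one_le_div (by positivity)).2
      ((pow_le_one₀ e0.le (by linarith)).trans (by norm_num)))
    have : 0 ≤ θ * (log (4 / ε ^ 4) / 2) + 5 * √(L + 1) * √M + θ * (ε / (2 * (1 - ε))) * M
      + ε * (M * (g0 * (1 - ε))) := by positivity
    linarith
  have t : Tendsto (fun d : ℕ => M * exp (M - ε ^ 2 / 8 * d) + exp (-(d / (2 * T))) + exp (-d))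
      atTop (𝓝 (M * 0 + 0 + 0)) := by
    have t0 := tendsto_natCast_atTop_atTop (R := ℝ)
    exact (((tendsto_exp_atBot.comp (tendsto_atBot_add_const_left _ _ (tendsto_neg_atTop_atBot.comp
      (t0.const_mul_atTop (by positivity))))).const_mul _).add (tendsto_exp_atBot.comp
      (tendsto_neg_atTop_atBot.comp (t0.atTop_div_const (by positivity))))).add
      (tendsto_exp_atBot.comp (tendsto_neg_atTop_atBot.comp t0))
  filter_upwards [t.eventually_le_const (show _ < exp (-((N + 2) / (ε / T))) by simpa using exp_pos _),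
    eventually_ge_atTop M, eventually_ge_atTop (4 * ⌈T / log 2⌉₊ + N + 4)] with d d1 d2 d3
  have d0 : 0 < d := by omega
  have B := fun c => blk_B (d := d) T0.le c
  refine ⟨⟨T, ν, (M * (g0 * (1 - ε)) - 1) * √d, L, M, N, s, EuclideanSpace.single ⟨0, d0⟩ 1,
    fun k => FB T (k * T), fun k => GB T (k * T), fun k => NB d T (k * T)⟩,
    ⟨T1, an, fun i => (s0 i).le, s1.trans (by norm_num), ν0, d2, N1,
      mul_nonneg (by linarith) (sqrt_nonneg _), by positivity, by simp, fun _ => FB_mem,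
      fun _ => GB_mem, fun i j h => NB_orth ?_, fun k => (B _).nF 0 le_rfl, fun k z x h => ?_⟩,
    rfl, (N + 2) / (ε / T), 25 * d * M, ε / T, ⌈T / log 2⌉₊, fun Ω _ P _ W hW k a b hab => ?_,
    by positivity, (div_mul_cancel₀ _ (by positivity)).ge,
    (div_le_iff₀ (log_pos one_lt_two)).1 (Nat.le_ceil _), ?_, by positivity, ?_⟩
  · have : (i : ℝ) + 1 ≤ j := by exact_mod_cast h
    nlinarith
  · refine (dif_B T0.le (s0 M).le z x).trans ?_
    have a1 := mul_le_mul_of_nonneg_left (pow_le_pow_left₀ (norm_nonneg _) h 2) (sq_nonneg (exp T))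
    rw [← mul_pow (exp T) (10 * _), mul_left_comm, ← exp_add, add_neg_cancel, exp_zero] at a1
    have a2 : 2 / ε ^ 2 = 2 * (1 / ε ^ 2) := by ring
    simp only [L]
    linarith
  · refine ((B (k * T)).good hW an (fun i => (s0 i).le) (s1.trans (by norm_num)) T0 (by positivity)
      ν0 ((min_le_left _ _).trans η1) d2 M1 e0 (by linarith) g1 (η := η) (fun i hi => ?_) ?_
      (hab.trans ?_)).trans (ENNReal.ofReal_le_ofReal d1)
    · have a1 := var_low e0 (by linarith) T0.le (s := s) (fun _ => rfl) hΛ hi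
      have a2 : dl s i = √(ε * s i) := by rw [dl]; congr 1; simp only [s]; ring
      have a3 : dl s i ≤ 1 := by
        rw [a2]; exact sqrt_le_one.2 (by nlinarith [an i.zero_le, s0 i])
      have a4 : ν ≤ ε * dl s i := (min_le_right _ _).trans (by
        rw [a2]; gcongr; exact an hi.le)
      have a5 : 0 ≤ dl s i := sqrt_nonneg _
      have a6 := sqrt_nonneg ((ph (fkB T) s (i + 1) - ph (fkB T) s i) * (1 - ε))
      exact ⟨a1.trans (mul_le_of_le_one_right a6 a3), by nlinarith,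
        by nlinarith [mul_le_mul_of_nonneg_left a4 a6, mul_le_mul_of_nonneg_right a1 q0.le]⟩
    · refine (mul_le_mul_of_nonneg_right (add_le_add le_rfl (min_le_left _ _))
        (by positivity)).trans_eq ?_
      show (η + η) * A = exp (-T)
      simp only [η]
      field_simp
      ring
    · rw [div_le_iff₀ N0, mul_comm η]
      exact (div_le_iff₀ η0).1 hN
  · have a1 : ((4 * ⌈T / log 2⌉₊ + N + 4 : ℕ) : ℝ) ≤ d := by exact_mod_cast d3
    have a2 : (1 : ℝ) ≤ M := by exact_mod_cast M1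
    push_cast at a1 ⊢
    nlinarith [mul_le_mul_of_nonneg_left a2 (Nat.cast_nonneg (α := ℝ) d)]
  · show θ * √d * T < (1 - ε / T) * ((M * (g0 * (1 - ε)) - 1) * √d) - √(25 * d * M * (L + ε / T * T))
    have L0 : 0 < L := by positivity
    have a2 : 0 < √d := sqrt_pos.2 (by exact_mod_cast d0)
    have a3 : ε / T ≤ ε := div_le_self e0.le T1
    have a5 := mul_le_mul_of_nonneg_left T2 h0.le
    have a6 := mul_le_mul_of_nonneg_left a3 (sub_nonneg.2 g2)
    have a4 : θ * T + 5 * √(L + 1) * √M < (1 - ε / T) * (M * (g0 * (1 - ε)) - 1) := by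
      linarith
    have a1 : √(25 * d * M * (L + ε / T * T)) ≤ 5 * √(L + 1) * √M * √d := by
      refine sqrt_le_iff.2 ⟨by positivity, ?_⟩
      rw [div_mul_cancel₀ _ T0.ne', mul_pow, mul_pow, mul_pow, sq_sqrt (by positivity),
        sq_sqrt (by positivity), sq_sqrt (by positivity)]
      linarith [mul_le_mul_of_nonneg_left (show ε ≤ 1 by linarith)
        (mul_nonneg (Nat.cast_nonneg (α := ℝ) d) (Nat.cast_nonneg (α := ℝ) M))]
    linarith [mul_lt_mul_of_pos_right a4 a2]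

theorem lower {θ : ℝ} (h0 : 0 < θ) (h1 : θ < √2) : ∀ᶠ d : ℕ in atTop, ∀ (Ω : Type)
    [MeasurableSpace Ω] (P : Measure Ω) (Φ : (E d → ℝ) → Ω → ℝ) (ρ : E d → ℝ),
    IsSetting P Φ ρ → ENNReal.ofReal (θ * √d) ≤ alphaInf P Φ ρ := by
  filter_upwards [exists_dat h0 h1, eventually_ge_atTop 2] with d hD hd Ω _ P Φ ρ S
  obtain ⟨D, h, hF, l, c, ε, T0, a1, a2, a3, a4, a5, a6, a7⟩ := hD
  obtain ⟨Ω0, _, P0, _, W, hW⟩ := exists_iso (HG d)
  have := S.prob
  have l2 := log_pos one_lt_two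
  have T1 : 0 < D.T := by linarith [h.hT]
  obtain ⟨β, b1, b2⟩ := exists_between ((lt_div_iff₀ T1).2
    (show θ * √d * log 2 * D.T < _ * log 2 by rw [mul_right_comm]; exact mul_lt_mul_of_pos_right a7 l2))
  obtain ⟨b, R, hn⟩ := S.test.nice
  obtain ⟨C, C0, hC⟩ := vG_inc hd S.test (4 * exp D.T ^ 2)
  obtain ⟨X, x1, x2⟩ := h.jn hW (a1 _ P0 W hW) a2 a3 a4 a5 (v := vG ρ) a6
    (C := C + (√(4 * (b ^ 2 * KG d (R + 11 * exp D.T))) + √D.T)) (by positivity)
    (fun n j x j1 j2 hx => by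
      simp only [hF]
      rw [← EG_sum T1.le, ← norm_neg, neg_sub, ← add_sub_cancel_left
        (EG (-(n * log 2)) (-(j * D.T)) x) (EG _ _ _), EG_add (by linarith)
        (neg_nonpos.2 (by positivity)), sub_right_comm]
      refine (norm_sub_le _ _).trans (le_add_of_nonneg_of_le C0 (add_le_add
        (le_sqrt_of_sq_le (vG_var (by omega) S.test S.int hn n hx)) (le_sqrt_of_sq_le ?_)))
      rw [norm_EG (by linarith)]
      linarith)
    (fun n x y hxy => (hC n x y hxy).trans (mul_le_mul_of_nonneg_right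
      (le_add_of_nonneg_right (by positivity)) (by positivity)))
    (le_trans (by positivity) b1.le) ((lt_div_iff₀ T1).1 b2)
  have := x1.to_subtype
  have x3 := ae_transfer (X := fun t : ℕ × X => W (vG ρ t.1 t.2)) (v := fun t => vG ρ t.1 t.2)
    (X' := fun (t : ℕ × X) ω => fld Φ ρ ω t.1 t.2)
    (v' := fun t => vec (Af (dm ρ t.1 t.2))) (fun _ => hW.gf _)
    (fun _ => S.lgf.gf hd (fun _ => test_dm S.test _ _) (fun _ => int_dm S.test _ _) fun _ =>
      (S.lgf.lin _ _ (test_mol S.test _ _) (test_mol S.test 0 0) 1 (-1)).mono fun ω hω => by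
        rw [dm, hω]; simp only [fld]; ring)
    (fun _ _ => innerG hd (test_dm S.test _ _) (test_dm S.test _ _) (int_dm S.test _ _)
      (int_dm S.test _ _)) (meas_JA _ β 0 _ 2) (x2.mono fun ω hω => hω.ja)
  refine S.le_inf hd S fun htd => ?_
  obtain ⟨ω, o1, o2, o3⟩ := (x3.and (htd.and S.cont)).exists
  obtain ⟨k, hk⟩ := exists_nat_one_div_lt (sub_pos.2 b1)
  obtain ⟨N, K, k1, k2, ⟨x, hx, k3⟩, y, hy, k4⟩ :=
    Jn_join (φ := fld Φ ρ ω) (fun n => (o3 n).sub continuous_const) (o1 k)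
  have e := o2 K (fun z hz => mem_thick (by linarith) (k2 z hz)) k1 hx hy
  have := dist_triangle_left 0 ((3 * exp D.T) • D.e) x
  rw [dist_zero_left, norm_smul, h.he, Real.norm_of_nonneg (by positivity)] at this
  subst e
  linarith [add_one_le_exp D.T, h.hT]

end Pool.Agent.Lib.MP_a0a493_pr
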