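import Pool.Agent.Lib.MP_a0a493_pr.Defs
import Pool.Agent.Lib.MP_a0a493_pr.Energy
import Pool.Agent.Lib.MP_a0a493_pr.Field

/-! The mollified field as a Gaussian family and its comparison with the layers. -/

namespace Pool.Agent.Lib.MP_a0a493_pr

open MeasureTheory ProbabilityTheory Real Set Filter Metric
open scoped InnerProductSpace

variable {d : ℕ} {f g ρ : E d → ℝ}

theorem Test.nice (h : Test f) : ∃ B R, Nice f 0 B R := by
  obtain ⟨B, hB⟩ := h.2.exists_bound_of_continuous h.1.continuous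
  obtain ⟨R, R0, hR⟩ := h.2.isCompact.isBounded.exists_pos_norm_lt
  exact ⟨B, R, h.1.continuous.measurable, hB, fun y hy => by
    rw [dist_zero_left]; exact hR y (subset_tsupport _ hy), R0⟩

theorem Test.int (h : Test f) : Integrable f := h.nice.choose_spec.choose_spec.int

theorem Test.ok (hd : 1 ≤ d) (h : Test f) (h0 : ∫ x, f x = 0) : Ok (Af f) :=
  h.nice.choose_spec.choose_spec.ok hd h0

theorem Test.comb (h : Test f) (h' : Test g) (a b : ℝ) : Test (a • f + b • g) :=
  ⟨(h.1.const_smul a).add (h'.1.const_smul b), h.2.smul_left.add h'.2.smul_left⟩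

theorem test_zero : Test (0 : E d → ℝ) := ⟨contDiff_const, HasCompactSupport.zero⟩

theorem Af_comb (h : Integrable f) (h' : Integrable g) (a b : ℝ) :
    Af (a • f + b • g) = fun p => a * Af f p + b * Af g p := by
  funext p
  simp only [Af, Pi.add_apply, Pi.smul_apply, smul_eq_mul, add_mul, mul_assoc]
  rw [integral_add ((int_mul_bi h _ _).const_mul a) ((int_mul_bi h' _ _).const_mul b),
    integral_const_mul, integral_const_mul]

theorem int_comb (h : Integrable f) (h' : Integrable g) (a b : ℝ) :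
    ∫ x, (a • f + b • g) x = a * (∫ x, f x) + b * ∫ x, g x := by
  simp only [Pi.add_apply, Pi.smul_apply, smul_eq_mul]
  rw [integral_add (h.const_mul a) (h'.const_mul b), integral_const_mul, integral_const_mul]

theorem IsLGF.gf {Ω : Type*} [MeasurableSpace Ω] {P : Measure Ω} {Φ : (E d → ℝ) → Ω → ℝ}
    (hΦ : IsLGF P Φ) (hd : 2 ≤ d) {J : Type*} [Fintype J] {f : J → E d → ℝ} (hf : ∀ j, Test (f j))
    (h0 : ∀ j, ∫ x, f j x = 0) {X : J → Ω → ℝ} (hX : ∀ j, X j =ᵐ[P] Φ (f j)) :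
    GF P X fun j => vec (Af (f j)) := by
  classical
  have hd1 : 1 ≤ d := by omega
  refine ⟨fun j => (hΦ.law _ (hf j) (h0 j)).aemeasurable.congr (hX j).symm, fun c => ?_⟩
  have key : ∀ s : Finset J, ∃ g, Test g ∧ ∫ x, g x = 0 ∧
      (∀ᵐ ω ∂P, Φ g ω = ∑ j ∈ s, c j * X j ω) ∧ vec (Af g) = ∑ j ∈ s, c j • vec (Af (f j)) := by
    intro s
    induction s using Finset.induction_on with
    | empty =>
      refine ⟨0, test_zero, by simp, ?_, ?_⟩
      · simpa using hΦ.lin 0 0 test_zero test_zero 0 0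
      · rw [show Af (0 : E d → ℝ) = fun _ => 0 from funext fun p => by simp [Af], vec_zero]
        rfl
    | insert a s ha ih =>
      obtain ⟨g, h1, h2, h3, h4⟩ := ih
      refine ⟨c a • f a + (1 : ℝ) • g, (hf a).comb h1 _ _, ?_, ?_, ?_⟩
      · rw [int_comb (hf a).int h1.int, h0, h2]; simp
      · filter_upwards [hΦ.lin _ _ (hf a) h1 (c a) 1, h3, hX a] with ω e1 e2 e3
        rw [e1, e2, Finset.sum_insert ha, e3, one_mul]
      · rw [Af_comb (hf a).int h1.int, vec_add (((hf a).ok hd1 (h0 a)).smul _)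
          ((h1.ok hd1 h2).smul _), vec_smul ((hf a).ok hd1 (h0 a)), vec_smul (h1.ok hd1 h2),
          Finset.sum_insert ha, h4, one_smul]
  obtain ⟨g, h1, h2, h3, h4⟩ := key Finset.univ
  have e := (hΦ.law g h1 h2).integral_comp (f := fun x => ch (1 * x))
    (continuous_ch.comp (by fun_prop)).aestronglyMeasurable
  rw [integral_ch_gauss, ← energy hd h1.nice.choose_spec.choose_spec h2,
    Real.coe_toNNReal _ (sq_nonneg _), one_pow, one_mul] at e
  rw [← h4, ← e]
  exact integral_congr_ae (h3.mono fun ω hω => by simp [hω])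

theorem mol_eq (ρ : E d → ℝ) (n : ℕ) (x u : E d) : mol ρ n x u =
    exp (-(-(n * log 2))) ^ d * ρ (exp (-(-(n * log 2))) • (x - u)) := by
  rw [neg_neg, exp_jlog, mol, pow_mul]

theorem nice_mol {b R δ : ℝ} (h : Nice ρ 0 b R) (n : ℕ) {x z : E d}
    (hx : dist z x ≤ δ * exp (-(n * log 2))) :
    Nice (mol ρ n x) z (b * exp (-(-(n * log 2))) ^ d) ((R + δ) * exp (-(n * log 2))) := by
  have hm := h.meas
  have e0 := exp_pos (-(n * log 2))
  have hδ : 0 ≤ δ * exp (-(n * log 2)) := dist_nonneg.trans hx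
  refine ⟨by unfold mol; fun_prop, fun u => ?_, fun u hu => ?_, by nlinarith [mul_pos h.pos e0]⟩
  · rw [mol_eq, abs_mul, abs_of_pos (by positivity), mul_comm]
    exact mul_le_mul_of_nonneg_right (h.bd _) (by positivity)
  · have a := h.sup _ (right_ne_zero_of_mul (mol_eq ρ n x u ▸ hu))
    rw [dist_zero_left, norm_smul, Real.norm_of_nonneg (exp_pos _).le, exp_neg,
      inv_mul_lt_iff₀ e0, ← dist_eq_norm] at a
    linarith [dist_triangle z x u]

theorem test_mol (h : Test ρ) (n : ℕ) (x : E d) : Test (mol ρ n x) := by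
  obtain ⟨b, R, hn⟩ := h.nice
  have a := nice_mol hn n (x := x) (z := x) (δ := 0) (by simp)
  refine ⟨contDiff_const.mul (h.1.comp (by fun_prop)), .intro (isCompact_closedBall x _)
    fun u hu => not_not.1 fun h1 => hu (mem_closedBall'.2 (a.sup u h1).le)⟩

theorem int_mol (ρ : E d → ℝ) (n : ℕ) (x : E d) : ∫ u, mol ρ n x u = ∫ u, ρ u := by
  unfold mol
  rw [integral_const_mul, integral_sub_left_eq_self (fun u : E d => ρ ((2 : ℝ) ^ n • u)) volume x,
    Measure.integral_comp_smul, finrank_euclideanSpace_fin, abs_of_pos (by positivity), ← pow_mul,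
    smul_eq_mul, ← mul_assoc, mul_inv_cancel₀ (by positivity), one_mul]

/-- the test function for the mollified field minus its value at the origin at scale one -/
noncomputable def dm (ρ : E d → ℝ) (n : ℕ) (x : E d) : E d → ℝ :=
  (1 : ℝ) • mol ρ n x + (-1 : ℝ) • mol ρ 0 0

theorem test_dm (h : Test ρ) (n : ℕ) (x : E d) : Test (dm ρ n x) :=
  (test_mol h n x).comb (test_mol h 0 0) _ _

theorem int_dm (h : Test ρ) (n : ℕ) (x : E d) : ∫ u, dm ρ n x u = 0 := by
  rw [dm, int_comb (test_mol h n x).int (test_mol h 0 0).int, int_mol, int_mol]; ring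

theorem sq_sub_le {H : Type*} [NormedAddCommGroup H] (u v : H) :
    ‖u - v‖ ^ 2 ≤ 2 * ‖u‖ ^ 2 + 2 * ‖v‖ ^ 2 := by
  have := pow_le_pow_left₀ (norm_nonneg _) (norm_sub_le u v) 2
  nlinarith [sq_nonneg (‖u‖ - ‖v‖)]

theorem dm_var (hd : 1 ≤ d) (h : Test ρ) (h1 : ∫ x, ρ x = 1) {b R δ : ℝ} (hn : Nice ρ 0 b R) (n : ℕ)
    {x z : E d} (hx : dist z x ≤ δ * exp (-(n * log 2))) (hz : ‖z‖ ≤ δ) :
    ‖Ev (-(n * log 2)) 0 z - vec (Af (dm ρ n x))‖ ^ 2 ≤ 4 * (b ^ 2 * Kc d (R + δ)) := by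
  have n1 := nice_mol hn n hx
  have n2 := nice_mol hn 0 (x := 0) (z := z) (δ := δ) (by simpa using hz)
  have e : Ev (-(n * log 2)) 0 z - vec (Af (dm ρ n x)) =
      vec (Dv (mol ρ 0 0) z (-((0 : ℕ) * log 2))) - vec (Dv (mol ρ n x) z (-(n * log 2))) := by
    rw [Ev, ← vec_sub (ok_ev _ _ _) ((test_dm h n x).ok hd (int_dm h n x)),
      ← vec_sub (norm_Dv hd n2 _).1 (norm_Dv hd n1 _).1]
    congr 1
    funext p
    have := jlog n
    rw [dm, Af_comb (test_mol h n x).int (test_mol h 0 0).int, Dv, Dv, int_mol, int_mol, h1, ev,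
      Nat.cast_zero, zero_mul, neg_zero]
    by_cases a : -(n * log 2) < p.1 <;> by_cases c : 0 < p.1 <;> simp [a, c, ← not_lt] <;> linarith
  rw [e]
  linarith [sq_sub_le (vec (Dv (mol ρ 0 0) z (-((0 : ℕ) * log 2))))
    (vec (Dv (mol ρ n x) z (-(n * log 2)))), norm_Dv' hd n1, norm_Dv' hd n2]

theorem dm_inc (hd : 1 ≤ d) (h : Test ρ) {b R δ : ℝ} {L : NNReal} (hn : Nice ρ 0 b R)
    (hL : LipschitzWith L ρ) (n : ℕ) {x y z : E d} (hx : dist z x ≤ δ * exp (-(n * log 2)))
    (hy : dist z y ≤ δ * exp (-(n * log 2))) :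
    ‖vec (Af (dm ρ n x)) - vec (Af (dm ρ n y))‖ ^ 2 ≤
      (L * (2 ^ n * dist x y)) ^ 2 * Kc d (R + δ) := by
  have n1 := nice_mol hn n hx
  have n2 := nice_mol hn n hy
  have n3 : Nice ((1 : ℝ) • mol ρ n x + (-1 : ℝ) • mol ρ n y) z
      (L * (2 ^ n * dist x y) * exp (-(-(n * log 2))) ^ d) ((R + δ) * exp (-(n * log 2))) := by
    refine ⟨(n1.meas.const_smul _).add (n2.meas.const_smul _), fun u => ?_, fun u hu => ?_, n1.pos⟩
    · have a := hL.dist_le_mul (exp (-(-(n * log 2))) • (x - u)) (exp (-(-(n * log 2))) • (y - u))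
      rw [dist_smul₀, dist_sub_right, Real.norm_of_nonneg (exp_pos _).le, Real.dist_eq] at a
      simp only [Pi.add_apply, Pi.smul_apply, smul_eq_mul, one_mul, neg_one_mul, mol_eq,
        ← sub_eq_add_neg, ← mul_sub]
      rw [abs_mul, abs_of_pos (by positivity), mul_comm]
      refine mul_le_mul_of_nonneg_right (a.trans (le_of_eq ?_)) (by positivity)
      rw [neg_neg, exp_jlog]
    · by_cases a : mol ρ n x u = 0
      · exact n2.sup u fun c => hu (by simp [a, c])
      · exact n1.sup u a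
  refine le_trans (le_of_eq ?_) (norm_Dv' hd n3)
  rw [← vec_sub ((test_dm h n x).ok hd (int_dm h n x)) ((test_dm h n y).ok hd (int_dm h n y)),
    Dv_eq (by rw [int_comb n1.int n2.int, int_mol, int_mol]; ring), Af_comb n1.int n2.int, dm, dm,
    Af_comb n1.int (test_mol h 0 0).int, Af_comb n2.int (test_mol h 0 0).int]
  congr 3
  funext p
  ring

end Pool.Agent.Lib.MP_a0a493_pr
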