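import Pool.Agent.Lib.MP_a0a493_pr.BlkC
import Pool.Agent.Lib.MP_a0a493_pr.Field

/-! The multiscale curve: definitions and deterministic estimates. -/

namespace Pool.Agent.Lib.MP_a0a493_pr

open MeasureTheory Real Finset
open scoped InnerProductSpace

/-- the data of the construction -/
structure Dat (d : ℕ) (H : Type*) [NormedAddCommGroup H] [InnerProductSpace ℝ H] where
  T : ℝ
  ν : ℝ
  γ : ℝ
  L : ℝ
  M : ℕ
  N : ℕ
  s : ℕ → ℝ
  e : E d
  F : ℕ → ℝ → E d → H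
  G : ℕ → ℝ → E d → E d →ₗ[ℝ] H
  V : ℕ → Submodule ℝ H

variable {Ω H : Type*} [NormedAddCommGroup H] [InnerProductSpace ℝ H] {d : ℕ}

namespace Dat

variable (D : Dat d H) (W : H →ₗ[ℝ] (Ω → ℝ))

/-- standing assumptions -/
structure OK : Prop where
  hT : 1 ≤ D.T
  anti : Antitone D.s
  s0 : ∀ i, 0 ≤ D.s i
  s1 : D.s 0 ≤ 1
  hν : 0 < D.ν
  hM : D.M ≤ d
  hN : 3 * exp D.T ≤ D.N
  hγ : 0 ≤ D.γ
  hL : 0 ≤ D.L
  he : ‖D.e‖ = 1
  mF : ∀ k r x, D.F k r x ∈ D.V k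
  mG : ∀ k r x c, D.G k r x c ∈ D.V k
  orth : ∀ i j, i < j → D.V i ⟂ D.V j
  nF : ∀ k x, ‖D.F k 0 x‖ ^ 2 ≤ D.T
  dif : ∀ k z x, ‖z - x‖ ≤ 10 * exp (-D.T) → ‖D.F k 0 z - D.F k (D.s D.M) x‖ ^ 2 ≤ D.L

/-- the optimisation in block `k` -/
noncomputable def ps (k : ℕ) (a : E d) (ω : Ω) : E d := Psi W (D.G k) D.s D.ν D.M a ω

/-- rescaled subdivision points -/
noncomputable def sb (k : ℕ) (a b : E d) (i : ℕ) : E d :=
  exp (k * D.T) • (a + ((i : ℝ) / D.N) • (b - a))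

/-- vertices -/
noncomputable def q : ℕ → ℕ → Ω → E d
  | 0, m, _ => (m * (3 * exp D.T)) • D.e
  | k + 1, m, ω => exp (-(k * D.T)) •
      D.ps W k (D.sb k (q k (m / D.N) ω) (q k (m / D.N + 1) ω) (m % D.N)) ω

/-- starting points -/
noncomputable def sa (k m : ℕ) (ω : Ω) (i : ℕ) : E d :=
  D.sb k (D.q W k (m / D.N) ω) (D.q W k (m / D.N + 1) ω) (m % D.N + i)

/-- the good event of a block -/
def gd (k : ℕ) (a b : E d) (ω : Ω) : Prop :=
  ‖D.ps W k a ω - D.ps W k b ω‖ ≤ exp (-D.T) ∧ D.γ ≤ W (D.F k (D.s D.M) (D.ps W k a ω)) ω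

open Classical in
/-- number of bad blocks -/
noncomputable def nb : ℕ → ℕ → Ω → ℕ
  | 0, _, _ => 0
  | k + 1, m, ω => nb k (m / D.N) ω + if D.gd W k (D.sa W k m ω 0) (D.sa W k m ω 1) ω then 0 else 1

open Classical in
/-- accumulated gains -/
noncomputable def gv : ℕ → ℕ → Ω → H
  | 0, _, _ => 0
  | k + 1, m, ω => gv k (m / D.N) ω + if D.gd W k (D.sa W k m ω 0) (D.sa W k m ω 1) ω then
      D.F k (D.s D.M) (D.ps W k (D.sa W k m ω 0) ω) else 0

/-- parent vertex -/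
noncomputable def pa : ℕ → ℕ → Ω → E d
  | 0, _, _ => 0
  | k + 1, m, ω => D.q W k (m / D.N) ω

/-- earlier blocks -/
noncomputable def VL (k : ℕ) : Submodule ℝ H := ⨆ i : Set.Iio k, D.V i

/-- radii -/
noncomputable def r (k : ℕ) : ℝ := exp (D.T - k * D.T)

variable {D W} {ω : Ω}

theorem r_pos (k : ℕ) : 0 < D.r k := exp_pos _

theorem r_succ (k : ℕ) : D.r (k + 1) = exp (-(k * D.T)) := by
  rw [r]; push_cast; ring_nf

theorem r_succ' (k : ℕ) : D.r (k + 1) = exp (-D.T) * D.r k := by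
  rw [r, r, ← exp_add]; push_cast; ring_nf

theorem OK.half (h : D.OK) : exp (-D.T) ≤ 1 / 2 := by
  rw [exp_neg, one_div]
  exact inv_anti₀ two_pos (by linarith [add_one_le_exp D.T, h.hT])

theorem OK.r_half (h : D.OK) (k : ℕ) : D.r (k + 1) ≤ D.r k / 2 := by
  rw [r_succ']; nlinarith [h.half, r_pos (D := D) k]

theorem OK.N_pos (h : D.OK) : 0 < D.N := by
  have := h.hN
  exact_mod_cast (show (0 : ℝ) < D.N by linarith [exp_pos D.T])

theorem VL_le (k : ℕ) : D.VL k ≤ D.VL (k + 1) :=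
  iSup_le fun i => le_iSup (fun i : Set.Iio (k + 1) => D.V i) ⟨i, i.2.trans k.lt_succ_self⟩

theorem V_le (k : ℕ) : D.V k ≤ D.VL (k + 1) :=
  le_iSup (fun i : Set.Iio (k + 1) => D.V i) ⟨k, k.lt_succ_self⟩

theorem OK.VL_orth (h : D.OK) (k : ℕ) : D.VL k ⟂ D.V k :=
  Submodule.isOrtho_iSup_left.2 fun i => h.orth _ _ i.2

theorem q_succ (k m : ℕ) :
    D.q W (k + 1) m ω = exp (-(k * D.T)) • D.ps W k (D.sa W k m ω 0) ω := rfl

theorem OK.q_succ' (h : D.OK) (k m : ℕ) :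
    D.q W (k + 1) (m + 1) ω = exp (-(k * D.T)) • D.ps W k (D.sa W k m ω 1) ω := by
  have a1 := Nat.div_add_mod m D.N
  have a2 := Nat.div_add_mod (m + 1) D.N
  have N0 : (D.N : ℝ) ≠ 0 := Nat.cast_ne_zero.2 h.N_pos.ne'
  rw [q, sa]
  by_cases c : D.N ∣ m + 1
  · rw [Nat.succ_div_of_dvd c, Nat.mod_eq_zero_of_dvd c] at a2 ⊢
    rw [show m % D.N + 1 = D.N by rw [mul_add] at a2; omega]
    simp [sb, N0]
  · rw [Nat.succ_div_of_not_dvd c] at a2 ⊢
    rw [show (m + 1) % D.N = m % D.N + 1 by omega]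

theorem OK.ps_near (h : D.OK) (k : ℕ) (a : E d) : ‖D.ps W k a ω - a‖ ≤ 1 :=
  Psi_near h.anti h.s0 h.s1 h.hν h.hM a ω

theorem norm_sb (k : ℕ) (a b : E d) (i : ℕ) :
    ‖D.sb k a b i - D.sb k a b (i + 1)‖ = exp (k * D.T) * dist a b / D.N := by
  rw [sb, sb, ← smul_sub, add_sub_add_left_eq_sub, ← sub_smul, norm_smul, norm_smul, ← sub_div,
    Real.norm_of_nonneg (exp_pos _).le, ← dist_eq_norm']
  push_cast
  rw [sub_add_cancel_left, norm_div, norm_neg, norm_one, Real.norm_natCast]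
  ring

theorem OK.dist_q (h : D.OK) (k m : ℕ) : dist (D.q W k m ω) (D.q W k (m + 1) ω) ≤ 3 * D.r k ∧
    ‖D.sb k (D.q W k m ω) (D.q W k (m + 1) ω) 0 - D.sb k (D.q W k m ω) (D.q W k (m + 1) ω) (0 + 1)‖
      ≤ 3 * exp D.T / D.N := by
  have key : ∀ {k a b}, dist a b ≤ 3 * D.r k → ‖D.sb k a b 0 - D.sb k a b (0 + 1)‖
      ≤ 3 * exp D.T / D.N := fun {k a b} hab => by
    rw [norm_sb]
    refine div_le_div_of_nonneg_right ((mul_le_mul_of_nonneg_left hab (exp_pos _).le).trans_eq ?_)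
      D.N.cast_nonneg
    rw [r, mul_left_comm, ← exp_add, add_sub_cancel]
  suffices dist (D.q W k m ω) (D.q W k (m + 1) ω) ≤ 3 * D.r k from ⟨this, key this⟩
  induction k generalizing m with
  | zero =>
    rw [q, q, dist_eq_norm, ← sub_smul, norm_smul, h.he, r]
    push_cast
    rw [← sub_mul, sub_add_cancel_left, zero_mul, sub_zero, neg_one_mul, norm_neg, mul_one,
      Real.norm_of_nonneg (by positivity)]
  | succ k ih =>
    have a1 := key (ih (m / D.N))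
    rw [norm_sb, ← norm_sb k _ _ (m % D.N)] at a1
    have a2 := (div_le_one (Nat.cast_pos.2 h.N_pos)).2 h.hN
    rw [q_succ, h.q_succ', dist_smul₀, Real.norm_of_nonneg (exp_pos _).le, r_succ, mul_comm]
    refine mul_le_mul_of_nonneg_right ?_ (exp_pos _).le
    have := dist_triangle4_right (D.ps W k (D.sa W k m ω 0) ω) (D.ps W k (D.sa W k m ω 1) ω)
      (D.sa W k m ω 0) (D.sa W k m ω 1)
    simp only [dist_eq_norm] at this ⊢
    linarith [h.ps_near (W := W) (ω := ω) k (D.sa W k m ω 0),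
      h.ps_near (W := W) (ω := ω) k (D.sa W k m ω 1),
      show ‖D.sa W k m ω 0 - D.sa W k m ω 1‖ ≤ _ from a1]

theorem OK.sa_near (h : D.OK) (k m : ℕ) :
    ‖D.sa W k m ω 0 - D.sa W k m ω 1‖ ≤ 3 * exp D.T / D.N := by
  have a1 := (h.dist_q (W := W) (ω := ω) k (m / D.N)).2
  rwa [norm_sb, ← norm_sb k _ _ (m % D.N)] at a1

theorem OK.dist_pa (h : D.OK) (k m : ℕ) : dist (D.q W (k + 1) m ω) (D.q W k (m / D.N) ω) ≤
    ((m % D.N : ℕ) : ℝ) / D.N * dist (D.q W k (m / D.N) ω) (D.q W k (m / D.N + 1) ω)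
      + D.r (k + 1) := by
  refine (dist_triangle _ (exp (-(k * D.T)) • D.sa W k m ω 0) _).trans ?_
  rw [add_comm, q_succ, dist_smul₀, Real.norm_of_nonneg (exp_pos _).le, r_succ, sa, sb, smul_smul,
    ← exp_add, neg_add_cancel, exp_zero, one_smul, dist_self_add_left, norm_smul, add_zero,
    Real.norm_of_nonneg (by positivity), ← dist_eq_norm']
  exact add_le_add le_rfl (mul_le_of_le_one_right (exp_pos _).le
    (dist_eq_norm (E := E d) _ _ ▸ h.ps_near k _))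

theorem OK.dist_pa' (h : D.OK) (k m : ℕ) : dist (D.q W (k + 1) m ω) (D.q W k (m / D.N) ω) ≤
    dist (D.q W k (m / D.N) ω) (D.q W k (m / D.N + 1) ω) + D.r (k + 1) :=
  (h.dist_pa k m).trans (add_le_add (mul_le_of_le_one_left dist_nonneg
    ((div_le_one (Nat.cast_pos.2 h.N_pos)).2 (Nat.cast_le.2 (Nat.mod_lt _ h.N_pos).le))) le_rfl)

theorem OK.dist_pa4 (h : D.OK) (k m : ℕ) :
    dist (D.q W (k + 1) m ω) (D.q W k (m / D.N) ω) ≤ 4 * D.r k := by
  linarith [h.dist_pa' (W := W) (ω := ω) k m, (h.dist_q (W := W) (ω := ω) k (m / D.N)).1,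
    h.r_half k, r_pos (D := D) k]

theorem OK.ends (h : D.OK) (i k : ℕ) :
    dist (D.q W k (i * D.N ^ k) ω) (D.q W 0 i ω) ≤ 2 - 2 * D.r (k + 1) := by
  induction k with
  | zero => simp [r]
  | succ k ih =>
    have a := h.dist_pa (W := W) (ω := ω) k (i * D.N ^ (k + 1))
    rw [pow_succ, ← mul_assoc, Nat.mul_mod_left, Nat.mul_div_cancel _ h.N_pos, Nat.cast_zero,
      zero_div, zero_mul, zero_add] at a
    rw [pow_succ, ← mul_assoc]
    linarith [dist_triangle (D.q W (k + 1) (i * D.N ^ k * D.N) ω) (D.q W k (i * D.N ^ k) ω)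
      (D.q W 0 i ω), h.r_half (k + 1)]

variable {μ : ℕ → ℕ} {K : ℕ}

theorem OK.path (h : D.OK) (hμ : ∀ k < K, μ (k + 1) / D.N = μ k) {l k : ℕ} (hl : l ≤ k)
    (hk : k ≤ K) : dist (D.q W k (μ k) ω) (D.q W l (μ l) ω) ≤ 8 * D.r l - 8 * D.r k := by
  induction k, hl using Nat.le_induction with
  | base => simp
  | succ k hl ih =>
    have a := h.dist_pa4 (W := W) (ω := ω) k (μ (k + 1))
    rw [hμ k hk] at a
    linarith [dist_triangle (D.q W (k + 1) (μ (k + 1)) ω) (D.q W k (μ k) ω) (D.q W l (μ l) ω),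
      h.r_half k, ih (by omega)]

theorem OK.path_gd (h : D.OK) (hμ : ∀ k < K, μ (k + 1) / D.N = μ k) {l k : ℕ} (hl : l + 1 ≤ k)
    (hk : k ≤ K) (g : D.gd W l (D.sa W l (μ (l + 1)) ω 0) (D.sa W l (μ (l + 1)) ω 1) ω) :
    ‖exp (l * D.T) • D.q W k (μ k) ω - D.ps W l (D.sa W l (μ (l + 1)) ω 0) ω‖
      ≤ 10 * exp (-D.T) := by
  have a1 : dist (D.q W k (μ k) ω) (D.q W (l + 1) (μ (l + 1)) ω) ≤ 10 * D.r (l + 1 + 1) := by
    rcases hl.eq_or_lt with rfl | hl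
    · rw [dist_self]; linarith [r_pos (D := D) (l + 1 + 1)]
    have a2 := h.dist_pa' (W := W) (ω := ω) (l + 1) (μ (l + 1 + 1))
    rw [hμ _ (by omega)] at a2
    have a3 : dist (D.q W (l + 1) (μ (l + 1)) ω) (D.q W (l + 1) (μ (l + 1) + 1) ω)
        ≤ D.r (l + 1 + 1) := by
      rw [q_succ, h.q_succ', dist_smul₀, Real.norm_of_nonneg (exp_pos _).le, r_succ', r_succ,
        mul_comm, dist_eq_norm]
      exact mul_le_mul_of_nonneg_right g.1 (exp_pos _).le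
    linarith [h.path (W := W) (ω := ω) hμ hl hk, r_pos (D := D) k, dist_triangle (D.q W k (μ k) ω)
      (D.q W (l + 1 + 1) (μ (l + 1 + 1)) ω) (D.q W (l + 1) (μ (l + 1)) ω)]
  have a4 := mul_le_mul_of_nonneg_left a1 (exp_pos (l * D.T)).le
  rwa [r_succ', r_succ, ← Real.norm_of_nonneg (exp_pos (l * D.T)).le, ← dist_smul₀, q_succ,
    smul_smul, ← exp_add, add_neg_cancel, exp_zero, one_smul, dist_eq_norm,
    Real.norm_of_nonneg (exp_pos _).le, mul_left_comm, mul_left_comm (exp _), ← exp_add,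
    add_neg_cancel, exp_zero, mul_one] at a4

theorem gain (k m : ℕ) : (k - D.nb W k m ω) * D.γ ≤ W (D.gv W k m ω) ω := by
  induction k generalizing m with
  | zero => simp [nb, gv]
  | succ k ih =>
    have := ih (m / D.N)
    rw [nb, gv, map_add, Pi.add_apply]
    split_ifs with g
    · push_cast; linarith [g.2]
    · push_cast; simp only [map_zero, Pi.zero_apply]; linarith

theorem OK.rem (h : D.OK) (hμ : ∀ k < K, μ (k + 1) / D.N = μ k) {j k : ℕ} (hj : j ≤ k)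
    (hk : k ≤ K) : ∑ i ∈ range j, D.F i 0 (exp (i * D.T) • D.q W k (μ k) ω) - D.gv W j (μ j) ω
      ∈ D.VL j ∧ ‖∑ i ∈ range j, D.F i 0 (exp (i * D.T) • D.q W k (μ k) ω) - D.gv W j (μ j) ω‖ ^ 2
      ≤ j * D.L + D.nb W j (μ j) ω * D.T := by
  induction j with
  | zero => simp [gv, nb]
  | succ j ih =>
    obtain ⟨i1, i2⟩ := ih (by omega)
    rw [sum_range_succ, gv, nb, hμ j (by omega), add_sub_add_comm]
    have key : ∀ u ∈ D.V j, ∀ {w}, w ∈ D.VL j → w + u ∈ D.VL (j + 1) ∧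
        ‖w + u‖ ^ 2 = ‖w‖ ^ 2 + ‖u‖ ^ 2 := fun u hu w hw =>
      ⟨Submodule.add_mem _ (VL_le j hw) (V_le j hu), by
        rw [norm_add_sq_real, (h.VL_orth j).inner_eq hw hu, mul_zero, add_zero]⟩
    split_ifs with g
    · obtain ⟨k1, k2⟩ := key _ (Submodule.sub_mem _ (h.mF j 0 _) (h.mF j _ _)) i1
      refine ⟨k1, k2 ▸ ?_⟩
      push_cast
      linarith [h.dif j _ _ (h.path_gd hμ hj hk g)]
    · obtain ⟨k1, k2⟩ := key _ (h.mF j 0 (exp (j * D.T) • D.q W k (μ k) ω)) i1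
      rw [sub_zero]
      refine ⟨k1, k2 ▸ ?_⟩
      push_cast
      linarith [h.nF j (exp (j * D.T) • D.q W k (μ k) ω), h.hL]

/-- the typical behaviour at a vertex -/
def Ty (D : Dat d H) (W : H →ₗ[ℝ] (Ω → ℝ)) (v : ℕ → E d → H) (c ε : ℝ) (k m : ℕ) (ω : Ω) : Prop :=
  D.nb W k m ω ≤ ε * k ∧ ∃ U : Submodule ℝ H, FiniteDimensional ℝ U ∧ Qn W U ω ≤ c * k ∧
    D.gv W k m ω ∈ U ∧ ∀ n : ℕ, n * log 2 ≤ (k + 1) * D.T →
      v n (D.q W k m ω) ∈ U ∧ v n (D.pa W k m ω) ∈ U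

theorem OK.low (h : D.OK) {v : ℕ → E d → H} {c ε C : ℝ} (hc : 0 ≤ c) (hε : 0 ≤ ε) (hC : 0 ≤ C)
    (hμ : ∀ k < K, μ (k + 1) / D.N = μ k) {n j : ℕ} (hj : j ≤ K) (hn : n * log 2 ≤ (j + 1) * D.T)
    (v1 : ‖v n (D.q W j (μ j) ω) - ∑ i ∈ range j, D.F i 0 (exp (i * D.T) • D.q W j (μ j) ω)‖ ≤ C)
    (v2 : ∀ x y, 2 ^ n * dist x y ≤ 4 * exp D.T ^ 2 → ‖v n x - v n y‖ ≤ C * (2 ^ n * dist x y))
    (ht : ∀ k, j ≤ k → k ≤ K → D.Ty W v c ε k (μ k) ω) :
    ((1 - ε) * D.γ - √(c * (D.L + ε * D.T))) * j - 17 * C * exp D.T ^ 2 * √c * √(j + 1)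
      ≤ W (v n (D.q W K (μ K) ω)) ω := by
  have T0 : 0 ≤ D.T := by linarith [h.hT]
  have e1 : 1 ≤ exp D.T ^ 2 := one_le_pow₀ (one_le_exp T0)
  have j0 : (0 : ℝ) ≤ j := j.cast_nonneg
  have a1 : ((1 - ε) * D.γ - √(c * (D.L + ε * D.T))) * j - C * exp D.T ^ 2 * √c * √(j + 1)
      ≤ W (v n (D.q W j (μ j) ω)) ω := by
    obtain ⟨t1, U, _, t2, t3, t4⟩ := ht j le_rfl hj
    have b1 := abs_le_Qn (W := W) (U.sub_mem (t4 n hn).1 t3) ω
    have b2 := (h.rem (W := W) (ω := ω) hμ le_rfl hj).2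
    have b3 := norm_sub_le_norm_sub_add_norm_sub (v n (D.q W j (μ j) ω))
      (∑ i ∈ range j, D.F i 0 (exp (i * D.T) • D.q W j (μ j) ω)) (D.gv W j (μ j) ω)
    have hL := h.hL
    have b4 := (abs_le_of_sq_le_sq' (b2.trans (show _ ≤ √((D.L + ε * D.T) * j) ^ 2 by
      rw [sq_sqrt (by positivity)]; nlinarith)) (sqrt_nonneg _)).2
    have b5 : √((D.L + ε * D.T) * j) * √(c * j) = √(c * (D.L + ε * D.T)) * j := by
      rw [← sqrt_mul (by positivity), mul_mul_mul_comm, sqrt_mul' _ (by positivity),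
        sqrt_mul_self j0, mul_comm c]
    have b6 : C * √(c * j) ≤ C * exp D.T ^ 2 * √c * √(j + 1) := by
      rw [sqrt_mul hc, mul_assoc, mul_assoc]
      refine mul_le_mul_of_nonneg_left ((le_mul_of_one_le_left (by positivity) e1).trans' ?_) hC
      gcongr
      linarith
    have b7 := mul_le_mul (b3.trans (add_le_add v1 b4)) (sqrt_le_sqrt t2) (sqrt_nonneg _)
      (by positivity)
    have b8 := gain (D := D) (W := W) (ω := ω) j (μ j)
    have b9 := mul_le_mul_of_nonneg_right t1 h.hγ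
    rw [map_sub, Pi.sub_apply] at b1
    linarith [neg_abs_le (W (v n (D.q W j (μ j) ω)) ω - W (D.gv W j (μ j) ω) ω)]
  set A := 4 * C * exp D.T ^ 2 * √c * √(j + 1)
  have A0 : 0 ≤ A := by positivity
  have a2 : ∀ i, j + i ≤ K → W (v n (D.q W j (μ j) ω)) ω - 4 * A * (1 - (3 / 4) ^ i)
      ≤ W (v n (D.q W (j + i) (μ (j + i)) ω)) ω := by
    intro i hi
    induction i with
    | zero => simp
    | succ i ih =>
      have i0 : (0 : ℝ) ≤ i := i.cast_nonneg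
      obtain ⟨-, U, _, t2, -, t4⟩ := ht (j + i + 1) (by omega) hi
      obtain ⟨t5, t6⟩ := t4 n (hn.trans (by push_cast; nlinarith))
      rw [pa, hμ (j + i) hi] at t6
      have b1 := abs_le_Qn (W := W) (U.sub_mem t5 t6) ω
      have b2 := h.dist_pa4 (W := W) (ω := ω) (j + i) (μ (j + i + 1))
      rw [hμ (j + i) hi] at b2
      have b3 : 2 ^ n * D.r (j + i) ≤ exp D.T ^ 2 * (1 / 2) ^ i := by
        refine le_trans ?_ (mul_le_mul_of_nonneg_left (pow_le_pow_left₀ (exp_pos _).le h.half i)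
          (by positivity))
        rw [← exp_jlog, r, ← exp_add, ← exp_nat_mul, ← exp_nat_mul, ← exp_add]
        exact exp_le_exp.2 (by push_cast; linarith)
      have b4 := (mul_le_mul_of_nonneg_left b2 (show (0 : ℝ) ≤ 2 ^ n by positivity)).trans
        (show _ ≤ 4 * (exp D.T ^ 2 * (1 / 2) ^ i) by linarith)
      have b5 := (v2 _ _ (b4.trans (by
        have := pow_le_one₀ (show (0 : ℝ) ≤ 1 / 2 by norm_num) (by norm_num) (n := i)
        nlinarith))).trans (mul_le_mul_of_nonneg_left b4 hC)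
      have b6 : √(c * (j + i + 1 : ℕ)) ≤ √c * (√(j + 1) * (3 / 2) ^ i) := by
        rw [sqrt_mul hc]
        refine mul_le_mul_of_nonneg_left (sqrt_le_iff.2 ⟨by positivity, ?_⟩) (sqrt_nonneg _)
        have := one_add_mul_le_pow (show (-2 : ℝ) ≤ 5 / 4 by norm_num) i
        rw [mul_pow, sq_sqrt (by positivity), ← pow_mul, mul_comm i, pow_mul]
        push_cast
        norm_num at this ⊢
        nlinarith [mul_nonneg i0 j0]
      have b7 := b1.trans (mul_le_mul b5 ((sqrt_le_sqrt t2).trans b6) (sqrt_nonneg _)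
        (by positivity))
      have b8 : C * (4 * (exp D.T ^ 2 * (1 / 2) ^ i)) * (√c * (√(j + 1) * (3 / 2) ^ i))
          = A * (3 / 4) ^ i := by
        rw [show (3 / 4 : ℝ) = 1 / 2 * (3 / 2) by norm_num, mul_pow]; ring
      rw [map_sub, Pi.sub_apply, b8] at b7
      have := ih (by omega)
      rw [pow_succ, ← add_assoc]
      linarith [neg_abs_le (W (v n (D.q W (j + i + 1) (μ (j + i + 1)) ω)) ω
        - W (v n (D.q W (j + i) (μ (j + i)) ω)) ω)]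
  have a3 := a2 (K - j) (by omega)
  rw [Nat.add_sub_cancel' hj] at a3
  have : 0 ≤ A * (3 / 4) ^ (K - j) := by positivity
  unfold A at *
  linarith

end Dat

end Pool.Agent.Lib.MP_a0a493_pr
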