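import Pool.Agent.Lib.MP_a0a493_pr.OutA
import Pool.Agent.Lib.MP_a0a493_pr.SLaw

/-! The multiscale curve: probability estimates. -/

namespace Pool.Agent.Lib.MP_a0a493_pr

open MeasureTheory Real Finset Filter Topology
open scoped InnerProductSpace ENNReal

variable {Ω H : Type*} [NormedAddCommGroup H] [InnerProductSpace ℝ H] {d : ℕ}
  {W : H →ₗ[ℝ] (Ω → ℝ)} {D : Dat d H}

theorem Sk.prop {m : MeasurableSpace Ω} {p : Ω → Prop} (h : MeasurableSet[m] {ω | p ω}) : Sk m p := by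
  refine ⟨Set.toFinite _, fun σ => ?_⟩
  by_cases c : σ
  · simp only [c, eq_iff_iff, iff_true]; exact h
  · simp only [c, eq_iff_iff, iff_false]; exact h.compl

theorem Sk.measurable {S β : Type*} [MeasurableSpace β] {m : MeasurableSpace Ω} {st : Ω → S}
    (h : Sk m st) (f : S → β) : Measurable[m] fun ω => f (st ω) := fun t _ =>
  h.set (A := fun σ => {_ω | f σ ∈ t}) fun _ => MeasurableSet.const _

theorem gd_ks {U : Ω → Submodule ℝ H} {k : ℕ} {a b : Ω → E d}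
    (ha : Sk (ks W U) fun ω => D.ps W k (a ω) ω) (hb : Sk (ks W U) fun ω => D.ps W k (b ω) ω)
    (hF : ∀ ω, D.F k (D.s D.M) (D.ps W k (a ω) ω) ∈ U ω) :
    MeasurableSet[ks W U] {ω | D.gd W k (a ω) (b ω) ω} :=
  (ha.prod hb).set_ks (N := fun τ => ℝ ∙ D.F k (D.s D.M) τ.1)
    (A := fun τ => {ω | ‖τ.1 - τ.2‖ ≤ exp (-D.T) ∧ D.γ ≤ W (D.F k (D.s D.M) τ.1) ω})
    (fun _ => (MeasurableSet.const _).inter
      (sg_meas (Submodule.mem_span_singleton_self _) measurableSet_Ici))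
    fun ω => (Submodule.span_singleton_le_iff_mem _ _).2 (hF ω)

variable [mΩ : MeasurableSpace Ω] {P : Measure Ω} [IsProbabilityMeasure P]

namespace Dat

theorem OK.gd_meas (h : D.OK) (hW : Iso P W) (k : ℕ) (a b : E d) :
    MeasurableSet[sga W (D.V k)] {ω | ¬ D.gd W k a b ω} := by
  obtain ⟨U, u1, -, -, -, u5, u6, u7, -, u9, -⟩ := hW.blk_ext (Ad.const ⊥) (fun _ => inferInstance)
    (Sk.const _ a) (Sk.const _ b) (D.F k) (D.G k) D.s D.ν D.M
  exact (u1.ks_le (fun ω => u9 ω _ bot_le (h.mF k) (h.mG k)) _ (gd_ks u5 u6 u7)).compl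

theorem OK.ind (h : D.OK) (hW : Iso P W) {l : ℝ} (hb : ∀ k a b, ‖a - b‖ ≤ 3 * exp D.T / D.N →
    P {ω | ¬ D.gd W k a b ω} ≤ ENNReal.ofReal (exp (-l))) (k m : ℕ) :
    ∃ U : Ω → Submodule ℝ H, Ad W U ∧ (∀ ω, U ω ≤ D.VL k) ∧ (∀ ω, FiniteDimensional ℝ (U ω)) ∧
      Sk (ks W U) (D.q W k m) ∧ Sk (ks W U) (D.q W k (m + 1)) ∧ Sk (ks W U) (D.pa W k m) ∧
      Sk (ks W U) (D.nb W k m) ∧ (∀ ω, D.gv W k m ω ∈ U ω) ∧
      ∫⁻ ω, eQ W (U ω) ω ∂P ≤ 2 ^ ((4 * d * D.M + 1) * k) ∧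
      ∫⁻ ω, ENNReal.ofReal (exp (l * D.nb W k m ω)) ∂P ≤ 2 ^ k := by
  classical
  induction k generalizing m with
  | zero =>
    exact ⟨fun _ => ⊥, Ad.const _, fun _ => bot_le, fun _ => inferInstance, Sk.const _ _,
      Sk.const _ _, Sk.const _ _, Sk.const _ _, fun _ => Submodule.zero_mem _,
      by simpa using hW.int_eQ ⊥ (D := 0) (by simp), by simp [nb]⟩
  | succ k ih =>
    obtain ⟨U, i1, i2, i3, i4, i5, -, i7, i8, i9, i10⟩ := ih (m / D.N)
    have s : ∀ i, Sk (ks W U) fun ω => D.sa W k m ω i := fun i =>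
      (i4.prod i5).map fun τ => D.sb k τ.1 τ.2 (m % D.N + i)
    obtain ⟨U', u1, u2, u3, u4, u5, u6, u7, -, u9, u10⟩ := hW.blk_ext i1 i3 (s 0) (s 1) (D.F k)
      (D.G k) D.s D.ν D.M
    refine ⟨U', u1, fun ω => u9 ω _ ((i2 ω).trans (VL_le k)) (fun r x => V_le k (h.mF k r x))
      fun r x c => V_le k (h.mG k r x c), u4, u5.map fun x => exp (-(k * D.T)) • x, ?_, i4.mono u2,
      ((i7.mono u2).prod (Sk.prop (gd_ks u5 u6 u7))).map fun τ => τ.1 + if τ.2 then 0 else 1,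
      fun ω => ?_, u10.trans ?_, ?_⟩
    · rw [show D.q W (k + 1) (m + 1) = _ from funext fun ω => h.q_succ' k m]
      exact u6.map fun x => exp (-(k * D.T)) • x
    · rw [gv]
      refine Submodule.add_mem _ (u3 ω (i8 ω)) ?_
      split_ifs
      exacts [u7 ω, Submodule.zero_mem _]
    · rw [mul_add, mul_one, pow_add _ (_ * k), mul_comm (2 ^ (_ * k))]
      exact mul_le_mul_right i9 _
    · have a := hW.step i1 ((s 0).prod (s 1)) (i7.measurable fun n : ℕ => ENNReal.ofReal (exp (l * n)))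
        (N := fun _ => D.V k) (Z := fun τ ω => 1 + {ω | ¬ D.gd W k τ.1 τ.2 ω}.indicator
          (fun _ => ENNReal.ofReal (exp l)) ω) (fun ω => Measurable.const_add
          ((@measurable_const _ _ _ (sga W _) _).indicator (h.gd_meas hW k _ _)) _)
        (fun ω => (h.VL_orth k).mono_left (i2 ω)) (a := 2) fun ω => by
          rw [lintegral_add_left measurable_const, lintegral_indicator_const
            (hW.sg_le _ _ (h.gd_meas hW k _ _)), lintegral_const, measure_univ, mul_one,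
            ← one_add_one_eq_two]
          refine add_le_add le_rfl ((mul_le_mul_right (hb k _ _ (h.sa_near k m)) _).trans_eq ?_)
          rw [← ENNReal.ofReal_mul (exp_pos _).le, ← exp_add, add_neg_cancel, exp_zero,
            ENNReal.ofReal_one]
      rw [pow_succ']
      refine le_trans (lintegral_mono fun ω => ?_) (a.trans (mul_le_mul_right i10 _))
      rw [nb]
      split_ifs with g
      · exact le_mul_of_one_le_right' le_self_add
      · rw [Set.indicator_of_mem (by exact g), Nat.cast_succ, mul_add, mul_one, exp_add,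
          ENNReal.ofReal_mul (exp_pos _).le]
        exact mul_le_mul_right le_add_self _

theorem OK.ty_prob (h : D.OK) (hW : Iso P W) {l c ε : ℝ} {T0 : ℕ}
    (hb : ∀ k a b, ‖a - b‖ ≤ 3 * exp D.T / D.N →
      P {ω | ¬ D.gd W k a b ω} ≤ ENNReal.ofReal (exp (-l))) (l0 : 0 ≤ l) (hl : D.N + 2 ≤ l * ε)
    (hT : D.T ≤ T0 * log 2) (hc : 4 * d * D.M + 4 * T0 + D.N + 4 ≤ c / 4) (v : ℕ → E d → H)
    {k : ℕ} (hk : 1 ≤ k) (m : ℕ) :
    P {ω | ¬ D.Ty W v c ε k m ω} ≤ 2 * ENNReal.ofReal (exp (-((D.N + 1) * k))) := by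
  obtain ⟨U, i1, -, i3, i4, -, i6, i7, i8, i9, i10⟩ := h.ind hW hb k m
  let R : E d × E d → Submodule ℝ H := fun τ => Submodule.span ℝ (Set.range
    fun i : Fin ((k + 1) * T0 + 1) × Bool => v i.1 (if i.2 then τ.1 else τ.2))
  have f1 : ∀ τ, FiniteDimensional ℝ (R τ) := fun τ =>
    FiniteDimensional.span_of_finite _ (Set.finite_range _)
  have a1 := hW.reveal i1 ((i4.prod i6).map R) i3 (fun _ => f1 _) (D := ((k + 1) * T0 + 1) * 2)
    fun ω => (finrank_range_le_card _).trans (by simp)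
  have a2 := (i1.ext (U' := fun ω => U ω ⊔ R (D.q W k m ω, D.pa W k m ω))
    ((i1.sk.prod (i4.prod i6)).map fun τ => τ.1 ⊔ R τ.2) fun _ => le_sup_left).1
  have a3 := markov_exp (t := c / 4 * k) (((a2.sk.meas_ks (N := id) (Y := Qn W)
    (fun ω => Qn_meas _) fun _ => le_rfl).mono (hW.ks_le a2) le_rfl).const_mul (1 / 4))
    (a1.trans ((mul_le_mul_right i9 _).trans_eq (pow_add _ _ _).symm))
  have a4 := markov_exp (t := l * (ε * k))
    ((i7.measurable fun n : ℕ => l * n).mono (hW.ks_le i1) le_rfl) i10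
  have k1 : (1 : ℝ) ≤ k := by exact_mod_cast hk
  rw [two_mul]
  refine le_trans (measure_mono fun ω hω => ?_) ((measure_union_le _ _).trans (add_le_add
    (a3.trans (ENNReal.ofReal_le_ofReal (exp_le_exp.2 ?_)))
    (a4.trans (ENNReal.ofReal_le_ofReal (exp_le_exp.2 (by nlinarith))))))
  · by_contra hc
    simp only [Set.mem_union, Set.mem_ofPred_eq, not_or, not_le] at hc
    have := i3 ω
    have := f1 (D.q W k m ω, D.pa W k m ω)
    refine hω ⟨le_of_not_gt fun g => hc.2.not_ge (mul_le_mul_of_nonneg_left g.le l0), _,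
      Submodule.finiteDimensional_sup _ _, by linarith [hc.1], Submodule.mem_sup_left (i8 ω),
      fun n hn => ?_⟩
    have n1 : n < (k + 1) * T0 + 1 := by
      have := le_of_mul_le_mul_right (hn.trans ((mul_le_mul_of_nonneg_left hT
        (by positivity)).trans_eq (mul_assoc _ _ _).symm)) (log_pos one_lt_two)
      exact Nat.lt_succ_of_le (by exact_mod_cast this)
    exact ⟨Submodule.mem_sup_right (Submodule.subset_span ⟨(⟨n, n1⟩, true), rfl⟩),
      Submodule.mem_sup_right (Submodule.subset_span ⟨(⟨n, n1⟩, false), rfl⟩)⟩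
  · push_cast
    nlinarith [mul_le_mul_of_nonneg_right hc (show (0 : ℝ) ≤ k by linarith),
      mul_le_mul_of_nonneg_left k1 (Nat.cast_nonneg (α := ℝ) T0)]

theorem OK.jn (h : D.OK) (hW : Iso P W) {l c ε C β : ℝ} {T0 : ℕ}
    (hb : ∀ k a b, ‖a - b‖ ≤ 3 * exp D.T / D.N →
      P {ω | ¬ D.gd W k a b ω} ≤ ENNReal.ofReal (exp (-l))) (l0 : 0 ≤ l) (hl : D.N + 2 ≤ l * ε)
    (hT : D.T ≤ T0 * log 2) (hc : 4 * d * D.M + 4 * T0 + D.N + 4 ≤ c / 4) {v : ℕ → E d → H}
    (hε : 0 ≤ ε) (hC : 0 ≤ C) (v1 : ∀ (n j : ℕ) x, j * D.T ≤ n * log 2 →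
      n * log 2 ≤ (j + 1) * D.T → ‖x‖ ≤ 11 * exp D.T →
      ‖v n x - ∑ i ∈ range j, D.F i 0 (exp (i * D.T) • x)‖ ≤ C)
    (v2 : ∀ (n : ℕ) x y, 2 ^ n * dist x y ≤ 4 * exp D.T ^ 2 →
      ‖v n x - v n y‖ ≤ C * (2 ^ n * dist x y))
    (β0 : 0 ≤ β) (hβ : β * D.T < ((1 - ε) * D.γ - √(c * (D.L + ε * D.T))) * log 2) :
    ∃ S : Set (E d), S.Countable ∧ ∀ᵐ ω ∂P, Jn (Subtype.val : S → E d)
      (fun t => W (v t.1 t.2) ω) β 0 ((3 * exp D.T) • D.e) 2 := by
  refine ⟨⋃ k, ⋃ m, Set.range (D.q W k m), Set.countable_iUnion fun k => Set.countable_iUnion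
    fun m => (h.ind hW hb k m).choose_spec.2.2.2.1.fin.countable, ?_⟩
  have N1 : (1 : ℝ) ≤ D.N := by exact_mod_cast h.N_pos
  have c0 : 0 ≤ c := by linarith [le_trans (by positivity) hc]
  have T0 : 0 < D.T := by linarith [h.hT]
  have l2 := log_pos one_lt_two
  have hs : ∑' k, P (⋃ m ∈ range (D.N ^ (k + 1) + 1), {ω | ¬ D.Ty W v c ε (k + 1) m ω}) ≠ ⊤ := by
    have s1 : Summable fun k : ℕ => 4 * exp (-k) := summable_exp_neg_nat.mul_left _
    refine ne_top_of_le_ne_top s1.tsum_ofReal_ne_top (ENNReal.tsum_le_tsum fun k =>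
      (measure_biUnion_finset_le _ _).trans ((sum_le_card_nsmul _ _ _ fun m _ =>
        h.ty_prob hW hb l0 hl hT hc v k.succ_pos m).trans ?_))
    rw [card_range, nsmul_eq_mul, ← ENNReal.ofReal_natCast, ← ENNReal.ofReal_ofNat 2,
      ← ENNReal.ofReal_mul two_pos.le, ← ENNReal.ofReal_mul (by positivity)]
    refine ENNReal.ofReal_le_ofReal ?_
    have b1 : (D.N : ℝ) ^ (k + 1) ≤ exp (D.N * (k + 1 : ℕ)) := by
      rw [mul_comm, exp_nat_mul]
      exact pow_le_pow_left₀ (by positivity) (by linarith [add_one_le_exp (D.N : ℝ)]) _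
    have b2 : exp (D.N * (k + 1 : ℕ)) * exp (-((D.N + 1) * (k + 1 : ℕ))) ≤ exp (-k) := by
      rw [← exp_add]
      exact exp_le_exp.2 (by push_cast; linarith)
    have b3 := one_le_pow₀ N1 (n := k + 1)
    push_cast at *
    nlinarith [exp_pos (-((D.N + 1 : ℝ) * (k + 1)))]
  set κ := (1 - ε) * D.γ - √(c * (D.L + ε * D.T))
  set A := 17 * C * exp D.T ^ 2 * √c
  have ev : ∀ᶠ j : ℕ in atTop, β * D.T / log 2 * (j + 1) ≤ κ * j - A * √(j + 1) := by
    have δ0 := sub_pos.2 ((div_lt_iff₀ l2).2 hβ)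
    have t := (tendsto_sqrt_atTop.comp (tendsto_atTop_add_const_right _ 1
      (tendsto_natCast_atTop_atTop (R := ℝ))))
    filter_upwards [t.eventually_ge_atTop 1,
      t.eventually_ge_atTop ((|κ| + A) / (κ - β * D.T / log 2))] with j j1 j2
    simp only [Function.comp, div_le_iff₀ δ0] at j1 j2
    have := mul_self_sqrt (show (0 : ℝ) ≤ j + 1 by positivity)
    nlinarith [le_abs_self κ, mul_le_mul_of_nonneg_left j1 (abs_nonneg κ)]
  filter_upwards [ae_eventually_notMem hs] with ω hω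
  obtain ⟨j0, hj0⟩ := eventually_atTop.1 (hω.and ev)
  obtain ⟨N0, hN0⟩ := exists_nat_ge ((j0 + 1) * D.T / log 2)
  refine ⟨N0, ⌈11 * exp D.T⌉₊, fun M => ?_⟩
  obtain ⟨K, hK1, hK2⟩ : ∃ K : ℕ, 3 * D.r K ≤ 1 / ((M : ℝ) + 1) ∧ M * log 2 ≤ K * D.T := by
    have t := tendsto_natCast_atTop_atTop (R := ℝ).atTop_mul_const T0
    have t2 : Tendsto (fun K => 3 * D.r K) atTop (𝓝 (3 * 0)) := (tendsto_exp_atBot.comp
      (tendsto_atBot_add_const_left _ _ (tendsto_neg_atTop_atBot.comp t))).const_mul 3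
    exact ((t2.eventually_le_const (by rw [mul_zero]; positivity)).and
      (t.eventually_ge_atTop _)).exists
  let x : ℕ → (⋃ k, ⋃ m, Set.range (D.q W k m) : Set (E d)) := fun m =>
    ⟨D.q W K m ω, Set.mem_iUnion₂.2 ⟨K, m, ω, rfl⟩⟩
  have st : ∀ m ≤ D.N ^ K, St Subtype.val (fun t => W (v t.1 t.2) ω) β N0 ⌈11 * exp D.T⌉₊ M (x m) := by
    intro m hm
    let μ : ℕ → ℕ := fun k => m / D.N ^ (K - k)
    have hμ : ∀ k < K, μ (k + 1) / D.N = μ k := fun k hk => by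
      simp only [μ]
      rw [Nat.div_div_eq_div_mul, ← pow_succ, show K - (k + 1) + 1 = K - k by omega]
    have m1 : ∀ k ≤ K, μ k ≤ D.N ^ k := fun k hk => Nat.div_le_of_le_mul
      (by rwa [← pow_add, Nat.sub_add_cancel hk])
    have m2 : μ K = m := by simp [μ]
    have m3 : ∀ k ≤ K, ‖D.q W k (μ k) ω‖ ≤ 11 * exp D.T := fun k hk => by
      have c1 := h.path (W := W) (ω := ω) hμ k.zero_le hk
      have c2 : ‖D.q W 0 (μ 0) ω‖ ≤ 3 * exp D.T := by
        rw [q, norm_smul, h.he, mul_one, Real.norm_of_nonneg (by positivity)]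
        exact mul_le_of_le_one_left (by positivity) (by exact_mod_cast m1 0 K.zero_le)
      rw [dist_eq_norm, show D.r 0 = exp D.T by simp [r]] at c1
      linarith [norm_le_norm_add_norm_sub' (D.q W k (μ k) ω) (D.q W 0 (μ 0) ω), r_pos (D := D) k]
    refine ⟨(m2 ▸ m3 K le_rfl :).trans (Nat.le_ceil _), fun n n1 n2 => ?_⟩
    set j := ⌊n * log 2 / D.T⌋₊
    have j1 : j * D.T ≤ n * log 2 := (le_div_iff₀ T0).1 (Nat.floor_le (by positivity))
    have j2 : n * log 2 < (j + 1) * D.T := (div_lt_iff₀ T0).1 (Nat.lt_floor_add_one _)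
    have j3 : j ≤ K := by
      have : (n : ℝ) ≤ M := by exact_mod_cast n2
      exact_mod_cast le_of_mul_le_mul_right (show (j : ℝ) * D.T ≤ K * D.T by nlinarith) T0
    have j4 : j0 + 1 ≤ j := Nat.le_floor ((le_div_iff₀ T0).2 (by
      have : (N0 : ℝ) ≤ n := by exact_mod_cast n1
      rw [div_le_iff₀ l2] at hN0
      push_cast
      nlinarith))
    have c1 := h.low (v := v) (ε := ε) (c := c) c0 hε hC hμ j3 j2.le
      (v1 n j _ j1 j2.le (m3 j j3)) (v2 n) fun k k1 k2 => by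
        obtain ⟨k, rfl⟩ : ∃ i, k = i + 1 := ⟨k - 1, by omega⟩
        by_contra g
        exact (hj0 k (by omega)).1 (Set.mem_biUnion (mem_range.2 (Nat.lt_succ_of_le (m1 _ k2))) g)
    rw [m2] at c1
    refine le_trans ?_ ((hj0 j (by omega)).2.trans c1)
    rw [div_mul_eq_mul_div, le_div_iff₀ l2]
    nlinarith
  have e0 := h.ends (W := W) (ω := ω) 0 K
  have e1 := h.ends (W := W) (ω := ω) 1 K
  have := r_pos (D := D) (K + 1)
  simp only [q, Nat.cast_zero, zero_mul, zero_smul, Nat.cast_one, one_mul] at e0 e1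
  refine ⟨x 0, x (D.N ^ K), by linarith, by linarith, st 0 (Nat.zero_le _), ?_⟩
  suffices ∀ m ≤ D.N ^ K, Relation.ReflTransGen _ (x 0) (x m) from this _ le_rfl
  intro m hm
  induction m with
  | zero => exact .refl
  | succ m ih => exact (ih (by omega)).tail ⟨st _ hm, (h.dist_q K m).1.trans hK1⟩

end Dat

end Pool.Agent.Lib.MP_a0a493_pr
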