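import Pool.Agent.Lib.MP_a0a493_pr.Chain

/-! Adaptive orthonormal atoms and the reflected field. -/

namespace Pool.Agent.Lib.MP_a0a493_pr

open MeasureTheory ProbabilityTheory Filter Topology
open scoped InnerProductSpace

variable {Ω : Type*} [MeasurableSpace Ω] {P : Measure Ω} [IsProbabilityMeasure P]
  {H : Type*} [NormedAddCommGroup H] [InnerProductSpace ℝ H] {W : H →ₗ[ℝ] (Ω → ℝ)}

theorem meas_st {Y S : Type*} [MeasurableSpace Y] [Fintype S] {st : Y → S}
    (hs : ∀ σ, MeasurableSet {y | st y = σ}) {F : S → Y → ℝ} (hF : ∀ σ, Measurable (F σ)) :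
    Measurable fun y => F (st y) y := by
  classical
  have e : ∀ y, F (st y) y = ∑ σ, if st y = σ then F σ y else 0 := fun y => by simp
  simp only [e]
  exact Finset.measurable_fun_sum _ fun σ _ => Measurable.ite (hs σ) (hF σ) measurable_const

section
variable {A : Type} [Fintype A] [DecidableEq A] (lev : A → ℕ)

/-- the signs revealed up to a level -/
noncomputable def stp : ℕ → (A × (A → Bool) → ℝ) → A → Bool
  | 0, _ => fun _ => false
  | i + 1, y => fun a => if lev a = i then decide (0 ≤ y (a, stp i y)) else stp i y a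

omit [Fintype A] [DecidableEq A] in
theorem stp_eq (y : A × (A → Bool) → ℝ) {a : A} {i : ℕ} (h : lev a < i) :
    stp lev i y a = decide (0 ≤ y (a, stp lev (lev a) y)) := by
  induction i with
  | zero => omega
  | succ i ih =>
    simp only [stp]
    split_ifs with h1
    · rw [h1]
    · exact ih (by omega)

theorem stp_meas (i : ℕ) (σ : A → Bool) : MeasurableSet {y | stp lev i y = σ} := by
  induction i generalizing σ with
  | zero => simp only [stp]; exact MeasurableSet.const _
  | succ i ih =>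
    have : Measurable (stp lev (i + 1)) := measurable_pi_iff.2 fun a => by
      simp only [stp]
      split_ifs
      · have m := meas_st ih (F := fun τ y => y (a, τ)) fun τ => measurable_pi_apply _
        refine measurable_to_bool ?_
        simpa [Set.preimage] using measurableSet_le measurable_const m
      · refine measurable_to_bool ?_
        have : (fun y => stp lev i y a) ⁻¹' {true} = ⋃ τ ∈ {τ : A → Bool | τ a = true},
            {y | stp lev i y = τ} := by ext; simp
        rw [this]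
        exact MeasurableSet.biUnion (Set.to_countable _) fun τ _ => ih τ
    exact this (measurableSet_singleton σ)

omit [Fintype A] [DecidableEq A] in
theorem stp_dep (i : ℕ) : Dep (fun j : A × (A → Bool) => lev j.1 < i) (stp lev i) := by
  induction i with
  | zero => exact fun _ _ _ => rfl
  | succ i ih =>
    intro y y' h
    have e := ih y y' fun j hj => h j (Nat.lt_succ_of_lt hj)
    funext a
    simp only [stp, e]
    split_ifs with h1
    · rw [h (a, _) (by simp [h1])]
    · rfl

theorem adapt2 (h : Iso P W) {𝕜 : Type} [RCLike 𝕜] (K : ℕ → Submodule ℝ H)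
    (hK : ∀ i j, i ≠ j → K i ⟂ K j) (w : A → (A → Bool) → H) (hw : ∀ a σ, w a σ ∈ K (lev a))
    (u : ℕ → (A → Bool) → H) (hu : ∀ i σ, u i σ ∈ K i) (F : ℕ → ℝ → 𝕜)
    (hF : ∀ i, Measurable (F i)) (bF : ∀ i t, ‖F i t‖ ≤ 1) (a : ℕ → 𝕜) (n : ℕ)
    (ha : ∀ i < n, ∀ σ, ∫ ω, F i (W (u i σ) ω) ∂P = a i) :
    ∫ ω, ∏ i ∈ Finset.range n, F i (W (u i (stp lev i fun j => W (w j.1 j.2) ω)) ω) ∂P =
      ∏ i ∈ Finset.range n, a i := by
  let v : (A × (A → Bool)) ⊕ (Fin n × (A → Bool)) → H :=
    Sum.elim (fun j => w j.1 j.2) fun j => u j.1 j.2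
  let L : (A × (A → Bool)) ⊕ (Fin n × (A → Bool)) → ℕ := Sum.elim (fun j => lev j.1) fun j => j.1
  have hv : ∀ j, v j ∈ K (L j) := by rintro (j | j); exacts [hw _ _, hu _ _]
  have mi : Measurable fun (y : (A × (A → Bool)) ⊕ (Fin n × (A → Bool)) → ℝ) j => y (.inl j) :=
    measurable_pi_iff.2 fun j => measurable_pi_apply _
  have := adapt h v L (fun i j hij => (hK _ _ hij).inner_eq (hv i) (hv j))
    (fun i y => stp lev i fun j => y (.inl j))
    (fun i σ => mi (stp_meas lev i σ))
    (fun i y y' hy => stp_dep lev i _ _ fun j hj => hy (.inl j) hj)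
    (fun i σ y => if hi : i < n then F i (y (.inr (⟨i, hi⟩, σ))) else 0)
    (fun i σ => by
      split_ifs
      · exact (hF i).comp (measurable_pi_apply _)
      · exact measurable_const)
    (fun i σ y => by
      split_ifs
      · exact bF _ _
      · simp)
    (fun i σ y y' hy => by
      simp only []
      split_ifs with hi
      · rw [hy (.inr (⟨i, hi⟩, σ)) rfl]
      · rfl) a n fun i hi σ => by
      simp only [dif_pos hi]
      exact ha i hi σ
  rw [← this]
  refine integral_congr_ae (Eventually.of_forall fun ω => Finset.prod_congr rfl fun i hi => ?_)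
  rw [dif_pos (Finset.mem_range.1 hi)]
  rfl

end

theorem refl_norm {A : Type*} [DecidableEq A] (T : Finset A) (w : A → H)
    (ho : ∀ a ∈ T, ∀ b ∈ T, ⟪w a, w b⟫_ℝ = if a = b then 1 else 0) (v : H) :
    ‖∑ a ∈ T, (2 * ⟪v, w a⟫_ℝ) • w a - v‖ ^ 2 = ‖v‖ ^ 2 := by
  have e1 : ⟪∑ a ∈ T, (2 * ⟪v, w a⟫_ℝ) • w a, v⟫_ℝ = ∑ a ∈ T, 2 * ⟪v, w a⟫_ℝ ^ 2 := by
    rw [sum_inner]
    exact Finset.sum_congr rfl fun a _ => by rw [real_inner_smul_left, real_inner_comm]; ring
  have e2 : ‖∑ a ∈ T, (2 * ⟪v, w a⟫_ℝ) • w a‖ ^ 2 = 2 * ∑ a ∈ T, 2 * ⟪v, w a⟫_ℝ ^ 2 := by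
    rw [← real_inner_self_eq_norm_sq, sum_inner, Finset.mul_sum]
    refine Finset.sum_congr rfl fun a ha => ?_
    rw [real_inner_smul_left, inner_sum, Finset.sum_congr rfl fun b hb => by
      rw [real_inner_smul_right, ho a ha b hb, mul_ite, mul_one, mul_zero], Finset.sum_ite_eq,
      if_pos ha]
    ring
  rw [norm_sub_sq_real, e1, e2]
  ring

/-- Laplace transform of the absolute value of a standard Gaussian -/
noncomputable def lap (s : ℝ) : ℝ := ∫ x, Real.exp (-s * |x|) ∂gaussianReal 0 1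

theorem lap_small {ε : ℝ} (hε : 0 < ε) : ∃ s : ℝ, 0 < s ∧ lap s ≤ ε := by
  have := nullSingletonClass_gaussianReal (μ := 0) (v := 1) one_ne_zero
  have t := tendsto_integral_of_dominated_convergence (μ := gaussianReal 0 1)
    (F := fun (n : ℕ) (x : ℝ) => Real.exp (-(n : ℝ) * |x|)) (f := fun _ => 0) (fun _ => 1)
    (fun n => (by fun_prop : Measurable _).aestronglyMeasurable) (integrable_const _)
    (fun n => Eventually.of_forall fun x => by
      rw [Real.norm_of_nonneg (Real.exp_pos _).le]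
      exact Real.exp_le_one_iff.2 (by nlinarith [abs_nonneg x, Nat.cast_nonneg (α := ℝ) n]))
    (((gaussianReal 0 1).ae_ne 0).mono fun x hx => by
      simp only [neg_mul]
      exact Real.tendsto_exp_neg_atTop_nhds_zero.comp
        (tendsto_natCast_atTop_atTop.atTop_mul_const (abs_pos.2 hx)))
  rw [integral_zero] at t
  obtain ⟨n, h1, h2⟩ := ((t.eventually (gt_mem_nhds hε)).and (eventually_gt_atTop 0)).exists
  exact ⟨n, by exact_mod_cast h2, h1.le⟩

theorem reflect (h : Iso P W) {A X : Type} [Fintype A] [DecidableEq A] [Fintype X] (lev : A → ℕ)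
    (n : ℕ) (hn : ∀ a, lev a < n) (K : ℕ → Submodule ℝ H) (hK : ∀ i j, i ≠ j → K i ⟂ K j)
    (w : A → (A → Bool) → H) (hw : ∀ a σ, w a σ ∈ K (lev a))
    (dw : ∀ a σ σ', (∀ b, lev b < lev a → σ b = σ' b) → w a σ = w a σ')
    (ow : ∀ a b σ, lev a = lev b → ⟪w a σ, w b σ⟫_ℝ = if a = b then 1 else 0)
    (e : ℕ → X → H) (he : ∀ i x, e i x ∈ K i) (Z : X → H)
    (hZ : ∀ x, Z x = ∑ i ∈ Finset.range n, e i x) :
    ∃ σ : Ω → A → Bool, (∀ ω a, σ ω a = decide (0 ≤ W (w a (σ ω)) ω)) ∧
      GF P (fun x ω => 2 * ∑ a, ⟪Z x, w a (σ ω)⟫_ℝ * W (w a (σ ω)) ω - W (Z x) ω) Z ∧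
      ∀ (T : Finset A), Set.InjOn lev T → ∀ s τ : ℝ, 0 ≤ s →
        P.real {ω | ∑ a ∈ T, |W (w a (σ ω)) ω| ≤ τ} ≤ Real.exp (s * τ) * lap s ^ T.card := by
  let st : ℕ → Ω → A → Bool := fun i ω => stp lev i fun j => W (w j.1 j.2) ω
  have key : ∀ ω a, w a (st n ω) = w a (st (lev a) ω) := fun ω a => dw _ _ _ fun b hb => by
    simp only [st]
    rw [stp_eq lev _ hb, stp_eq lev _ (hn b)]
  have ms : ∀ σ, MeasurableSet {ω | st n ω = σ} := fun σ =>
    (measurable_pi_iff.2 fun j => h.meas _) (stp_meas lev n σ)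
  have mx : ∀ a, Measurable fun ω => W (w a (st n ω)) ω := fun a =>
    meas_st ms (F := fun σ => W (w a σ)) fun σ => h.meas _
  have fib : ∀ (T : Finset A) (i : ℕ) (ω : Ω) {β : Type} [CommMonoid β] (g : A → H → β),
      ∏ a ∈ T with lev a = i, g a (w a (st i ω)) = ∏ a ∈ T with lev a = i, g a (w a (st n ω)) :=
    fun T i ω β _ g => Finset.prod_congr rfl fun a ha => by
      rw [key, (Finset.mem_filter.1 ha).2]
  refine ⟨st n, fun ω a => ?_, ⟨fun x => ?_, fun c => ?_⟩, fun T hT s τ hs => ?_⟩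
  · rw [key]; exact stp_eq lev _ (hn a)
  · refine Measurable.aemeasurable (.sub (.const_mul (Finset.measurable_fun_sum _ fun a _ =>
      .mul (meas_st ms (F := fun σ _ => ⟪Z x, w a σ⟫_ℝ) fun _ => measurable_const) (mx a)) _)
      (h.meas _))
  · let ec : ℕ → H := fun i => ∑ x, c x • e i x
    have hec : ∀ i, ec i ∈ K i := fun i => Submodule.sum_mem _ fun x _ => (K i).smul_mem _ (he i x)
    have e1 : ∑ x, c x • Z x = ∑ i ∈ Finset.range n, ec i := by
      simp only [hZ, Finset.smul_sum, ec]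
      exact Finset.sum_comm
    have e2 : ∀ i < n, ∀ v ∈ K i, ⟪∑ x, c x • Z x, v⟫_ℝ = ⟪ec i, v⟫_ℝ := fun i hi v hv => by
      rw [e1, sum_inner, Finset.sum_eq_single_of_mem i (Finset.mem_range.2 hi)
        fun j _ hj => (hK _ _ hj).inner_eq (hec j) hv]
    have := adapt2 lev h K hK w hw
      (fun i σ => ∑ a with lev a = i, (2 * ⟪ec i, w a σ⟫_ℝ) • w a σ - ec i)
      (fun i σ => (K i).sub_mem (Submodule.sum_mem _ fun a ha => (K i).smul_mem _
        ((Finset.mem_filter.1 ha).2 ▸ hw a σ)) (hec i)) (fun _ => ch)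
      (fun _ => continuous_ch.measurable) (fun _ t => (norm_ch t).le) (fun i => gc (‖ec i‖ ^ 2)) n
      fun i _ σ => by
        rw [h.law, refl_norm _ _ fun a ha b hb => ow a b σ
          ((Finset.mem_filter.1 ha).2.trans (Finset.mem_filter.1 hb).2.symm)]
    have e3 : ‖∑ x, c x • Z x‖ ^ 2 = ∑ i ∈ Finset.range n, ‖ec i‖ ^ 2 := by
      rw [← real_inner_self_eq_norm_sq]
      nth_rewrite 2 [e1]
      rw [inner_sum]
      exact Finset.sum_congr rfl fun i hi => by
        rw [e2 i (Finset.mem_range.1 hi) _ (hec i), real_inner_self_eq_norm_sq]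
    rw [e3, gc_sum, ← this]
    refine integral_congr_ae (Eventually.of_forall fun ω => ?_)
    simp only []
    rw [← ch_sum]
    congr 1
    have e4 : ∀ i ∈ Finset.range n, W (∑ a with lev a = i, (2 * ⟪ec i, w a (st i ω)⟫_ℝ) •
        w a (st i ω) - ec i) ω = ∑ a with lev a = i, 2 * ⟪∑ x, c x • Z x, w a (st n ω)⟫_ℝ *
        W (w a (st n ω)) ω - W (ec i) ω := fun i hi => by
      rw [map_sub, map_sum, Pi.sub_apply, Finset.sum_apply]
      congr 1
      refine Finset.sum_congr rfl fun a ha => ?_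
      have ha := (Finset.mem_filter.1 ha).2
      rw [e2 i (Finset.mem_range.1 hi) _ (ha ▸ hw a _), key, ha, map_smul]
      rfl
    rw [Finset.sum_congr rfl e4, Finset.sum_sub_distrib,
      Finset.sum_fiberwise_of_maps_to fun a _ => Finset.mem_range.2 (hn a),
      ← Finset.sum_apply, ← map_sum, ← e1]
    simp only [mul_sub, Finset.sum_sub_distrib, map_sum, map_smul, Finset.sum_apply, Pi.smul_apply,
      smul_eq_mul, sum_inner, real_inner_smul_left, Finset.mul_sum, Finset.sum_mul]
    rw [Finset.sum_comm]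
    congr 1
    exact Finset.sum_congr rfl fun _ _ => Finset.sum_congr rfl fun _ _ => by ring
  · have cs : ∀ i, T.filter (lev · = i) = ∅ ∨ ∃ a, T.filter (lev · = i) = {a} := fun i =>
      (T.filter (lev · = i)).eq_empty_or_nonempty.imp_right fun ⟨a, ha⟩ =>
        ⟨a, Finset.eq_singleton_iff_unique_mem.2 ⟨ha, fun b hb =>
          hT (Finset.mem_filter.1 hb).1 (Finset.mem_filter.1 ha).1
            ((Finset.mem_filter.1 hb).2.trans (Finset.mem_filter.1 ha).2.symm)⟩⟩
    have := adapt2 lev h K hK w hw (fun i σ => ∑ a ∈ T with lev a = i, w a σ)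
      (fun i σ => Submodule.sum_mem _ fun a ha => (Finset.mem_filter.1 ha).2 ▸ hw a σ)
      (fun _ t => Real.exp (-s * |t|)) (fun _ => by fun_prop) (fun _ t => by
        rw [Real.norm_of_nonneg (Real.exp_pos _).le]
        exact Real.exp_le_one_iff.2 (by nlinarith [abs_nonneg t]))
      (fun i => ∏ a ∈ T with lev a = i, lap s) n fun i _ σ => by
        rcases cs i with h0 | ⟨a, h0⟩
        · simp [h0]
        · have h1 : ‖w a σ‖₊ = 1 := by
            have := ow a a σ rfl
            rw [if_pos rfl, real_inner_self_eq_norm_sq] at this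
            exact NNReal.eq ((pow_eq_one_iff_of_nonneg (norm_nonneg _) two_ne_zero).1 this)
          have h2 := h.map_eq (w a σ)
          rw [h1, one_pow] at h2
          rw [h0, Finset.sum_singleton, Finset.prod_singleton, lap, ← h2,
            integral_map (h.meas _).aemeasurable (by fun_prop)]
    rw [Finset.prod_fiberwise_of_maps_to fun a _ => Finset.mem_range.2 (hn a),
      Finset.prod_const] at this
    have e5 : ∀ ω, ∏ i ∈ Finset.range n, Real.exp (-s * |W (∑ a ∈ T with lev a = i,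
        w a (st i ω)) ω|) = Real.exp (-s * ∑ a ∈ T, |W (w a (st n ω)) ω|) := fun ω => by
      rw [Finset.mul_sum, Real.exp_sum,
        ← Finset.prod_fiberwise_of_maps_to fun a _ => Finset.mem_range.2 (hn a)]
      refine Finset.prod_congr rfl fun i _ => ?_
      rw [← fib T i ω fun a v => Real.exp (-s * |W v ω|)]
      rcases cs i with h0 | ⟨a, h0⟩ <;> simp [h0]
    have e6 : ∫ ω, Real.exp (-s * ∑ a ∈ T, |W (w a (st n ω)) ω|) ∂P = lap s ^ T.card := by
      rw [← this]; simp only [← e5]; rfl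
    have m := mul_meas_ge_le_integral_of_nonneg (μ := P)
      (f := fun ω => Real.exp (-s * ∑ a ∈ T, |W (w a (st n ω)) ω|))
      (Eventually.of_forall fun _ => (Real.exp_pos _).le) (Integrable.of_bound
        (Measurable.exp (.const_mul (Finset.measurable_fun_sum _ fun a _ => (mx a).abs)
          _)).aestronglyMeasurable 1 (Eventually.of_forall fun ω => by
        rw [Real.norm_of_nonneg (Real.exp_pos _).le]
        exact Real.exp_le_one_iff.2 (by
          nlinarith [Finset.sum_nonneg fun a (_ : a ∈ T) => abs_nonneg (W (w a (st n ω)) ω)])))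
      (Real.exp (-(s * τ)))
    rw [e6, Real.exp_neg, inv_mul_le_iff₀ (Real.exp_pos _), ← Real.exp_neg] at m
    exact sub_le m fun ω hω => Real.exp_le_exp.2 (by
      have : s * _ ≤ s * τ := mul_le_mul_of_nonneg_left hω hs
      linarith)

end Pool.Agent.Lib.MP_a0a493_pr
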