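import Pool.Agent.Lib.MP_a0a493_pr.Sheet
import Pool.Agent.Lib.MP_a0a493_pr.Refl

/-! Crossings at a linear level have probability at least one quarter. -/

namespace Pool.Agent.Lib.MP_a0a493_pr

open MeasureTheory Real Set
open scoped InnerProductSpace

variable {d : ℕ}

/-- the length scales -/
noncomputable def rr (k i : ℕ) : ℝ := 2 ^ k / 4 ^ i

theorem rr_pos (k i : ℕ) : 0 < rr k i := by unfold rr; positivity

theorem rr_anti (k : ℕ) {i j : ℕ} (h : i ≤ j) : rr k j ≤ rr k i :=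
  div_le_div_of_nonneg_left (by positivity) (by positivity) (pow_le_pow_right₀ (by norm_num) h)

theorem rr_add (k i j : ℕ) : rr k i = 4 ^ j * rr k (i + j) := by
  unfold rr; rw [pow_add]; field_simp

theorem rr_eq (n j : ℕ) : rr (2 * n + j) n = 2 ^ j := by
  unfold rr; rw [pow_add, pow_mul]; norm_num

/-- the class of a cell -/
def cls {R : ℕ} (z : Fin d → Fin R) : Fin ((2 * d + 6) ^ d) :=
  finFunctionFinEquiv fun j => ⟨z j % (2 * d + 6), Nat.mod_lt _ (by omega)⟩

theorem lev_inj {D a b : ℕ} {c e : Fin D} (h : a * D + c = b * D + e) : a = b ∧ c = e := by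
  have h0 : 0 < D := c.pos
  have h1 := congrArg (· % D) h
  simp only [Nat.mul_add_mod_of_lt c.2, Nat.mul_add_mod_of_lt e.2] at h1
  exact ⟨Nat.eq_of_mul_eq_mul_right h0 (by omega), Fin.ext h1⟩

/-- the configuration of cells -/
noncomputable def cfg (i2 : Fin d) (k G : ℕ) : Cfg d (Fin G × (Fin d → Fin (2 ^ k + 1))) where
  lev a := a.1 * (2 * d + 6) ^ d + cls a.2
  c a := rr k (a.1 * (2 * d + 6) ^ d) • pt fun j => (a.2 j : ℕ)
  l a := rr k (a.1 * (2 * d + 6) ^ d)
  r := rr k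
  h0 u := 3 * (u i2 / 2 ^ k) - 3 / 2
  rpos := rr_pos k
  rsucc i := by rw [rr_add k i 1]; ring
  rl a := rr_anti k (Nat.le_add_right _ _)
  sep a b hab h := by
    obtain ⟨h1, h2⟩ := lev_inj h
    have h3 := finFunctionFinEquiv.injective h2
    obtain ⟨j, hj⟩ := Function.ne_iff.1 fun e : a.2 = b.2 => hab (Prod.ext (Fin.ext h1) e)
    have h4 : (a.2 j : ℕ) ≡ b.2 j [MOD 2 * d + 6] := congrArg Fin.val (congrFun h3 j)
    have h5 := Int.le_abs_of_dvd (sub_ne_zero.2 fun e => hj (Fin.ext (Nat.cast_injective e)).symm)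
      h4.dvd
    have h6 : ((2 * d + 6 : ℕ) : ℝ) ≤ |((a.2 j : ℕ) : ℝ) - (b.2 j : ℕ)| := by
      rw [abs_sub_comm]; exact_mod_cast h5
    have h7 := h6.trans (le_dist (pt fun j => (a.2 j : ℕ)) (pt fun j => (b.2 j : ℕ)) j)
    have := rr_pos k (b.1 * (2 * d + 6) ^ d)
    rw [h1, dist_smul₀, Real.norm_of_nonneg this.le]
    push_cast at h7
    nlinarith
  lip u v := by
    have a := le_dist u v i2
    have e : 3 * (u i2 / 2 ^ k) - 3 / 2 - (3 * (v i2 / 2 ^ k) - 3 / 2) =
      3 * ((u i2 - v i2) / 2 ^ k) := by ring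
    have b : |u i2 - v i2| / 2 ^ k ≤ dist u v / 2 ^ k := by gcongr
    have c : 0 ≤ dist u v / 2 ^ k := by positivity
    rw [e, abs_mul, abs_div, rr, abs_of_pos (by positivity : (0 : ℝ) < 2 ^ k), pow_zero, div_one,
      abs_of_pos three_pos]
    linarith
  cont := by fun_prop

theorem sum_Ev {T : ℕ → ℝ} (hT : Antitone T) (x : E d) (N : ℕ) :
    ∑ i ∈ Finset.range N, Ev (T (i + 1)) (T i) x = Ev (T N) (T 0) x := by
  induction N with
  | zero => simp [Ev_self]
  | succ N ih =>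
    rw [Finset.sum_range_succ, ih, add_comm, Ev_add (hT N.le_succ) (hT N.zero_le)]

/-- vectors living on a range of scales -/
noncomputable def Ks (d : ℕ) (α β : ℝ) : Submodule ℝ (HH d) :=
  Submodule.span ℝ {v | ∃ g : ℝ × E d → ℝ, (∀ p, ¬(α < p.1 ∧ p.1 ≤ β) → g p = 0) ∧ v = vec g}

theorem Ks_ortho {α β α' β' : ℝ} (h : β ≤ α') : Ks d α β ⟂ Ks d α' β' := by
  refine Submodule.isOrtho_span.2 ?_
  rintro _ ⟨g, hg, rfl⟩ _ ⟨g', hg', rfl⟩
  refine inner_vec_zero fun p => ?_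
  by_cases h1 : α < p.1 ∧ p.1 ≤ β
  · rw [hg' p fun h2 => by linarith [h1.2, h2.1], mul_zero]
  · rw [hg p h1, zero_mul]

variable {Ω : Type*} [MeasurableSpace Ω] {P : Measure Ω} [IsProbabilityMeasure P]
  {W : HH d →ₗ[ℝ] (Ω → ℝ)}

theorem sheet_main (hd : 3 ≤ d) (h : Iso P W) (G k : ℕ) (hk : k = 2 * (G * (2 * d + 6) ^ d) + (4 + d))
    {s τ : ℝ} (hs : 0 ≤ s) : 1 ≤ (box d (2 ^ k)).card * (exp (s * τ) * lap s ^ G) +
      2 * fc P W k (√(log 4 / (64 * (d + 1) * 4 ^ (2 * d + 6) ^ d) ^ d) * τ) := by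
  classical
  set θ := √(log 4 / (64 * (d + 1) * 4 ^ (2 * d + 6) ^ d) ^ d)
  set D := (2 * d + 6) ^ d with hD
  let i0 : Fin d := ⟨0, by omega⟩
  let i1 : Fin d := ⟨1, by omega⟩
  let i2 : Fin d := ⟨2, by omega⟩
  let C := cfg i2 k G
  have hlev : ∀ a, C.lev a + 1 ≤ (a.1 + 1) * D := fun a => by
    have := (cls a.2).2
    show a.1 * D + cls a.2 + 1 ≤ _
    rw [add_mul]; omega
  have hn : ∀ a, C.lev a + 1 ≤ G * D := fun a =>
    (hlev a).trans (Nat.mul_le_mul_right _ a.1.2)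
  have rn : rr k (G * D) = 2 ^ (4 + d) := by rw [hk, rr_eq]
  have p1 : (1 : ℝ) ≤ 2 ^ d := one_le_pow₀ one_le_two
  have r16 : ∀ i ≤ G * D, 16 ≤ rr k i := fun i hi => by
    refine le_trans ?_ (rr_anti k hi)
    rw [rn, pow_add]; linarith
  have t0 : ∀ i ≤ G * D, 0 ≤ C.t i := fun i hi =>
    log_nonneg ((one_le_div (by norm_num)).2 (r16 i hi))
  have tk : ∀ i, C.t i ≤ k * log 2 := fun i => by
    rw [← exp_le_exp, C.exp_t, exp_jlog]
    have a : C.r i ≤ rr k 0 := rr_anti k i.zero_le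
    have b := C.rpos i
    rw [rr, pow_zero, div_one] at a
    linarith
  let T : ℕ → ℝ := fun i => if i = 0 then k * log 2 else max 0 (C.t i)
  have hT : Antitone T := antitone_nat_of_succ_le fun i => by
    simp only [T, if_neg i.succ_ne_zero]
    split_ifs
    · exact max_le (jlog k) (tk _)
    · exact max_le_max le_rfl (by rw [C.t_succ]; linarith [Cfg.log4])
  have Tk : T k = 0 := by
    simp only [T, if_neg (show k ≠ 0 by omega)]
    refine max_eq_left (log_nonpos (div_pos (C.rpos k) (by norm_num)).le ?_)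
    have : rr k k ≤ 1 := (div_le_one (by positivity)).2 (pow_le_pow_left₀ zero_le_two (by norm_num) k)
    show rr k k / 16 ≤ 1
    linarith
  obtain ⟨σ, hσ, hG, hb⟩ := reflect h (X := box d (2 ^ k)) C.lev k (fun a => by have := hn a; omega)
    (fun i => Ks d (T (i + 1)) (T i))
    (fun i j hij => (lt_or_gt_of_ne hij).elim (fun h => (Ks_ortho (hT h)).symm) fun h =>
      Ks_ortho (hT h)) (fun a σ => vec (C.atm a σ))
    (fun a σ => Submodule.subset_span ⟨_, fun p hp => if_neg fun h1 => hp ⟨by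
      simp only [T, if_neg (Nat.succ_ne_zero _)]
      rw [max_eq_right (t0 _ (hn a))]
      exact h1.1, h1.2.trans (by
      simp only [T]
      split_ifs
      exacts [tk _, le_max_right _ _])⟩, rfl⟩)
    (fun a σ σ' hσ => by unfold Cfg.atm; rw [C.hh_dep _ hσ]) (fun a b σ => C.atm_inner a b σ)
    (fun i x => Ev (T (i + 1)) (T i) (pt x))
    (fun i x => Submodule.subset_span ⟨_, fun p hp => if_neg hp, rfl⟩)
    (fun x => Ev 0 (k * log 2) (pt x)) fun x => by rw [sum_Ev hT, Tk]; rfl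
  let cell : Zd d → Fin G → Fin G × (Fin d → Fin (2 ^ k + 1)) := fun x g =>
    (g, fun j => ⟨min (2 ^ k) ⌊(x j : ℝ) / rr k (g * D)⌋₊, Nat.lt_succ_of_le (min_le_left _ _)⟩)
  have cinj : ∀ x, Function.Injective (cell x) := fun x g g' e => congrArg Prod.fst e
  have b1 := union_le (P := P) (box d (2 ^ k)) (fun x => {ω | ∑ a ∈ Finset.univ.image (cell x),
      |W (vec (C.atm a (σ ω))) ω| ≤ τ}) (c := exp (s * τ) * lap s ^ G) fun x _ => by
    have := hb (Finset.univ.image (cell x)) (by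
      intro a ha b hb e
      simp only [Finset.coe_image, mem_image] at ha hb
      obtain ⟨g, -, rfl⟩ := ha
      obtain ⟨g', -, rfl⟩ := hb
      rw [show g = g' from Fin.ext (lev_inj e).1]) s τ hs
    rwa [Finset.card_image_of_injective _ (cinj x), Finset.card_univ, Fintype.card_fin] at this
  have b2 := hG.prob_eq (h.gf fun x : box d (2 ^ k) => Ev 0 (k * log 2) (pt x)) (fun _ _ => rfl)
    (meas_CrS (2 ^ k) (θ * τ))
  have b3 : P.real {ω | (fun x : box d (2 ^ k) => W (Ev 0 (k * log 2) (pt x)) ω) ∈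
      CrS d (2 ^ k) (θ * τ)} = fc P W k (θ * τ) :=
    congrArg P.real (Set.ext fun ω => mem_CrS fun x => W (Ev 0 (k * log 2) (pt x)) ω)
  have b4 := (congrArg ENNReal.toReal b2).trans b3
  rw [two_mul, ← probReal_univ (μ := P)]
  refine sub_le2 b1 (sub_le2 b3.le b4.le (A := {ω | ω ∉ _}) ?_) fun ω _ hω => hω
  intro ω hω h1
  simp only [Finset.sum_image fun g _ g' _ e => cinj _ e, not_exists, not_and, not_le,
    mem_ofPred_eq] at hω
  have cube : ∀ x : Zd d, (∀ j, 0 ≤ x j ∧ x j ≤ (2 ^ k : ℕ)) → x ∈ box d (2 ^ k) := fun x hx =>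
    mem_box.2 fun j => by have := hx j; rw [abs_le]; omega
  have gain : ∀ x : Zd d, (∀ j, 0 ≤ x j ∧ x j ≤ (2 ^ k : ℕ)) →
      |C.hh (σ ω) (G * D) (pt x)| < 3 / 2 → θ * τ ≤ ∑ a, ⟪Ev 0 (k * log 2) (pt x),
        vec (C.atm a (σ ω))⟫_ℝ * W (vec (C.atm a (σ ω))) ω := by
    intro x hx hs
    have co := fun a => C.atm_coef (σ ω) (C.hh_small _ _ (hn a) hs) (t0 _ (hn a)) (tk _)
    have e : ∀ a, ⟪Ev 0 (k * log 2) (pt x), vec (C.atm a (σ ω))⟫_ℝ * W (vec (C.atm a (σ ω))) ω =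
        sg (σ ω a) * ⟪Ev 0 (k * log 2) (pt x), vec (C.atm a (σ ω))⟫_ℝ *
        |W (vec (C.atm a (σ ω))) ω| := fun a => by
      rw [mul_right_comm, hσ ω a, sg_mul_abs, mul_comm]
    simp only [e]
    refine le_trans ?_ (Finset.sum_le_sum_of_subset_of_nonneg
      (Finset.subset_univ (Finset.univ.image (cell x)))
      fun a _ _ => mul_nonneg (co a).1 (abs_nonneg _))
    rw [Finset.sum_image fun g _ g' _ e => cinj _ e]
    refine (mul_le_mul_of_nonneg_left (hω x (cube x hx)).le (sqrt_nonneg _)).trans ?_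
    rw [Finset.mul_sum]
    refine Finset.sum_le_sum fun g _ => mul_le_mul_of_nonneg_right ((co (cell x g)).2 _ ?_ ?_)
      (abs_nonneg _)
    · show rr k (g * D) ≤ 4 ^ D * rr k (C.lev (cell x g))
      rw [rr_add k _ D]
      refine mul_le_mul_of_nonneg_left (rr_anti k ?_) (by positivity)
      have := hlev (cell x g)
      simp only [cell, add_mul] at this ⊢
      omega
    · have l1 : 16 ≤ rr k (g * D) := r16 _ (Nat.mul_le_mul_right _ g.2.le)
      refine dist_le_of (by linarith : 0 ≤ rr k (g * D)) fun j => ?_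
      show |(x j : ℝ) - rr k (g * D) * ((min (2 ^ k) ⌊(x j : ℝ) / rr k (g * D)⌋₊ : ℕ) : ℤ)| ≤
        rr k (g * D)
      have x0 : (0 : ℝ) ≤ x j := by exact_mod_cast (hx j).1
      have x1 : (x j : ℝ) ≤ (2 ^ k : ℕ) := by exact_mod_cast (hx j).2
      have f1 := Nat.floor_le (div_nonneg x0 (by linarith : 0 ≤ rr k (g * D)))
      have f2 := Nat.lt_floor_add_one ((x j : ℝ) / rr k (g * D))
      rw [min_eq_right (Nat.cast_le (α := ℝ).1 (f1.trans ((div_le_self x0 (by linarith)).trans x1))),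
        Int.cast_natCast, abs_le]
      rw [le_div_iff₀ (by linarith)] at f1
      rw [div_lt_iff₀ (by linarith)] at f2
      constructor <;> linarith
  let col : Zd d → Fin d := fun x => if 3 / 2 ≤ |C.hh (σ ω) (G * D) (pt x)| then i2 else
    if θ * τ ≤ W (Ev 0 (k * log 2) (pt x)) ω then i0 else i1
  obtain ⟨i, p, q, hp, hq, hc⟩ := hex (R := 2 ^ k) col
  have far : Far (2 ^ k : ℕ) p q := ⟨i, by rw [hp, hq]; simp⟩
  have n02 : i2 ≠ i0 := by simp [i0, i2]
  have n12 : i2 ≠ i1 := by simp [i1, i2]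
  have n01 : i1 ≠ i0 := by simp [i0, i1]
  have hi : i = i2 ∨ i = i0 ∨ i = i1 := by
    rw [← hc.1.2]
    simp only [col]
    split_ifs <;> simp
  rcases hi with rfl | rfl | rfl
  · exfalso
    have key := hc.induct (Q := fun x => 3 / 2 ≤ sg false * C.hh (σ ω) (G * D) (pt x))
      (C.hh_big _ _ _ (Nat.zero_le _) (by
        show _ ≤ sg false * (3 * (((p i2 : ℤ) : ℝ) / 2 ^ k) - 3 / 2)
        rw [hp]; simp [sg])) fun x y _ ih hy hn => by
      have a := C.hh_lip (σ ω) (G * D) (pt x) (pt y)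
      have b : dist (pt x) (pt y) / C.r (G * D) ≤ 1 / 16 := by
        have b1 := dist_pt (r := 1) hn
        have b2 : (d : ℝ) ≤ 2 ^ d := by exact_mod_cast Nat.lt_two_pow_self.le
        rw [div_le_iff₀ (C.rpos _), show C.r (G * D) = _ from rn, pow_add]
        push_cast at b1
        linarith
      have c : 3 / 2 ≤ |C.hh (σ ω) (G * D) (pt y)| := by
        by_contra c
        have := hy.2
        simp only [col, if_neg c] at this
        split_ifs at this
        exacts [n02 this.symm, n12 this.symm]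
      simp only [sg] at ih ⊢
      norm_num at ih ⊢
      rw [abs_le] at a
      rcases le_abs.1 c with c | c <;> linarith
    have := C.hh_big (σ ω) true (pt q) (Nat.zero_le (G * D)) (by
      show _ ≤ sg true * (3 * (((q i2 : ℤ) : ℝ) / 2 ^ k) - 3 / 2)
      rw [hq]; simp [sg]; norm_num)
    simp only [sg] at key this
    norm_num at key this
    linarith
  · refine absurd ((mem_CrS fun x => W (Ev 0 (k * log 2) (pt x)) ω).2
      ⟨p, q, far, hc.mono fun x hx => ⟨cube x hx.1, ?_⟩⟩) h1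
    have := hx.2
    simp only [col] at this
    split_ifs at this with c1 c2
    exacts [absurd this n02, c2, absurd this n01]
  · refine ⟨p, q, far, hc.mono fun x hx => ⟨cube x hx.1, ?_⟩⟩
    have := hx.2
    simp only [col] at this
    split_ifs at this with c1 c2
    · exact absurd this n12
    · exact absurd this.symm n01
    · rw [ext, dif_pos (cube x hx.1)]
      linarith [gain x hx.1 (not_le.1 c1), not_le.1 c2]

theorem partA (hd : 3 ≤ d) (h : Iso P W) :
    ∃ c : ℝ, 0 < c ∧ ∀ N, ∃ k ≥ N, 1 / 4 ≤ fc P W k (c * k) := by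
  set θ := √(log 4 / (64 * (d + 1) * 4 ^ (2 * d + 6) ^ d) ^ d) with hθ
  set D := (2 * d + 6) ^ d with hD
  have h4 := Cfg.log4
  have θ0 : 0 < θ := by positivity
  have D0 : 0 < D := by positivity
  obtain ⟨s, s0, hs⟩ := lap_small (ε := 1 / (2 * exp 1 * (2 ^ (2 * D + 4 + d + 3)) ^ d))
    (by positivity)
  refine ⟨θ / s / (2 * D + 4 + d : ℕ), by positivity, fun N => ?_⟩
  obtain ⟨k, hk⟩ : ∃ k, k = 2 * ((N + 1) * D) + (4 + d) := ⟨_, rfl⟩
  have k1 : k ≤ (2 * D + 4 + d) * (N + 1) := by rw [hk]; nlinarith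
  have m := sheet_main hd h (N + 1) k hk (τ := (N + 1 : ℕ) / s) s0.le
  refine ⟨k, by rw [hk]; nlinarith, le_trans ?_ (fc_anti k (s' := θ * ((N + 1 : ℕ) / s)) ?_)⟩
  · have l0 : 0 ≤ lap s := integral_nonneg fun _ => (exp_pos _).le
    have a : ((box d (2 ^ k)).card : ℝ) ≤ ((2 ^ (2 * D + 4 + d + 3)) ^ d) ^ (N + 1) := by
      rw [card_box, ← pow_mul, ← pow_mul, mul_comm d, ← mul_assoc, pow_mul]
      push_cast
      refine pow_le_pow_left₀ (by positivity) (le_trans ?_ (pow_le_pow_right₀ one_le_two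
        (show k + 3 ≤ _ by nlinarith))) d
      have : (1 : ℝ) ≤ 2 ^ k := one_le_pow₀ one_le_two
      rw [pow_add]; linarith
    have b : (box d (2 ^ k)).card * (exp (s * ((N + 1 : ℕ) / s)) * lap s ^ (N + 1)) ≤
        (1 / 2) ^ (N + 1) := by
      rw [mul_div_cancel₀ _ s0.ne', ← exp_one_pow, ← mul_pow]
      refine (mul_le_mul_of_nonneg_right a (by positivity)).trans ?_
      rw [← mul_pow]
      refine pow_le_pow_left₀ (by positivity) ?_ _
      rw [le_div_iff₀ (by positivity)] at hs ⊢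
      linarith
    have c : (1 / 2 : ℝ) ^ (N + 1) ≤ 1 / 2 :=
      pow_le_of_le_one (by norm_num) (by norm_num) N.succ_ne_zero
    linarith
  · have k2 : (k : ℝ) ≤ (2 * D + 4 + d : ℕ) * (N + 1 : ℕ) := by exact_mod_cast k1
    calc _ ≤ θ / s / (2 * D + 4 + d : ℕ) * ((2 * D + 4 + d : ℕ) * (N + 1 : ℕ)) := by gcongr
      _ = _ := by field_simp

end Pool.Agent.Lib.MP_a0a493_pr
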