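import Pool.Agent.Lib.MP_a0a493_pr.SMoll

/-! Below the threshold the set of thick points is dense and connected. -/

namespace Pool.Agent.Lib.MP_a0a493_pr

open MeasureTheory ProbabilityTheory Real Set Filter Metric Topology
open scoped InnerProductSpace

variable {d : ℕ} {Ω Ω' : Type*} [MeasurableSpace Ω] [MeasurableSpace Ω'] {P : Measure Ω}
  {P' : Measure Ω'} [IsProbabilityMeasure P] [IsProbabilityMeasure P']
  {Φ : (E d → ℝ) → Ω → ℝ} {Φ' : (E d → ℝ) → Ω' → ℝ} {ρ ρ' : E d → ℝ}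

/-- the mollified field with the additive constant removed -/
noncomputable def fld (Φ : (E d → ℝ) → Ω → ℝ) (ρ : E d → ℝ) (ω : Ω) (n : ℕ) (x : E d) : ℝ :=
  Φ (mol ρ n x) ω - Φ (mol ρ 0 0) ω

theorem IsLGF.tr_fld (hΦ : IsLGF P Φ) (hd : 2 ≤ d) (hρ : Test ρ) {D : Type*} [Countable D]
    (e : D → E d) {W : HH d →ₗ[ℝ] (Ω' → ℝ)} (hW : Iso P' W) {B : Set (ℕ × D → ℝ)}
    (hB : MeasurableSet B) (h : ∀ᵐ ω ∂P', (fun t => W (vec (Af (dm ρ t.1 (e t.2)))) ω) ∈ B) :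
    ∀ᵐ ω ∂P, (fun t => fld Φ ρ ω t.1 (e t.2)) ∈ B :=
  ae_transfer (X := fun t : ℕ × D => W (vec (Af (dm ρ t.1 (e t.2)))))
    (v := fun t : ℕ × D => vec (Af (dm ρ t.1 (e t.2))))
    (X' := fun (t : ℕ × D) ω => fld Φ ρ ω t.1 (e t.2))
    (v' := fun t : ℕ × D => vec (Af (dm ρ t.1 (e t.2)))) (fun _ => hW.gf _)
    (fun _ => hΦ.gf hd (fun _ => test_dm hρ _ _) (fun _ => int_dm hρ _ _) fun _ =>
      (hΦ.lin _ _ (test_mol hρ _ _) (test_mol hρ 0 0) 1 (-1)).mono fun ω hω => by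
        rw [dm, hω]; simp only [fld]; ring) (fun _ _ => rfl) hB h

/-- a continuum on which the field is eventually above level `β` meets two open balls -/
def Cn (φ : ℕ → E d → ℝ) (β : ℝ) (a b : E d) (ε : ℝ) : Prop :=
  ∃ (N : ℕ) (K : Set (E d)), IsCompact K ∧ IsPreconnected K ∧
    (∀ x ∈ K, ∀ n, N ≤ n → β * n ≤ φ n x) ∧ (∃ x ∈ K, dist x a < ε) ∧ ∃ y ∈ K, dist y b < ε

theorem core (hd : 2 ≤ d) (hΦ : IsLGF P Φ) (hρ : Test ρ) (h1 : ∫ x, ρ x = 1)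
    (hc : ∀ᵐ ω ∂P, ∀ n, Continuous fun x => Φ (mol ρ n x) ω) (hΦ' : IsLGF P' Φ') (hρ' : Test ρ')
    (h1' : ∫ x, ρ' x = 1) (R : E d ≃ₗᵢ[ℝ] E d) (c a b : E d) {β ε : ℝ}
    (h : ¬ ∀ᵐ ω ∂P, ¬ Cn (fld Φ ρ ω) β (R (a - c)) (R (b - c)) ε) :
    ∀ᵐ ω ∂P', (fun t => fld Φ' ρ' ω t.1 (dy t.2)) ∈ JA dy β a b ε := by
  obtain ⟨Ω0, _, P0, _, W, hW⟩ := exists_iso (HH d)
  have hd1 : 1 ≤ d := by omega
  let e : ℕ × Zd d → E d := fun i => R (dy i - c)
  have he : DenseRange e :=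
    ((Homeomorph.subRight c).trans R.toHomeomorph).surjective.denseRange.comp dense_dy
      ((Homeomorph.subRight c).trans R.toHomeomorph).continuous
  have mJ := meas_JA e β (R (a - c)) (R (b - c)) ε
  have s1 := (hW.zero_one (fun t : ℕ × ℕ × Zd d => vec (Af (dm ρ t.1 (e t.2)))) mJ
    fun g y hy => JA_mono (C := 0) (fun _ _ => le_rfl) (fun _ => by simp) (fun _ => le_rfl)
      (fun _ => le_rfl) (fun L η hη => (shift_small hd1 hρ h1 g L hη).imp fun N hN n hn i hi => by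
        linarith [neg_abs_le ⟪g, vec (Af (dm ρ n (e i)))⟫_ℝ, hN n hn _ hi]) hy).resolve_left
    fun h0 => h (by
      filter_upwards [hc, hΦ.tr_fld hd hρ e hW mJ.compl h0] with ω c1 c2
      rintro ⟨N, K, k1, k2, k3, ⟨x, hx, k4⟩, y, hy, k5⟩
      exact c2 (JA_of_compact he (φ := fld Φ ρ ω) (fun n => (c1 n).sub continuous_const)
        k1 k2 k3 hx hy k4 k5))
  have t0 := hρ.iso R 0
  have i0 := (int_iso R 0 ρ).trans h1
  have s2 := ae_transfer (P := P0) (P' := P0)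
    (X := fun t : ℕ × ℕ × Zd d => W (vec (Af (dm ρ t.1 (e t.2)))))
    (v := fun t : ℕ × ℕ × Zd d => vec (Af (dm ρ t.1 (e t.2))))
    (X' := fun t => W (vec (Af fun u => dm ρ t.1 (e t.2) (R (u - c)))))
    (v' := fun t => vec (Af fun u => dm ρ t.1 (e t.2) (R (u - c))))
    (fun I => hW.gf _) (fun I => hW.gf _) (fun s t => inner_iso hd (test_dm hρ _ _)
      (test_dm hρ _ _) (int_dm hρ _ _) (int_dm hρ _ _) R c) mJ s1
  refine hΦ'.tr_fld hd hρ' dy hW (meas_JA _ _ _ _ _) ?_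
  obtain ⟨C, hC⟩ := exists_nat_ge ‖c‖
  have ds : ∀ u v : E d, dist u v ≤ dist (R (u - c)) (R (v - c)) := fun u v => by
    rw [R.dist_map, dist_sub_right]
  have nr : ∀ i, ‖dy i‖ ≤ ‖e i‖ + C := fun i => by
    have := norm_le_norm_add_norm_sub' (dy i) c
    simp only [e, LinearIsometryEquiv.norm_map]
    linarith
  filter_upwards [s2, cmp_ae hd1 hW hρ' h1' t0 i0] with ω c1 c2
  refine JA_mono (C := C) (fun i j => ds _ _) nr (fun i => ds _ _) (fun i => ds _ _)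
    (fun L η hη => ?_) c1
  obtain ⟨N, hN⟩ := eventually_atTop.1 ((c2 (L + C) (η / 2) (half_pos hη)).and
    ((tendsto_natCast_atTop_atTop (R := ℝ)).eventually_ge_atTop
      (-W (vec (Af (dm (fun u => ρ (R (u - 0))) 0 c))) ω / (η / 2))))
  refine ⟨N, fun n hn i hi => ?_⟩
  have a1 := (hN n hn).1 i (by push_cast; linarith [nr i])
  have a2 := (hN n hn).2
  rw [div_le_iff₀ (half_pos hη)] at a2
  simp only [e, dm_iso, vecAf_comb hd1 (test_dm t0 _ _) (test_dm t0 _ _) (int_dm t0 _ _)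
    (int_dm t0 _ _), map_add, map_smul, Pi.add_apply, Pi.smul_apply, smul_eq_mul]
  linarith

omit [MeasurableSpace Ω] in
theorem mem_thick {α γ : ℝ} {ω : Ω} {x : E d} {N : ℕ} (hγ : α * log 2 < γ)
    (h : ∀ n, N ≤ n → γ * n ≤ fld Φ ρ ω n x) : x ∈ thick Φ ρ α ω := by
  refine le_liminf_of_le (u := fun n : ℕ => ((Φ (mol ρ n x) ω / (n * log 2) : ℝ) : EReal))
    (by isBoundedDefault) ?_
  filter_upwards [eventually_ge_atTop (N + 1), (tendsto_natCast_atTop_atTop (R := ℝ)).eventually_ge_atTop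
    (-Φ (mol ρ 0 0) ω / (γ - α * log 2))] with n h1 h2
  have h3 := h n (by omega)
  have h5 := log_pos one_lt_two
  have h6 : (0 : ℝ) < n := by exact_mod_cast (show 0 < n by omega)
  rw [div_le_iff₀ (sub_pos.2 hγ)] at h2
  rw [EReal.coe_le_coe_iff, le_div_iff₀ (by positivity)]
  unfold fld at h3
  linarith

omit [MeasurableSpace Ω] in
theorem of_thick {α γ : ℝ} {ω : Ω} {x : E d} (hγ : γ < α * log 2) (h : x ∈ thick Φ ρ α ω) :
    ∃ N : ℕ, ∀ n, N ≤ n → γ * n ≤ fld Φ ρ ω n x := by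
  have h5 := log_pos one_lt_two
  have h1 : (((α * log 2 + γ) / 2 / log 2 : ℝ) : EReal) < α := by
    rw [EReal.coe_lt_coe_iff, div_lt_iff₀ h5]
    linarith
  refine eventually_atTop.1 ?_
  filter_upwards [eventually_lt_of_lt_liminf (h1.trans_le h), eventually_ge_atTop 1,
    (tendsto_natCast_atTop_atTop (R := ℝ)).eventually_ge_atTop
      (Φ (mol ρ 0 0) ω / ((α * log 2 - γ) / 2))] with n h2 h3 h4
  have h6 : (0 : ℝ) < n := by exact_mod_cast h3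
  rw [div_le_iff₀ (by linarith)] at h4
  rw [EReal.coe_lt_coe_iff, div_lt_div_iff₀ h5 (by positivity), ← mul_assoc,
    mul_lt_mul_iff_left₀ h5] at h2
  unfold fld
  linarith

omit [MeasurableSpace Ω] in
theorem big_of {α γ : ℝ} {ω : Ω} (hγ : γ < α * log 2)
    (hc : ∀ n, Continuous fun x => Φ (mol ρ n x) ω)
    (h : ¬ IsTotallyDisconnected (thick Φ ρ α ω)) :
    ∃ k : ℕ, ∃ (N : ℕ) (K : Set (E d)), IsCompact K ∧ IsPreconnected K ∧
      (∀ x ∈ K, ∀ n, N ≤ n → γ * n ≤ fld Φ ρ ω n x) ∧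
      ∃ x ∈ K, ∃ y ∈ K, 1 / ((k : ℝ) + 1) ≤ dist x y := by
  let K : ℕ → Set (E d) := fun N => closedBall 0 N ∩ {x | ∀ n, N ≤ n → γ * n ≤ fld Φ ρ ω n x}
  have hK : ∀ N, IsCompact (K N) := fun N => (isCompact_closedBall _ _).inter_right (by
    simp only [ofPred_forall]
    exact isClosed_iInter fun n => isClosed_iInter fun _ =>
      isClosed_le continuous_const ((hc n).sub continuous_const))
  have hs : thick Φ ρ α ω ⊆ ⋃ N, K N := fun x hx => by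
    obtain ⟨N, hN⟩ := of_thick hγ hx
    obtain ⟨M, hM⟩ := exists_nat_ge ‖x‖
    exact mem_iUnion.2 ⟨max N M, mem_closedBall_zero_iff.2 (hM.trans (by simp)),
      fun n hn => hN n ((le_max_left _ _).trans hn)⟩
  obtain ⟨N, hN⟩ := not_forall.1 fun h0 => h fun t ht => sum_td hK h0 t (ht.trans hs)
  simp only [IsTotallyDisconnected, not_forall, not_subsingleton_iff] at hN
  obtain ⟨t, t1, t2, x, hx, y, hy, hxy⟩ := hN
  obtain ⟨k, hk⟩ := exists_nat_one_div_lt (dist_pos.2 hxy)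
  have t3 := closure_minimal t1 (hK N).isClosed
  exact ⟨k, N, closure t, (hK N).of_isClosed_subset isClosed_closure t3, t2.closure,
    fun z hz => (t3 hz).2, x, subset_closure hx, y, subset_closure hy, hk.le⟩

theorem soft (hd : 2 ≤ d) (hΦ : IsLGF P Φ) (hρ : Test ρ) (h1 : ∫ x, ρ x = 1)
    (hc : ∀ᵐ ω ∂P, ∀ n, Continuous fun x => Φ (mol ρ n x) ω) (hΦ' : IsLGF P' Φ') (hρ' : Test ρ')
    (h1' : ∫ x, ρ' x = 1) (hc' : ∀ᵐ ω ∂P', ∀ n, Continuous fun x => Φ' (mol ρ' n x) ω)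
    {α α' : ℝ} (hα : α' < α) (h : ¬ ∀ᵐ ω ∂P, IsTotallyDisconnected (thick Φ ρ α ω)) :
    ∀ᵐ ω ∂P', Dense (thick Φ' ρ' α' ω) ∧ IsPreconnected (thick Φ' ρ' α' ω) := by
  have h5 := log_pos one_lt_two
  set β := (α + α') / 2 * log 2 with hβ
  have b1 : β < α * log 2 := mul_lt_mul_of_pos_right (by linarith) h5
  have b2 : α' * log 2 < β := mul_lt_mul_of_pos_right (by linarith) h5
  obtain ⟨k0, hk0⟩ := exists_nat_one_div_lt (sub_pos.2 b2)
  obtain ⟨k, hk⟩ : ∃ k : ℕ, ¬ ∀ᵐ ω ∂P, ¬ ∃ (N : ℕ) (K : Set (E d)), IsCompact K ∧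
      IsPreconnected K ∧ (∀ x ∈ K, ∀ n, N ≤ n → β * n ≤ fld Φ ρ ω n x) ∧
      ∃ x ∈ K, ∃ y ∈ K, 1 / ((k : ℝ) + 1) ≤ dist x y := by
    refine not_forall.1 fun h0 => h ?_
    filter_upwards [ae_all_iff.2 h0, hc] with ω c1 c2
    by_contra c3
    obtain ⟨k, hk⟩ := big_of b1 c2 c3
    exact c1 k hk
  have key : ∀ a b : E d, dist a b ≤ 1 / ((k : ℝ) + 1) → ∀ ε : ℝ, 0 < ε →
      ∀ᵐ ω ∂P', (fun t => fld Φ' ρ' ω t.1 (dy t.2)) ∈ JA dy β a b ε := by
    intro a b hab ε hε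
    obtain ⟨S, S1, S2⟩ := TopologicalSpace.exists_countable_dense
      {p : E d × E d // dist p.1 p.2 = dist a b}
    obtain ⟨s, hs⟩ : ∃ s : {p : E d × E d // dist p.1 p.2 = dist a b},
        ¬ ∀ᵐ ω ∂P, ¬ Cn (fld Φ ρ ω) β s.1.1 s.1.2 ε := by
      refine not_forall.1 fun h0 => hk ?_
      filter_upwards [(ae_ball_iff S1).2 fun s _ => h0 s] with ω c1
      rintro ⟨N, K, k1, k2, k3, x, hx, y, hy, k4⟩
      obtain ⟨z, hz, k5⟩ := k2.intermediate_value hx hy (f := fun z => dist x z)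
        (by fun_prop) (show dist a b ∈ Icc (dist x x) (dist x y) from
          ⟨by simp, hab.trans k4⟩)
      obtain ⟨s, s1, s2⟩ := S2.exists_dist_lt ⟨(x, z), k5⟩ hε
      rw [Subtype.dist_eq, Prod.dist_eq, max_lt_iff] at s2
      exact c1 s s1 ⟨N, K, k1, k2, k3, ⟨x, hx, s2.1⟩, z, hz, s2.2⟩
    have n1 : ‖b - a‖ = ‖s.1.2 - s.1.1‖ := by
      rw [← dist_eq_norm, ← dist_eq_norm, dist_comm b, dist_comm s.1.2, s.2]
    set R := Submodule.reflection (ℝ ∙ ((b - a) - (s.1.2 - s.1.1)))ᗮ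
    have r1 : R (b - a) = s.1.2 - s.1.1 := Submodule.reflection_sub n1
    refine core hd hΦ hρ h1 hc hΦ' hρ' h1' R (a - R.symm s.1.1) a b ?_
    rwa [sub_sub_cancel, R.apply_symm_apply, show b - (a - R.symm s.1.1) = b - a + R.symm s.1.1 by
      abel, map_add, r1, R.apply_symm_apply, sub_add_cancel]
  have all : ∀ᵐ ω ∂P', ∀ i j : ℕ × Zd d, ∀ m : ℕ, dist (dy i) (dy j) ≤ 1 / ((k : ℝ) + 1) →
      (fun t => fld Φ' ρ' ω t.1 (dy t.2)) ∈ JA dy β (dy i) (dy j) (1 / ((m : ℝ) + 1)) :=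
    ae_all_iff.2 fun i => ae_all_iff.2 fun j => ae_all_iff.2 fun m => by
      by_cases hij : dist (dy i) (dy j) ≤ 1 / ((k : ℝ) + 1)
      · exact (key _ _ hij _ Nat.one_div_pos_of_nat).mono fun _ h _ => h
      · exact Eventually.of_forall fun _ h => absurd h hij
  filter_upwards [all, hc'] with ω c1 c2
  refine glue dense_dy (Nat.one_div_pos_of_nat (n := k)) fun i j hij m => ?_
  obtain ⟨N, C, d1, d2, d3, d4⟩ := Jn_join (φ := fld Φ' ρ' ω)
    (fun n => (c2 n).sub continuous_const) (c1 i j m hij k0)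
  exact ⟨C, fun x hx => mem_thick (by linarith) (d2 x hx), d1, d3, d4⟩

end Pool.Agent.Lib.MP_a0a493_pr
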