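import Mathlib

/-! Topological lemmas: sum theorem, limits of chains, dense chains, gluing. -/

namespace Pool.Agent.Lib.MP_a0a493_pr

open Set Filter Metric Topology

variable {X : Type*} [MetricSpace X]

theorem sum_step {A B K : Set X} (hA : IsClosed A) (hB : IsClosed B) (hAB : Disjoint A B)
    (hK : IsCompact K) (ht : IsTotallyDisconnected K) :
    ∃ U V : Set X, IsOpen U ∧ IsOpen V ∧ Disjoint (closure U) (closure V) ∧ A ⊆ U ∧ B ⊆ V ∧
      K ⊆ U ∪ V := by
  have : CompactSpace K := isCompact_iff_compactSpace.1 hK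
  have : TotallyDisconnectedSpace K := totallyDisconnectedSpace_subtype_iff.2 ht
  obtain ⟨Z, hZ, h1, h2⟩ := exists_clopen_of_closed_subset_open (X := K)
    (Z := Subtype.val ⁻¹' A) (U := Subtype.val ⁻¹' Bᶜ) (hA.preimage continuous_subtype_val)
    (hB.isOpen_compl.preimage continuous_subtype_val)
    (fun x hx => disjoint_left.1 hAB hx)
  have cA : IsClosed (A ∪ Subtype.val '' Z) :=
    hA.union (hZ.1.isCompact.image continuous_subtype_val).isClosed
  have cB : IsClosed (B ∪ Subtype.val '' Zᶜ) :=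
    hB.union (hZ.compl.1.isCompact.image continuous_subtype_val).isClosed
  have hd : A ∪ Subtype.val '' Z ⊆ (B ∪ Subtype.val '' Zᶜ)ᶜ := by
    rintro x (hx | ⟨z, hz, rfl⟩) (hy | ⟨w, hw, e⟩)
    · exact disjoint_left.1 hAB hx hy
    · exact hw (h1 (show (w : X) ∈ A from e ▸ hx))
    · exact h2 hz hy
    · exact hw (Subtype.val_injective e ▸ hz)
  obtain ⟨U, hU, a1, a2⟩ := normal_exists_closure_subset cA cB.isOpen_compl hd
  obtain ⟨V, hV, b1, b2⟩ := normal_exists_closure_subset cB isClosed_closure.isOpen_compl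
    (subset_compl_comm.1 a2)
  refine ⟨U, V, hU, hV, disjoint_left.2 fun x hx hy => b2 hy hx, subset_union_left.trans a1,
    subset_union_left.trans b1, fun x hx => ?_⟩
  by_cases hz : (⟨x, hx⟩ : K) ∈ Z
  · exact Or.inl (a1 (Or.inr ⟨_, hz, rfl⟩))
  · exact Or.inr (b1 (Or.inr ⟨_, hz, rfl⟩))

/-- a countable union of compact totally disconnected sets is totally disconnected -/
theorem sum_td {K : ℕ → Set X} (hK : ∀ n, IsCompact (K n))
    (ht : ∀ n, IsTotallyDisconnected (K n)) : IsTotallyDisconnected (⋃ n, K n) := by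
  intro t hs hc a ha b hb
  by_contra hab
  let S := {p : Set X × Set X // IsOpen p.1 ∧ IsOpen p.2 ∧ Disjoint (closure p.1) (closure p.2)}
  have st : ∀ (n : ℕ) (p : S), ∃ q : S, p.1.1 ⊆ q.1.1 ∧ p.1.2 ⊆ q.1.2 ∧ K n ⊆ q.1.1 ∪ q.1.2 := by
    intro n p
    obtain ⟨U, V, h1, h2, h3, h4, h5, h6⟩ :=
      sum_step isClosed_closure isClosed_closure p.2.2.2 (hK n) (ht n)
    exact ⟨⟨(U, V), h1, h2, h3⟩, subset_closure.trans h4, subset_closure.trans h5, h6⟩
  choose f f1 f2 f3 using st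
  obtain ⟨U, V, h1, h2, h3, h4, h5, -⟩ := sum_step (A := {a}) (B := {b}) isClosed_singleton
    isClosed_singleton (disjoint_singleton.2 hab) (hK 0) (ht 0)
  let s : ℕ → S := fun n => Nat.rec ⟨(U, V), h1, h2, h3⟩ f n
  have m1 : Monotone fun n => (s n).1.1 := monotone_nat_of_le_succ fun n => f1 n (s n)
  have m2 : Monotone fun n => (s n).1.2 := monotone_nat_of_le_succ fun n => f2 n (s n)
  obtain ⟨x, -, hx, hy⟩ := hc (⋃ n, (s n).1.1) (⋃ n, (s n).1.2)
    (isOpen_iUnion fun n => (s n).2.1) (isOpen_iUnion fun n => (s n).2.2.1)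
    (fun x hx => by
      obtain ⟨n, hn⟩ := mem_iUnion.1 (hs hx)
      exact (f3 n (s n) hn).imp (fun h => mem_iUnion.2 ⟨n + 1, h⟩) fun h => mem_iUnion.2 ⟨n + 1, h⟩)
    ⟨a, ha, mem_iUnion.2 ⟨0, h4 rfl⟩⟩ ⟨b, hb, mem_iUnion.2 ⟨0, h5 rfl⟩⟩
  obtain ⟨i, hi⟩ := mem_iUnion.1 hx
  obtain ⟨j, hj⟩ := mem_iUnion.1 hy
  exact disjoint_left.1 (s (max i j)).2.2.2 (subset_closure (m1 (le_max_left i j) hi))
    (subset_closure (m2 (le_max_right i j) hj))

/-- finer and finer chains in a decreasing family of compact sets give a connected set -/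
theorem limit_join {G : ℕ → Set X} (hG : ∀ n, IsCompact (G n)) (ha : Antitone G) {A B : Set X}
    (hA : IsClosed A) (hB : IsClosed B)
    (h : ∀ n, ∃ p ∈ A, ∃ q ∈ B, p ∈ G n ∧
      Relation.ReflTransGen (fun x y => y ∈ G n ∧ dist x y ≤ 1 / ((n : ℝ) + 1)) p q) :
    ∃ C ⊆ ⋂ n, G n, IsPreconnected C ∧ (∃ a ∈ C, a ∈ A) ∧ ∃ b ∈ C, b ∈ B := by
  choose p h0 q h1 h2 h3 using h
  have h4 : ∀ n, q n ∈ G n := fun n => by
    have := h3 n
    generalize q n = y at this
    induction this with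
    | refl => exact h2 n
    | tail _ b _ => exact b.1
  obtain ⟨⟨a, b⟩, -, φ, hφ, ht⟩ := ((hG 0).prod (hG 0)).tendsto_subseq (x := fun n => (p n, q n))
    fun n => ⟨ha (Nat.zero_le n) (h2 n), ha (Nat.zero_le n) (h4 n)⟩
  have ta : Tendsto (fun n => p (φ n)) atTop (𝓝 a) := (continuous_fst.tendsto _).comp ht
  have tb : Tendsto (fun n => q (φ n)) atTop (𝓝 b) := (continuous_snd.tendsto _).comp ht
  have hm : ∀ {x : ℕ → X} {c : X}, (∀ n, x n ∈ G n) → Tendsto (fun n => x (φ n)) atTop (𝓝 c) →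
      c ∈ ⋂ n, G n := fun hx hc => mem_iInter.2 fun n => (hG n).isClosed.mem_of_tendsto hc
    ((eventually_ge_atTop n).mono fun k hk => ha (hk.trans (hφ.id_le k)) (hx _))
  have ma := hm h2 ta
  have mb := hm h4 tb
  have hK : IsCompact (⋂ n, G n) :=
    (hG 0).of_isClosed_subset (isClosed_iInter fun n => (hG n).isClosed) (iInter_subset _ 0)
  refine ⟨_, connectedComponentIn_subset _ a, isPreconnected_connectedComponentIn,
    ⟨a, mem_connectedComponentIn ma, hA.mem_of_tendsto ta (Eventually.of_forall fun n => h0 _)⟩,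
    b, ?_, hB.mem_of_tendsto tb (Eventually.of_forall fun n => h1 _)⟩
  by_contra hb
  have : CompactSpace (⋂ n, G n : Set X) := isCompact_iff_compactSpace.1 hK
  rw [connectedComponentIn_eq_image ma, connectedComponent_eq_iInter_isClopen] at hb
  obtain ⟨⟨Z, hZ, haZ⟩, hbZ⟩ : ∃ Z : {Z : Set (⋂ n, G n : Set X) // IsClopen Z ∧ ⟨a, ma⟩ ∈ Z},
      ⟨b, mb⟩ ∉ Z.1 := by
    by_contra hn
    exact hb ⟨⟨b, mb⟩, mem_iInter.2 fun Z => by_contra fun h => hn ⟨Z, h⟩, rfl⟩
  have cA : IsCompact (Subtype.val '' Z) := hZ.1.isCompact.image continuous_subtype_val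
  have cB : IsCompact (Subtype.val '' Zᶜ) := hZ.compl.1.isCompact.image continuous_subtype_val
  obtain ⟨γ, hγ, hd⟩ := (disjoint_image_of_injective Subtype.val_injective
    (disjoint_compl_right (a := Z))).exists_thickenings cA cB.isClosed
  have hs : 0 < γ / 2 := half_pos hγ
  obtain ⟨N, hN⟩ := exists_subset_nhds_of_isCompact' (V := G) (ha.directed_ge) hG
    (fun n => (hG n).isClosed)
    (U := thickening (γ / 2) (Subtype.val '' Z) ∪ thickening (γ / 2) (Subtype.val '' Zᶜ))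
    fun x hx => (isOpen_thickening.union isOpen_thickening).mem_nhds (by
      by_cases hz : (⟨x, hx⟩ : (⋂ n, G n : Set X)) ∈ Z
      · exact Or.inl (self_subset_thickening hs _ ⟨_, hz, rfl⟩)
      · exact Or.inr (self_subset_thickening hs _ ⟨_, hz, rfl⟩))
  obtain ⟨n, e1, e2, e3, e4⟩ := ((ta.eventually (isOpen_thickening.mem_nhds
    (self_subset_thickening hs _ (mem_image_of_mem Subtype.val haZ)))).and
    ((tb.eventually (isOpen_thickening.mem_nhds
    (self_subset_thickening hs _ (mem_image_of_mem Subtype.val (show _ ∈ Zᶜ from hbZ))))).and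
    ((eventually_ge_atTop N).and (((tendsto_one_div_add_atTop_nhds_zero_nat (𝕜 := ℝ)).comp
      hφ.tendsto_atTop).eventually (gt_mem_nhds hs))))).exists
  have key : ∀ y, Relation.ReflTransGen (fun x y => y ∈ G (φ n) ∧ dist x y ≤ 1 / ((φ n : ℝ) + 1))
      (p (φ n)) y → y ∈ thickening (γ / 2) (Subtype.val '' Z) := by
    intro y hy
    induction hy with
    | refl => exact e1
    | @tail x y _ hxy ih =>
      refine (hN (ha (e3.trans (hφ.id_le n)) hxy.1)).resolve_right fun hy => ?_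
      obtain ⟨z, hz, hxz⟩ := mem_thickening_iff.1 ih
      refine disjoint_left.1 hd (mem_thickening_iff.2 ⟨z, hz, ?_⟩)
        (thickening_mono (half_le_self hγ.le) _ hy)
      have e5 : 1 / ((φ n : ℝ) + 1) < γ / 2 := e4
      linarith [dist_triangle y x z, dist_comm x y, hxy.2]
  exact disjoint_left.1 hd (thickening_mono (half_le_self hγ.le) _ (key _ (h3 _)))
    (thickening_mono (half_le_self hγ.le) _ e2)

/-- a continuum is followed by chains of a dense family -/
theorem dense_chain {D : Type*} {e : D → X} (he : DenseRange e) {K O : Set X} (hK : IsCompact K)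
    (hc : IsPreconnected K) (hO : IsOpen O) (hKO : K ⊆ O) {δ ε : ℝ} (hδ : 0 < δ) {a b x y : X}
    (hx : x ∈ K) (hy : y ∈ K) (ha : dist x a < ε) (hb : dist y b < ε) :
    ∃ p q, dist (e p) a ≤ ε ∧ dist (e q) b ≤ ε ∧ e p ∈ O ∧
      Relation.ReflTransGen (fun i j => e j ∈ O ∧ dist (e i) (e j) ≤ δ) p q := by
  obtain ⟨r0, r0p, hr0⟩ := hK.exists_thickening_subset_open hO hKO
  set r := min r0 (δ / 2) with hr
  have rp : 0 < r := lt_min r0p (half_pos hδ)
  have hin : ∀ z ∈ K, ∀ i, dist (e i) z < r → e i ∈ O := fun z hz i hi =>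
    hr0 (mem_thickening_iff.2 ⟨z, hz, hi.trans_le (min_le_left _ _)⟩)
  obtain ⟨p, hp⟩ := he.exists_dist_lt x (lt_min rp (sub_pos.2 ha))
  obtain ⟨q, hq⟩ := he.exists_dist_lt y (lt_min rp (sub_pos.2 hb))
  rw [lt_min_iff, dist_comm] at hp hq
  refine ⟨p, q, by linarith [dist_triangle (e p) x a, hp.2],
    by linarith [dist_triangle (e q) y b, hq.2], hin x hx p hp.1, ?_⟩
  by_contra hn
  let R : D → Prop := fun j => Relation.ReflTransGen (fun i j => e j ∈ O ∧ dist (e i) (e j) ≤ δ) p j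
  obtain ⟨z, hz, h1, h2⟩ := hc (⋃ i, ⋃ _ : R i, ball (e i) r) (⋃ i, ⋃ _ : ¬ R i, ball (e i) r)
    (isOpen_iUnion fun _ => isOpen_iUnion fun _ => isOpen_ball)
    (isOpen_iUnion fun _ => isOpen_iUnion fun _ => isOpen_ball)
    (fun z _ => by
      obtain ⟨i, hi⟩ := he.exists_dist_lt z rp
      by_cases h : R i
      · exact Or.inl (mem_iUnion₂.2 ⟨i, h, hi⟩)
      · exact Or.inr (mem_iUnion₂.2 ⟨i, h, hi⟩))
    ⟨x, hx, mem_iUnion₂.2 ⟨p, Relation.ReflTransGen.refl, mem_ball'.2 hp.1⟩⟩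
    ⟨y, hy, mem_iUnion₂.2 ⟨q, hn, mem_ball'.2 hq.1⟩⟩
  obtain ⟨i, hi, i2⟩ := mem_iUnion₂.1 h1
  obtain ⟨j, hj, j2⟩ := mem_iUnion₂.1 h2
  rw [mem_ball'] at i2 j2
  refine hj (Relation.ReflTransGen.tail hi ⟨hin z hz j j2, ?_⟩)
  linarith [dist_triangle_right (e i) (e j) z, min_le_right r0 (δ / 2)]

/-- if close small balls are always joined inside `T`, then `T` is dense and connected -/
theorem glue [PreconnectedSpace X] {D : Type*} {e : D → X} (he : DenseRange e) {T : Set X} {δ : ℝ}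
    (hδ : 0 < δ) (h : ∀ i j, dist (e i) (e j) ≤ δ → ∀ k : ℕ, ∃ C ⊆ T, IsPreconnected C ∧
      (∃ x ∈ C, dist x (e i) ≤ 1 / ((k : ℝ) + 1)) ∧ ∃ y ∈ C, dist y (e j) ≤ 1 / ((k : ℝ) + 1)) :
    Dense T ∧ IsPreconnected T := by
  have hd : Dense T := by
    refine Metric.dense_iff.2 fun z r hr => ?_
    obtain ⟨i, hi⟩ := he.exists_dist_lt z (half_pos hr)
    obtain ⟨k, hk⟩ := exists_nat_one_div_lt (half_pos hr)
    obtain ⟨C, h1, -, ⟨x, hx, h2⟩, -⟩ := h i i (by simpa using hδ.le) k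
    refine ⟨x, ?_, h1 hx⟩
    rw [mem_ball]
    linarith [dist_triangle_right x z (e i)]
  refine ⟨hd, fun u v hu hv huv h1 h2 => ?_⟩
  by_contra hn
  have far : ∀ x ∈ T ∩ u, ∀ y ∈ T ∩ v, δ / 2 ≤ dist x y := by
    intro x hx y hy
    by_contra hl
    obtain ⟨r1, r1p, hr1⟩ := Metric.isOpen_iff.1 hu x hx.2
    obtain ⟨r2, r2p, hr2⟩ := Metric.isOpen_iff.1 hv y hy.2
    have rp : 0 < min (min r1 r2) δ / 4 := by positivity
    have a1 := (min_le_left (min r1 r2) δ).trans (min_le_left r1 r2)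
    have a2 := (min_le_left (min r1 r2) δ).trans (min_le_right r1 r2)
    have a3 := min_le_right (min r1 r2) δ
    obtain ⟨i, hi⟩ := he.exists_dist_lt x rp
    obtain ⟨j, hj⟩ := he.exists_dist_lt y rp
    obtain ⟨k, hk⟩ := exists_nat_one_div_lt rp
    obtain ⟨C, c1, c2, ⟨x', hx', c3⟩, y', hy', c4⟩ := h i j (by
      linarith [dist_triangle4_left (e i) (e j) x y, dist_triangle_left (e i) (e j) x,
        dist_triangle x y (e j), not_le.1 hl]) k
    obtain ⟨z, hz, hz'⟩ := c2 u v hu hv (c1.trans huv)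
      ⟨x', hx', hr1 (mem_ball.2 (by linarith [dist_triangle_right x' x (e i)]))⟩
      ⟨y', hy', hr2 (mem_ball.2 (by linarith [dist_triangle_right y' y (e j)]))⟩
    exact hn ⟨z, c1 hz, hz'⟩
  obtain ⟨z, -, z1, z2⟩ := isPreconnected_closed_iff.1 (isPreconnected_univ (α := X))
    (closure (T ∩ u)) (closure (T ∩ v)) isClosed_closure isClosed_closure
    (by
      rw [← closure_union, ← inter_union_distrib_left, inter_eq_left.2 huv, hd.closure_eq])
    (by simpa using h1) (by simpa using h2)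
  obtain ⟨x, hx, b1⟩ := Metric.mem_closure_iff.1 z1 (δ / 4) (by positivity)
  obtain ⟨y, hy, b2⟩ := Metric.mem_closure_iff.1 z2 (δ / 4) (by positivity)
  linarith [far x hx y hy, dist_triangle_left x y z]

end Pool.Agent.Lib.MP_a0a493_pr
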