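import Pool.Agent.Lib.MP_a0a493_pr.Field

/-! The random sheet and its atoms. -/

namespace Pool.Agent.Lib.MP_a0a493_pr

open MeasureTheory Real Set
open scoped InnerProductSpace

/-- the sign attached to a boolean -/
def sg (b : Bool) : ℝ := if b then 1 else -1

theorem abs_sg (b : Bool) : |sg b| = 1 := by cases b <;> simp [sg]

theorem sg_mul_self (b : Bool) : sg b * sg b = 1 := by cases b <;> simp [sg]

theorem sg_mul_abs (t : ℝ) : sg (decide (0 ≤ t)) * |t| = t := by
  by_cases h : 0 ≤ t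
  · simp [sg, h, abs_of_nonneg h]
  · simp [sg, h, abs_of_neg (not_le.1 h)]

/-- the cells and the length scales -/
structure Cfg (d : ℕ) (A : Type) where
  lev : A → ℕ
  c : A → E d
  l : A → ℝ
  r : ℕ → ℝ
  h0 : E d → ℝ
  rpos : ∀ i, 0 < r i
  rsucc : ∀ i, r (i + 1) = r i / 4
  rl : ∀ a, r (lev a) ≤ l a
  sep : ∀ a b, a ≠ b → lev a = lev b → (d + 3) * l a + (d + 3) * l b ≤ dist (c a) (c b)
  lip : ∀ u v, |h0 u - h0 v| ≤ 6 * (dist u v / r 0)
  cont : Continuous h0

namespace Cfg

variable {d : ℕ} {A : Type} (C : Cfg d A)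

theorem lpos (a : A) : 0 < C.l a := (C.rpos _).trans_le (C.rl a)

/-- the plateau function of a cell -/
noncomputable def pl (a : A) (u : E d) : ℝ := max 0 (min 1 (d + 3 - dist u (C.c a) / C.l a))

theorem pl_nonneg (a : A) (u : E d) : 0 ≤ C.pl a u := le_max_left _ _

theorem pl_le (a : A) (u : E d) : C.pl a u ≤ 1 := max_le zero_le_one (min_le_left _ _)

theorem pl_lt {a : A} {u : E d} (h : C.pl a u ≠ 0) : dist u (C.c a) < (d + 3) * C.l a := by
  by_contra h1
  have := (le_div_iff₀ (C.lpos a)).2 (not_lt.1 h1)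
  exact h (max_eq_left (min_le_of_right_le (by linarith)))

theorem pl_one {a : A} {u : E d} (h : dist u (C.c a) ≤ (d + 2) * C.l a) : C.pl a u = 1 := by
  have := (div_le_iff₀ (C.lpos a)).2 h
  rw [pl, min_eq_left (by linarith), max_eq_right zero_le_one]

theorem pl_lip (a : A) (u v : E d) : |C.pl a u - C.pl a v| ≤ dist u v / C.r (C.lev a) := by
  refine (abs_max_sub_max_le_max _ _ _ _).trans (max_le (by
    rw [sub_self, abs_zero]; exact div_nonneg dist_nonneg (C.rpos _).le)
    ((abs_min_sub_min_le_max _ _ _ _).trans (max_le (by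
    rw [sub_self, abs_zero]; exact div_nonneg dist_nonneg (C.rpos _).le) ?_)))
  rw [sub_sub_sub_cancel_left, ← sub_div, abs_div, abs_of_pos (C.lpos a), abs_sub_comm]
  exact div_le_div₀ dist_nonneg (abs_dist_sub_le _ _ _) (C.rpos _) (C.rl a)

variable [Fintype A]

/-- the displacement at a level -/
noncomputable def ss (σ : A → Bool) (i : ℕ) (u : E d) : ℝ :=
  ∑ a with C.lev a = i, sg (σ a) * C.pl a u

theorem ss_eq (σ : A → Bool) {a : A} {u : E d} (h : C.pl a u ≠ 0) :
    C.ss σ (C.lev a) u = sg (σ a) * C.pl a u := by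
  refine Finset.sum_eq_single_of_mem a (by simp) fun b hb hba => ?_
  by_contra h1
  have := C.sep b a hba (Finset.mem_filter.1 hb).2
  linarith [C.pl_lt h, C.pl_lt (right_ne_zero_of_mul h1), dist_triangle_left (C.c b) (C.c a) u]

theorem ss_cases (σ : A → Bool) (i : ℕ) (u : E d) : C.ss σ i u = 0 ∨
    ∃ a, C.lev a = i ∧ C.pl a u ≠ 0 ∧ C.ss σ i u = sg (σ a) * C.pl a u := by
  by_cases h : ∃ a, C.lev a = i ∧ C.pl a u ≠ 0
  · obtain ⟨a, rfl, ha⟩ := h
    exact Or.inr ⟨a, rfl, ha, C.ss_eq σ ha⟩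
  · refine Or.inl (Finset.sum_eq_zero fun a ha => ?_)
    rw [not_not.1 fun h1 => h ⟨a, (Finset.mem_filter.1 ha).2, h1⟩, mul_zero]

theorem ss_abs (σ : A → Bool) (i : ℕ) (u : E d) : |C.ss σ i u| ≤ 1 := by
  rcases C.ss_cases σ i u with h | ⟨a, -, -, h⟩
  · simp [h]
  · rw [h, abs_mul, abs_sg, one_mul, abs_of_nonneg (C.pl_nonneg a u)]; exact C.pl_le a u

theorem ss_lip (σ : A → Bool) (i : ℕ) (u v : E d) :
    |C.ss σ i u - C.ss σ i v| ≤ 2 * (dist u v / C.r i) := by
  have h0 : 0 ≤ dist u v / C.r i := div_nonneg dist_nonneg (C.rpos _).le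
  by_cases h : ∃ a, C.lev a = i ∧ C.pl a u ≠ 0 ∧ C.pl a v ≠ 0
  · obtain ⟨a, rfl, h1, h2⟩ := h
    rw [C.ss_eq σ h1, C.ss_eq σ h2, ← mul_sub, abs_mul, abs_sg, one_mul]
    linarith [C.pl_lip a u v]
  · have key : ∀ u v, (¬ ∃ a, C.lev a = i ∧ C.pl a u ≠ 0 ∧ C.pl a v ≠ 0) →
        |C.ss σ i u| ≤ dist u v / C.r i := fun u v h => by
      rcases C.ss_cases σ i u with h1 | ⟨a, rfl, h1, h2⟩
      · rw [h1, abs_zero]; exact div_nonneg dist_nonneg (C.rpos _).le
      · have := C.pl_lip a u v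
        rwa [h2, abs_mul, abs_sg, one_mul, ← sub_zero (C.pl a u),
          ← not_not.1 fun h3 => h ⟨a, rfl, h1, h3⟩]
    have a := key u v h
    have b := key v u fun ⟨a, h1, h2, h3⟩ => h ⟨a, h1, h3, h2⟩
    rw [dist_comm] at b
    linarith [abs_sub (C.ss σ i u) (C.ss σ i v)]

/-- the sheet function after a number of levels -/
noncomputable def hh (σ : A → Bool) : ℕ → E d → ℝ
  | 0, u => C.h0 u
  | i + 1, u => 3 * (hh σ i u - C.ss σ i u)

theorem hh_lip (σ : A → Bool) (i : ℕ) (u v : E d) :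
    |C.hh σ i u - C.hh σ i v| ≤ 6 * (dist u v / C.r i) := by
  induction i with
  | zero => exact C.lip u v
  | succ i ih =>
    have a := abs_le.1 (C.ss_lip σ i u v)
    have b := abs_le.1 ih
    have e : dist u v / C.r (i + 1) = 4 * (dist u v / C.r i) := by
      rw [C.rsucc, div_div_eq_mul_div]; ring
    simp only [hh]
    rw [e, abs_le]
    constructor <;> linarith

theorem hh_cont (σ : A → Bool) (i : ℕ) : Continuous (C.hh σ i) := by
  induction i with
  | zero => exact C.cont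
  | succ i ih =>
    show Continuous fun u => 3 * (C.hh σ i u - ∑ a with C.lev a = i, sg (σ a) * C.pl a u)
    unfold pl
    fun_prop

theorem hh_big (σ : A → Bool) (b : Bool) (u : E d) {i j : ℕ} (hij : i ≤ j)
    (h : 3 / 2 ≤ sg b * C.hh σ i u) : 3 / 2 ≤ sg b * C.hh σ j u := by
  induction j, hij using Nat.le_induction with
  | base => exact h
  | succ j _ ih =>
    have a := abs_le.1 (C.ss_abs σ j u)
    cases b <;> simp only [hh, sg] at ih ⊢ <;> norm_num at ih ⊢ <;> linarith

theorem hh_small (σ : A → Bool) (u : E d) {i j : ℕ} (hij : i ≤ j) (h : |C.hh σ j u| < 3 / 2) :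
    |C.hh σ i u| < 3 / 2 := by
  have a := mt (C.hh_big σ true u hij)
  have b := mt (C.hh_big σ false u hij)
  rw [abs_lt] at h ⊢
  simp only [sg, not_le] at a b
  norm_num at a b
  constructor <;> linarith [a h.2, b (by linarith)]

theorem hh_dep {σ σ' : A → Bool} (i : ℕ) (h : ∀ b, C.lev b < i → σ b = σ' b) :
    C.hh σ i = C.hh σ' i := by
  induction i with
  | zero => rfl
  | succ i ih =>
    funext u
    simp only [hh, ss, ih fun b hb => h b (Nat.lt_succ_of_lt hb)]
    rw [Finset.sum_congr rfl fun a ha => by rw [h a (by simp at ha; omega)]]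

theorem hh_sign (σ : A → Bool) {a : A} {x u : E d} (h : |C.hh σ (C.lev a + 1) x| < 3 / 2)
    (hx : dist x (C.c a) ≤ (d + 2) * C.l a) (hu : dist x u ≤ C.r (C.lev a) / 16) :
    decide (0 ≤ C.hh σ (C.lev a) u) = σ a := by
  have h1 := C.pl_one hx
  have h2 := C.ss_eq σ (h1 ▸ one_ne_zero : C.pl a x ≠ 0)
  have h3 := abs_le.1 (C.hh_lip σ (C.lev a) x u)
  have h4 : dist x u / C.r (C.lev a) ≤ 1 / 16 := by
    rw [div_le_iff₀ (C.rpos _)]; linarith
  simp only [hh] at h
  rw [h2, h1, mul_one, abs_lt] at h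
  cases hs : σ a <;> simp only [hs, sg] at h <;> norm_num at h ⊢ <;> linarith

/-- the upper end of the range of scales of a level -/
noncomputable def t (i : ℕ) : ℝ := log (C.r i / 16)

omit [Fintype A] in
theorem exp_t (i : ℕ) : exp (C.t i) = C.r i / 16 := exp_log (div_pos (C.rpos i) (by norm_num))

omit [Fintype A] in
theorem t_succ (i : ℕ) : C.t (i + 1) = C.t i - log 4 := by
  have := C.rpos i
  rw [t, t, C.rsucc, ← log_div (by positivity) (by norm_num)]
  ring_nf

/-- normalising constant of an atom -/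
noncomputable def nc (a : A) : ℝ := (√(log 4 * (V1 d * ((d + 1) * C.l a) ^ d)))⁻¹

/-- the raw atom -/
noncomputable def atm (a : A) (σ : A → Bool) (p : ℝ × E d) : ℝ :=
  if C.t (C.lev a + 1) < p.1 ∧ p.1 ≤ C.t (C.lev a) then C.nc a * √(vb d p.1) *
    bi ((d + 1) * C.l a) (C.c a) p.2 * sg (decide (0 ≤ C.hh σ (C.lev a) p.2)) else 0

theorem log4 : 0 < log 4 := log_pos (by norm_num)

theorem atm_sq (a : A) (σ : A → Bool) (s : ℝ) :
    Integrable (fun u => C.atm a σ (s, u) * C.atm a σ (s, u)) ∧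
    ∫ u, C.atm a σ (s, u) * C.atm a σ (s, u) =
      vb d s * (Ioc (C.t (C.lev a + 1)) (C.t (C.lev a))).indicator (fun _ => (log 4)⁻¹) s := by
  by_cases h : C.t (C.lev a + 1) < s ∧ s ≤ C.t (C.lev a)
  · have hl := C.lpos a
    have hV := V1_pos d
    have h4 := log4
    have e : ∀ u, C.atm a σ (s, u) * C.atm a σ (s, u) =
        C.nc a * C.nc a * vb d s * bi ((d + 1) * C.l a) (C.c a) u := fun u => by
      simp only [atm, if_pos h]
      rw [mul_mul_mul_comm, sg_mul_self, mul_one, mul_mul_mul_comm, mul_mul_mul_comm (C.nc a),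
        mul_self_sqrt (vb_pos d s).le]
      unfold bi
      split_ifs <;> simp
    simp only [e]
    refine ⟨(integrable_bi _ _).const_mul _, ?_⟩
    rw [integral_const_mul, integral_bi (by positivity), indicator_of_mem (mem_Ioc.2 h), nc,
      ← mul_inv, mul_self_sqrt (by positivity)]
    field_simp
  · simp only [atm, if_neg h, indicator_of_notMem (mt mem_Ioc.1 h)]
    simp

theorem atm_ok (a : A) (σ : A → Bool) : Ok (C.atm a σ) := by
  have m : Measurable fun u => sg (decide (0 ≤ C.hh σ (C.lev a) u)) := by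
    simp only [sg, decide_eq_true_eq]
    exact Measurable.ite (measurableSet_le measurable_const (C.hh_cont σ _).measurable)
      measurable_const measurable_const
  have m2 : Measurable (C.atm a σ) := Measurable.ite (measurable_fst measurableSet_Ioc)
    (.mul (by fun_prop) (m.comp measurable_snd)) measurable_const
  have i : Integrable ((Ioc (C.t (C.lev a + 1)) (C.t (C.lev a))).indicator fun _ => (log 4)⁻¹) :=
    (integrable_indicator_iff measurableSet_Ioc).2 (integrableOn_const measure_Ioc_lt_top.ne)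
  exact (ok_of_bound m2 (fun s => (C.atm_sq a σ s).1) i fun s => (C.atm_sq a σ s).2.le).1

theorem atm_inner [DecidableEq A] (a b : A) (σ : A → Bool) (h : C.lev a = C.lev b) :
    ⟪vec (C.atm a σ), vec (C.atm b σ)⟫_ℝ = if a = b then 1 else 0 := by
  split_ifs with hab
  · subst hab
    have h4 := log4
    rw [inner_vec' (C.atm_ok a σ) (C.atm_ok a σ)]
    simp only [(C.atm_sq a σ _).2, ← mul_assoc, inv_mul_cancel₀ (vb_pos d _).ne', one_mul]
    rw [integral_indicator measurableSet_Ioc, setIntegral_const, Real.volume_real_Ioc, C.t_succ,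
      sub_sub_cancel, max_eq_left h4.le, smul_eq_mul, mul_inv_cancel₀ h4.ne']
  · refine inner_vec_zero fun p => ?_
    have := C.sep a b hab h
    unfold atm bi
    split_ifs with h1 h2 h3 h4
    · linarith [dist_triangle_right (C.c a) (C.c b) p.2, C.lpos a, C.lpos b]
    all_goals simp

theorem atm_coef (σ : A → Bool) {a : A} {x : E d} {β : ℝ} (h : |C.hh σ (C.lev a + 1) x| < 3 / 2)
    (h1 : 0 ≤ C.t (C.lev a + 1)) (h2 : C.t (C.lev a) ≤ β) :
    0 ≤ sg (σ a) * ⟪Ev 0 β x, vec (C.atm a σ)⟫_ℝ ∧ ∀ M, C.l a ≤ M * C.r (C.lev a) →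
      dist x (C.c a) ≤ d * C.l a →
      √(log 4 / (64 * (d + 1) * M) ^ d) ≤ sg (σ a) * ⟪Ev 0 β x, vec (C.atm a σ)⟫_ℝ := by
  have hl := C.lpos a
  have hr := C.rpos (C.lev a)
  have hV := V1_pos d
  have h4 := log4
  have hn : 0 < C.nc a := by unfold nc; positivity
  have he : ∀ s ≤ C.t (C.lev a), exp s ≤ C.r (C.lev a) / 16 := fun s hs =>
    (exp_le_exp.2 hs).trans (C.exp_t _).le
  have e : ∀ s u, ev 0 β x (s, u) * C.atm a σ (s, u) = sg (σ a) *
      if C.t (C.lev a + 1) < s ∧ s ≤ C.t (C.lev a) then C.nc a * √(vb d s) *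
        (bi (exp s) x u * bi ((d + 1) * C.l a) (C.c a) u) else 0 := fun s u => by
    simp only [atm, ev]
    by_cases hs : C.t (C.lev a + 1) < s ∧ s ≤ C.t (C.lev a)
    · rw [if_pos hs, if_pos hs, if_pos ⟨h1.trans_lt hs.1, hs.2.trans h2⟩]
      by_cases q1 : dist x u < exp s
      · by_cases q2 : dist (C.c a) u < (d + 1) * C.l a
        · rw [C.hh_sign σ h (by
            linarith [dist_triangle_right x (C.c a) u, he s hs.2, C.rl a]) (q1.le.trans (he s hs.2))]
          ring
        · simp [bi_zero (not_lt.1 q2)]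
      · simp [bi_zero (not_lt.1 q1)]
    · simp [if_neg hs]
  rw [Ev, inner_vec' (ok_ev _ _ _) (C.atm_ok a σ)]
  simp only [e, integral_const_mul, mul_left_comm _ (sg (σ a))]
  rw [← mul_assoc, sg_mul_self, one_mul]
  refine ⟨integral_nonneg fun s => mul_nonneg (inv_pos.2 (vb_pos d s)).le
    (integral_nonneg fun u => ?_), fun M hM hx => ?_⟩
  · have := mul_nonneg (bi_nonneg (exp s) x u) (bi_nonneg ((d + 1) * C.l a) (C.c a) u)
    simp only [Pi.zero_apply]
    split_ifs <;> positivity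
  have e2 : ∀ s, (vb d s)⁻¹ * ∫ u, (if C.t (C.lev a + 1) < s ∧ s ≤ C.t (C.lev a) then
      C.nc a * √(vb d s) * (bi (exp s) x u * bi ((d + 1) * C.l a) (C.c a) u) else 0) =
      (Ioc (C.t (C.lev a + 1)) (C.t (C.lev a))).indicator (fun s => C.nc a * √(vb d s)) s := by
    intro s
    by_cases hs : C.t (C.lev a + 1) < s ∧ s ≤ C.t (C.lev a)
    · have e3 : ∀ u, bi (exp s) x u * bi ((d + 1) * C.l a) (C.c a) u = bi (exp s) x u := fun u => by
        by_cases q1 : dist x u < exp s
        · rw [bi_one (x := C.c a), mul_one]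
          linarith [dist_triangle_left (C.c a) u x, he s hs.2, C.rl a]
        · rw [bi_zero (not_lt.1 q1), zero_mul]
      simp only [if_pos hs, e3]
      rw [integral_const_mul, integral_bi (exp_pos s), indicator_of_mem (mem_Ioc.2 hs), mul_comm,
        mul_assoc, ← vb, mul_inv_cancel₀ (vb_pos d s).ne', mul_one]
    · simp only [if_neg hs, indicator_of_notMem (mt mem_Ioc.1 hs)]
      simp
  simp only [e2]
  rw [integral_indicator measurableSet_Ioc]
  have i : IntegrableOn (fun s => C.nc a * √(vb d s)) (Ioc (C.t (C.lev a + 1)) (C.t (C.lev a))) :=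
    Continuous.integrableOn_Ioc (by unfold vb; fun_prop)
  refine le_trans ?_ (setIntegral_ge_of_const_le_real (c := C.nc a * √(vb d (C.t (C.lev a + 1))))
    measurableSet_Ioc measure_Ioc_lt_top.ne (fun s hs => ?_) i)
  · rw [Real.volume_real_Ioc, C.t_succ, sub_sub_cancel, max_eq_left h4.le, ← C.t_succ]
    have hM0 : 0 < M := pos_of_mul_pos_left (hl.trans_le hM) hr.le
    refine sqrt_le_iff.2 ⟨by positivity, ?_⟩
    rw [mul_pow _ (log 4), mul_pow (C.nc a), sq_sqrt (vb_pos d _).le, nc, inv_pow, sq_sqrt (by positivity), vb,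
      C.exp_t, C.rsucc, div_le_iff₀ (by positivity)]
    have q : ((d + 1) * C.l a) ^ d ≤ (C.r (C.lev a) / 4 / 16) ^ d * (64 * (d + 1) * M) ^ d := by
      rw [← mul_pow]
      refine pow_le_pow_left₀ (by positivity) ?_ d
      nlinarith [Nat.cast_nonneg (α := ℝ) d]
    calc _ = log 4 * ((d + 1) * C.l a) ^ d / ((d + 1) * C.l a) ^ d := by field_simp
      _ ≤ log 4 * ((C.r (C.lev a) / 4 / 16) ^ d * (64 * (d + 1) * M) ^ d) /
          ((d + 1) * C.l a) ^ d := by gcongr
      _ = _ := by field_simp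
  · have := hs.1.le
    unfold vb
    gcongr

end Cfg

end Pool.Agent.Lib.MP_a0a493_pr
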