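import Pool.Agent.Lib.MP_a0a493_pr.StA

/-! The first moment bound along one chain of cells. -/

namespace Pool.Agent.Lib.MP_a0a493_pr

open MeasureTheory ProbabilityTheory Real Set Filter Topology
open scoped InnerProductSpace

variable {Ω : Type*} [MeasurableSpace Ω] {P : Measure Ω} [IsProbabilityMeasure P]
  {H : Type*} [NormedAddCommGroup H] [InnerProductSpace ℝ H] {W : H →ₗ[ℝ] (Ω → ℝ)}

omit [InnerProductSpace ℝ H] in
theorem int_exp_le {v : H} {V : ℝ} (h : ‖v‖ ^ 2 ≤ V) :
    ∫ x, exp (1 * x) ∂gaussianReal 0 (‖v‖₊ ^ 2) ≤ exp (V / 2) := by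
  have := congrFun (mgf_fun_id_gaussianReal (μ := 0) (v := ‖v‖₊ ^ 2)) 1
  rw [mgf] at this
  rw [this]
  refine exp_le_exp.2 ?_
  push_cast
  linarith

/-- the weight of a step -/
noncomputable def wt (g γ θ b V0 V : ℝ) (s : Bool) : ℝ :=
  exp (γ ^ 2 * V0 / 2) *
    if s then exp (-(g * b) + (g ^ 2 + γ ^ 2) * V / 2) else exp (γ * b - b ^ 2 / (2 * V)) / θ

theorem Iso.blocks (h : Iso P W) (k : ℕ) (s : ℕ → Bool) (g0 : H) (y a a' : ℕ → H)
    (U : ℕ → Submodule ℝ H) {g γ θ b T0 V0 V : ℝ} (hg : 0 ≤ g) (hγ0 : 0 ≤ γ) (hV : 0 < V)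
    (hθ : 0 < θ) (hγ : γ = b / V + θ / √V) (hU : ∀ i j, i < j → U i ⟂ U j)
    (h0 : ∀ j, ∀ u ∈ U j, ⟪g0, u⟫_ℝ = 0) (hy : ∀ j, y j ∈ U j) (ha : ∀ j, a j ∈ U j)
    (ha' : ∀ j, a' j ∈ U j) (o1 : ∀ j, ⟪y j, a j⟫_ℝ = 0) (o2 : ∀ j, ⟪y j, a' j⟫_ℝ = 0)
    (o3 : ∀ j < k, s j = true → ⟪a' j, a j⟫_ℝ = 0) (n0 : ‖g0‖ ^ 2 ≤ T0)
    (n1 : ∀ j, ‖y j‖ ^ 2 ≤ V0) (n2 : ∀ j, ‖a j‖ ^ 2 = V) (n3 : ∀ j, ‖a' j‖ ^ 2 ≤ V) (t : ℝ) :
    P.real {ω | (∀ j < k, if s j then b ≤ W (a' j) ω else W (a j) ω ≤ b) ∧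
      t ≤ W (g0 + ∑ j ∈ Finset.range k, (y j + a j)) ω} ≤
      exp (-(γ * t) + γ ^ 2 * T0 / 2) * ∏ j : Fin k, wt g γ θ b V0 V (s j) := by
  classical
  let p : ℕ → Bool → H := fun j c =>
    if c then γ • y j + (1 : ℝ) • (if s j then g • a' j + γ • a j else 0)
    else if s j then 0 else a j
  let v : Option (Fin k × Bool) → H := fun o => o.elim (γ • g0) fun q => p q.1 q.2
  let f : Option (Fin k × Bool) → ℝ → ℝ := fun o => o.elim (fun x => exp (1 * x)) fun q =>
    if q.2 then fun x => exp (1 * x) else if s q.1 then fun _ => exp (-(g * b)) else tr γ b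
  have pU : ∀ j c, p j c ∈ U j := fun j c => by
    simp only [p]
    split_ifs
    · exact add_mem ((U j).smul_mem _ (hy j)) ((U j).smul_mem _
        (add_mem ((U j).smul_mem _ (ha' j)) ((U j).smul_mem _ (ha j))))
    · exact add_mem ((U j).smul_mem _ (hy j)) ((U j).smul_mem _ (zero_mem _))
    · exact zero_mem _
    · exact ha j
  have pp : ∀ j, ⟪p j true, p j false⟫_ℝ = 0 := fun j => by
    cases hs : s j <;> simp [p, hs, real_inner_smul_left, o1]
  have ho : ∀ i j, i ≠ j → ⟪v i, v j⟫_ℝ = 0 := by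
    rintro (_ | ⟨i, c⟩) (_ | ⟨j, c'⟩) hij
    · exact absurd rfl hij
    · show ⟪γ • g0, p j c'⟫_ℝ = 0
      rw [real_inner_smul_left, h0 j _ (pU j c'), mul_zero]
    · show ⟪p i c, γ • g0⟫_ℝ = 0
      rw [real_inner_comm, real_inner_smul_left, h0 i _ (pU i c), mul_zero]
    · show ⟪p i c, p j c'⟫_ℝ = 0
      rcases lt_trichotomy i j with e | rfl | e
      · exact (hU i j e).inner_eq (pU i c) (pU j c')
      · cases c <;> cases c'
        · exact absurd rfl hij
        · rw [real_inner_comm, pp]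
        · exact pp i
        · exact absurd rfl hij
      · exact (hU j i e).symm.inner_eq (pU i c) (pU j c')
  have key := h.prod_tail v ho f (by
    rintro (_ | ⟨j, c⟩) x
    · exact (exp_pos _).le
    · simp only [f, Option.elim]
      split_ifs
      · exact (exp_pos _).le
      · exact (exp_pos _).le
      · exact tr_nonneg _ _ _) (by
    rintro (_ | ⟨j, c⟩)
    · exact integrable_exp_mul_gaussianReal 1
    · simp only [f, Option.elim]
      split_ifs
      · exact integrable_exp_mul_gaussianReal 1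
      · exact integrable_const _
      · exact tr_int _ _ _) (exp (γ * t))
  have e1 : ∀ F : Option (Fin k × Bool) → ℝ, ∏ o, F o =
      F none * ∏ j : Fin k, (F (some (j, true)) * F (some (j, false))) := fun F => by
    rw [Fintype.prod_option, Fintype.prod_prod_type]
    simp only [Fintype.prod_bool]
  have b1 : ∏ o, ∫ x, f o x ∂gaussianReal 0 (‖v o‖₊ ^ 2) ≤
      exp (γ ^ 2 * T0 / 2) * ∏ j : Fin k, wt g γ θ b V0 V (s j) := by
    rw [e1]
    have nn : ∀ o, 0 ≤ ∫ x, f o x ∂gaussianReal 0 (‖v o‖₊ ^ 2) := by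
      rintro (_ | ⟨j, c⟩) <;> refine integral_nonneg fun x => ?_
      · exact (exp_pos _).le
      · simp only [f, Option.elim]
        split_ifs
        · exact (exp_pos _).le
        · exact (exp_pos _).le
        · exact tr_nonneg _ _ _
    refine mul_le_mul (int_exp_le (v := γ • g0) ?_) (Finset.prod_le_prod
      (fun j _ => mul_nonneg (nn _) (nn _)) fun j _ => ?_)
      (Finset.prod_nonneg fun j _ => mul_nonneg (nn _) (nn _)) (exp_pos _).le
    · rw [norm_smul, mul_pow, Real.norm_eq_abs, sq_abs]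
      exact mul_le_mul_of_nonneg_left n0 (sq_nonneg _)
    · have y0 := mul_le_mul_of_nonneg_left (n1 j) (sq_nonneg γ)
      cases hs : s j
      · have e2 : ‖p j true‖ ^ 2 ≤ γ ^ 2 * V0 := by
          simp only [p, hs, if_true, Bool.false_eq_true, if_false, smul_zero, add_zero]
          rwa [norm_smul, mul_pow, Real.norm_eq_abs, sq_abs]
        have e3 : ((‖a j‖₊ ^ 2 : NNReal) : ℝ) = V := by rw [← n2 j]; simp
        have e4 := tr_le (γ := γ) (b := b) (θ := θ) (v := ‖a j‖₊ ^ 2) (e3 ▸ hV) hθ (e3 ▸ hγ)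
        rw [e3] at e4
        simp only [wt, Bool.false_eq_true, if_false]
        refine mul_le_mul (int_exp_le e2) ?_ (nn _) (exp_pos _).le
        simpa only [f, v, p, Option.elim, hs, Bool.false_eq_true, if_false] using e4
      · have e2 : ‖p j true‖ ^ 2 ≤ γ ^ 2 * V0 + (g ^ 2 + γ ^ 2) * V := by
          have e5 : ⟪y j, g • a' j + γ • a j⟫_ℝ = 0 := by
            rw [inner_add_right, real_inner_smul_right, real_inner_smul_right, o1, o2]
            ring
          simp only [p, hs, if_true]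
          rw [orth_add e5, orth_add (o3 j j.2 hs), n2]
          linarith [mul_le_mul_of_nonneg_left (n3 j) (sq_nonneg g)]
        have e3 : ∫ x, f (some (j, false)) x ∂gaussianReal 0 (‖v (some (j, false))‖₊ ^ 2) =
            exp (-(g * b)) := by simp [f, hs]
        rw [e3]
        refine (mul_le_mul_of_nonneg_right (int_exp_le e2) (exp_pos _).le).trans_eq ?_
        simp only [wt, if_true, ← exp_add]
        ring_nf
  rw [exp_add, mul_assoc, exp_neg, le_inv_mul_iff₀ (exp_pos _)]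
  refine le_trans (mul_le_mul_of_nonneg_left (measureReal_mono ?_) (exp_pos _).le) (key.trans b1)
  rintro ω ⟨h1, h2⟩
  show exp (γ * t) ≤ _
  rw [e1]
  have b2 : ∀ j : Fin k, exp (γ * W (y j + a j) ω) ≤ f (some (j, true)) (W (v (some (j, true))) ω) *
      f (some (j, false)) (W (v (some (j, false))) ω) := fun j => by
    have h3 := h1 j j.2
    cases hs : s j
    · simp only [hs, Bool.false_eq_true, if_false] at h3
      simp only [f, v, p, Option.elim, hs, Bool.false_eq_true, if_false, if_true, tr, if_pos h3,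
        ← exp_add, smul_zero, add_zero, map_add, map_smul, Pi.add_apply, Pi.smul_apply,
        smul_eq_mul]
      exact le_of_eq (by ring_nf)
    · simp only [hs, if_true] at h3
      simp only [f, v, p, Option.elim, hs, Bool.false_eq_true, if_false, if_true,
        ← exp_add, map_add, map_smul, Pi.add_apply, Pi.smul_apply, smul_eq_mul]
      exact exp_le_exp.2 (by linarith [mul_le_mul_of_nonneg_left h3 hg])
  refine le_trans ?_ (mul_le_mul_of_nonneg_left (Finset.prod_le_prod
    (fun j _ => (exp_pos _).le) fun j _ => b2 j) (exp_pos _).le)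
  show _ ≤ exp (1 * W (γ • g0) ω) * _
  rw [← exp_sum, ← exp_add, ← Finset.mul_sum]
  refine exp_le_exp.2 ((mul_le_mul_of_nonneg_left h2 hγ0).trans_eq ?_)
  rw [Finset.sum_range]
  simp only [map_add, map_smul, map_sum, Pi.add_apply, Pi.smul_apply,
    Finset.sum_apply, smul_eq_mul]
  ring

end Pool.Agent.Lib.MP_a0a493_pr
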