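import Pool.Agent.Lib.MP_a0a493_pr.SThr

/-! Chains of cells on adaptively chosen spheres. -/

namespace Pool.Agent.Lib.MP_a0a493_pr

open Real Set

variable {d : ℕ}

/-- lattice points on the boundary of a cube -/
noncomputable def sph (d R : ℕ) : Finset (Zd d) :=
  Finset.univ.biUnion fun i => Fintype.piFinset fun j =>
    if j = i then {-(R : ℤ), (R : ℤ)} else Finset.Icc (-(R : ℤ)) R

theorem mem_sph {R : ℕ} {u : Zd d} : u ∈ sph d R ↔ (∀ j, |u j| ≤ R) ∧ ∃ i, |u i| = R := by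
  simp only [sph, Finset.mem_biUnion, Finset.mem_univ, true_and, Fintype.mem_piFinset]
  constructor
  · rintro ⟨i, h⟩
    have h1 : |u i| = R := by
      have := h i
      simp only [if_true, Finset.mem_insert, Finset.mem_singleton] at this
      rcases this with e | e <;> simp [e]
    refine ⟨fun j => ?_, i, h1⟩
    by_cases e : j = i
    · rw [e, h1]
    · have := h j
      rwa [if_neg e, Finset.mem_Icc, ← abs_le] at this
  · rintro ⟨h1, i, h2⟩
    refine ⟨i, fun j => ?_⟩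
    split_ifs with e
    · rw [e, Finset.mem_insert, Finset.mem_singleton]
      exact ((abs_eq (Nat.cast_nonneg _)).1 h2).symm
    · rw [Finset.mem_Icc, ← abs_le]
      exact h1 j

theorem card_sph (R : ℕ) : (sph d R).card ≤ d * (2 * (2 * R + 1) ^ (d - 1)) := by
  refine (Finset.card_biUnion_le_card_mul _ _ (2 * (2 * R + 1) ^ (d - 1)) fun i _ => ?_).trans
    (by simp)
  rw [Fintype.card_piFinset, ← Finset.mul_prod_erase _ _ (Finset.mem_univ i), if_pos rfl]
  refine Nat.mul_le_mul Finset.card_le_two ?_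
  rw [Finset.prod_congr rfl (g := fun _ => 2 * R + 1) fun j hj => by
    rw [if_neg (Finset.ne_of_mem_erase hj), Int.card_Icc]; omega]
  simp

/-- a step: which sphere, a witness, the next cell -/
abbrev Stp (d : ℕ) : Type := Bool × Zd d × Zd d

/-- the possible steps -/
noncomputable def Sts (d m : ℕ) : Finset (Stp d) :=
  {false} ×ˢ {0} ×ˢ sph d (2 * 2 ^ m) ∪ {true} ×ˢ sph d (2 * 2 ^ m) ×ˢ sph d (4 * 2 ^ m)

theorem of_St {m : ℕ} {s : Stp d} (h : s ∈ Sts d m) : (∀ i, |(s.2.2 i : ℝ)| ≤ 4 * 2 ^ m) ∧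
    (s.1 = true → ∃ i, 2 * 2 ^ m ≤ |(s.2.1 i : ℝ) - s.2.2 i|) := by
  simp only [Sts, Finset.mem_union, Finset.mem_product, Finset.mem_singleton, mem_sph] at h
  have p : (0 : ℤ) < 2 ^ m := by positivity
  rcases h with ⟨h1, -, h2, -⟩ | ⟨-, ⟨h1, -⟩, h2, i, h3⟩
  · refine ⟨fun i => ?_, fun e => by simp [h1] at e⟩
    have : |s.2.2 i| ≤ 4 * 2 ^ m := (h2 i).trans (by push_cast; omega)
    exact_mod_cast this
  · refine ⟨fun i => by exact_mod_cast h2 i, fun _ => ⟨i, ?_⟩⟩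
    have a := abs_sub_abs_le_abs_sub (s.2.2 i) (s.2.1 i)
    have b := h1 i
    rw [abs_sub_comm] at a
    have : 2 * 2 ^ m ≤ |s.2.1 i - s.2.2 i| := by push_cast at b h3; omega
    exact_mod_cast this

theorem sum_St (m : ℕ) (w : Bool → ℝ) (hw : ∀ b, 0 ≤ w b) :
    ∑ s ∈ Sts d m, w s.1 ≤ 2 * d * (9 * 2 ^ m) ^ (d - 1) * w false +
      (2 * d * (9 * 2 ^ m) ^ (d - 1)) ^ 2 * w true := by
  have c : ∀ R : ℕ, R ≤ 4 * 2 ^ m → ((sph d R).card : ℝ) ≤ 2 * d * (9 * 2 ^ m) ^ (d - 1) := by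
    intro R hR
    have p : 0 < 2 ^ m := by positivity
    have : (sph d R).card ≤ 2 * d * (9 * 2 ^ m) ^ (d - 1) := (card_sph R).trans (by
      rw [mul_comm 2 d, mul_assoc]
      gcongr
      omega)
    exact_mod_cast this
  have c2 := c (2 * 2 ^ m) (by omega)
  have c4 := c _ le_rfl
  rw [Sts, Finset.sum_union (Finset.disjoint_product.2 (Or.inl (by simp))), Finset.sum_product,
    Finset.sum_product]
  simp only [Finset.sum_singleton, Finset.sum_const, Finset.card_product, Finset.card_singleton,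
    one_mul, nsmul_eq_mul, Nat.cast_mul]
  rw [sq]
  have := hw false
  have := hw true
  gcongr

/-- the chain of cells -/
def cha (m : ℕ) (c : Zd d) (σ : ℕ → Stp d) : ℕ → Zd d
  | 0 => c
  | j + 1 => ((2 ^ m : ℕ) : ℤ) • cha m c σ j + (σ j).2.2

variable (n m : ℕ) (c : Zd d)

/-- the centres of the cells -/
noncomputable def zp (σ : ℕ → Stp d) (j : ℕ) : E d := yp (n + j * m) 0 (cha m c σ j)

/-- lattice points of the next level -/
noncomputable def kid (σ : ℕ → Stp d) (j : ℕ) (u : Zd d) : E d :=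
  yp (n + (j + 1) * m) (zp n m c σ j) u

theorem zp_succ (σ : ℕ → Stp d) (j : ℕ) : zp n m c σ (j + 1) = kid n m c σ j (σ j).2.2 := by
  rw [zp, kid, cha, yp_add, zp, ← yp_mul m (n + j * m)]
  congr 2
  ring

theorem zp_congr {σ σ' : ℕ → Stp d} {j : ℕ} (h : ∀ l < j, σ l = σ' l) :
    zp n m c σ j = zp n m c σ' j := by
  induction j with
  | zero => rfl
  | succ j ih =>
    rw [zp_succ, zp_succ, kid, kid, ih fun l hl => h l (by omega), h j (by omega)]

variable {n m c}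

theorem pw_succ (n m j : ℕ) : (2 : ℝ) ^ (n + (j + 1) * m) = 2 ^ (n + j * m) * 2 ^ m := by
  rw [← pow_add]; congr 1; ring

theorem zp_near (hm : 1 ≤ m) {σ : ℕ → Stp d} {j k : ℕ} (hj : j ≤ k) (h : ∀ l < k, σ l ∈ Sts d m)
    (i : Fin d) :
    |zp n m c σ k i - zp n m c σ j i| ≤ 8 / 2 ^ (n + j * m) - 8 / 2 ^ (n + k * m) := by
  induction k, hj using Nat.le_induction with
  | base => simp
  | succ k _ ih =>
    have a := ih fun l hl => h l (by omega)
    have p : (0 : ℝ) < 2 ^ (n + k * m) := by positivity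
    have q : (2 : ℝ) ≤ 2 ^ m := le_self_pow₀ one_le_two (by omega)
    have b : |zp n m c σ (k + 1) i - zp n m c σ k i| ≤ 4 / 2 ^ (n + k * m) := by
      rw [zp_succ, kid, yp_apply, add_sub_cancel_right, abs_div,
        abs_of_pos (show (0 : ℝ) < 2 ^ (n + (k + 1) * m) by positivity), pw_succ,
        div_le_div_iff₀ (by positivity) p]
      nlinarith [(of_St (h k (by omega))).1 i]
    have e : (8 : ℝ) / 2 ^ (n + (k + 1) * m) ≤ 4 / 2 ^ (n + k * m) := by
      rw [pw_succ, div_le_div_iff₀ (by positivity) p]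
      nlinarith
    have f : (8 : ℝ) / 2 ^ (n + k * m) = 4 / 2 ^ (n + k * m) + 4 / 2 ^ (n + k * m) := by ring
    linarith [abs_sub_le (zp n m c σ (k + 1) i) (zp n m c σ k i) (zp n m c σ j i)]

theorem cross_sph {K : Set (E d)} (hK : IsPreconnected K) (l : ℕ) (z : E d) {R : ℕ} (hR : 0 < R)
    {x y : E d} (hx : x ∈ K) (hy : y ∈ K) (h1 : ∀ i, |x i - z i| ≤ R / 2 ^ l)
    (h2 : ∃ i, R / 2 ^ l ≤ |y i - z i|) :
    ∃ u ∈ sph d R, ∃ w ∈ K, ∀ i, |w i - yp l z u i| ≤ 1 / 2 ^ l := by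
  have p : (0 : ℝ) < 2 ^ l := by positivity
  have r0 : (0 : ℝ) < R / 2 ^ l := by positivity
  obtain ⟨i, hi⟩ := h2
  obtain ⟨w, hw, e⟩ := hK.intermediate_value hx hy (f := fun w : E d => ‖fun i => w i - z i‖)
    (by fun_prop) (show (R / 2 ^ l : ℝ) ∈ Icc _ _ from
      ⟨(pi_norm_le_iff_of_nonneg r0.le).2 h1, hi.trans (norm_le_pi_norm (fun i => y i - z i) i)⟩)
  have a : ∀ i, |2 ^ l * (w i - z i)| ≤ R := fun i => by
    rw [abs_mul, abs_of_pos p, ← le_div_iff₀' p]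
    exact (pi_norm_le_iff_of_nonneg r0.le).1 e.le i
  obtain ⟨j, hj⟩ : ∃ j, |2 ^ l * (w j - z j)| = R := by
    by_contra! hc
    refine e.not_lt ((pi_norm_lt_iff r0).2 fun j => ?_)
    have := (a j).lt_of_ne (hc j)
    rwa [abs_mul, abs_of_pos p, ← lt_div_iff₀' p] at this
  refine ⟨fun i => ⌊2 ^ l * (w i - z i)⌋, mem_sph.2 ⟨fun i => abs_le.2 ⟨Int.le_floor.2 ?_,
    Int.floor_le_iff.2 ?_⟩, j, ?_⟩, w, hw, fun i => ?_⟩
  · push_cast; exact (abs_le.1 (a i)).1
  · push_cast; linarith [(abs_le.1 (a i)).2]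
  · rcases (abs_eq (Nat.cast_nonneg _)).1 hj with e | e
    · rw [e]; simp
    · rw [e, ← Int.cast_natCast, ← Int.cast_neg, Int.floor_intCast]; simp
  · have a1 := Int.floor_le (2 ^ l * (w i - z i))
    have a2 := Int.lt_floor_add_one (2 ^ l * (w i - z i))
    have e : w i - ((⌊2 ^ l * (w i - z i)⌋ : ℝ) / 2 ^ l + z i) =
        (2 ^ l * (w i - z i) - ⌊2 ^ l * (w i - z i)⌋) / 2 ^ l := by
      field_simp
      ring
    rw [yp_apply, e, abs_of_nonneg (div_nonneg (by linarith) p.le)]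
    gcongr
    linarith

variable (n m c) in
/-- admissible chains -/
def Adm (X : ℕ → E d → ℝ) (b : ℝ) (σ : ℕ → Stp d) (k : ℕ) : Prop :=
  ∀ j < k, σ j ∈ Sts d m ∧
    if (σ j).1 then b ≤ X j (kid n m c σ j (σ j).2.1) else X j (zp n m c σ (j + 1)) ≤ b

theorem Adm.congr {X : ℕ → E d → ℝ} {b : ℝ} {σ σ' : ℕ → Stp d} {k : ℕ} (h : Adm n m c X b σ k)
    (e : ∀ l < k, σ' l = σ l) : Adm n m c X b σ' k := fun j hj => by
  rw [kid, zp_congr n m c (σ' := σ) fun l hl => e l (by omega),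
    zp_congr n m c (σ' := σ) (j := j + 1) fun l hl => e l (by omega), e j hj]
  exact h j hj

theorem descent (hm : 1 ≤ m) (X : ℕ → E d → ℝ) (b : ℝ) {K : Set (E d)} (hK : IsPreconnected K)
    {x y : E d} (hx : x ∈ K) (hy : y ∈ K) (h1 : ∀ i, |x i - yp n 0 c i| ≤ 1 / 2 ^ n)
    (h2 : ∃ i, 8 / 2 ^ n ≤ |y i - yp n 0 c i|) (k : ℕ) : ∃ σ, Adm n m c X b σ k ∧
      ∃ w ∈ K, ∀ i, |w i - zp n m c σ k i| ≤ 1 / 2 ^ (n + k * m) := by
  classical
  induction k with
  | zero => exact ⟨fun _ => default, fun j hj => absurd hj (by omega), x, hx, by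
      simpa [zp, cha] using h1⟩
  | succ k ih =>
    obtain ⟨σ, a1, w, a2, a3⟩ := ih
    have p : (0 : ℝ) < 2 ^ (n + k * m) := by positivity
    have cr : ∀ r : ℕ, 1 ≤ r → r ≤ 8 → ∃ u ∈ sph d (r * 2 ^ m), ∃ w ∈ K,
        ∀ i, |w i - kid n m c σ k u i| ≤ 1 / 2 ^ (n + (k + 1) * m) := fun r r1 r2 => by
      have e : ((r * 2 ^ m : ℕ) : ℝ) / 2 ^ (n + (k + 1) * m) = r / 2 ^ (n + k * m) := by
        rw [pw_succ]; push_cast; field_simp
      refine cross_sph hK _ _ (by positivity) a2 hy (fun i => (a3 i).trans ?_) (h2.imp fun i hi => ?_)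
      · rw [e]
        exact div_le_div_of_nonneg_right (Nat.one_le_cast.2 r1) p.le
      · have b1 := zp_near (n := n) (c := c) hm (Nat.zero_le k) (fun l hl => (a1 l hl).1) i
        have b2 : (r : ℝ) / 2 ^ (n + k * m) ≤ 8 / 2 ^ (n + k * m) :=
          div_le_div_of_nonneg_right (by exact_mod_cast r2) p.le
        simp only [zp, cha, zero_mul, add_zero] at b1
        rw [e]
        linarith [abs_sub_le (y i) (zp n m c σ k i) (yp n 0 c i), show |zp n m c σ k i -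
          yp n 0 c i| ≤ _ from b1]
    have fin : ∀ s ∈ Sts d m, (if s.1 then b ≤ X k (kid n m c σ k s.2.1)
        else X k (kid n m c σ k s.2.2) ≤ b) → (∃ w ∈ K, ∀ i, |w i - kid n m c σ k s.2.2 i| ≤
          1 / 2 ^ (n + (k + 1) * m)) → ∃ σ, Adm n m c X b σ (k + 1) ∧
        ∃ w ∈ K, ∀ i, |w i - zp n m c σ (k + 1) i| ≤ 1 / 2 ^ (n + (k + 1) * m) := by
      intro s s1 s2 s3
      have e0 : ∀ l < k, Function.update σ k s l = σ l := fun l hl =>
        Function.update_of_ne hl.ne _ _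
      have e1 : ∀ u, kid n m c (Function.update σ k s) k u = kid n m c σ k u := fun u => by
        rw [kid, kid, zp_congr n m c e0]
      refine ⟨Function.update σ k s, fun j hj => ?_, by
        rwa [zp_succ, e1, Function.update_self]⟩
      rcases (Nat.lt_succ_iff_lt_or_eq.1 hj) with e | rfl
      · exact a1.congr e0 j e
      · rw [zp_succ, e1, e1, Function.update_self]
        exact ⟨s1, s2⟩
    by_cases hc : ∃ u ∈ sph d (2 * 2 ^ m), b ≤ X k (kid n m c σ k u)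
    · obtain ⟨u', u1, u2⟩ := hc
      obtain ⟨u, u3, u4⟩ := cr 4 (by norm_num) (by norm_num)
      exact fin (true, u', u) (by simp [Sts, u1, u3]) (by simpa using u2) u4
    · obtain ⟨u, u3, u4⟩ := cr 2 (by norm_num) (by norm_num)
      exact fin (false, 0, u) (by simp [Sts, u3])
        (by simpa using le_of_not_ge fun e => hc ⟨u, u3, e⟩) u4

end Pool.Agent.Lib.MP_a0a493_pr
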