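import Pool.Agent.Lib.MP_a0a493_pr.StB
import Pool.Agent.Lib.MP_a0a493_pr.StC

/-! The field is low at the ends of all admissible chains. -/

namespace Pool.Agent.Lib.MP_a0a493_pr

open MeasureTheory ProbabilityTheory Real Set Filter Metric Topology
open scoped InnerProductSpace

variable {d : ℕ} {Ω : Type*} [MeasurableSpace Ω] {P : Measure Ω} [IsProbabilityMeasure P]
  {W : HH d →ₗ[ℝ] (Ω → ℝ)}

theorem Ev_mem {α β α' β' : ℝ} (h1 : α' ≤ α) (h2 : β ≤ β') (x : E d) : Ev α β x ∈ Ks d α' β' :=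
  Submodule.subset_span ⟨ev α β x, fun _ hp => if_neg fun h =>
    hp ⟨h1.trans_lt h.1, h.2.trans h2⟩, rfl⟩

theorem norm_Ev_eq (hd : 1 ≤ d) {α β : ℝ} (h : α ≤ β) (x : E d) : ‖Ev α β x‖ ^ 2 = β - α := by
  have k0 : kap (0 : E d) = 1 := le_antisymm (kap_le_one _) (by
    have := one_sub_kap hd (0 : E d)
    rw [norm_zero, mul_zero] at this
    linarith)
  rw [← real_inner_self_eq_norm_sq, inner_Ev]
  simp [k0, h]

/-- the logarithmic scale of a level -/
noncomputable def tt (n m j : ℕ) : ℝ := (n + j * m : ℕ) * log 2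

theorem tt_succ (n m0 m1 j : ℕ) :
    tt n (m0 + m1) (j + 1) = tt n (m0 + m1) j + m0 * log 2 + m1 * log 2 := by
  unfold tt; push_cast; ring

theorem tt_mono (n m : ℕ) : Monotone (tt n m) := fun _ _ h =>
  mul_le_mul_of_nonneg_right (Nat.cast_le.2 (by gcongr)) (log_nonneg one_le_two)

/-- the fine part of a block of scales -/
noncomputable def xv (n m0 m1 j : ℕ) (x : E d) : HH d :=
  Ev (-tt n (m0 + m1) (j + 1) + m0 * log 2) (-tt n (m0 + m1) j) x

theorem one_chain (hd : 1 ≤ d) (h : Iso P W) (n m0 m1 : ℕ) (c : Zd d) (k : ℕ) (σ : ℕ → Stp d)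
    {g γ θ b ε β : ℝ} (hm : 0 < m1) (hg : 0 ≤ g) (hγ0 : 0 ≤ γ) (hθ : 0 < θ) (hε : 0 < ε)
    (hγ : γ = b / (m1 * log 2) + θ / √(m1 * log 2)) (hσ : ∀ j < k, σ j ∈ Sts d (m0 + m1)) :
    P.real {ω | Adm n (m0 + m1) c (fun j x => W (xv n m0 m1 j x) ω) b σ k ∧
      k * (β - ε) ≤ W (Ev (-tt n (m0 + m1) k) 0 (zp n (m0 + m1) c σ k)) ω} ≤
      exp (γ ^ 2 * tt n (m0 + m1) 0 / 2) * ∏ j : Fin k, (exp (-(γ * (β - 2 * ε))) *
        wt g γ θ b (m0 * log 2) (m1 * log 2) (σ j).1) +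
      ∏ _j : Fin k, exp (-(ε ^ 2 * 2 ^ m0 / (2 * (16 * d ^ 2)))) := by
  set m := m0 + m1 with hmm
  set z := zp n m c σ with hz
  have l0 := log_pos one_lt_two
  have d0 : (0 : ℝ) < d := by exact_mod_cast hd
  have V0 : (0 : ℝ) < m1 * log 2 := by positivity
  have ts := tt_succ n m0 m1
  rw [← hmm] at ts
  have i1 : ∀ j, -tt n m (j + 1) ≤ -tt n m (j + 1) + m0 * log 2 := fun j => by linarith [jlog m0]
  have i2 : ∀ j, -tt n m (j + 1) + m0 * log 2 ≤ -tt n m j := fun j => by linarith [ts j]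
  have xU : ∀ j x, xv n m0 m1 j x ∈ Ks d (-tt n m (j + 1)) (-tt n m j) := fun j x =>
    Ev_mem (i1 j) le_rfl x
  have hU : ∀ i j, i < j → Ks d (-tt n m (i + 1)) (-tt n m i) ⟂
      Ks d (-tt n m (j + 1)) (-tt n m j) := fun i j hij =>
    (Ks_ortho (neg_le_neg (tt_mono n m hij))).symm
  have xn : ∀ j (x : E d), ‖xv n m0 m1 j x‖ ^ 2 = m1 * log 2 := fun j x => by
    rw [xv, norm_Ev_eq hd (i2 j)]
    linarith [ts j]
  have b1 := h.blocks k (fun j => (σ j).1) (Ev (-tt n m 0) 0 (z k))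
    (fun j => Ev (-tt n m (j + 1)) (-tt n m (j + 1) + m0 * log 2) (z k))
    (fun j => xv n m0 m1 j (z (j + 1))) (fun j => xv n m0 m1 j (kid n m c σ j (σ j).2.1))
    (fun j => Ks d (-tt n m (j + 1)) (-tt n m j)) (T0 := tt n m 0) (V0 := m0 * log 2) hg hγ0 V0 hθ
    hγ hU (fun j u hu => (Ks_ortho (neg_le_neg (tt_mono n m j.zero_le))).symm.inner_eq
      (Ev_mem le_rfl le_rfl _) hu) (fun j => Ev_mem le_rfl (i2 j) _) (fun j => xU j _)
    (fun j => xU j _) (fun j => inner_Ev_disj le_rfl _ _) (fun j => inner_Ev_disj le_rfl _ _)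
    (fun j hj hs => by
      obtain ⟨i, hi⟩ := (of_St (hσ j hj)).2 hs
      refine inner_Ev_far (le_trans ?_ (le_dist _ _ i))
      rw [hz, zp_succ, kid, kid, yp_apply, yp_apply, add_sub_add_right_eq_sub, ← sub_div, abs_div,
        abs_of_pos (show (0 : ℝ) < 2 ^ (n + (j + 1) * m) by positivity), tt, exp_neg, exp_jlog,
        pw_succ, le_div_iff₀ (by positivity)]
      refine le_trans (le_of_eq ?_) hi
      rw [← mul_assoc, mul_assoc 2, inv_mul_cancel₀ (by positivity), mul_one])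
    ((norm_Ev (neg_nonpos.2 (jlog _)) _).trans_eq (by rw [tt]; ring))
    (fun j => (norm_Ev (i1 j) _).trans_eq (by ring)) (fun j => xn j _) (fun j => (xn j _).le)
    (k * (β - 2 * ε))
  have n1 : ‖∑ j ∈ Finset.range k, (xv n m0 m1 j (z k) - xv n m0 m1 j (z (j + 1)))‖ ^ 2 ≤
      k * (16 * d ^ 2 / 2 ^ m0) := by
    rw [orth_sum _ fun i j hij => (hU i j hij).inner_eq (sub_mem (xU _ _) (xU _ _))
      (sub_mem (xU _ _) (xU _ _))]
    refine (Finset.sum_le_card_nsmul _ _ (16 * d ^ 2 / 2 ^ m0 : ℝ) fun j hj => ?_).trans (by simp)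
    refine (norm_Ev_sub hd _ _ (dist_le_of (r := 8 / 2 ^ (n + (j + 1) * m)) (by positivity)
      fun i => (zp_near (by omega) (Finset.mem_range.1 hj) hσ i).trans
        (sub_le_self _ (by positivity)))).trans_eq ?_
    rw [neg_add, neg_neg, exp_add, exp_neg, tt, exp_jlog, exp_jlog]
    field_simp
    ring
  have b2 := h.tail n1 (t := ε * 2 ^ m0 / (16 * d ^ 2)) (by positivity) (k * ε)
  have e0 : Ev (-tt n m k) 0 (z k) = Ev (-tt n m 0) 0 (z k) + ∑ j ∈ Finset.range k,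
      (Ev (-tt n m (j + 1)) (-tt n m (j + 1) + m0 * log 2) (z k) + xv n m0 m1 j (z (j + 1))) +
      ∑ j ∈ Finset.range k, (xv n m0 m1 j (z k) - xv n m0 m1 j (z (j + 1))) := by
    rw [add_assoc, ← Finset.sum_add_distrib, Finset.sum_congr rfl
      (g := fun j => Ev (-tt n m (j + 1)) (-tt n m j) (z k)) fun j _ => by
        rw [add_add_sub_cancel, xv, Ev_add (i1 j) (i2 j)],
      sum_Ev (T := fun j => -tt n m j) (fun _ _ e => neg_le_neg (tt_mono n m e)), add_comm,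
      Ev_add (neg_le_neg (tt_mono n m k.zero_le)) (neg_nonpos.2 (jlog _))]
  rw [add_comm]
  refine (sub_le2 b2 b1 fun ω hω hn => ⟨fun j hj => (hω.1 j hj).2, ?_⟩).trans
    (add_le_add (le_of_eq ?_) (le_of_eq ?_))
  · have a1 := hω.2
    rw [e0, map_add, Pi.add_apply] at a1
    rw [mem_ofPred_eq, not_le] at hn
    linarith
  · rw [Finset.prod_const, Finset.card_univ, Fintype.card_fin, ← exp_nat_mul]
    congr 1
    field_simp
    ring
  · rw [Finset.prod_mul_distrib, Finset.prod_const, Finset.card_univ, Fintype.card_fin,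
      ← exp_nat_mul, ← mul_assoc (exp _), ← exp_add]
    congr 2
    ring

/-- extension of a finite sequence of steps -/
def ex {k : ℕ} (τ : Fin k → Stp d) (j : ℕ) : Stp d := if h : j < k then τ ⟨j, h⟩ else default

theorem low_ae (hd : 2 ≤ d) (h : Iso P W) : ∃ (m0 m1 : ℕ) (b a : ℝ), 0 < m1 ∧ 0 ≤ a ∧
    a < √(2 * (d - 1)) ∧ ∀ (n : ℕ) (c : Zd d), ∀ᵐ ω ∂P, ∀ᶠ k : ℕ in atTop, ∀ τ : Fin k → Stp d,
      Adm n (m0 + m1) c (fun j x => W (xv n m0 m1 j x) ω) b (ex τ) k →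
      W (Ev (-tt n (m0 + m1) k) 0 (zp n (m0 + m1) c (ex τ) k)) ω < a * tt n (m0 + m1) k := by
  classical
  have d2 : (2 : ℝ) ≤ d := by exact_mod_cast hd
  have l0 := log_pos one_lt_two
  obtain ⟨g, hg⟩ : ∃ g, g = √(2 * (d - 1) : ℝ) := ⟨_, rfl⟩
  have g0 : 0 < g := hg ▸ sqrt_pos.2 (by linarith)
  have g2 : g ^ 2 = 2 * (d - 1) := hg ▸ sq_sqrt (by linarith)
  obtain ⟨C, hC⟩ : ∃ C : ℝ, C = 2 * d * 9 ^ (d - 1) := ⟨_, rfl⟩
  have C1 : 1 ≤ C := hC ▸ one_le_mul_of_one_le_of_one_le (by linarith) (one_le_pow₀ (by norm_num))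
  obtain ⟨ε, hε⟩ : ∃ ε, ε = 1 / (4 * (g + 1)) := ⟨_, rfl⟩
  have ε0 : 0 < ε := by rw [hε]; positivity
  obtain ⟨m0, m1, K, θ, γ, p1, p2, p3, p4, p5, p6, p7, p8⟩ :=
    exists_par (C' := 16 * d ^ 2) g0 C1 (by positivity) ε0
  have M0 : (0 : ℝ) < m0 * log 2 + m1 * log 2 := by
    have := jlog m0
    positivity
  have hN : (2 * d * (9 * 2 ^ (m0 + m1)) ^ (d - 1) : ℝ) =
      C * exp (g ^ 2 * (m0 * log 2 + m1 * log 2) / 2) := by
    rw [mul_pow, ← exp_jlog, ← exp_nat_mul, hC, g2, Nat.cast_sub (by omega), mul_assoc (2 * d : ℝ)]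
    push_cast
    ring_nf
  set β := g * (m0 * log 2 + m1 * log 2) with hβ
  set b := g * (m1 * log 2) + K with hb
  have w0 : ∀ s, 0 ≤ wt g γ θ b (m0 * log 2) (m1 * log 2) s := fun s => by
    unfold wt; split_ifs <;> positivity
  have s1 : ∑ s ∈ Sts d (m0 + m1), exp (-(γ * (β - 2 * ε))) *
      wt g γ θ b (m0 * log 2) (m1 * log 2) s.1 ≤ exp (1 / 2) / 2 := by
    have e1 : exp (-(γ * (β - 2 * ε))) ≤ exp (1 / 2) * exp (-(γ * β)) := by
      rw [← exp_add]
      refine exp_le_exp.2 ?_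
      have : γ * ε ≤ 1 / 4 := by
        rw [hε, mul_one_div, div_le_iff₀ (by positivity)]
        linarith
      linarith
    rw [← Finset.mul_sum]
    refine (mul_le_mul e1 (sum_St _ _ w0) (Finset.sum_nonneg fun s _ => w0 _)
      (by positivity)).trans ?_
    rw [mul_assoc, div_eq_mul_one_div (exp _) 2]
    refine mul_le_mul_of_nonneg_left ?_ (exp_pos _).le
    rw [hN, mul_add, ← add_halves (1 / 2 : ℝ)]
    have V0 : (0 : ℝ) < m1 * log 2 := by positivity
    refine add_le_add (le_trans ?_ (p6.trans_eq (by norm_num)))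
      (le_trans (le_of_eq ?_) (p7.trans_eq (by norm_num)))
    · simp only [wt, Bool.false_eq_true, if_false]
      rw [mul_left_comm, mul_assoc, ← mul_div_assoc, ← mul_div_assoc, ← mul_div_assoc,
        ← mul_div_assoc, mul_left_comm (exp _), ← exp_add, ← exp_add, ← exp_add]
      refine div_le_div_of_nonneg_right (mul_le_mul_of_nonneg_left (exp_le_exp.2 ?_)
        (by linarith)) p2.le
      have e2 : b ^ 2 / (2 * (m1 * log 2)) =
          g ^ 2 * (m1 * log 2) / 2 + g * K + K ^ 2 / (2 * (m1 * log 2)) := by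
        rw [hb]; field_simp; ring
      have e3 : 0 ≤ K ^ 2 / (2 * (m1 * log 2)) := by positivity
      rw [e2, hb, hβ]
      linarith
    · simp only [wt, if_true]
      rw [mul_pow, ← exp_nat_mul, mul_left_comm, mul_assoc, mul_left_comm (exp _), ← exp_add,
        ← exp_add, ← exp_add, hb, hβ]
      congr 2
      push_cast
      ring
  have s2 : ∑ _s ∈ Sts d (m0 + m1), exp (-(ε ^ 2 * 2 ^ m0 / (2 * (16 * d ^ 2)))) ≤
      exp (1 / 2) / 2 := by
    have e1 := sum_St (d := d) (m0 + m1) (fun _ => exp (-(ε ^ 2 * 2 ^ m0 / (2 * (16 * d ^ 2)))))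
      fun _ => (exp_pos _).le
    have e2 : 1 ≤ C * exp (g ^ 2 * (m0 * log 2 + m1 * log 2) / 2) :=
      one_le_mul_of_one_le_of_one_le C1 (one_le_exp (by positivity))
    have e3 := mul_le_mul_of_nonneg_right (le_self_pow₀ e2 two_ne_zero)
      (exp_pos (-(ε ^ 2 * 2 ^ m0 / (2 * (16 * d ^ 2))))).le
    have e4 : (C * exp (g ^ 2 * (m0 * log 2 + m1 * log 2) / 2)) ^ 2 *
        exp (-(ε ^ 2 * 2 ^ m0 / (2 * (16 * d ^ 2)))) = C ^ 2 *
        exp (g ^ 2 * (m0 * log 2 + m1 * log 2) - ε ^ 2 * 2 ^ m0 / (2 * (16 * d ^ 2))) := by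
      rw [mul_pow, ← exp_nat_mul, mul_assoc, ← exp_add]
      congr 2
      push_cast
      ring
    rw [hN] at e1
    linarith [one_le_exp (show (0 : ℝ) ≤ 1 / 2 by norm_num)]
  have r1 : exp (1 / 2) / 2 < 1 := by
    rw [div_lt_one two_pos, ← lt_log_iff_exp_lt two_pos]
    linarith [log_two_gt_d9]
  refine ⟨m0, m1, b, max (g - ε / (m0 * log 2 + m1 * log 2)) 0, p1, le_max_right _ _,
    hg ▸ max_lt (sub_lt_self _ (by positivity)) g0, fun n c => ?_⟩
  let A : (k : ℕ) → (Fin k → Stp d) → Set Ω := fun k τ =>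
    {ω | Adm n (m0 + m1) c (fun j x => W (xv n m0 m1 j x) ω) b (ex τ) k ∧
      k * (β - ε) ≤ W (Ev (-tt n (m0 + m1) k) 0 (zp n (m0 + m1) c (ex τ) k)) ω}
  let B : ℕ → Set Ω := fun k => ⋃ τ ∈ Fintype.piFinset fun _ : Fin k => Sts d (m0 + m1), A k τ
  have hB : ∀ k, P.real (B k) ≤
      (exp (γ ^ 2 * tt n (m0 + m1) 0 / 2) + 1) * (exp (1 / 2) / 2) ^ k := fun k => by
    refine (measureReal_biUnion_finset_le _ _).trans ((Finset.sum_le_sum fun τ hτ =>
      one_chain (by omega) h n m0 m1 c k (ex τ) p1 g0.le (g0.le.trans p3) p2 ε0 p5 fun j hj => by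
        rw [ex, dif_pos hj]; exact Fintype.mem_piFinset.1 hτ _).trans ?_)
    have e : ∀ (τ : Fin k → Stp d) (j : Fin k), ex τ j = τ j := fun τ j => dif_pos j.2
    simp only [e]
    rw [Finset.sum_add_distrib, ← Finset.mul_sum, ← Finset.prod_univ_sum (fun _ => Sts d (m0 + m1))
      fun _ s => exp (-(γ * (β - 2 * ε))) * wt g γ θ b (m0 * log 2) (m1 * log 2) s.1,
      ← Finset.prod_univ_sum (fun _ => Sts d (m0 + m1))
      fun _ _ => exp (-(ε ^ 2 * 2 ^ m0 / (2 * (16 * d ^ 2)))), Finset.prod_const,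
      Finset.prod_const, Finset.card_univ, Fintype.card_fin, add_mul, one_mul]
    exact add_le_add (mul_le_mul_of_nonneg_left (pow_le_pow_left₀ (Finset.sum_nonneg fun s _ =>
      mul_nonneg (exp_pos _).le (w0 _)) s1 k) (exp_pos _).le)
      (pow_le_pow_left₀ (Finset.sum_nonneg fun s _ => (exp_pos _).le) s2 k)
  have hs : ∑' k, P (B k) ≠ ⊤ := by
    have s3 := (summable_geometric_of_lt_one (by positivity) r1).mul_left
      (exp (γ ^ 2 * tt n (m0 + m1) 0 / 2) + 1)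
    refine ne_top_of_le_ne_top s3.tsum_ofReal_ne_top (ENNReal.tsum_le_tsum fun k => ?_)
    exact (ENNReal.le_ofReal_iff_toReal_le (measure_ne_top _ _) (by positivity)).2 (hB k)
  filter_upwards [ae_eventually_notMem hs] with ω hω
  filter_upwards [hω] with k hk τ hτ
  by_contra hc
  refine hk (mem_iUnion₂.2 ⟨τ, Fintype.mem_piFinset.2 fun j => ?_, hτ,
    le_trans ?_ (not_lt.1 hc)⟩)
  · have := (hτ j j.2).1
    rwa [ex, dif_pos j.2] at this
  · have e1 : k * (m0 * log 2 + m1 * log 2) ≤ tt n (m0 + m1) k := by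
      unfold tt
      push_cast
      linarith [jlog n]
    calc k * (β - ε) = (g - ε / (m0 * log 2 + m1 * log 2)) * (k * (m0 * log 2 + m1 * log 2)) := by
          rw [hβ]; field_simp
      _ ≤ max (g - ε / (m0 * log 2 + m1 * log 2)) 0 * (k * (m0 * log 2 + m1 * log 2)) :=
          mul_le_mul_of_nonneg_right (le_max_left _ _) (by positivity)
      _ ≤ _ := mul_le_mul_of_nonneg_left e1 (le_max_right _ _)

end Pool.Agent.Lib.MP_a0a493_pr
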