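import Pool.Agent.Lib.MP_a0a493_pr.StD

/-! The threshold is strictly below the dimension bound. -/

namespace Pool.Agent.Lib.MP_a0a493_pr

open MeasureTheory ProbabilityTheory Real Set Filter Metric Topology

variable {d : ℕ}

/-- a finite set of chains whose last cells block all connected sets -/
def BlkSt (n m : ℕ) (c : Zd d) (k : ℕ) (T : Finset (Fin k → Stp d)) : Prop :=
  ∀ K : Set (E d), IsPreconnected K → ∀ x ∈ K, ∀ y ∈ K, (∀ i, |x i - yp n 0 c i| ≤ 1 / 2 ^ n) →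
    (∃ i, 8 / 2 ^ n ≤ |y i - yp n 0 c i|) →
    ∃ τ ∈ T, ∃ w ∈ K, ∀ i, |w i - zp n m c (ex τ) k i| ≤ 1 / 2 ^ (n + k * m)

/-- low values on blocking sets of cells -/
def Low (d m : ℕ) (b : ℝ) : Set (ℕ × ℕ × Zd d → ℝ) :=
  {y | ∀ (n : ℕ) (c : Zd d) (N : ℕ), ∃ k, N ≤ k ∧ ∃ T : Finset (Fin k → Stp d), BlkSt n m c k T ∧
    ∀ τ ∈ T, ∀ t, (∀ i, |dy t i - zp n m c (ex τ) k i| ≤ 2 / 2 ^ (n + k * m)) →
      y (n + k * m, t) ≤ b * (n + k * m : ℕ)}

theorem meas_Low (m : ℕ) (b : ℝ) : MeasurableSet (Low d m b) := by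
  simp only [Low, ofPred_exists, ofPred_forall, ofPred_and]
  exact MeasurableSet.iInter fun n => MeasurableSet.iInter fun c => MeasurableSet.iInter fun N =>
    MeasurableSet.iUnion fun k => (MeasurableSet.const _).inter (MeasurableSet.iUnion fun T =>
      (MeasurableSet.const _).inter (MeasurableSet.iInter fun τ => MeasurableSet.iInter fun _ =>
        MeasurableSet.iInter fun t => MeasurableSet.iInter fun _ =>
          measurableSet_le (measurable_pi_apply _) measurable_const))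

theorem td_of_low {m : ℕ} (hm : 1 ≤ m) {b γ : ℝ} (hb : b < γ) {φ : ℕ → E d → ℝ}
    (hφ : ∀ n, Continuous (φ n)) (h : (fun t : ℕ × ℕ × Zd d => φ t.1 (dy t.2)) ∈ Low d m b)
    {K : Set (E d)} (hK : IsPreconnected K) {N : ℕ} (h1 : ∀ x ∈ K, ∀ n, N ≤ n → γ * n ≤ φ n x)
    {x y : E d} (hx : x ∈ K) (hy : y ∈ K) {δ : ℝ} (hδ : 0 < δ) (hxy : δ ≤ dist x y) : False := by
  obtain ⟨n, hn⟩ := pow_unbounded_of_one_lt (d * 9 / δ) (one_lt_two (α := ℝ))
  have p : (0 : ℝ) < 2 ^ n := by positivity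
  have c1 : ∀ i, |x i - yp n 0 (fun i => ⌊2 ^ n * x i⌋) i| ≤ 1 / 2 ^ n := fun i => by
    have a1 := Int.floor_le (2 ^ n * x i)
    have a2 := Int.lt_floor_add_one (2 ^ n * x i)
    have e : x i - (⌊2 ^ n * x i⌋ : ℝ) / 2 ^ n = (2 ^ n * x i - ⌊2 ^ n * x i⌋) / 2 ^ n := by
      field_simp
    rw [yp_apply, PiLp.zero_apply, add_zero, e, abs_of_nonneg (div_nonneg (by linarith) p.le)]
    gcongr
    linarith
  obtain ⟨k, k1, T, t1, t2⟩ := h n (fun i => ⌊2 ^ n * x i⌋) (N + 1)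
  obtain ⟨τ, τ1, w, w1, w2⟩ := t1 K hK x hx y hy c1 (by
    by_contra! hc
    have a1 := dist_le_of (u := x) (v := y) (r := 9 / 2 ^ n) (by positivity) fun i => by
      have e : (9 : ℝ) / 2 ^ n = 1 / 2 ^ n + 8 / 2 ^ n := by ring
      linarith [abs_sub_le (x i) (yp n 0 (fun i => ⌊2 ^ n * x i⌋) i) (y i), c1 i, hc i,
        abs_sub_comm (y i) (yp n 0 (fun i => ⌊2 ^ n * x i⌋) i)]
    rw [div_lt_iff₀ hδ] at hn
    rw [← mul_div_assoc, le_div_iff₀ p] at a1
    nlinarith)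
  have l1 : N + 1 ≤ n + k * m := by nlinarith
  have q : φ (n + k * m) w ≤ b * (n + k * m : ℕ) :=
    (isClosed_le (hφ _) continuous_const).closure_subset_iff.2
      (show ball w (1 / 2 ^ (n + k * m)) ∩ range dy ⊆ _ from fun _ ⟨e1, t, e2⟩ => e2 ▸ t2 τ τ1 t
        fun i => by
          have a1 := (le_dist (dy t) w i).trans (mem_ball.1 (e2 ▸ e1)).le
          have e : (2 : ℝ) / 2 ^ (n + k * m) = 1 / 2 ^ (n + k * m) + 1 / 2 ^ (n + k * m) := by ring
          linarith [abs_sub_le (dy t i) (w i) (zp n m (fun i => ⌊2 ^ n * x i⌋) (ex τ) k i), w2 i])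
      (dense_dy.open_subset_closure_inter isOpen_ball (mem_ball_self (by positivity)))
  exact hb.not_ge (le_of_mul_le_mul_right ((h1 w w1 _ (by omega)).trans q)
    (Nat.cast_pos.2 (by omega)))

theorem strict (hd : 2 ≤ d) : ∃ a : ℝ, a < √(2 * (d - 1)) ∧ ∀ (Ω : Type) [MeasurableSpace Ω]
    (P : Measure Ω) (Φ : (E d → ℝ) → Ω → ℝ) (ρ : E d → ℝ), IsSetting P Φ ρ → ∀ α : ℝ, a < α →
      ∀ᵐ ω ∂P, IsTotallyDisconnected (thick Φ ρ α ω) := by
  classical
  obtain ⟨Ω0, _, P0, _, W, hW⟩ := exists_iso (HH d)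
  obtain ⟨m0, m1, b0, a, h1, h2, h3, h4⟩ := low_ae hd hW
  refine ⟨a, h3, fun Ω _ P Φ ρ S α hα => ?_⟩
  have := S.prob
  obtain ⟨b, b1, b2⟩ := exists_between (mul_lt_mul_of_pos_right hα (log_pos one_lt_two))
  obtain ⟨γ, g1, g2⟩ := exists_between b2
  have hm : 1 ≤ m0 + m1 := by omega
  have t := S.lgf.tr_fld hd S.test dy hW (meas_Low (m0 + m1) b) (by
    filter_upwards [ae_all_iff.2 fun n => ae_all_iff.2 fun c => h4 n c, ae_all_iff.2 fun L =>
      cell_ae (by omega) hW.neg S.test S.int L (sub_pos.2 b1)] with ω o1 o2 n c N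
    obtain ⟨L, hL⟩ := exists_nat_ge (‖yp n 0 c‖ + d * (8 / 2 ^ n))
    have tt : Tendsto (fun k => n + k * (m0 + m1)) atTop atTop :=
      tendsto_atTop_mono (fun k => (Nat.le_mul_of_pos_right k hm).trans (Nat.le_add_left _ _))
        tendsto_id
    obtain ⟨k, ⟨k1, k2⟩, k3⟩ := (((o1 n c).and (tt.eventually (o2 L))).and
      (eventually_ge_atTop N)).exists
    refine ⟨k, k3, (Fintype.piFinset fun _ => Sts d (m0 + m1)).filter fun τ => Adm n (m0 + m1) c
      (fun j x => W (xv n m0 m1 j x) ω) b0 (ex τ) k, fun K hK x hx y hy c1 c2 => ?_, ?_⟩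
    · obtain ⟨σ, s1, s2⟩ := descent hm (fun j x => W (xv n m0 m1 j x) ω) b0 hK hx hy c1 c2 k
      have e : ∀ l < k, ex (fun j : Fin k => σ j) l = σ l := fun l hl => dif_pos hl
      exact ⟨fun j => σ j, Finset.mem_filter.2 ⟨Fintype.mem_piFinset.2 fun j => (s1 j j.2).1,
        s1.congr e⟩, by rwa [zp_congr _ _ _ e]⟩
    rintro τ hτ ⟨l, x⟩ hx
    have a1 := (Finset.mem_filter.1 hτ).2
    have a2 := k1 τ a1
    have a3 : ‖zp n (m0 + m1) c (ex τ) k‖ ≤ L := by
      have e1 := dist_le_of (r := 8 / 2 ^ n) (by positivity) fun i =>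
        (zp_near (n := n) (c := c) hm (Nat.zero_le k) (fun l hl => (a1 l hl).1) i).trans
          ((sub_le_self _ (by positivity)).trans_eq (by simp))
      have e2 := norm_le_norm_add_norm_sub' (zp n (m0 + m1) c (ex τ) k) (zp n (m0 + m1) c (ex τ) 0)
      have e3 : zp n (m0 + m1) c (ex τ) 0 = yp n 0 c := by simp [zp, cha]
      rw [← dist_eq_norm] at e2
      rw [e3] at e1 e2
      linarith
    simp only [zp, Pool.Agent.Lib.MP_a0a493_pr.tt] at a2 a3 hx
    generalize n + k * (m0 + m1) = s at *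
    generalize cha (m0 + m1) c (ex τ) k = w at *
    have c2 : dy (l, x) = yp (l + s) (yp s 0 w) (((2 ^ s : ℕ) : ℤ) • x - ((2 ^ l : ℕ) : ℤ) • w) := by
      rw [← yp_mul l s 0 w, ← yp_add, add_sub_cancel, add_comm l s, yp_mul, dy]
    have c4 := k2 w a3 l (((2 ^ s : ℕ) : ℤ) • x - ((2 ^ l : ℕ) : ℤ) • w) (mem_box.2 fun i => by
      have e1 := hx i
      rw [dy, yp_apply, yp_apply, add_sub_add_right_eq_sub,
        div_sub_div _ _ (by positivity) (by positivity), abs_div,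
        abs_of_pos (show (0 : ℝ) < 2 ^ l * 2 ^ s by positivity),
        div_le_div_iff₀ (by positivity) (by positivity), ← mul_assoc,
        mul_le_mul_iff_left₀ (by positivity), mul_comm (x i : ℝ)] at e1
      simp only [Pi.sub_apply, Pi.smul_apply, smul_eq_mul] at e1 ⊢
      exact_mod_cast e1)
    rw [← c2] at c4
    simp only [map_sub, Pi.sub_apply, LinearMap.neg_apply, Pi.neg_apply] at c4
    linarith)
  filter_upwards [t, S.cont] with ω o1 o2
  by_contra hc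
  obtain ⟨k, N, K, -, k2, k3, x, hx, y, hy, k4⟩ := big_of g2 o2 hc
  exact td_of_low hm g1 (φ := fld Φ ρ ω) (fun n => (o2 n).sub continuous_const) o1 k2 k3
    hx hy Nat.one_div_pos_of_nat k4

end Pool.Agent.Lib.MP_a0a493_pr
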