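import Pool.Agent.Lib.MP_a0a493_pr.Up

open MeasureTheory Filter Topology Pool.Agent.Lib.MP_a0a493_pr

/-- The two thresholds coincide, depend only on the dimension, are positive for `d ≥ 3`, are
asymptotic to `√(2d)` as `d → ∞`, and the transition is sharp: connected and dense below, totally
disconnected above. -/
theorem Pool.Agent.Lib.MP_a0a493_pr.threshold :
    ∃ a : ℕ → ℝ, (∀ d, 3 ≤ d → 0 < a d) ∧
      Tendsto (fun d : ℕ => a d / √(2 * d)) atTop (𝓝 1) ∧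
      ∀ d, 2 ≤ d → ∀ (Ω : Type) [MeasurableSpace Ω] (P : Measure Ω)
        (Φ : (EuclideanSpace ℝ (Fin d) → ℝ) → Ω → ℝ) (ρ : EuclideanSpace ℝ (Fin d) → ℝ),
        IsSetting P Φ ρ →
          alphaC P Φ ρ = ENNReal.ofReal (a d) ∧ alphaInf P Φ ρ = ENNReal.ofReal (a d) ∧
          (∀ α : ℝ, 0 < α → α < a d →
            ∀ᵐ ω ∂P, IsConnected (thick Φ ρ α ω) ∧ Dense (thick Φ ρ α ω)) ∧
          ∀ α : ℝ, a d < α → ∀ᵐ ω ∂P, IsTotallyDisconnected (thick Φ ρ α ω) := by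
  have key : ∀ d : ℕ, ∃ a : ℝ, 0 ≤ a ∧ (3 ≤ d → 0 < a) ∧ (2 ≤ d → a ≤ √(2 * d)) ∧
      (∀ t, (∀ (Ω : Type) [MeasurableSpace Ω] (P : Measure Ω) (Φ : (E d → ℝ) → Ω → ℝ)
        (ρ : E d → ℝ), IsSetting P Φ ρ → ENNReal.ofReal t ≤ alphaInf P Φ ρ) → t ≤ √(2 * d) →
        2 ≤ d → t ≤ a) ∧ (2 ≤ d → ∀ (Ω : Type) [MeasurableSpace Ω] (P : Measure Ω)
        (Φ : (E d → ℝ) → Ω → ℝ) (ρ : E d → ℝ), IsSetting P Φ ρ →
        alphaC P Φ ρ = ENNReal.ofReal a) := by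
    intro d
    by_cases h : ∃ (Ω : Type) (_ : MeasurableSpace Ω) (P : Measure Ω) (Φ : (E d → ℝ) → Ω → ℝ)
        (ρ : E d → ℝ), IsSetting P Φ ρ
    · obtain ⟨Ω, _, P, Φ, ρ, S⟩ := h
      have f : 2 ≤ d → alphaC P Φ ρ ≠ ⊤ := fun hd =>
        ne_top_of_le_ne_top ENNReal.ofReal_ne_top (S.upper hd)
      refine ⟨(alphaC P Φ ρ).toReal, ENNReal.toReal_nonneg,
        fun hd => ENNReal.toReal_pos (S.pos hd).ne' (f (by omega)),
        fun hd => ENNReal.toReal_le_of_le_ofReal (Real.sqrt_nonneg _) (S.upper hd),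
        fun t ht _ hd => (ENNReal.ofReal_le_iff_le_toReal (f hd)).1 ((ht Ω P Φ ρ S).trans inf_le_c),
        fun hd Ω' _ P' Φ' ρ' S' => ?_⟩
      rw [ENNReal.ofReal_toReal (f hd)]
      exact le_antisymm ((S'.c_le_inf hd S).trans inf_le_c) ((S.c_le_inf hd S').trans inf_le_c)
    · exact ⟨√(2 * d), Real.sqrt_nonneg _, fun hd => Real.sqrt_pos.2
        (mul_pos two_pos (Nat.cast_pos.2 (by omega))), fun _ => le_rfl, fun _ _ h _ => h,
        fun _ Ω _ P Φ ρ S => absurd ⟨Ω, _, P, Φ, ρ, S⟩ h⟩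
  choose a h0 h1 h2 h3 h4 using key
  refine ⟨a, h1, tendsto_order.2 ⟨fun c hc => ?_, fun c hc => ?_⟩, fun d hd Ω _ P Φ ρ S => ?_⟩
  · obtain ⟨θ, t1, t2⟩ := exists_between (max_lt hc one_pos)
    have t0 := (le_max_right _ _).trans_lt t1
    have r : 0 < √2 := by positivity
    filter_upwards [lower (mul_pos t0 r) (mul_lt_of_lt_one_left r t2), eventually_ge_atTop 2]
      with d hl hd
    have s : 0 < √(2 * d : ℝ) := Real.sqrt_pos.2 (mul_pos two_pos (Nat.cast_pos.2 (by omega)))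
    rw [mul_assoc, ← Real.sqrt_mul two_pos.le] at hl
    exact ((le_max_left _ _).trans_lt t1).trans_le
      ((le_div_iff₀ s).2 (h3 d _ hl (mul_le_of_le_one_left s.le t2.le) hd))
  · filter_upwards [eventually_ge_atTop 2] with d hd
    exact (div_le_one_of_le₀ (h2 d hd) (Real.sqrt_nonneg _)).trans_lt hc
  · have e := h4 d hd Ω P Φ ρ S
    exact ⟨e, e ▸ le_antisymm inf_le_c (S.c_le_inf hd S), fun α α0 hα => S.below hd S
      (e ▸ (ENNReal.ofReal_lt_ofReal_iff (α0.trans hα)).2 hα), fun α hα => S.above hd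
      (e ▸ (ENNReal.ofReal_lt_ofReal_iff ((h0 d).trans_lt hα)).2 hα)⟩
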