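import Pool.Agent.Lib.MP_a0a493_pr.Low

/-! The first moment upper bound and the asymptotics of the threshold. -/

namespace Pool.Agent.Lib.MP_a0a493_pr

open MeasureTheory ProbabilityTheory Real Set Filter Metric Topology
open scoped InnerProductSpace

variable {d : ℕ} {ρ : E d → ℝ} {Ω : Type*} [MeasurableSpace Ω] {P : Measure Ω}

theorem top_ae [IsProbabilityMeasure P] {W : HH d →ₗ[ℝ] (Ω → ℝ)} (h : Iso P W) (L : ℕ) {a : ℝ}
    (ha : √(2 * d) < a) : ∀ᵐ ω ∂P, ∀ᶠ n : ℕ in atTop, ∀ w : Zd d, ‖yp n 0 w‖ ≤ L →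
      W (Ev (-(n * log 2)) 0 (yp n 0 w)) ω < a * log 2 * n := by
  have a0 : 0 ≤ a := (sqrt_nonneg _).trans ha.le
  have l2 := log_pos one_lt_two
  let B : ℕ → Set Ω := fun n => {ω | ∃ w ∈ box d ((L + 1) * 2 ^ n),
    ω ∈ {ω | a * log 2 * n ≤ W (Ev (-(n * log 2)) 0 (yp n 0 w)) ω}}
  have hB : ∀ n, P.real (B n) ≤ (9 * (L + 1)) ^ d * exp ((d - a ^ 2 / 2) * log 2) ^ n := by
    intro n
    refine (union_le _ _ fun w _ => h.tail (norm_Ev (neg_nonpos.2 (jlog n)) _) a0 _).trans ?_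
    have c1 : ((box d ((L + 1) * 2 ^ n)).card : ℝ) ≤ (9 * (L + 1)) ^ d * (2 ^ n) ^ d := by
      rw [card_box, ← mul_pow]
      push_cast
      have : (1 : ℝ) ≤ 2 ^ n := one_le_pow₀ one_le_two
      have : (0 : ℝ) ≤ L * 2 ^ n := by positivity
      exact pow_le_pow_left₀ (by positivity) (by nlinarith) d
    refine (mul_le_mul_of_nonneg_right c1 (exp_pos _).le).trans_eq ?_
    rw [mul_assoc, ← exp_jlog, ← exp_nat_mul, ← exp_nat_mul, ← exp_add]
    ring_nf
  have hs : ∑' n, P (B n) ≠ ⊤ := by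
    have s1 : Summable fun n : ℕ => (9 * (L + 1) : ℝ) ^ d * exp ((d - a ^ 2 / 2) * log 2) ^ n :=
      (summable_geometric_of_lt_one (exp_pos _).le (exp_lt_one_iff.2 (mul_neg_of_neg_of_pos
        (by linarith [(sqrt_lt' (lt_of_le_of_lt (sqrt_nonneg _) ha)).1 ha]) l2))).mul_left _
    refine ne_top_of_le_ne_top (s1.tsum_ofReal_ne_top) (ENNReal.tsum_le_tsum fun n => ?_)
    exact (ENNReal.le_ofReal_iff_toReal_le (measure_ne_top _ _) (by positivity)).2 (hB n)
  filter_upwards [ae_eventually_notMem hs] with ω hω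
  filter_upwards [hω] with n hn w hw
  by_contra hc
  refine hn ⟨w, mem_box.2 fun i => ?_, not_lt.1 hc⟩
  have a1 := le_dist (yp n 0 w) 0 i
  rw [dist_zero_right, yp_apply, PiLp.zero_apply, add_zero, sub_zero, abs_div,
    abs_of_pos (show (0 : ℝ) < 2 ^ n by positivity), div_le_iff₀ (by positivity)] at a1
  have a2 : |(w i : ℝ)| ≤ 2 * ((L + 1) * 2 ^ n) := by
    have : (0 : ℝ) < 2 ^ n := by positivity
    have : (0 : ℝ) ≤ L := by positivity
    nlinarith
  exact_mod_cast a2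

theorem IsSetting.upper {Φ : (E d → ℝ) → Ω → ℝ} (hd : 2 ≤ d) (S : IsSetting P Φ ρ) :
    alphaC P Φ ρ ≤ ENNReal.ofReal √(2 * d) := by
  have := S.prob
  refine le_of_forall_gt_imp_ge_of_dense fun c hc => ?_
  by_contra! hc'
  have c1 := ne_top_of_lt hc'
  rw [← ENNReal.ofReal_toReal c1] at hc hc'
  rw [ENNReal.ofReal_lt_ofReal_iff_of_nonneg (sqrt_nonneg _)] at hc
  obtain ⟨a, a1, a2⟩ := exists_between hc
  obtain ⟨b, b1, b2⟩ := exists_between (mul_lt_mul_of_pos_right a2 (log_pos one_lt_two))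
  obtain ⟨γ, g1, g2⟩ := exists_between b2
  obtain ⟨Ω0, _, P0, _, W, hW⟩ := exists_iso (HH d)
  have t := S.lgf.tr_fld hd S.test dy hW
    (B := {y | ∃ N : ℕ, ∀ n, N ≤ n → ∀ i, ‖dy i‖ ≤ 1 → y (n, i) ≤ b * n}) (by
      simp only [ofPred_exists, ofPred_forall]
      exact MeasurableSet.iUnion fun N => MeasurableSet.iInter fun n => MeasurableSet.iInter
        fun _ => MeasurableSet.iInter fun i => MeasurableSet.iInter fun _ =>
        measurableSet_le (measurable_pi_apply _) measurable_const) (by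
    filter_upwards [top_ae hW (1 + 4 * d) a1,
      cell_ae (by omega) hW.neg S.test S.int (1 + 4 * d) (sub_pos.2 b1)] with ω h1 h2
    refine eventually_atTop.1 ((h1.and h2).mono fun n ⟨b1, b2⟩ => ?_)
    rintro ⟨m, x⟩ hx
    have R0 : 0 < 2 ^ m := by positivity
    set p : Zd d := ((2 ^ n : ℕ) : ℤ) • x with hp
    have c1 := sub_mem_box R0 (p := p) (x := p) fun i => by simp
    set w := cen (2 ^ m) p
    have c2 : dy (m, x) = yp (m + n) (yp n 0 w) (p - ((2 ^ m : ℕ) : ℤ) • w) := by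
      rw [← yp_mul m n 0 w, ← yp_add, add_sub_cancel, hp, add_comm m n, yp_mul, dy]
    have c3 : ‖yp n 0 w‖ ≤ (1 + 4 * d : ℕ) := by
      have e1 := dist_yp0 m n (yp n 0 w) c1
      rw [← c2] at e1
      have e2 : exp (-(n * log 2)) ≤ 1 := exp_le_one_iff.2 (neg_nonpos.2 (jlog n))
      have e3 := norm_le_norm_add_norm_sub' (yp n 0 w) (dy (m, x))
      rw [← dist_eq_norm] at e3
      push_cast
      nlinarith [Nat.cast_nonneg (α := ℝ) d]
    have c4 := b2 w c3 m _ c1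
    rw [← c2] at c4
    simp only [map_sub, Pi.sub_apply, LinearMap.neg_apply, Pi.neg_apply] at c4
    linarith [b1 w c3])
  obtain ⟨ω, ⟨N, o1⟩, o2, o3⟩ := (t.and ((S.below hd S hc').and S.cont)).exists
  obtain ⟨x, x1, x2⟩ := o2.2.inter_open_nonempty _ isOpen_ball ⟨0, mem_ball_self one_pos⟩
  obtain ⟨N', hN⟩ := of_thick g2 x2
  have k : fld Φ ρ ω (N + N' + 1) x ≤ b * (N + N' + 1 : ℕ) :=
    (isClosed_le ((o3 _).sub continuous_const) continuous_const).closure_subset_iff.2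
      (show ball (0 : E d) 1 ∩ range dy ⊆ _ from fun _ ⟨h1, i, e⟩ => e ▸ o1 _ (by omega) i
        (e ▸ (mem_ball_zero_iff.1 h1).le)) (dense_dy.open_subset_closure_inter isOpen_ball x1)
  have k2 := (hN _ (by omega)).trans k
  exact g1.not_ge (le_of_mul_le_mul_right k2 (by positivity))

end Pool.Agent.Lib.MP_a0a493_pr
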