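import Pool.Agent.Lib.MP_a0a493_pr.Ball

/-! The white noise Hilbert space and the layer vectors. -/

namespace Pool.Agent.Lib.MP_a0a493_pr

open MeasureTheory Metric Real Set
open scoped InnerProductSpace

variable {d : ℕ}

noncomputable abbrev mu (d : ℕ) : Measure (ℝ × E d) := (volume : Measure ℝ).prod (volume : Measure (E d))

abbrev HH (d : ℕ) : Type := Lp ℝ 2 (mu d)

/-- volume of the ball of radius `exp s` -/
noncomputable def vb (d : ℕ) (s : ℝ) : ℝ := V1 d * exp s ^ d

theorem vb_pos (d : ℕ) (s : ℝ) : 0 < vb d s := mul_pos (V1_pos d) (pow_pos (exp_pos s) d)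

@[fun_prop] theorem measurable_vb : Measurable (vb d) := by unfold vb; fun_prop

noncomputable def cs (d : ℕ) (s : ℝ) : ℝ := (√(vb d s))⁻¹

theorem cs_pos (d : ℕ) (s : ℝ) : 0 < cs d s := inv_pos.2 (sqrt_pos.2 (vb_pos d s))

theorem cs_mul (d : ℕ) (s : ℝ) : cs d s * cs d s = (vb d s)⁻¹ := by
  rw [cs, ← mul_inv, mul_self_sqrt (vb_pos d s).le]

@[fun_prop] theorem measurable_cs : Measurable (cs d) := by unfold cs; fun_prop

def Ok (g : ℝ × E d → ℝ) : Prop := MemLp (fun p => cs d p.1 * g p) 2 (mu d)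

open Classical in
noncomputable def vec (g : ℝ × E d → ℝ) : HH d := if h : Ok g then MemLp.toLp _ h else 0

variable {g g' : ℝ × E d → ℝ}

theorem Ok.vec_eq (h : Ok g) : vec g = MemLp.toLp _ h := dif_pos h

theorem Ok.add (h : Ok g) (h' : Ok g') : Ok fun p => g p + g' p := by
  unfold Ok; simp only [mul_add]; exact MemLp.add h h'

theorem Ok.smul (h : Ok g) (c : ℝ) : Ok fun p => c * g p := by
  simpa only [Ok, mul_left_comm] using MemLp.const_mul h c

theorem Ok.sub (h : Ok g) (h' : Ok g') : Ok fun p => g p - g' p := by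
  unfold Ok; simp only [mul_sub]; exact MemLp.sub h h'

theorem ok_zero : Ok (fun _ : ℝ × E d => 0) := by simp [Ok]

theorem vec_add (h : Ok g) (h' : Ok g') : vec (fun p => g p + g' p) = vec g + vec g' := by
  rw [h.vec_eq, h'.vec_eq, (h.add h').vec_eq]
  have e := MemLp.toLp_add h h'
  rw [← e]
  refine MemLp.toLp_congr _ _ (Filter.Eventually.of_forall fun p => ?_)
  simp only [Pi.add_apply, mul_add]

theorem vec_sub (h : Ok g) (h' : Ok g') : vec (fun p => g p - g' p) = vec g - vec g' := by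
  rw [h.vec_eq, h'.vec_eq, (h.sub h').vec_eq]
  exact (MemLp.toLp_congr _ (MemLp.sub h h')
    (Filter.Eventually.of_forall fun p => mul_sub _ _ _)).trans (MemLp.toLp_sub h h')

theorem vec_smul (h : Ok g) (c : ℝ) : vec (fun p => c * g p) = c • vec g := by
  rw [h.vec_eq, (h.smul c).vec_eq]
  exact (MemLp.toLp_congr _ (MemLp.const_smul h c)
    (Filter.Eventually.of_forall fun p => mul_left_comm _ _ _)).trans (MemLp.toLp_const_smul c h)

theorem vec_zero : vec (fun _ : ℝ × E d => 0) = 0 := by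
  simpa using vec_smul (ok_zero (d := d)) 0

theorem vec_sum {ι : Type*} (s : Finset ι) {f : ι → ℝ × E d → ℝ} (h : ∀ i ∈ s, Ok (f i)) :
    Ok (fun p => ∑ i ∈ s, f i p) ∧ vec (fun p => ∑ i ∈ s, f i p) = ∑ i ∈ s, vec (f i) := by
  classical
  induction s using Finset.induction_on with
  | empty => exact ⟨ok_zero, vec_zero⟩
  | insert a s ha ih =>
    have h1 := h a (Finset.mem_insert_self a s)
    have h2 := ih fun i hi => h i (Finset.mem_insert_of_mem hi)
    simp only [Finset.sum_insert ha]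
    exact ⟨h1.add h2.1, by rw [vec_add h1 h2.1, h2.2]⟩

theorem vec_mul_eq (g g' : ℝ × E d → ℝ) (p : ℝ × E d) :
    cs d p.1 * g p * (cs d p.1 * g' p) = (vb d p.1)⁻¹ * (g p * g' p) := by
  rw [← cs_mul]; ring

theorem Ok.int_mul (h : Ok g) (h' : Ok g') :
    Integrable (fun p => (vb d p.1)⁻¹ * (g p * g' p)) (mu d) := by
  simp only [← vec_mul_eq]; exact MemLp.integrable_mul h h'

theorem inner_vec (h : Ok g) (h' : Ok g') :
    ⟪vec g, vec g'⟫_ℝ = ∫ p, (vb d p.1)⁻¹ * (g p * g' p) ∂mu d := by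
  rw [h.vec_eq, h'.vec_eq, L2.inner_def]
  refine integral_congr_ae ?_
  filter_upwards [MemLp.coeFn_toLp h, MemLp.coeFn_toLp h'] with p h1 h2
  rw [h1, h2, ← vec_mul_eq]
  simp [mul_comm]

theorem inner_vec' (h : Ok g) (h' : Ok g') :
    ⟪vec g, vec g'⟫_ℝ = ∫ s, (vb d s)⁻¹ * ∫ u, g (s, u) * g' (s, u) := by
  rw [inner_vec h h', integral_prod _ (h.int_mul h')]
  simp only [integral_const_mul]

theorem inner_vec_zero (h0 : ∀ p, g p * g' p = 0) : ⟪vec g, vec g'⟫_ℝ = 0 := by
  by_cases h : Ok g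
  · by_cases h' : Ok g'
    · simp [inner_vec h h', h0]
    · simp [vec, h']
  · simp [vec, h]

theorem ok_of_bound (mg : Measurable g) (ig : ∀ s, Integrable fun u => g (s, u) * g (s, u))
    {G : ℝ → ℝ} (iG : Integrable G) (hG : ∀ s, ∫ u, g (s, u) * g (s, u) ≤ vb d s * G s) :
    Ok g ∧ ‖vec g‖ ^ 2 ≤ ∫ s, G s := by
  have m : AEStronglyMeasurable (fun p => (vb d p.1)⁻¹ * (g p * g p)) (mu d) :=
    (by fun_prop : Measurable _).aestronglyMeasurable
  have b : ∀ s, (vb d s)⁻¹ * ∫ u, g (s, u) * g (s, u) ≤ G s := fun s =>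
    (inv_mul_le_iff₀ (vb_pos d s)).2 (hG s)
  have n : ∀ s, 0 ≤ (vb d s)⁻¹ * ∫ u, g (s, u) * g (s, u) := fun s =>
    mul_nonneg (inv_pos.2 (vb_pos d s)).le (integral_nonneg fun _ => mul_self_nonneg _)
  have e : ∀ s, ∫ u, ‖(vb d s)⁻¹ * (g (s, u) * g (s, u))‖ =
      (vb d s)⁻¹ * ∫ u, g (s, u) * g (s, u) := fun s => by
    rw [← integral_const_mul]
    exact integral_congr_ae (Filter.Eventually.of_forall fun u => Real.norm_of_nonneg
      (mul_nonneg (inv_pos.2 (vb_pos d s)).le (mul_self_nonneg _)))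
  have o : Ok g := by
    refine (memLp_two_iff_integrable_sq (by fun_prop : Measurable _).aestronglyMeasurable).2 ?_
    simp only [sq, vec_mul_eq]
    refine (integrable_prod_iff m).2 ⟨Filter.Eventually.of_forall fun s =>
      (ig s).const_mul (vb d s)⁻¹, iG.mono' m.norm.integral_prod_right'
      (Filter.Eventually.of_forall fun s => ?_)⟩
    rw [e, Real.norm_of_nonneg (n s)]
    exact b s
  refine ⟨o, ?_⟩
  rw [← real_inner_self_eq_norm_sq, inner_vec' o o]
  exact integral_mono_of_nonneg (Filter.Eventually.of_forall n) iG (Filter.Eventually.of_forall b)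

/-- a bound for the product of the sup norm and the integral of a slice -/
def Sl (f : E d → ℝ) (t : ℝ) : Prop :=
  ∃ M, (∀ u, |f u| ≤ M) ∧ Integrable f ∧ M * ∫ u, |f u| ≤ t

theorem Sl.sq {f : E d → ℝ} {t : ℝ} (h : Sl f t) :
    Integrable (fun u => f u * f u) ∧ ∫ u, f u * f u ≤ t := by
  obtain ⟨M, h1, h2, h3⟩ := h
  have i := h2.mul_bdd h2.1 (Filter.Eventually.of_forall h1)
  refine ⟨i, le_trans ?_ h3⟩
  rw [← integral_const_mul]
  refine integral_mono i (h2.abs.const_mul M) fun u => ?_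
  show f u * f u ≤ M * |f u|
  rw [← abs_mul_abs_self]
  exact mul_le_mul_of_nonneg_right (h1 u) (abs_nonneg _)

theorem sl_zero {t : ℝ} (ht : 0 ≤ t) : Sl (fun _ : E d => 0) t :=
  ⟨0, fun _ => by simp, integrable_zero _ _ _, by simpa using ht⟩

theorem Sl.mono {f : E d → ℝ} {t t' : ℝ} (h : Sl f t) (ht : t ≤ t') : Sl f t' :=
  h.imp fun _ h => ⟨h.1, h.2.1, h.2.2.trans ht⟩

theorem ok_two (mg : Measurable g) {α a b : ℝ}
    (h1 : ∀ s ≤ α, Sl (fun u => g (s, u)) (vb d s * (a * exp (s - α))))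
    (h2 : ∀ s > α, Sl (fun u => g (s, u)) (vb d s * (b * exp (α - s)))) :
    Ok g ∧ ‖vec g‖ ^ 2 ≤ a + b := by
  have i1 : Integrable ((Iic α).indicator fun s => a * exp (-α) * exp s) :=
    (integrable_indicator_iff measurableSet_Iic).2 ((integrableOn_exp_Iic α).const_mul _)
  have i2 : Integrable ((Ioi α).indicator fun s => b * exp α * exp (-s)) :=
    (integrable_indicator_iff measurableSet_Ioi).2 ((integrableOn_exp_neg_Ioi α).const_mul _)
  have := ok_of_bound mg (fun s => (le_or_gt s α).elim (fun h => (h1 s h).sq.1)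
    fun h => (h2 s h).sq.1) (i1.add i2) fun s => by
      rcases le_or_gt s α with h | h
      · refine (h1 s h).sq.2.trans (le_of_eq ?_)
        rw [Pi.add_apply, indicator_of_mem (mem_Iic.2 h), indicator_of_notMem (show s ∉ Ioi α from not_lt.2 h),
          exp_sub, exp_neg]
        ring
      · refine (h2 s h).sq.2.trans (le_of_eq ?_)
        rw [Pi.add_apply, indicator_of_notMem (show s ∉ Iic α from not_le.2 h), indicator_of_mem (mem_Ioi.2 h),
          exp_sub, exp_neg]
        ring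
  refine ⟨this.1, this.2.trans (le_of_eq ?_)⟩
  rw [integral_add' i1 i2, integral_indicator measurableSet_Iic,
    integral_indicator measurableSet_Ioi, integral_const_mul, integral_const_mul, integral_exp_Iic,
    integral_exp_neg_Ioi, mul_assoc, mul_assoc, ← exp_add, ← exp_add]
  simp

theorem sl_bi (s : ℝ) (x : E d) : Sl (bi (exp s) x) (vb d s) :=
  ⟨1, abs_bi _ _, integrable_bi _ _, by
    simp only [abs_of_nonneg (bi_nonneg _ _ _), integral_bi (exp_pos s), one_mul, vb, le_refl]⟩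

theorem int_bi_sub (hd : 1 ≤ d) (s : ℝ) {x y : E d} {R : ℝ} (h : dist x y ≤ R) :
    ∫ u, |bi (exp s) x u - bi (exp s) y u| ≤ vb d s * (2 * d * R * exp (-s)) := by
  refine (integral_bi_sub hd (exp_pos s) x y).trans ?_
  rw [mul_comm, exp_neg, ← div_eq_mul_inv]
  have := vb_pos d s
  unfold vb at this ⊢
  gcongr

theorem sl_bi_sub (hd : 1 ≤ d) (s : ℝ) {x y : E d} {R : ℝ} (h : dist x y ≤ R) :
    Sl (fun u => bi (exp s) x u - bi (exp s) y u) (vb d s * (2 * d * R * exp (-s))) :=
  ⟨1, abs_bi_sub _ _ _, (integrable_bi _ _).sub (integrable_bi _ _), by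
    rw [one_mul]; exact int_bi_sub hd s h⟩

/-- the raw layer function -/
noncomputable def ev (α β : ℝ) (x : E d) (p : ℝ × E d) : ℝ :=
  if α < p.1 ∧ p.1 ≤ β then bi (exp p.1) x p.2 else 0

theorem measurable_ev (α β : ℝ) (x : E d) : Measurable (ev α β x) :=
  Measurable.ite (measurable_fst measurableSet_Ioc) (by fun_prop) measurable_const

theorem ok_ev (α β : ℝ) (x : E d) : Ok (ev α β x) := by
  refine (ok_two (measurable_ev α β x) (α := α) (a := 0) (b := exp (β - α))
    (fun s hs => ?_) fun s hs => ?_).1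
  · simp only [ev, not_lt.2 hs, false_and, if_false]
    exact sl_zero (by simp)
  · by_cases h : s ≤ β
    · simp only [ev, show α < s from hs, h, and_self, if_true]
      refine (sl_bi s x).mono (le_mul_of_one_le_right (vb_pos d s).le ?_)
      rw [← exp_add]
      exact one_le_exp (by linarith)
    · simp only [ev, h, and_false, if_false]
      exact sl_zero (by have := vb_pos d s; positivity)

/-- the layer vector for scales in `(exp α, exp β]` at the point `x` -/
noncomputable def Ev (α β : ℝ) (x : E d) : HH d := vec (ev α β x)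

theorem Ev_add {α β γ : ℝ} (h1 : α ≤ β) (h2 : β ≤ γ) (x : E d) :
    Ev α β x + Ev β γ x = Ev α γ x := by
  unfold Ev
  rw [← vec_add (ok_ev _ _ _) (ok_ev _ _ _)]
  congr 1
  funext p
  unfold ev
  by_cases a : α < p.1 <;> by_cases b : p.1 ≤ β <;> by_cases c : p.1 ≤ γ <;>
    simp [a, b, c, ← not_le] <;> linarith

theorem Ev_self (α : ℝ) (x : E d) : Ev α α x = 0 := by
  simpa using Ev_add (le_refl α) (le_refl α) x

theorem inner_Ev (α β : ℝ) (x y : E d) :
    ⟪Ev α β x, Ev α β y⟫_ℝ = ∫ s in Ioc α β, kap (exp (-s) • (y - x)) := by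
  rw [Ev, Ev, inner_vec' (ok_ev _ _ _) (ok_ev _ _ _), ← integral_indicator measurableSet_Ioc]
  congr 1
  funext s
  by_cases h : α < s ∧ s ≤ β
  · simp only [ev, h, and_self, if_true]
    rw [indicator_of_mem (mem_Ioc.2 h), integral_bi_mul (exp_pos s), exp_neg, ← mul_assoc]
    exact (congrArg (· * _) (inv_mul_cancel₀ (vb_pos d s).ne')).trans (one_mul _)
  · simp only [ev, h, if_false]
    rw [indicator_of_notMem (mt mem_Ioc.1 h)]
    simp

theorem norm_Ev {α β : ℝ} (h : α ≤ β) (x : E d) : ‖Ev α β x‖ ^ 2 ≤ β - α := by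
  rw [← real_inner_self_eq_norm_sq, inner_Ev]
  refine (Real.le_norm_self _).trans ((norm_setIntegral_le_of_norm_le_const (C := 1)
    (f := fun s => kap (exp (-s) • (x - x))) measure_Ioc_lt_top fun s _ => ?_).trans (le_of_eq ?_))
  · rw [Real.norm_of_nonneg (kap_nonneg _)]; exact kap_le_one _
  · simp [h]

theorem norm_Ev_sub (hd : 1 ≤ d) (α β : ℝ) {x y : E d} {R : ℝ} (h : dist x y ≤ R) :
    ‖Ev α β x - Ev α β y‖ ^ 2 ≤ 2 * d * R * exp (-α) := by
  have hR : 0 ≤ R := dist_nonneg.trans h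
  rw [Ev, Ev, ← vec_sub (ok_ev _ _ _) (ok_ev _ _ _), ← zero_add (2 * d * R * exp (-α))]
  refine (ok_two (g := fun p => ev α β x p - ev α β y p)
    ((measurable_ev α β x).sub (measurable_ev α β y)) (α := α)
    (fun s hs => ?_) fun s hs => ?_).2
  · simp only [ev, not_lt.2 hs, false_and, if_false, sub_self]
    exact sl_zero (by simp)
  · by_cases h' : s ≤ β
    · simp only [ev, show α < s from hs, h', and_self, if_true]
      refine (sl_bi_sub hd s h).mono (le_of_eq ?_)
      rw [mul_assoc _ (exp _), ← exp_add]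
      ring_nf
    · simp only [ev, h', and_false, if_false, sub_self]
      exact sl_zero (by have := vb_pos d s; positivity)

theorem inner_Ev_shift {α β : ℝ} (h : α ≤ β) (c : ℝ) (x y z : E d) :
    ⟪Ev (α + c) (β + c) (exp c • x + z), Ev (α + c) (β + c) (exp c • y + z)⟫_ℝ =
      ⟪Ev α β x, Ev α β y⟫_ℝ := by
  rw [inner_Ev, inner_Ev, ← intervalIntegral.integral_of_le h,
    ← intervalIntegral.integral_of_le (by linarith),
    ← intervalIntegral.integral_comp_add_right (fun s => kap (exp (-s) • _))]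
  congr 1
  funext s
  rw [add_sub_add_right_eq_sub, ← smul_sub, smul_smul, ← exp_add]
  ring_nf

theorem inner_Ev_disj {α β α' β' : ℝ} (h : β ≤ α') (x y : E d) :
    ⟪Ev α β x, Ev α' β' y⟫_ℝ = 0 :=
  inner_vec_zero fun p => by
    unfold ev
    split_ifs with h1 h2
    · linarith [h1.2, h2.1]
    all_goals simp

theorem inner_Ev_far {α β : ℝ} {x y : E d} (h : 2 * exp β ≤ dist x y) :
    ⟪Ev α β x, Ev α β y⟫_ℝ = 0 :=
  inner_vec_zero fun p => by
    unfold ev bi
    split_ifs with h1 h2 h3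
    · linarith [dist_triangle_right x y p.2, exp_le_exp.2 h1.2]
    all_goals simp

end Pool.Agent.Lib.MP_a0a493_pr
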